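import Pool.Agent.P.MP_8b7eba_nt.QT.BasY
import Pool.Agent.P.MP_8b7eba_nt.SM.BasH

/-! Quartic Kummer cocycles. -/

namespace Pool.Agent.P.MP_8b7eba_nt.QT

open Finset R2 SM QuadraticAlgebra

variable {δ δ' : Om} {g h : GQ} {a : ℤ} {κ κ' ρ r : GQ → O} {H : Subgroup GQ} {S : Finset ℕ}
  {w : Pl} {p : ℕ} {Δ : Finset ℕ}

/-- locally constant cocycles with values of norm one -/
structure Cr (κ : GQ → O) : Prop where
  co : ∀ g h, κ (g * h) = κ g * cj g (κ h)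
  sm : ∃ N, ON N ∧ ∀ g ∈ N, κ g = 1
  nr : ∀ g, nr (κ g) = 1

theorem cr_one : Cr fun _ => 1 :=
  ⟨fun _ _ => by simp, ⟨⊤, ON.top, fun _ _ => rfl⟩, fun _ => nr_one⟩

theorem Cr.mul (h : Cr κ) (h' : Cr κ') : Cr fun g => κ g * κ' g := by
  refine ⟨fun g k => ?_, ?_, fun g => by rw [nr_mul, h.nr, h'.nr, mul_one]⟩
  · rw [h.co, h'.co, map_mul]; ring
  · obtain ⟨N, a, b⟩ := h.sm
    obtain ⟨N', a', b'⟩ := h'.sm
    exact ⟨_, a.inf a', fun g hg => by rw [b g hg.1, b' g hg.2, mul_one]⟩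

theorem Cr.star (h : Cr κ) : Cr fun g => star (κ g) := by
  refine ⟨fun g k => ?_, ?_, fun g => by rw [nr_star, h.nr]⟩
  · rw [h.co, star_mul', cj_star]
  · obtain ⟨N, a, b⟩ := h.sm
    exact ⟨N, a, fun g hg => by rw [b g hg, star_one]⟩

theorem Cr.prod {ι : Type} {s : Finset ι} {f : ι → GQ → O} (h : ∀ i ∈ s, Cr (f i)) :
    Cr fun g => ∏ i ∈ s, f i g := by
  classical
  induction s using Finset.induction_on with
  | empty => simpa using cr_one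
  | insert i s hi ih =>
    simp only [prod_insert hi]
    exact (h i (mem_insert_self _ _)).mul (ih fun j hj => h j (mem_insert_of_mem hj))

theorem Cr.cn (hκ : Cr κ) (h : GQ) : Cr (cn h κ) := by
  refine ⟨fun g k => ?_, ?_, fun g => hκ.nr _⟩
  · rw [QT.cn, QT.cn, QT.cn, ← cj_conj h g, ← hκ.co]
    congr 1
    group
  · obtain ⟨N, a, b⟩ := hκ.sm
    exact ⟨N, a, fun g hg => b _ (a.1.conj_mem g hg h)⟩

theorem Cr.mul_star (h : Cr κ) (g : GQ) : κ g * Star.star (κ g) = 1 := by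
  rw [mul_star_eq, h.nr, one_smul]

theorem Cr.rd (h : Cr κ) (g : GQ) : rd (κ g) = 1 := by rw [← rd_nr, h.nr, map_one]

theorem Cr.one (h : Cr κ) : κ 1 = 1 := let ⟨N, _, b⟩ := h.sm; b 1 N.one_mem

theorem Cy.mul_cr (hρ : Cy ρ) (h : Cr κ) : Cy fun g => ρ g * κ g := hρ.mul h.co h.sm h.nr

theorem sq_eq_one_iff_of_ne_zero' {u : O} (h : u ^ 2 = 1) : u = 1 ∨ u = -1 :=
  mul_self_eq_one_iff.1 (by rw [← pow_two, h])

open Classical in
theorem Cr.ch (hκ : Cr κ) (h2 : ∀ g ∈ H, κ g ^ 2 = 1) :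
    IsCh H fun g => if κ g = 1 then (0 : F2) else 1 := by
  have ne : (-1 : O) ≠ 1 := fun e => two_ne (by linear_combination -e)
  refine ⟨?_, fun g hg k hk => ?_⟩
  · obtain ⟨N, a, b⟩ := hκ.sm
    exact ⟨N, a, fun g _ k _ m => by simp only [hκ.co, b k m, map_one, mul_one]⟩
  · simp only [hκ.co]
    rcases sq_eq_one_iff_of_ne_zero' (h2 g hg) with e | e <;>
      rcases sq_eq_one_iff_of_ne_zero' (h2 k hk) with e' | e' <;> simp [e, e', ne] <;> rfl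

theorem Cr.conj (hκ : Cr κ) (hh : qz (-1) h = 0) (g : GQ) :
    κ (h * g * h⁻¹) * cj g (κ h) = κ h * κ g := by
  have h1 := hκ.co (h * g * h⁻¹) h
  rw [inv_mul_cancel_right, hκ.co, cj_conj, cj_of hh] at h1
  exact h1.symm

/-! ### The Kummer cocycle -/

theorem I_sq : rt (-1) ^ 2 = -1 := by simpa using rt_sq (-1)

theorem I_prim : IsPrimitiveRoot (rt (-1)) 4 := LA.prim (k := 1) I_sq

theorem gal_I (g : GQ) : g (rt (-1)) = if qz (-1) g = 0 then rt (-1) else -rt (-1) := by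
  split_ifs with e
  · exact (qz_eq_zero (rt_sq _)).1 e
  · refine (sq_eq_sq_iff_eq_or_eq_neg.1 ?_).resolve_left fun e' => e ((qz_eq_zero (rt_sq _)).2 e')
    rw [← map_pow, I_sq, map_neg, map_one]

theorem ii_of_I {e f : ℕ} (h : rt (-1) ^ e = rt (-1) ^ f) : ii ^ e = ii ^ f := by
  have h1 := I_prim.pow_inj (Nat.mod_lt e four_pos) (Nat.mod_lt f four_pos) (by
    rwa [← pow_eq_pow_mod _ I_prim.pow_eq_one, ← pow_eq_pow_mod _ I_prim.pow_eq_one])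
  rw [pow_eq_pow_mod e ii_four, h1, ← pow_eq_pow_mod f ii_four]

theorem ke_spec (h4 : Fix ⊤ (δ ^ 4)) (g : GQ) : g δ = rt (-1) ^ (ke δ g : ℕ) * δ := by
  unfold ke
  split_ifs with h1 h2 h3
  · simpa using h1
  · simpa using h2
  · rw [h3, show ((2 : Fin 4) : ℕ) = 2 from rfl, I_sq, neg_one_mul]
  · have h5 := h4 g trivial
    rw [map_pow] at h5
    have h6 : (g δ - δ) * (g δ - rt (-1) * δ) * (g δ - -δ) * (g δ - rt (-1) ^ 3 * δ) = 0 := by
      linear_combination h5 + (-(g δ ^ 3 * δ * rt (-1)) + g δ * δ ^ 3 * rt (-1) +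
        (g δ ^ 2 * δ ^ 2 - δ ^ 4) * (rt (-1) ^ 2 - 1)) * I_sq
    simp only [mul_eq_zero, sub_eq_zero, h1, h2, h3, false_or] at h6
    exact h6

theorem kd_of (h0 : δ ≠ 0) (h4 : Fix ⊤ (δ ^ 4)) {e : ℕ} (h : g δ = rt (-1) ^ e * δ) :
    kd δ g = ii ^ e := ii_of_I (mul_right_cancel₀ h0 ((ke_spec h4 g).symm.trans h))

theorem kd_fix (h : g δ = δ) : kd δ g = 1 := by simp [kd, ke, h]

theorem cr_kd (h0 : δ ≠ 0) (h4 : Fix ⊤ (δ ^ 4)) : Cr (kd δ) := by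
  refine ⟨fun g h => ?_, ?_, fun g => ?_⟩
  · have e := ke_spec h4 (g * h)
    rw [AlgEquiv.mul_apply, ke_spec h4 h, map_mul, map_pow, ke_spec h4 g, gal_I] at e
    rcases f2 (qz (-1) g) with s | s
    · rw [if_pos s, ← mul_assoc, ← pow_add] at e
      rw [cj_of s, kd, ← ii_of_I (mul_right_cancel₀ h0 e), pow_add, mul_comm]
      rfl
    · rw [if_neg (s ▸ one_ne_zero), show -rt (-1) = rt (-1) ^ 3 by
        linear_combination -rt (-1) * I_sq, ← pow_mul, ← mul_assoc, ← pow_add] at e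
      rw [cj, s, cs_one, kd, ← ii_of_I (mul_right_cancel₀ h0 e), pow_add, mul_comm, kd, kd,
        star_pow, star_ii, pow_mul, show -ii = ii ^ 3 by linear_combination -ii * ii_sq]
  · obtain ⟨N, a, b⟩ := exists_ON_fix {δ}
    exact ⟨N, a, fun g hg => kd_fix (b δ (mem_singleton_self δ) g hg)⟩
  · rw [kd]
    induction (ke δ g : ℕ) with
    | zero => exact nr_one
    | succ j ih => rw [pow_succ, nr_mul, ih]; simp [nr]

theorem kd_mul (h0 : δ ≠ 0) (h4 : Fix ⊤ (δ ^ 4)) (h0' : δ' ≠ 0) (h4' : Fix ⊤ (δ' ^ 4)) (g : GQ) :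
    kd (δ * δ') g = kd δ g * kd δ' g := by
  rw [kd_of (mul_ne_zero h0 h0') (by rw [mul_pow]; exact h4.mul h4') (e := ke δ g + ke δ' g)
    (by rw [map_mul, ke_spec h4, ke_spec h4', pow_add]; ring), pow_add]
  rfl

theorem r4_pow (a : ℤ) : r4 a ^ 4 = a :=
  Classical.epsilon_spec (p := fun δ : Om => δ ^ 4 = a) (exists_root _ four_ne_zero)

theorem r4_fix (a : ℤ) : Fix ⊤ (r4 a ^ 4) := r4_pow a ▸ fix_int a

theorem r4_ne (ha : a ≠ 0) : r4 a ≠ 0 := fun e => ha (by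
  have := r4_pow a
  rw [e, zero_pow four_ne_zero] at this
  exact_mod_cast this.symm)

theorem cr_kq (ha : a ≠ 0) : Cr (kq a) := cr_kd (r4_ne ha) (r4_fix a)

theorem ke_qz (ha : a ≠ 0) (g : GQ) : ((ke (r4 a) g : ℕ) : F2) = qz a g := by
  have h1 : (r4 a ^ 2) ^ 2 = a := by rw [← pow_mul]; exact r4_pow a
  have h2 : g (r4 a ^ 2) = (-1) ^ (ke (r4 a) g : ℕ) * r4 a ^ 2 := by
    rw [map_pow, ke_spec (r4_fix a), mul_pow, ← pow_mul, mul_comm _ 2, pow_mul, I_sq]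
  have h3 := pow_ne_zero 2 (r4_ne ha)
  refine LA.ext ?_
  rw [qz_eq_zero h1, h2, ZMod.natCast_eq_zero_iff_even]
  refine ⟨fun e => by rw [e.neg_one_pow, one_mul], fun e => by_contra fun e' => ?_⟩
  rw [(Nat.not_even_iff_odd.1 e').neg_one_pow, neg_one_mul] at e
  exact h3 (self_eq_neg.1 e.symm)

theorem im_kq (ha : a ≠ 0) (g : GQ) : (PadicInt.toZMod (kq a g).im : F2) = qz a g :=
  (im_ii_pow _).trans (ke_qz ha g)

theorem kq_sq (ha : a ≠ 0) (g : GQ) : kq a g ^ 2 = sg (qz a g) • (1 : O) := by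
  rw [kq, kd, ← pow_mul, mul_comm, pow_mul, ii_sq, ← ke_qz ha, sg, ZMod.val_natCast,
    ← neg_one_pow_eq_pow_mod_two, smul_eq, map_pow, map_neg, map_one, mul_one]

theorem ps_ne (hp : Gp p) : ps p ≠ 0 := fun e => by
  simpa [e] using (ps_mod hp.ne.2.2.2.2.1).1

theorem cr_chq (hS : ∀ p ∈ S, Gp p) : Cr fun g => ∏ p ∈ S, kq (ps p) g :=
  Cr.prod fun p hp => cr_kq (ps_ne (hS p hp))

theorem Cy.tw (hr : Cy r) (hS : ∀ p ∈ S, Gp p) : Cy (tw r S) := hr.mul_cr (cr_chq hS)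

theorem tw_insert (hp : p ∉ S) (r : GQ → O) (g : GQ) :
    tw r (insert p S) g = kq (ps p) g * tw r S g := by
  rw [tw, tw, prod_insert hp]; ring

theorem Cy.cb_tw (hr : Cy r) (hS : ∀ p ∈ S, Gp p) : cb (QT.tw r S) = cb r + chi S := by
  classical
  induction S using Finset.induction_on with
  | empty => funext g; simp [cb, QT.tw, chi]
  | insert p S hp ih =>
    have h1 := fun q hq => hS q (mem_insert_of_mem hq)
    have h2 := ps_ne (hS p (mem_insert_self ..))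
    funext g
    have h3 := congrFun (ih h1) g
    rw [cb, tw_insert hp, im_mul_unit ((cr_kq h2).rd g) ((hr.tw h1).rd g), im_kq h2, add_assoc,
      ← cb, h3, chi, chi, sum_insert hp]
    simp only [Pi.add_apply, qs]
    ring

section

variable {ι : Type} {M : ℕ} {q : ι → Fin (M + 1) → ℕ} {i : ι} {j : Fin (M + 1)}

theorem cr_kr (hq : ∀ j, Gp (q i j)) (j : Fin (M + 1)) : Cr (kr q i j) :=
  (cr_kq (ps_ne (hq j))).mul (cr_kq (ps_ne (hq 0))).star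

theorem kr_zero (hq : Gp (q i 0)) (g : GQ) : kr q i 0 g = 1 := (cr_kq (ps_ne hq)).mul_star g

theorem kq_eq (hq : Gp (q i 0)) (j : Fin (M + 1)) (g : GQ) :
    kq (ps (q i j)) g = kr q i j g * kq (ps (q i 0)) g := by
  rw [kr, mul_assoc, mul_comm (star _), (cr_kq (ps_ne hq)).mul_star, mul_one]

theorem kr_of (hq : Gp (q i 0)) (h : kq (ps (q i j)) g = kq (ps (q i 0)) g) : kr q i j g = 1 := by
  rw [kr, h, (cr_kq (ps_ne hq)).mul_star]

theorem kr_sq (hq : ∀ j, Gp (q i j)) (j : Fin (M + 1)) (g : GQ) :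
    kr q i j g ^ 2 = sg (aa q i j g) • (1 : O) := by
  rw [kr, mul_pow, ← star_pow, kq_sq (ps_ne (hq j)), kq_sq (ps_ne (hq 0)), star_smul', star_one,
    smul_mul_smul_comm, mul_one, ← sg_add]
  rfl

theorem kr_eq (hq : ∀ j, Gp (q i j)) (j : Fin (M + 1)) (g : GQ) :
    ∃ α, kr q i j g = 1 + om * α ∧ rd α = aa q i j g := by
  obtain ⟨α, h1, h2⟩ := rd_im ((cr_kr hq j).rd g)
  refine ⟨α, by linear_combination h1, ?_⟩
  rw [h2, kr, im_mul_unit ((cr_kq (ps_ne (hq j))).rd g) ((cr_kq (ps_ne (hq 0))).star.rd g),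
    ← cs_one, im_cs, im_kq (ps_ne (hq j)), im_kq (ps_ne (hq 0))]
  rfl

end

variable [HA]

theorem eps_I (h2 : w.p ≠ 2) (hg : g ∈ w.I) : qz (-1) g = 0 :=
  qz_I hA (fun e => h2 ((Nat.prime_dvd_prime_iff_eq w.prime Nat.prime_two).1
    (by rw [Int.natCast_dvd] at e; exact e))) hg

theorem eps_tp (hp : p.Prime) (h2 : p ≠ 2) : qz (-1) (tp p) = 0 :=
  eps_I (by rwa [pl_p hp]) (tp_I hp h2)

theorem eps_tau : qz (-1) tau = 1 :=
  BasG.one_of_ne fun e => absurd ((qz_tau hA.tau (by norm_num)).1 e) (by norm_num)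

theorem eps_fr (hp : p.Prime) (h3 : p % 4 = 3) : qz (-1) (fr p) = 1 := by
  have o : Odd p := Nat.odd_iff.2 (by omega)
  rw [qz_fr hp fun e => ?_, BasG.js_neg_one o, if_neg (by omega)]
  rw [Int.natCast_dvd] at e
  have := (Nat.prime_dvd_prime_iff_eq hp Nat.prime_two).1 e
  omega

theorem kq_I (h : ¬ (w.p : ℤ) ∣ 2 * a) (hg : g ∈ w.I) : kq a g = 1 := by
  obtain ⟨h2, h3⟩ := LA.two h
  refine kd_fix ((hA.tame w w.D w.p h2 w.loc_D ?_).2.1 g hg 2 _ ?_ ((r4_fix a).mono le_top))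
  · rw [inf_of_le_left w.I_le_D]
    exact (hA.res w w.D w.loc_D).2.2.2.2.1
  · have h4 := congrArg w.v (r4_pow a)
    rw [map_pow, Pl.v_int_eq_one.2 h3] at h4
    exact (pow_eq_one_iff_of_nonneg zero_le four_ne_zero).1 h4

theorem kq_ps_I {q : ℕ} (hq : q.Prime) (h2 : w.p ≠ 2) (h : w.p ≠ q) (hg : g ∈ w.I) :
    kq (ps q) g = 1 := kq_I (BasG.not_dvd w.prime hq h2 h) hg

theorem Bs.shn (hr : Bs Δ r) (j : ℕ) : Bs Δ (shn j r) :=
  ⟨hr.toCy.shn j, fun w hw a g hg => by rw [shn_of (bs_I hw hg 0), hr.unr w hw a g hg]⟩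

theorem Bs.ty (hr : Bs Δ r) (b : Bool) : Bs Δ (ty b r) := hr.shn _

theorem Bs.tw (hr : Bs Δ r) (hΔ : Δ ⊆ S) (hS : ∀ p ∈ S, Gp p) : Tw (tw r S) S := by
  refine ⟨hr.toCy.tw hS, hS, fun w a b g hg => ?_⟩
  rw [QT.tw, hr.unr w a (fun c => b (hΔ c)) g hg, one_mul]
  exact prod_eq_one fun q hq => kq_ps_I (hS q hq).1 (fun e => a (by rw [e]; norm_num))
    (fun e => b (e ▸ hq)) hg

theorem Bs.ram (hr : Bs Δ r) (hS : ∀ p ∈ S, Gp p) (hp : p ∈ S) (hΔ : p ∉ Δ) :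
    QT.tw r S (tp p) ^ 2 = -1 := by
  have h1 := hS p hp
  have e := pl_p h1.1
  rw [QT.tw, hr.unr (pl p) (by rw [e]; exact h1.2) (by rwa [e]) _ (tp_I h1.1 h1.ne.1), one_mul,
    prod_eq_single_of_mem p hp fun q hq hne => kq_ps_I (hS q hq).1 (by rw [e]; exact h1.ne.1)
      (by rw [e]; exact hne.symm) (tp_I h1.1 h1.ne.1), kq_sq (ps_ne h1)]
  rw [show qz (ps p) (tp p) = 1 from qs_tp_self h1.1 h1.ne.1]
  simp [sg, ZMod.val_one]

theorem Tw.shn (hρ : Tw ρ S) (j : ℕ) : Tw (shn j ρ) S :=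
  ⟨hρ.toCy.shn j, hρ.gp, fun w a b g hg => by rw [shn_of (bs_I a hg 0), hρ.unr w a b g hg]⟩

theorem Tw.ty (hρ : Tw ρ S) (b : Bool) : Tw (ty b ρ) S := hρ.shn _

end Pool.Agent.P.MP_8b7eba_nt.QT
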