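import Pool.Agent.P.MP_8b7eba_nt.QT.BasZ
import Pool.Agent.P.MP_8b7eba_nt.QT.BasK

/-! Selmer cocycles. -/

namespace Pool.Agent.P.MP_8b7eba_nt.QT

open Finset R2 SM

variable {n m j p : ℕ} {ρ ρ' r : GQ → O} {x x' y : GQ → O} {S Δ : Finset ℕ} {g : GQ} {w : Pl}
  {φ φ' c : GQ → F2} {o : Bool} {α : O} {H : Subgroup GQ}

theorem exists_hb (hρ : Cy ρ) {v : O} (hv : Dv 1 v) :
    ∃ b : GQ → O, (∀ g, 2 * b g = bd ρ v g) ∧ ∀ o H, Ex o ρ H b := by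
  choose b hb using fun g => (dv_two (n := 1)).1 (hρ.dv_bd hv g)
  refine ⟨b, fun g => ?_, fun o H => ex_of_bd hρ (e := 1) (v := v) fun g _ => (hb g).symm⟩
  rw [hb g, pow_one]

theorem Zu.mono (h : Zu ρ S n x) (hm : m ≤ n) : Zu ρ S m x :=
  ⟨h.zn.mono le_rfl hm, fun w a b g hg => (h.unr w a b g hg).mono hm⟩

theorem Zu.congr (h : Zu ρ S n x) (e : ∀ g, Dv n (x' g - x g)) : Zu ρ S n x' :=
  ⟨h.zn.congr fun g _ => e g, fun w a b g hg => by simpa using (e g).add (h.unr w a b g hg)⟩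

theorem Zu.add (h : Zu ρ S n x) (h' : Zu ρ S n y) : Zu ρ S n fun g => x g + y g :=
  ⟨h.zn.add h'.zn, fun w a b g hg => (h.unr w a b g hg).add (h'.unr w a b g hg)⟩

theorem Zu.smul (h : Zu ρ S n x) (c : Z2) : Zu ρ S n fun g => c • x g :=
  ⟨h.zn.smul c, fun w a b g hg => (h.unr w a b g hg).smul c⟩

theorem zu_pow (hr : Rl α ρ ρ') (hα : Al j α) (e : ∀ g, x g = α * y g) :
    Zu ρ S (j + n) x ↔ Zu ρ' S n y :=
  ⟨fun h => ⟨(zn_pow hr hα fun g _ => e g).1 h.zn,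
      fun w a b g hg => hα.dv_mul.1 (e g ▸ h.unr w a b g hg)⟩,
    fun h => ⟨(zn_pow hr hα fun g _ => e g).2 h.zn,
      fun w a b g hg => e g ▸ hα.dv_mul.2 (h.unr w a b g hg)⟩⟩

theorem Gy.mono (h : Gy o ρ S n x) (hm : m ≤ n) : Gy o ρ S m x := ⟨h.toZu.mono hm, h.inf.mono hm⟩

theorem Wn.mono (h : Wn o ρ S n x) (hm : m ≤ n) : Wn o ρ S m x :=
  ⟨h.toGy.mono hm, fun p hp => (h.loc p hp).mono hm⟩

theorem Wn.congr (h : Wn o ρ S n x) (e : ∀ g, Dv n (x' g - x g)) : Wn o ρ S n x' :=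
  ⟨⟨h.toZu.congr e, h.inf.congr fun g _ => e g⟩, fun p hp => (h.loc p hp).congr fun g _ => e g⟩

theorem Wn.add (h : Wn o ρ S n x) (h' : Wn o ρ S n y) : Wn o ρ S n fun g => x g + y g :=
  ⟨⟨h.toZu.add h'.toZu, h.inf.add h'.inf⟩, fun p hp => (h.loc p hp).add (h'.loc p hp)⟩

theorem Wn.smul (h : Wn o ρ S n x) (c : Z2) : Wn o ρ S n fun g => c • x g :=
  ⟨⟨h.toZu.smul c, h.inf.smul c⟩, fun p hp => (h.loc p hp).smul c⟩

theorem Wn.sub (h : Wn o ρ S n x) (h' : Wn o ρ S n y) : Wn o ρ S n fun g => x g - y g := by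
  simpa [sub_eq_add_neg] using h.add (h'.smul (-1))

theorem Wn.relax (h : Wn o ρ S n x) : Wn true ρ S n x :=
  ⟨⟨h.toZu, h.inf.relax⟩, fun p hp => (h.loc p hp).relax⟩

theorem wn_pow (hr : Rl α ρ ρ') (hα : Al j α) (e : ∀ g, x g = α * y g) :
    Wn o ρ S (j + n) x ↔ Wn o ρ' S n y :=
  ⟨fun h => ⟨⟨(zu_pow hr hα e).1 h.toZu, (lc_pow hr hα fun g _ => e g).1 h.inf⟩,
      fun p hp => (lc_pow hr hα fun g _ => e g).1 (h.loc p hp)⟩,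
    fun h => ⟨⟨(zu_pow hr hα e).2 h.toZu, (lc_pow hr hα fun g _ => e g).2 h.inf⟩,
      fun p hp => (lc_pow hr hα fun g _ => e g).2 (h.loc p hp)⟩⟩

theorem WK.mono (h : WK o ρ S n φ) (hm : m ≤ n) : WK o ρ S m φ :=
  let ⟨x, hx, e⟩ := h; ⟨x, hx.mono hm, e⟩

theorem Se1.add (h : Se1 Δ c S φ) (h' : Se1 Δ c S φ') : Se1 Δ c S fun g => φ g + φ' g := by
  refine ⟨h.ch.add h'.ch, fun w a b g hg => ?_, fun p hp hΔ => ?_⟩
  · rw [h.unr w a b g hg, h'.unr w a b g hg, add_zero]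
  · rw [h.loc p hp hΔ, h'.loc p hp hΔ, mul_add]

theorem ld_of_lc (hρ : Cy ρ) (hy : Zn ρ H (n + 1) y) (h : Lc o ρ H n y) :
    ∃ l : GQ → F2, IsCh H l ∧ Lc o ρ H (n + 1) fun g => y g - om ^ n * lf (l g) := by
  obtain ⟨b, hb, e⟩ := h
  choose! u hu using fun g hg => dv_iff.1 (e g hg)
  exact ⟨fun g => rd (u g), (hy.sub (hb.1 _)).isCh_pow hρ hu, b, hb,
    fun g hg => of_eq (dv_lf.2 ⟨u g, hu g hg, rfl⟩) (sub_right_comm ..)⟩

variable [HA]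

theorem Zn.zero_I (hρ : Cy ρ) (hp : p.Prime) (h2 : p ≠ 2) (hx : Zn ρ (pl p).I n x)
    (h0 : Dv n (x (tp p))) (hg : g ∈ (pl p).I) : Dv n (x g) :=
  hx.zero_of hρ {tp p} (fun φ hφ h g hg => by rw [ch_I hp h2 hφ hg, h _ rfl, smul_zero])
    (fun g hg => by rw [hg]; exact h0) hg

theorem Zn.zero_D (hρ : Cy ρ) (hp : p.Prime) (h2 : p ≠ 2) (hx : Zn ρ (pl p).D n x)
    (h0 : Dv n (x (tp p))) (h1 : Dv n (x (fr p))) (hg : g ∈ (pl p).D) : Dv n (x g) :=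
  hx.zero_of hρ {tp p, fr p}
    (fun φ hφ h g hg => ch_D hp h2 hφ (h _ (Or.inl rfl)) (h _ (Or.inr rfl)) hg)
    (fun g hg => by
      rcases hg with rfl | rfl
      · exact h0
      · exact h1) hg

theorem Zn.unr (hρ : Cy ρ) (h2 : w.p ≠ 2) (hx : Zn ρ ⊤ n x) (h0 : Dv n (x (tp w.p)))
    (hg : g ∈ w.I) (h1 : ρ g = 1) : Dv n (x g) := by
  obtain ⟨σ, hσ⟩ := exists_smul w
  have h5 : σ⁻¹ * g * σ ∈ (pl w.p).I := Pl.mem_I_smul.1 (by rw [hσ]; exact hg)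
  have h3 := (hx.res _).zero_I hρ w.prime h2 h0 h5
  have h4 := hx.conj (Subgroup.mem_top σ) (Subgroup.mem_top (σ⁻¹ * g * σ))
  have e : σ * (σ⁻¹ * g * σ) * σ⁻¹ = g := by group
  rw [e, ac_of h1 (eps_I h2 hg)] at h4
  exact of_eq (h4.add (h3.ac ρ σ)) (by ring)

theorem bd_tp (hp : p.Prime) (h2 : p ≠ 2) (hu : ρ (tp p) ^ 2 = -1) (b : O) :
    bd ρ ((1 + ρ (tp p)) * b) (tp p) = -2 * b := by
  rw [bd, ac, cj_of (eps_tp hp h2)]
  linear_combination b * hu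

theorem lc_iff (hρ : Cy ρ) (hp : p.Prime) (h2 : p ≠ 2) (hu : ρ (tp p) ^ 2 = -1)
    (hx : Zn ρ (pl p).D n x) : Lc o ρ (pl p).D n x ↔
      Dv (n + 2) (fq (qz (-1) (fr p)) (ρ (fr p)) (ρ (tp p)) (x (fr p)) (x (tp p))) := by
  have hf := fr_D hp h2
  have ht := tp_D hp h2
  constructor
  · rintro ⟨b, ⟨hb, -⟩, e⟩
    have h3 : ∀ k, Zn ρ (pl p).D k fun g => 2 ^ 1 * b g + bd ρ ((1 + ρ (tp p)) * b (tp p)) g :=
      fun k => (((hb k).two 1).mono le_rfl (by omega)).add (zn_bd hρ _)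
    have h4 : 2 ^ 1 * b (tp p) + bd ρ ((1 + ρ (tp p)) * b (tp p)) (tp p) = 0 := by
      rw [bd_tp hp h2 hu]; ring
    have hi := Pl.conj_mem_I hf (tp_I hp h2)
    have h5 : fq (qz (-1) (fr p)) (ρ (fr p)) (ρ (tp p)) (b (fr p)) (b (tp p)) = 0 := by
      have h6 : (1 - cj (fr p) (ρ (tp p))) *
          (2 ^ 1 * b (fr p) + bd ρ ((1 + ρ (tp p)) * b (tp p)) (fr p)) = 0 := by
        refine eq_zero_of_dv fun k => ?_
        have h7 := ((h3 k).mono (pl p).I_le_D le_rfl).zero_I hρ hp h2 (of_eq dv_zero h4) hi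
        have h8 := (h3 k).conj hf ht
        rw [h4, ac_zero, ac, hρ.conj (eps_tp hp h2), cj_conj, cj_of (eps_tp hp h2)] at h8
        exact of_eq (h7.sub h8) (by ring)
      refine Eq.trans ?_ ((mul_eq_zero.1 h6).resolve_left fun e' => two_ne ?_)
      · rw [fq, bd, ac, cj]; ring
      · have h9 := congrArg (cj (fr p)) hu
        rw [map_pow, ← sub_eq_zero.1 e', map_neg, map_one] at h9
        linear_combination h9
    have h6 := fq_congr (hρ.rd (fr p)) (hρ.rd (tp p)) (e _ hf) (e _ ht) (qz (-1) (fr p))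
    rwa [h5, sub_zero] at h6
  · intro h
    obtain ⟨b, h3, h4⟩ := exists_hb hρ ((dv_one_add (hρ.rd (tp p))).mul_right (x (tp p)))
    have h5 : x (tp p) + b (tp p) = 0 := mul_left_cancel₀ two_ne (by
      rw [mul_add, h3, bd_tp hp h2 hu]; ring)
    have h6 : Dv n (x (fr p) + b (fr p)) := by
      rw [← (al_two 1).dv_mul, add_comm, pow_one, mul_add, h3]
      exact of_eq h (by rw [fq, bd, ac, cj]; ring)
    have h0 : ∀ g ∈ (pl p).D, Dv n (x g + b g) := fun g hg =>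
      (hx.add ((h4 o _).1 n)).zero_D hρ hp h2 (of_eq dv_zero h5) h6 hg
    exact ((lc_of_dv h0).sub ((h4 o _).lc n)).congr fun g _ => of_eq dv_zero (by ring)

theorem Wn.locp (hr : Bs Δ r) (hS : ∀ p ∈ S, Gp p) (h : Wn o (tw r S) S n x) (hp : p ∈ S)
    (hΔ : p ∉ Δ) : Dv (n + 2) (fq (qz (-1) (fr p)) (tw r S (fr p)) (tw r S (tp p)) (x (fr p))
      (x (tp p))) :=
  (lc_iff (hr.toCy.tw hS) (hS p hp).1 (hS p hp).ne.1 (hr.ram hS hp hΔ) (h.zn.res _)).1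
    (h.loc p (mem_union_left _ hp))

theorem lc_se (hr : Bs Δ r) (hS : ∀ p ∈ S, Gp p) (hp : p ∈ S) (hΔ : p ∉ Δ)
    (h : Lc o (tw r S) (pl p).D (n + 1) x) :
    rd (x (fr p)) = (cb r (fr p) + chi S (fr p)) * rd (x (tp p)) := by
  have h1 := (lc_iff (hr.toCy.tw hS) (hS p hp).1 (hS p hp).ne.1 (hr.ram hS hp hΔ) h.zn).1 h
  rw [fq_se ((hr.toCy.tw hS).rd _) (hr.ram hS hp hΔ) (h1.mono (by omega))]
  exact congrArg (· * _) (congrFun (hr.toCy.cb_tw hS) (fr p))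

theorem Wn.se (hr : Bs Δ r) (hS : ∀ p ∈ S, Gp p) (h : Wn o (tw r S) S (n + 1) x) :
    Se1 Δ (cb r) S fun g => rd (x g) :=
  ⟨h.zn.isCh (hr.toCy.tw hS),
    fun w a b g hg => rd_eq_zero.2 ((h.unr w a b g hg).mono (by omega)),
    fun p hp hΔ => lc_se hr hS hp hΔ (h.loc p (mem_union_left _ hp))⟩

theorem WK.se (hr : Bs Δ r) (hS : ∀ p ∈ S, Gp p) (h : WK o (tw r S) S (n + 1) φ) :
    Se1 Δ (cb r) S φ := by
  obtain ⟨x, hx, e⟩ := h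
  rw [← funext e]
  exact hx.se hr hS

theorem Bs.cb_I (hr : Bs Δ r) (h : ¬ w.p ∣ 30) (h' : w.p ∉ Δ) (hg : g ∈ w.I) : cb r g = 0 :=
  cb_of (hr.unr w h h' g hg) (bs_I h hg 0)

end Pool.Agent.P.MP_8b7eba_nt.QT
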