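import Pool.Agent.P.MP_8b7eba_nt.SM.DefD

/-! The 2-adic Gaussian integers and functions on grids. -/

namespace Pool.Agent.P.MP_8b7eba_nt.QT

open Finset SM

noncomputable section

/-- the 2-adic Gaussian integers -/
abbrev O : Type := QuadraticAlgebra Z2 (-1) 0

/-- the square root of `-1` -/
def ii : O := ⟨0, 1⟩

/-- the uniformiser `1 + i` -/
def om : O := ⟨1, 1⟩

/-- the identity or the conjugation -/
def cs (s : F2) : O →+* O := if s = 0 then RingHom.id O else starRingEnd O

/-- the norm -/
def nr (a : O) : Z2 := a.re ^ 2 + a.im ^ 2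

/-- divisibility by the `n`-th power of the uniformiser -/
def Dv (n : ℕ) (a : O) : Prop := om ^ n ∣ a

/-- elements of valuation `n` -/
def Al (n : ℕ) (a : O) : Prop := Associated a (om ^ n)

/-- the reduction to the residue field -/
def rd (a : O) : F2 := PadicInt.toZMod (a.re + a.im)

/-- the lift of a bit -/
def lf (s : F2) : O := (s.val : O)

/-- the bit of a boolean -/
def bt (β : Bool) : F2 := if β then 1 else 0

/-- the local condition at a ramified prime -/
def fq (s : F2) (f u a b : O) : O := 2 * a + f * cs s ((1 + u) * b) - (1 + u) * b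

/-- the types `a`, `b` are dual at level `k + 1` -/
def Par (k : ℕ) (a b : Bool) : Prop := a = b ↔ Odd k

/-- the ring generated by the multiples of the functions of one coordinate -/
def LamO (k M : ℕ) : Subalgebra O (Gz k M → O) :=
  Algebra.adjoin O {f | ∃ i j, f = fun z => if z i = j then om else 0}

/-- the maximal ideal of `LamO` -/
def MxO {k M : ℕ} (f : Gz k M → O) : Prop := f ∈ LamO k M ∧ ∀ z, Dv 1 (f z)

/-- orthogonality modulo the `n`-th power of the uniformiser -/
def PeO {Z : Type} [Fintype Z] (n : ℕ) (c : Z → Z2) (f : Z → O) : Prop := Dv n (∑ z, c z • f z)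

/-- the governing function -/
def mmO {k M : ℕ} (γ : Fin (M + 1) → Mu k M → F2) (z : Gz k M) : O :=
  ∑ U : Finset (Fin k), if ∀ i ∈ U, z (some i) ≠ 0 then
    om ^ U.card * lf (γ (z none) (ers (fun i => z (some i)) Uᶜ)) else 0

/-- the functions in `Ξ` are orthogonal to the vectors which kill the multiples of `1` and `Θ` -/
def Gen {k M : ℕ} (n : ℕ) (Y : Gz k M → Prop) (Θ Ξ : Set (Gz k M → O)) : Prop :=
  ∀ c : Gz k M → Z2, (∀ z, c z ≠ 0 → Y z) → (∀ l ∈ LamO k M, PeO n c l) →
    (∀ l ∈ LamO k M, ∀ θ ∈ Θ, PeO n c (l * θ)) → ∀ ξ ∈ Ξ, PeO n c ξ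

end

end Pool.Agent.P.MP_8b7eba_nt.QT
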