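import Pool.Agent.P.MP_8b7eba_nt.SM.BasY
import Pool.Agent.P.MP_8b7eba_nt.QT.DefO

/-! Arithmetic of the 2-adic Gaussian integers. -/

namespace Pool.Agent.P.MP_8b7eba_nt.QT

open Finset SM QuadraticAlgebra

variable {n m j : ℕ} {a b u v α : O} {s t : F2}

theorem f2 (s : F2) : s = 0 ∨ s = 1 := by revert s; decide

@[simp] theorem ii_re : ii.re = 0 := rfl
@[simp] theorem ii_im : ii.im = 1 := rfl
@[simp] theorem om_re : om.re = 1 := rfl
@[simp] theorem om_im : om.im = 1 := rfl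
@[simp] theorem two_re : (2 : O).re = 2 := rfl
@[simp] theorem two_im : (2 : O).im = 0 := rfl

theorem ii_sq : ii ^ 2 = -1 := by ext <;> simp [sq]

theorem ii_four : ii ^ 4 = 1 := by rw [show 4 = 2 * 2 from rfl, pow_mul, ii_sq]; simp

theorem om_eq : om = 1 + ii := by ext <;> simp

theorem om_sq : om ^ 2 = 2 * ii := by ext <;> simp [sq]; norm_num

theorem star_ii : star ii = -ii := by ext <;> simp

theorem star_om : star om = -ii * om := by ext <;> simp

theorem om_mul_star : om * star om = 2 := by ext <;> simp; norm_num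

theorem smul_eq (c : Z2) (a : O) : c • a = algebraMap Z2 O c * a := Algebra.smul_def c a

theorem star_smul' (c : Z2) (a : O) : star (c • a) = c • star a := by ext <;> simp

theorem two_smul_eq (n : ℕ) (a : O) : (2 : Z2) ^ n • a = 2 ^ n * a := by
  rw [smul_eq, map_pow, map_ofNat]

theorem nr_mul (a b : O) : nr (a * b) = nr a * nr b := by simp [nr]; ring

theorem nr_one : nr 1 = 1 := by simp [nr]

theorem nr_star (a : O) : nr (star a) = nr a := by simp [nr]

theorem mul_star_eq (a : O) : a * star a = nr a • (1 : O) := by ext <;> simp [nr] <;> ring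

theorem unit_ii : IsUnit ii := IsUnit.of_mul_eq_one (ii ^ 3) (by rw [← pow_succ', ii_four])

theorem sq_ne (x : Z2) : x ^ 2 ≠ -1 := fun h => by
  have h1 := congrArg (PadicInt.toZModPow 2) h
  rw [map_pow, map_neg, map_one] at h1
  revert h1
  generalize PadicInt.toZModPow 2 x = y
  revert y
  decide

theorem nr_eq_zero : nr a = 0 ↔ a = 0 := by
  refine ⟨fun h => ?_, fun h => by simp [h, nr]⟩
  have key : ∀ x y : Z2, x ^ 2 + y ^ 2 = 0 → y ∣ x → y = 0 := by
    rintro _ y h ⟨c, rfl⟩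
    by_contra h0
    exact sq_ne c (mul_left_cancel₀ (pow_ne_zero 2 h0) (by linear_combination h))
  have key2 : ∀ x y : Z2, x ^ 2 + y ^ 2 = 0 → y = 0 := fun x y h => by
    rcases ValuationRing.dvd_total x y with e | e
    · have := key y x (by linear_combination h) e
      simpa [this] using h
    · exact key x y h e
  ext
  · exact key2 a.im a.re (by rw [add_comm]; exact h)
  · exact key2 a.re a.im h

instance : NoZeroDivisors O := ⟨fun h => by
  rw [← nr_eq_zero, nr_mul, mul_eq_zero, nr_eq_zero, nr_eq_zero] at h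
  exact h⟩

instance : IsDomain O := NoZeroDivisors.to_isDomain O

theorem om_ne : om ≠ 0 := fun h => by simpa using congrArg QuadraticAlgebra.re h

theorem two_ne : (2 : O) ≠ 0 := fun h => by simpa using congrArg QuadraticAlgebra.re h

/-! ### Divisibility -/

theorem of_eq (h : Dv n u) (e : v = u) : Dv n v := e ▸ h

theorem Dv.add (h : Dv n u) (h' : Dv n v) : Dv n (u + v) := dvd_add h h'

theorem Dv.sub (h : Dv n u) (h' : Dv n v) : Dv n (u - v) := dvd_sub h h'

theorem Dv.neg (h : Dv n u) : Dv n (-u) := Dvd.dvd.neg_right h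

theorem Dv.symm (h : Dv n (u - v)) : Dv n (v - u) := of_eq h.neg (neg_sub _ _).symm

theorem Dv.trans (h : Dv n (a - u)) (h' : Dv n (u - v)) : Dv n (a - v) :=
  of_eq (h.add h') (sub_add_sub_cancel _ _ _).symm

theorem Dv.mul_left (h : Dv n u) (c : O) : Dv n (c * u) := Dvd.dvd.mul_left h c

theorem Dv.mul_right (h : Dv n u) (c : O) : Dv n (u * c) := Dvd.dvd.mul_right h c

theorem Dv.smul (h : Dv n u) (c : Z2) : Dv n (c • u) := of_eq (h.mul_left _) (smul_eq c u)

theorem Dv.mono (h : Dv n u) (h' : m ≤ n) : Dv m u := (pow_dvd_pow _ h').trans h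

theorem Dv.mul (h : Dv n u) (h' : Dv m v) : Dv (n + m) (u * v) := by
  rw [Dv, pow_add]
  exact mul_dvd_mul h h'

theorem Dv.sum {ι : Type} {S : Finset ι} {f : ι → O} (h : ∀ i ∈ S, Dv n (f i)) :
    Dv n (∑ i ∈ S, f i) := Finset.dvd_sum h

theorem dv_zero : Dv n 0 := dvd_zero _

theorem dv_refl (a : O) : Dv n (a - a) := of_eq dv_zero (sub_self a)

theorem dv_nil (a : O) : Dv 0 a := by simp [Dv]

theorem dv_om (n : ℕ) (a : O) : Dv n (om ^ n * a) := dvd_mul_right _ _

theorem dv_of {c : Z2} (h : c ≠ 0 → Dv n u) : Dv n (c • u) := by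
  by_cases e : c = 0
  · rw [e, zero_smul]; exact dv_zero
  · exact (h e).smul c

theorem dv_iff : Dv n u ↔ ∃ v, u = om ^ n * v := Iff.rfl

theorem dv_pow : Dv (j + n) (om ^ j * u) ↔ Dv n u := by
  rw [Dv, pow_add]
  exact mul_dvd_mul_iff_left (pow_ne_zero _ om_ne)

theorem al_om (n : ℕ) : Al n (om ^ n) := Associated.refl _

theorem al_one : Al 0 1 := by simpa using al_om 0

theorem Al.mul (h : Al n a) (h' : Al m b) : Al (n + m) (a * b) := by
  rw [Al, pow_add]
  exact Associated.mul_mul h h'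

theorem al_unit : Al 0 a ↔ IsUnit a := by rw [Al, pow_zero, associated_one_iff_isUnit]

theorem Al.ne (h : Al n a) : a ≠ 0 := h.ne_zero_iff.2 (pow_ne_zero _ om_ne)

theorem Al.dv (h : Al n a) : Dv n a := h.symm.dvd

theorem Al.dvd (h : Al n a) : a ∣ b ↔ Dv n b := h.dvd_iff_dvd_left

theorem Al.dv_mul (h : Al j α) : Dv (j + n) (α * u) ↔ Dv n u := by
  exact (h.mul_right u).dvd_iff_dvd_right.trans dv_pow

theorem Al.eq (h : Al n a) : ∃ u, IsUnit u ∧ a = om ^ n * u := by
  obtain ⟨u, hu⟩ := h.symm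
  exact ⟨u, u.isUnit, hu.symm⟩

theorem al_two (n : ℕ) : Al (2 * n) (2 ^ n) := by
  rw [Al, pow_mul, om_sq, mul_pow]
  exact associated_mul_unit_right _ _ (unit_ii.pow n)

theorem al_star_om : Al 1 (star om) := by
  rw [star_om]
  simpa using (al_unit.2 unit_ii.neg).mul (al_om 1)

theorem dv_two : Dv (2 * n) a ↔ (2 : O) ^ n ∣ a := (al_two n).dvd.symm

theorem two_dvd : (2 : O) ^ n ∣ a ↔ 2 ^ n ∣ a.re ∧ 2 ^ n ∣ a.im := by
  rw [← algebraMap_dvd_iff, map_pow, map_ofNat]

theorem dv_two_iff : Dv (2 * n) a ↔ 2 ^ n ∣ a.re ∧ 2 ^ n ∣ a.im := dv_two.trans two_dvd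

theorem dv_smul {c : Z2} (h : 2 ^ n ∣ c) (a : O) : Dv (2 * n) (c • a) := by
  obtain ⟨d, rfl⟩ := h
  rw [mul_smul, two_smul_eq]
  exact dv_two.2 (dvd_mul_right _ _)

theorem eq_zero_of_dv (h : ∀ n, Dv n u) : u = 0 := by
  have k : ∀ x : Z2, (∀ n, 2 ^ n ∣ x) → x = 0 := fun x hx =>
    PadicInt.ext_of_toZModPow.1 fun k => by rw [map_zero]; exact (BasY.dvd_iff k _).2 (hx k)
  ext
  · exact k _ fun n => (dv_two_iff.1 (h _)).1
  · exact k _ fun n => (dv_two_iff.1 (h _)).2

theorem dv_conv {d : ℕ} (hj : j ≤ 1) (h : (2 : O) ^ n ∣ om ^ j * (2 ^ d * a)) :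
    Dv n (om ^ d * a) := by
  by_cases hd : n ≤ d
  · exact (dv_om d a).mono hd
  obtain ⟨e, rfl⟩ : ∃ e, n = d + (e + 1) := ⟨n - d - 1, by omega⟩
  rw [dv_pow]
  have h1 := (dv_two.2 h).mono (show j + (2 * d + (e + 1)) ≤ _ by omega)
  rwa [dv_pow, (al_two d).dv_mul] at h1

/-! ### Conjugation -/

theorem cs_zero (a : O) : cs 0 a = a := by simp [cs]

theorem cs_one (a : O) : cs 1 a = star a := by rw [cs, if_neg one_ne_zero]; rfl

theorem cs_add (s t : F2) (a : O) : cs (s + t) a = cs s (cs t a) := by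
  rcases f2 s with rfl | rfl <;> rcases f2 t with rfl | rfl <;>
    simp [cs_zero, cs_one, show (1 + 1 : F2) = 0 from rfl]

theorem cs_cs (s : F2) (a : O) : cs s (cs s a) = a := by
  rw [← cs_add, CharTwo.add_self_eq_zero, cs_zero]

theorem cs_smul (s : F2) (c : Z2) (a : O) : cs s (c • a) = c • cs s a := by
  rcases f2 s with rfl | rfl <;> simp [cs_zero, cs_one, star_smul']

theorem cs_star (s : F2) (a : O) : cs s (star a) = star (cs s a) := by
  rcases f2 s with rfl | rfl <;> simp [cs_zero, cs_one]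

theorem cs_re (s : F2) (a : O) : (cs s a).re = a.re := by
  rcases f2 s with rfl | rfl <;> simp [cs_zero, cs_one]

theorem cs_im (s : F2) (a : O) : (cs s a).im = sg s * a.im := by
  rcases f2 s with rfl | rfl <;> simp [cs_zero, cs_one, sg, ZMod.val_one]

theorem nr_cs (s : F2) (a : O) : nr (cs s a) = nr a := by
  rcases f2 s with rfl | rfl <;> simp [cs_zero, cs_one, nr_star]

theorem cs_lf (s t : F2) : cs s (lf t) = lf t := map_natCast _ _

theorem cs_om (s : F2) (j : ℕ) : cs s (om ^ j) = (if s = 0 then 1 else (-ii) ^ j) * om ^ j := by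
  rcases f2 s with rfl | rfl
  · simp [cs_zero]
  · rw [cs_one, star_pow, star_om, mul_pow, if_neg one_ne_zero]

theorem Dv.cs (h : Dv n u) (s : F2) : Dv n (cs s u) := by
  obtain ⟨v, rfl⟩ := h
  rw [map_mul, cs_om, mul_assoc]
  exact (dv_om n _).mul_left _

theorem Dv.star (h : Dv n u) : Dv n (star u) := of_eq (h.cs 1) (cs_one u).symm

theorem dv_cs : Dv n (cs s u) ↔ Dv n u := ⟨fun h => of_eq (h.cs s) (cs_cs s u).symm, (·.cs s)⟩

theorem Al.cs (h : Al n a) (s : F2) : Al n (cs s a) := by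
  obtain ⟨u, hu, rfl⟩ := h.eq
  rw [map_mul, cs_om]
  have h1 : IsUnit (if s = 0 then 1 else (-ii) ^ n : O) := by
    split_ifs
    exacts [isUnit_one, unit_ii.neg.pow n]
  simpa using ((al_unit.2 h1).mul (al_om n)).mul (al_unit.2 (hu.map (QT.cs s)))

theorem Al.star (h : Al n a) : Al n (star a) := cs_one a ▸ h.cs 1

theorem dv_cs_two (s : F2) (a : O) : Dv 2 (cs s a - a) := by
  refine (dv_two_iff (n := 1)).2 ⟨by simp [cs_re], ?_⟩
  rw [im_sub, cs_im, sg_eq]
  exact ⟨-(s.val * a.im), by ring⟩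

theorem Dv.cs_sub (h : Dv n a) (s : F2) : Dv (n + 1) (QT.cs s a - a) := by
  obtain ⟨v, rfl⟩ := h
  have h1 : Dv 1 ((if s = 0 then 1 else (-ii) ^ n : O) - 1) := by
    split_ifs
    · exact dv_refl _
    · exact Dvd.dvd.trans ⟨-1, by rw [om_eq]; ring⟩ (sub_one_dvd_pow_sub_one _ n)
  rw [map_mul, cs_om]
  exact of_eq (dv_pow.2 ((h1.mul_right (QT.cs s v)).add ((dv_cs_two s v).mono one_le_two)))
    (by ring)

/-! ### The residue field -/

theorem rd_add (u v : O) : rd (u + v) = rd u + rd v := by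
  simp only [rd, re_add, im_add, map_add]; ring

theorem rd_mul (u v : O) : rd (u * v) = rd u * rd v := by
  simp only [rd, re_mul, im_mul, map_add, map_mul, map_neg, map_one, map_zero, CharTwo.neg_eq]
  ring

theorem rd_zero : rd 0 = 0 := by simp [rd]

theorem rd_one : rd 1 = 1 := by simp [rd]

/-- the reduction as a homomorphism -/
noncomputable def rdH : O →+* F2 := ⟨⟨⟨rd, rd_one⟩, rd_mul⟩, rd_zero, rd_add⟩

theorem rd_neg (u : O) : rd (-u) = rd u := (map_neg rdH u).trans (CharTwo.neg_eq _)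

theorem rd_sub (u v : O) : rd (u - v) = rd u + rd v := by rw [sub_eq_add_neg, rd_add, rd_neg]

theorem rd_pow (u : O) (n : ℕ) : rd (u ^ n) = rd u ^ n := map_pow rdH u n

theorem rd_sum {ι : Type} (S : Finset ι) (f : ι → O) : rd (∑ i ∈ S, f i) = ∑ i ∈ S, rd (f i) :=
  map_sum rdH f S

theorem rd_prod {ι : Type} (S : Finset ι) (f : ι → O) : rd (∏ i ∈ S, f i) = ∏ i ∈ S, rd (f i) :=
  map_prod rdH f S

theorem rd_smul (c : Z2) (u : O) : rd (c • u) = PadicInt.toZMod c * rd u := by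
  simp only [rd, re_smul, im_smul, smul_eq_mul, ← mul_add, map_mul]

theorem rd_lf (s : F2) : rd (lf s) = s := (map_natCast rdH _).trans (ZMod.natCast_zmod_val s)

theorem rd_ii : rd ii = 1 := by simp [rd]

theorem rd_om : rd om = 0 := by rw [om_eq, rd_add, rd_one, rd_ii]; rfl

theorem rd_two : rd 2 = 0 := by rw [← om_mul_star, rd_mul, rd_om, zero_mul]

theorem rd_eq_zero : rd u = 0 ↔ Dv 1 u := by
  rw [Dv, pow_one]
  refine ⟨fun h => ?_, fun ⟨v, h⟩ => by rw [h, rd_mul, rd_om, zero_mul]⟩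
  obtain ⟨c, hc⟩ := (BasY.dvd_iff1 _).1 h
  refine ⟨⟨c, c - u.re⟩, ?_⟩
  ext
  · simp
  · simp only [im_mul, om_re, om_im]
    linear_combination hc

theorem rd_eq : rd u = rd v ↔ Dv 1 (u - v) := by
  rw [← rd_eq_zero, rd_sub, CharTwo.add_eq_zero]

theorem rd_cs (s : F2) (u : O) : rd (cs s u) = rd u := rd_eq.2 ((dv_cs_two s u).mono one_le_two)

theorem rd_star (u : O) : rd (star u) = rd u := cs_one u ▸ rd_cs 1 u

theorem rd_nr (u : O) : PadicInt.toZMod (nr u) = rd u := by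
  have h := congrArg rd (mul_star_eq u)
  rw [rd_mul, rd_star, rd_smul, rd_one, mul_one] at h
  rw [← h]
  rcases f2 (rd u) with e | e <;> simp [e]

theorem unit_iff : IsUnit u ↔ rd u = 1 := by
  refine ⟨fun h => (f2 _).resolve_left (h.map rdH).ne_zero, fun h => ?_⟩
  have h1 : IsUnit (nr u) := by
    rw [← rd_nr] at h
    by_contra h2
    rw [← mem_nonunits_iff, ← IsLocalRing.mem_maximalIdeal, ← PadicInt.ker_toZMod,
      RingHom.mem_ker, h] at h2
    exact one_ne_zero h2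
  have h3 : IsUnit (u * star u) := by
    rw [mul_star_eq, smul_eq, mul_one]
    exact h1.map _
  exact isUnit_of_mul_isUnit_left h3

theorem dv_one_sub : Dv 1 (u - 1) ↔ rd u = 1 := by rw [← rd_eq, rd_one]

theorem exists_al (h : a ≠ 0) : ∃ n, Al n a := by
  classical
  have h1 : ∃ n, ¬ Dv n a := by
    by_contra h2
    exact h (eq_zero_of_dv fun n => not_not.1 fun e => h2 ⟨n, e⟩)
  have h2 := Nat.find_spec h1
  obtain ⟨k, hk⟩ : ∃ k, Nat.find h1 = k + 1 :=
    Nat.exists_eq_succ_of_ne_zero fun e => h2 (e ▸ dv_nil a)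
  obtain ⟨v, rfl⟩ : Dv k a := not_not.1 (Nat.find_min h1 (by omega))
  rw [hk, dv_pow, ← rd_eq_zero] at h2
  exact ⟨k, by simpa using (al_om k).mul (al_unit.2 (unit_iff.2 ((f2 _).resolve_left h2)))⟩

theorem exists_two (h : a ≠ 0) : ∃ (e : ℕ) (c : O), a * c = 2 ^ e := by
  obtain ⟨n, hn⟩ := exists_al h
  obtain ⟨c, hc⟩ := hn.dvd.2 ((al_two n).dv.mono (by omega))
  exact ⟨n, c, hc.symm⟩

theorem lf_zero : lf 0 = 0 := by simp [lf]

theorem lf_one : lf 1 = 1 := by simp [lf, ZMod.val_one]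

theorem lf_mul (s t : F2) : lf (s * t) = lf s * lf t := by
  rcases f2 s with rfl | rfl <;> simp [lf_zero, lf_one]

theorem dv_lf_add (s t : F2) : Dv 2 (lf (s + t) - lf s - lf t) := by
  rcases f2 s with rfl | rfl <;> rcases f2 t with rfl | rfl <;>
    simp only [lf_zero, lf_one, add_zero, zero_add, sub_zero, sub_self, dv_zero]
  rw [show (1 + 1 : F2) = 0 from rfl, lf_zero]
  exact of_eq (al_two 1).dv.neg (by ring)

theorem dv_lf_rd (u : O) : Dv 1 (u - lf (rd u)) := rd_eq.1 (rd_lf _).symm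

theorem dv_lf : Dv (n + 1) (u - om ^ n * lf s) ↔ ∃ v, u = om ^ n * v ∧ rd v = s := by
  constructor
  · rintro ⟨w, hw⟩
    refine ⟨lf s + om * w, by rw [mul_add, ← mul_assoc, ← pow_succ, ← hw, add_sub_cancel], ?_⟩
    rw [rd_add, rd_mul, rd_om, zero_mul, add_zero, rd_lf]
  · rintro ⟨w, rfl, hw⟩
    rw [← mul_sub, dv_pow, ← rd_eq, rd_lf, hw]

theorem rd_of (h : Dv (n + 1) (om ^ n * u - om ^ n * v)) : rd u = rd v := by
  rwa [← mul_sub, dv_pow, ← rd_eq] at h

theorem bt_true : bt true = 1 := rfl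

theorem bt_false : bt false = 0 := rfl

end Pool.Agent.P.MP_8b7eba_nt.QT
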