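import Pool.Agent.P.MP_8b7eba_nt.QT.BasL
import Pool.Agent.P.MP_8b7eba_nt.SM.BasW
import Pool.Agent.P.MP_8b7eba_nt.SM.BasN

/-! Cup products. -/

namespace Pool.Agent.P.MP_8b7eba_nt.QT

open Finset R2 SM QuadraticAlgebra SM.BasW

variable {n n' m j p : ℕ} {H : Subgroup GQ} {ρ ρ' : GQ → O} {x x' y y' b b' : GQ → O} {o : Bool}
  {g h : GQ} {w : Pl} {l l' φ : GQ → F2} {α β u v : O} {S : Finset ℕ}

/-- the bilinear form -/
noncomputable def pr (α u v : O) : Z2 := (α * star u * v).im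

theorem pr_add_l (α u u' v : O) : pr α (u + u') v = pr α u v + pr α u' v := by
  simp only [pr, star_add, mul_add, add_mul, im_add]

theorem pr_add_r (α u v v' : O) : pr α u (v + v') = pr α u v + pr α u v' := by
  simp only [pr, mul_add, im_add]

theorem pr_sub_l (α u u' v : O) : pr α (u - u') v = pr α u v - pr α u' v := by
  simp only [pr, star_sub, mul_sub, sub_mul, im_sub]

theorem pr_sub_r (α u v v' : O) : pr α u (v - v') = pr α u v - pr α u v' := by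
  simp only [pr, mul_sub, im_sub]

theorem pr_smul_l (α : O) (c : Z2) (u v : O) : pr α (c • u) v = c * pr α u v := by
  rw [pr, star_smul', mul_smul_comm, smul_mul_assoc, im_smul, smul_eq_mul, pr]

theorem pr_smul_r (α : O) (c : Z2) (u v : O) : pr α u (c • v) = c * pr α u v := by
  rw [pr, mul_smul_comm, im_smul, smul_eq_mul, pr]

theorem pr_two_r (α : O) (e : ℕ) (u v : O) : pr α u (2 ^ e * v) = 2 ^ e * pr α u v := by
  rw [← two_smul_eq, pr_smul_r]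

theorem pr_l (hα : Al j α) (hm : 2 * m ≤ j + n) (h : Dv n u) (v : O) : 2 ^ m ∣ pr α u v :=
  (((hα.dv.mul h.star).mul_right v).mono hm).im

theorem pr_r (hα : Al j α) (hm : 2 * m ≤ j + n) (u : O) (h : Dv n v) : 2 ^ m ∣ pr α u v :=
  ((((hα.dv.mul_right (star u)).mul h)).mono hm).im

theorem pr_r' (α u : O) (h : Dv (2 * m) v) : 2 ^ m ∣ pr α u v := (h.mul_left _).im

theorem pr_l' (α : O) (h : Dv (2 * m) u) (v : O) : 2 ^ m ∣ pr α u v :=
  ((h.star.mul_left α).mul_right v).im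

theorem pr_ac (hρ : Cy ρ) (hr : Rl α ρ ρ') (g : GQ) (u v : O) :
    pr α (ac ρ g u) (ac ρ' g v) = cyc g * pr α u v := by
  have e : α * star (ac ρ g u) * ac ρ' g v = nr (ρ g) • cj g (α * star u * v) := by
    rw [ac, ac, star_mul', ← cj_star, map_mul, map_mul, ← one_mul (cj g α * _ * _),
      ← smul_mul_assoc, ← mul_star_eq]
    linear_combination star (ρ g) * cj g (star u) * cj g v * hr g
  rw [pr, e, im_smul, cj, cs_im, smul_eq_mul, ← mul_assoc, hρ.nm, pr]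

theorem wp_eq (α : O) (ρ' : GQ → O) (m : ℕ) (x y : GQ → O) (g h : GQ) :
    wp α ρ' m x y g h = en m (pr α (x g) (ac ρ' g (y h))) := rfl

theorem co2_cu (hl : IsCh H l) (hφ : IsCh H φ) : Co2 H (sgn (cu l φ)) := co2_cup hl hφ

theorem iv_cu_zero (h : ∀ g ∈ (pl p).D, φ g = 0) : iv p (cu l φ) = 0 :=
  BasN.zero fun g _ k hk => by simp [cu, h k hk]

variable [HA]

theorem wp_co (hρ : Cy ρ) (hρ' : Cy ρ') (hr : Rl α ρ ρ') (hα : Al j α) (hm : 2 * m ≤ j + n)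
    (hm' : 2 * m ≤ j + n') (hx : Zn ρ H n x) (hy : Zn ρ' H n' y) : Co2T H (wp α ρ' m x y) := by
  refine Co2T.of_pow (k := m) ⟨fun g _ k _ => en_ne _ _, ?_, fun g hg k hk l hl => ?_⟩
    fun g _ k _ => en_pow _ _
  · obtain ⟨N, hN, e⟩ := hx.sm
    obtain ⟨N', hN', e'⟩ := hy.sm
    obtain ⟨M, hM, e''⟩ := hρ'.sm_ac (2 * m)
    refine ⟨_, hM.inf (hN.inf hN'), fun g hg k hk i hi a => ?_⟩
    simp only [wp_eq]
    refine ⟨en_congr ?_, en_congr ?_⟩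
    · rw [← sub_add_sub_cancel _ (pr α (x (g * i)) (ac ρ' g (y k))), ← pr_sub_r,
        ← pr_sub_l, hρ'.ac_mul, ← ac_sub]
      exact dvd_add (pr_r' _ _ (((e'' i a.1).2 _).ac _ _)) (pr_l hα hm (e g hg i hi a.2.1) _)
    · rw [← pr_sub_r, ← ac_sub]
      exact pr_r hα hm' _ ((e' k hk i hi a.2.2).ac _ _)
  · simp only [wp_eq]
    rw [en_gal, ← en_add, ← en_add]
    refine en_congr ?_
    have h1 := dvd_sub (pr_r hα hm' (x g) ((hy.co k hk l hl).ac ρ' g))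
      (pr_l hα hm (hx.co g hg k hk) (ac ρ' g (ac ρ' k (y l))))
    rw [ac_sub, ac_sub, pr_sub_r, pr_sub_r, pr_sub_l, pr_sub_l, pr_ac hρ hr] at h1
    rw [hρ'.ac_mul]
    refine (congrArg _ ?_).mp h1
    ring

theorem wp_congr (hα : Al j α) (hm : 2 * m ≤ j + n) (hm' : 2 * m ≤ j + n')
    (e : Dv n (x' g - x g)) (e' : Dv n' (y' h - y h)) :
    wp α ρ' m x' y' g h = wp α ρ' m x y g h := by
  rw [wp_eq, wp_eq]
  refine en_congr ?_
  rw [← sub_add_sub_cancel _ (pr α (x g) (ac ρ' g (y' h))), ← pr_sub_r, ← pr_sub_l, ← ac_sub]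
  exact dvd_add (pr_l hα hm e _) (pr_r hα hm' _ (e'.ac _ _))

theorem wp_add (α : O) (ρ' : GQ → O) (m : ℕ) (x x' y : GQ → O) :
    wp α ρ' m (fun g => x g + x' g) y = wp α ρ' m x y * wp α ρ' m x' y := by
  funext g h
  simp only [Pi.mul_apply, wp_eq]
  rw [pr_add_l, en_add]

theorem wp_add_r (α : O) (ρ' : GQ → O) (m : ℕ) (x y y' : GQ → O) :
    wp α ρ' m x (fun g => y g + y' g) = wp α ρ' m x y * wp α ρ' m x y' := by
  funext g h
  simp only [Pi.mul_apply, wp_eq]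
  rw [ac_add, pr_add_r, en_add]

theorem wp_val (hρ' : Cy ρ') (hα : Al (2 * m + 1) (α * star β)) (e : x g = β * v) (h : GQ) :
    wp α ρ' (m + 1) x y g h = (-1) ^ (rd v * rd (y h)).val := by
  obtain ⟨c, h1, h2⟩ := im_al hα (star v * ac ρ' g (y h))
  rw [wp_eq, pr, e, star_mul', ← mul_assoc, mul_assoc _ (star v), h1, add_comm m 1, en_shift,
    en_half, h2, rd_mul, rd_star, hρ'.rd_ac]

theorem wp_pow (hρ' : Cy ρ') (hα : Al j α) (hm : j + n = 2 * m + 1) (l : GQ → F2) (y : GQ → O) :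
    wp α ρ' (m + 1) (fun g => om ^ n * lf (l g)) y = sgn (cu l fun g => rd (y g)) := by
  funext g h
  rw [wp_val hρ' (hm ▸ hα.mul (al_om n).star) rfl, rd_lf]
  rfl

theorem wp_ex (hρ : Cy ρ) (hρ' : Cy ρ') (hr : Rl α ρ ρ') (hb : Ex o ρ H b)
    (hb' : Ex false ρ' H b') (m : ℕ) : Triv H (wp α ρ' m b b') := by
  obtain ⟨e, v, hv⟩ := hb'.2 rfl
  have key : Triv H fun g h => en (m + e) (2 ^ e * pr α (b g) (ac ρ' g (b' h))) := by
    refine triv (fun g => -pr α (b g) (ac ρ' g v)) ?_ fun g hg h hh => ?_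
    · obtain ⟨N, hN, s1⟩ := (hb.1 (2 * (m + e))).sm
      obtain ⟨M, hM, s3⟩ := hρ'.sm_ac (2 * (m + e))
      refine ⟨_, hM.inf hN, fun g hg k hk a => ?_⟩
      have := dvd_add (pr_l' α (s1 g hg k hk a.2) (ac ρ' g (ac ρ' k v)))
        (pr_r' α (b g) (((s3 k a.1).2 v).ac ρ' g))
      rw [ac_sub, pr_sub_r, pr_sub_l] at this
      rw [hρ'.ac_mul]
      refine (congrArg _ ?_).mp (Dvd.dvd.neg_right this)
      ring
    · rw [← pr_two_r, ← ac_two, hv h hh, bd, ac_sub, pr_sub_r, Zn.exact hb.1 hg hh, pr_add_l,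
        hρ'.ac_mul, pr_ac hρ hr]
      ring
  exact key.congr fun g _ h _ => by rw [en_shift, wp_eq]

theorem wp_iso (hρ : Cy ρ) (hρ' : Cy ρ') (hr : Rl α ρ ρ') (hα : Al j α) (hm : 2 * m ≤ j + n)
    (hm' : 2 * m ≤ j + n') (hx : Lc o ρ H n x) (hy : Lc false ρ' H n' y) :
    Triv H (wp α ρ' m x y) := by
  obtain ⟨b, hb, h1⟩ := hx
  obtain ⟨b', hb', h1'⟩ := hy
  exact (wp_ex hρ hρ' hr hb hb' m).congr fun g hg h hh => wp_congr hα hm hm' (h1 g hg) (h1' h hh)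

theorem wp_unr (hρ : Cy ρ) (hρ' : Cy ρ') (hr : Rl α ρ ρ') (hα : Al j α) (hm : 2 * m ≤ j + n)
    (hm' : 2 * m ≤ j + n') (h2 : w.p ≠ 2) (hu : ∀ g ∈ w.I, ρ' g = 1) (hx : Zn ρ w.D n x)
    (hy : Zn ρ' w.D n' y) (h0 : ∀ g ∈ w.I, Dv n (x g) ∧ Dv n' (y g)) :
    Triv w.D (wp α ρ' m x y) := by
  have k : ∀ {c ρ : GQ → O} {n : ℕ}, Zn ρ w.D n c → ∀ g ∈ w.D, ∀ i ∈ w.D, Dv n (c i) →
      Dv n (c (g * i) - c g) := fun {c ρ n} hc g hg i hi h =>
    of_eq ((hc.co g hg i hi).add (h.ac ρ g)) (by ring)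
  refine hA.unr w w.D w.loc_D m _ (wp_co hρ hρ' hr hα hm hm' hx hy).1
    (fun g _ h _ => en_pow _ _) fun g hg h hh i hi => ⟨?_, ?_, ?_⟩
  · rw [wp_eq, wp_eq, hρ'.ac_mul, ac_of (hu i hi.1) (eps_I h2 hi.1)]
    refine en_congr ?_
    rw [← pr_sub_l]
    exact pr_l hα hm (k hx g hg i hi.2 (h0 i hi.1).1) _
  · rw [wp_eq, wp_eq]
    refine en_congr ?_
    rw [← pr_sub_r, ← ac_sub]
    exact pr_r hα hm' _ ((k hy h hh i hi.2 (h0 i hi.1).2).ac _ _)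
  · rw [wp_eq, en_gal, hE.2.2.2.2.2.2.1 w h2 i hi.1]
    simp

theorem triv_cu (hρ : Cy ρ) (hρ' : Cy ρ') (hr : Rl α ρ ρ') (hα : Al (n + 1) α)
    (hx : Lc o ρ H (n + 1) fun g => om ^ n * lf (l g)) (hy : Lc false ρ' H (m + 1) y) :
    Triv H (sgn (cu l fun g => rd (y g))) := by
  obtain ⟨b, hb, h1⟩ := hx
  obtain ⟨b', hb', h1'⟩ := hy
  refine (wp_ex hρ hρ' hr hb hb' (n + 1)).congr fun g hg h hh => ?_
  obtain ⟨v, e1, e2⟩ := dv_lf.1 (h1 g hg).symm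
  rw [wp_val hρ' (β := om ^ n) (by
    rw [show 2 * n + 1 = n + 1 + n by ring]; exact hα.mul (al_om n).star) e1, e2,
    ← rd_eq.2 ((h1' h hh).mono (by omega))]
  rfl

theorem recp_wp (hρ : Tw ρ S) (hρ' : Tw ρ' S) (hr : Rl α ρ ρ') (hα : Al j α) (hm : 2 * m ≤ j + n)
    (hm' : 2 * m ≤ j + n') (hx : Zu ρ S n x) (hy : Zu ρ' S n' y) (ht : Triv Ht (wp α ρ' m x y)) :
    ∏ p ∈ S ∪ T30, nv (pl p) (pl p).D (wp α ρ' m x y) = 1 := by
  refine recp (fun p hp => (mem_union.1 hp).elim (fun a => (hρ.gp p a).1) fun a => (mem_T30.1 a).1)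
    (wp_co hρ.toCy hρ'.toCy hr hα hm hm' hx.zn hy.zn) ht fun w hw => ?_
  have h1 : w.p ∉ S := fun a => hw (mem_union_left _ a)
  have h2 : ¬ w.p ∣ 30 := fun a => hw (mem_union_right _ (mem_T30.2 ⟨w.prime, a⟩))
  exact wp_unr hρ.toCy hρ'.toCy hr hα hm hm' (fun e => h2 (by rw [e]; norm_num))
    (hρ'.unr w h2 h1) (hx.zn.res _) (hy.zn.res _)
    fun g hg => ⟨hx.unr w h2 h1 g hg, hy.unr w h2 h1 g hg⟩

theorem triv_cu_unr (hl : IsCh w.D l) (hφ : IsCh w.D φ) (h0 : ∀ g ∈ w.I, l g = 0 ∧ φ g = 0) :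
    Triv w.D (sgn (cu l φ)) := by
  refine BasN.unr (co2_cu hl hφ) fun g hg h hh i hi => ?_
  simp only [cu]
  rw [hl.2 g hg i (w.I_le_D hi), hφ.2 h hh i (w.I_le_D hi), (h0 i hi).1, (h0 i hi).2]
  simp

theorem iv_cu_add (hl : IsCh (pl p).D l) (hl' : IsCh (pl p).D l') (hφ : IsCh (pl p).D φ) :
    iv p (cu (fun g => l g + l' g) φ) = iv p (cu l φ) + iv p (cu l' φ) := by
  rw [← iv_add (co2_cu hl hφ) (co2_cu hl' hφ)]
  exact iv_congr fun g _ h _ => by simp only [cu, Pi.add_apply, add_mul]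

theorem iv_cu_sum {ι : Type} {s : Finset ι} {c : ι → F2} {f : ι → GQ → F2}
    (hf : ∀ i ∈ s, c i ≠ 0 → IsCh (pl p).D (f i)) (hφ : IsCh (pl p).D φ) :
    iv p (cu (fun g => ∑ i ∈ s, c i * f i g) φ) = ∑ i ∈ s, c i * iv p (cu (f i) φ) := by
  classical
  have key : ∀ i ∈ s, IsCh (pl p).D fun g => c i * f i g := fun i hi => by
    rcases f2 (c i) with e | e
    · exact ⟨(Sm.const 0).congr fun g _ => by simp [e], fun g _ h _ => by simp [e]⟩
    · simpa [e] using hf i hi (by rw [e]; exact one_ne_zero)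
  clear hf
  induction s using Finset.induction_on with
  | empty => exact BasN.zero fun g _ h _ => by simp [cu]
  | insert a s ha ih =>
    simp only [sum_insert ha]
    rw [iv_cu_add (key a (by simp)) (IsCh.sum fun i hi => key i (by simp [hi])) hφ,
      ih fun i hi => key i (by simp [hi])]
    congr 1
    rcases f2 (c a) with e | e
    · rw [e, zero_mul]
      exact BasN.zero fun g _ h _ => by simp [cu]
    · simp [e]

theorem iv_cu_unr (hp : p.Prime) (h2 : p ≠ 2) (hl : IsCh (pl p).D l) (hφ : IsCh (pl p).D φ)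
    (hu : ∀ g ∈ (pl p).I, l g = 0) : iv p (cu l φ) = l (fr p) * φ (tp p) :=
  BasN.cup hp h2 hl hφ hu

end Pool.Agent.P.MP_8b7eba_nt.QT
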