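import Pool.Agent.P.MP_8b7eba_nt.QT.BasY

/-! Cocycles modulo powers of the uniformiser. -/

namespace Pool.Agent.P.MP_8b7eba_nt.QT

open Finset R2 SM

variable {n m j : ℕ} {u v α : O} {H H' : Subgroup GQ} {ρ ρ' : GQ → O} {x x' y b : GQ → O}
  {o : Bool} {g h : GQ}

/-! ### Cocycles -/

theorem zn_bd (hρ : Cy ρ) (v : O) : Zn ρ H n (bd ρ v) := by
  obtain ⟨N, a, b⟩ := hρ.sm_ac n
  refine ⟨⟨N, a, fun g _ k _ m => ?_⟩, fun g _ k _ => ?_⟩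
  · refine of_eq (((b k m).2 v).ac ρ g) ?_
    rw [bd, bd, hρ.ac_mul, ac_sub]
    ring
  · refine of_eq dv_zero ?_
    rw [bd, bd, bd, hρ.ac_mul, ac_sub]
    ring

theorem Zn.mono (h : Zn ρ H n x) (h' : H' ≤ H) (hm : m ≤ n) : Zn ρ H' m x := by
  obtain ⟨⟨N, a, b⟩, c⟩ := h
  exact ⟨⟨N, a, fun g hg k hk e => (b g (h' hg) k (h' hk) e).mono hm⟩,
    fun g hg k hk => (c g (h' hg) k (h' hk)).mono hm⟩

theorem Zn.res (h : Zn ρ ⊤ n x) (H : Subgroup GQ) : Zn ρ H n x := h.mono le_top le_rfl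

theorem Zn.congr (h : Zn ρ H n x) (e : ∀ g ∈ H, Dv n (x' g - x g)) : Zn ρ H n x' := by
  obtain ⟨⟨N, a, b⟩, c⟩ := h
  refine ⟨⟨N, a, fun g hg k hk m => ?_⟩, fun g hg k hk => ?_⟩
  · exact of_eq (((e _ (mul_mem hg hk)).sub (e g hg)).add (b g hg k hk m)) (by ring)
  · exact of_eq ((((e _ (mul_mem hg hk)).sub (e g hg)).sub ((e k hk).ac ρ g)).add
      (c g hg k hk)) (by rw [ac_sub]; ring)

theorem Zn.congr_rho (h : Zn ρ H n x) (e : ∀ g ∈ H, ρ' g = ρ g) : Zn ρ' H n x := by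
  refine ⟨h.sm, fun g hg k hk => ?_⟩
  rw [ac, e g hg]
  exact h.co g hg k hk

theorem zn_of_dv (e : ∀ g ∈ H, Dv n (x g)) : Zn ρ H n x :=
  ⟨⟨⊤, ON.top, fun g hg k hk _ => (e _ (mul_mem hg hk)).sub (e g hg)⟩,
    fun g hg k hk => ((e _ (mul_mem hg hk)).sub (e g hg)).sub ((e k hk).ac ρ g)⟩

theorem zn_zero : Zn ρ H n fun _ => 0 := zn_of_dv fun _ _ => dv_zero

theorem Zn.add (h : Zn ρ H n x) (h' : Zn ρ H n y) : Zn ρ H n fun g => x g + y g := by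
  obtain ⟨⟨N, a, b⟩, c⟩ := h
  obtain ⟨⟨N', a', b'⟩, c'⟩ := h'
  refine ⟨⟨_, a.inf a', fun g hg k hk m => ?_⟩, fun g hg k hk => ?_⟩
  · exact of_eq ((b g hg k hk m.1).add (b' g hg k hk m.2)) (by ring)
  · exact of_eq ((c g hg k hk).add (c' g hg k hk)) (by rw [ac_add]; ring)

theorem Zn.smul (h : Zn ρ H n x) (c : Z2) : Zn ρ H n fun g => c • x g := by
  obtain ⟨⟨N, a, b⟩, d⟩ := h
  refine ⟨⟨N, a, fun g hg k hk m => ?_⟩, fun g hg k hk => ?_⟩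
  · exact of_eq ((b g hg k hk m).smul c) (by rw [smul_sub])
  · exact of_eq ((d g hg k hk).smul c) (by rw [ac_smul, smul_sub, smul_sub])

theorem Zn.neg (h : Zn ρ H n x) : Zn ρ H n fun g => -x g := by simpa using h.smul (-1)

theorem Zn.sub (h : Zn ρ H n x) (h' : Zn ρ H n y) : Zn ρ H n fun g => x g - y g := by
  simpa only [sub_eq_add_neg] using h.add h'.neg

theorem zn_pow (hr : Rl α ρ ρ') (hα : Al j α) (e : ∀ g ∈ H, x g = α * y g) :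
    Zn ρ H (j + n) x ↔ Zn ρ' H n y := by
  have e1 : ∀ g ∈ H, ∀ k ∈ H, Dv (j + n) (x (g * k) - x g) ↔ Dv n (y (g * k) - y g) :=
    fun g hg k hk => by rw [e _ (mul_mem hg hk), e g hg, ← mul_sub, hα.dv_mul]
  have e2 : ∀ g ∈ H, ∀ k ∈ H, Dv (j + n) (x (g * k) - x g - ac ρ g (x k)) ↔
      Dv n (y (g * k) - y g - ac ρ' g (y k)) := fun g hg k hk => by
    rw [e _ (mul_mem hg hk), e g hg, e k hk, hr.ac, ← mul_sub, ← mul_sub, hα.dv_mul]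
  constructor
  · rintro ⟨⟨N, a, b⟩, c⟩
    exact ⟨⟨N, a, fun g hg k hk m => (e1 g hg k hk).1 (b g hg k hk m)⟩,
      fun g hg k hk => (e2 g hg k hk).1 (c g hg k hk)⟩
  · rintro ⟨⟨N, a, b⟩, c⟩
    exact ⟨⟨N, a, fun g hg k hk m => (e1 g hg k hk).2 (b g hg k hk m)⟩,
      fun g hg k hk => (e2 g hg k hk).2 (c g hg k hk)⟩

theorem Zn.two (h : Zn ρ H n x) (e : ℕ) : Zn ρ H (2 * e + n) fun g => 2 ^ e * x g :=
  (zn_pow (rl_two ρ e) (al_two e) fun _ _ => rfl).2 h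

theorem zn_one (hρ : Cy ρ) : Zn ρ H 1 x ↔ IsCh H fun g => rd (x g) := by
  have e : ∀ g k, Dv 1 (x (g * k) - x g - ac ρ g (x k)) ↔ rd (x (g * k)) = rd (x g) + rd (x k) :=
    fun g k => by rw [sub_sub, ← rd_eq, rd_add, hρ.rd_ac]
  constructor
  · rintro ⟨⟨N, a, b⟩, c⟩
    exact ⟨⟨N, a, fun g hg k hk m => rd_eq.2 (b g hg k hk m)⟩, fun g hg k hk =>
      (e g k).1 (c g hg k hk)⟩
  · rintro ⟨⟨N, a, b⟩, c⟩
    exact ⟨⟨N, a, fun g hg k hk m => rd_eq.1 (b g hg k hk m)⟩, fun g hg k hk =>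
      (e g k).2 (c g hg k hk)⟩

theorem Zn.isCh (hρ : Cy ρ) (h : Zn ρ H (n + 1) x) : IsCh H fun g => rd (x g) :=
  (zn_one hρ).1 (h.mono le_rfl (Nat.le_add_left 1 n))

theorem Zn.isCh_pow (hρ : Cy ρ) (h : Zn ρ H (n + 1) x) (e : ∀ g ∈ H, x g = om ^ n * y g) :
    IsCh H fun g => rd (y g) :=
  (zn_one (hρ.shn n)).1 ((zn_pow (rl_shn n ρ) (al_om n) e).1 h)

theorem zn_lf (hρ : Cy ρ) {φ : GQ → F2} (h : IsCh H φ) :
    Zn ρ H (n + 1) fun g => om ^ n * lf (φ g) := by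
  refine (zn_pow (y := fun g => lf (φ g)) (rl_shn n ρ) (al_om n) fun _ _ => rfl).2
    ((zn_one (hρ.shn n)).2 ?_)
  simpa only [rd_lf] using h

theorem Zn.sm_lv (h : Zn ρ H n x) : Sm H fun g => lv n (x g) :=
  let ⟨N, a, b⟩ := h.sm; ⟨N, a, fun g hg k hk m => lv_eq.2 (b g hg k hk m)⟩

theorem Zn.one (hρ : Cy ρ) (h : Zn ρ H n x) : Dv n (x 1) :=
  of_eq (h.co 1 H.one_mem 1 H.one_mem).neg (by rw [hρ.ac_one]; simp)

theorem Zn.conj (hx : Zn ρ H n x) (hg : g ∈ H) (hh : h ∈ H) :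
    Dv n (x (g * h * g⁻¹) - (x g + ac ρ g (x h) - ac ρ (g * h * g⁻¹) (x g))) := by
  have e := hx.co _ (mul_mem (mul_mem hg hh) (inv_mem hg)) g hg
  rw [inv_mul_cancel_right] at e
  exact of_eq ((hx.co g hg h hh).sub e) (by ring)

theorem Zn.exact (hx : ∀ n, Zn ρ H n x) (hg : g ∈ H) (hh : h ∈ H) :
    x (g * h) = x g + ac ρ g (x h) := by
  rw [← sub_eq_zero, ← sub_sub]
  exact eq_zero_of_dv fun n => (hx n).co g hg h hh

theorem Zn.zero_of (hρ : Cy ρ) (hx : Zn ρ H n x) (s : Set GQ)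
    (hs : ∀ φ : GQ → F2, IsCh H φ → (∀ g ∈ s, φ g = 0) → ∀ g ∈ H, φ g = 0)
    (h0 : ∀ g ∈ s, Dv n (x g)) (hg : g ∈ H) : Dv n (x g) := by
  induction n generalizing g with
  | zero => exact dv_nil _
  | succ n ih =>
    have ih' := fun g (hg : g ∈ H) =>
      ih (hx.mono le_rfl n.le_succ) (fun g hg => (h0 g hg).mono n.le_succ) hg
    choose! u hu using fun g => (dv_iff (n := n) (u := x g)).1
    have h1 := hx.isCh_pow hρ fun g hg => hu g (ih' g hg)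
    rw [hu g (ih' g hg), dv_pow, ← rd_eq_zero]
    refine hs _ h1 (fun k hk => ?_) g hg
    have h2 := h0 k hk
    rwa [hu k (h2.mono n.le_succ), dv_pow, ← rd_eq_zero] at h2

theorem Zn.cn (hx : Zn ρ ⊤ n x) (h : GQ) : Zn (cn h ρ) ⊤ n (cn h x) := by
  obtain ⟨⟨N, a, b⟩, c⟩ := hx
  have e : ∀ g k, h * (g * k) * h⁻¹ = h * g * h⁻¹ * (h * k * h⁻¹) := fun g k => by group
  refine ⟨⟨N, a, fun g _ k _ m => ?_⟩, fun g _ k _ => ?_⟩
  · rw [QT.cn, e]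
    exact b _ trivial _ trivial (a.1.conj_mem k m h)
  · rw [QT.cn, e, ac_cn]
    exact c _ trivial _ trivial

theorem Zn.act (hρ : Cy ρ) (hx : Zn ρ H n x) (h : GQ) :
    Zn (QT.cn h ρ) H n fun g => ac ρ h (x g) := by
  obtain ⟨⟨N, a, b⟩, c⟩ := hx
  refine ⟨⟨N, a, fun g hg k hk m => of_eq ((b g hg k hk m).ac ρ h) (ac_sub ..).symm⟩,
    fun g hg k hk => of_eq ((c g hg k hk).ac ρ h) ?_⟩
  rw [ac_sub, ac_sub, ac_cn, ← hρ.ac_mul, ← hρ.ac_mul, inv_mul_cancel_right]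

/-! ### Local conditions -/

theorem Ex.smul (h : Ex o ρ H x) (c : Z2) : Ex o ρ H fun g => c • x g := by
  refine ⟨fun n => (h.1 n).smul c, fun ho => ?_⟩
  obtain ⟨k, v, h2⟩ := h.2 ho
  exact ⟨k, c • v, fun g hg => by rw [bd_smul, ← h2 g hg, mul_smul_comm]⟩

theorem Ex.add (h : Ex o ρ H x) (h' : Ex o ρ H y) : Ex o ρ H fun g => x g + y g := by
  refine ⟨fun n => (h.1 n).add (h'.1 n), fun ho => ?_⟩
  obtain ⟨k, v, h2⟩ := h.2 ho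
  obtain ⟨k', v', h2'⟩ := h'.2 ho
  refine ⟨k + k', 2 ^ k' * v + 2 ^ k * v', fun g hg => ?_⟩
  rw [bd_add, bd_two, bd_two, ← h2 g hg, ← h2' g hg]
  ring

theorem Ex.relax (h : Ex o ρ H x) : Ex true ρ H x := ⟨h.1, fun e => absurd e (by decide)⟩

theorem Ex.of_false (h : Ex false ρ H x) : Ex o ρ H x := ⟨h.1, fun _ => h.2 rfl⟩

theorem ex_true (h : ∀ n, Zn ρ H n x) : Ex true ρ H x := ⟨h, fun e => absurd e (by decide)⟩

theorem ex_bd (hρ : Cy ρ) (v : O) : Ex o ρ H (bd ρ v) :=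
  ⟨fun _ => zn_bd hρ v, fun _ => ⟨0, v, fun _ _ => by simp⟩⟩

theorem ex_of_bd (hρ : Cy ρ) {e : ℕ} (h : ∀ g ∈ H, 2 ^ e * x g = bd ρ v g) : Ex o ρ H x :=
  ⟨fun _ => (zn_pow (rl_two ρ e) (al_two e) fun g hg => (h g hg).symm).1 (zn_bd hρ v),
    fun _ => ⟨e, v, h⟩⟩

theorem ex_pow (hr : Rl α ρ ρ') (hα : Al j α) (e : ∀ g ∈ H, x g = α * y g) :
    Ex o ρ H x ↔ Ex o ρ' H y := by
  refine ⟨fun h => ⟨fun n => (zn_pow hr hα e).1 (h.1 _), fun ho => ?_⟩,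
    fun h => ⟨fun n => ((zn_pow hr hα e).2 (h.1 n)).mono le_rfl (by omega), fun ho => ?_⟩⟩
  · obtain ⟨k, v, h2⟩ := h.2 ho
    obtain ⟨f, c, hc⟩ := exists_two hα.ne
    refine ⟨f + k, c * v, fun g hg => mul_left_cancel₀ hα.ne ?_⟩
    rw [← hr.bd, ← mul_assoc α c, hc, bd_two, ← h2 g hg, e g hg]
    ring
  · obtain ⟨k, v, h2⟩ := h.2 ho
    exact ⟨k, α * v, fun g hg => by rw [hr.bd, ← h2 g hg, e g hg]; ring⟩

theorem Ex.lc (h : Ex o ρ H x) (n : ℕ) : Lc o ρ H n x := ⟨x, h, fun _ _ => dv_refl _⟩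

theorem Lc.zn (h : Lc o ρ H n x) : Zn ρ H n x := let ⟨_, hb, e⟩ := h; (hb.1 n).congr e

theorem Lc.mono (h : Lc o ρ H n x) (hm : m ≤ n) : Lc o ρ H m x :=
  let ⟨b, hb, e⟩ := h; ⟨b, hb, fun g hg => (e g hg).mono hm⟩

theorem Lc.relax (h : Lc o ρ H n x) : Lc true ρ H n x := let ⟨b, hb, e⟩ := h; ⟨b, hb.relax, e⟩

theorem Lc.congr (h : Lc o ρ H n x) (e : ∀ g ∈ H, Dv n (x' g - x g)) : Lc o ρ H n x' :=
  let ⟨b, hb, e'⟩ := h; ⟨b, hb, fun g hg => (e g hg).trans (e' g hg)⟩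

theorem Lc.congr_rho (h : Lc o ρ H n x) (e : ∀ g ∈ H, ρ' g = ρ g) : Lc o ρ' H n x := by
  obtain ⟨b, ⟨h1, h2⟩, e'⟩ := h
  refine ⟨b, ⟨fun n => (h1 n).congr_rho e, fun ho => ?_⟩, e'⟩
  obtain ⟨k, v, h3⟩ := h2 ho
  exact ⟨k, v, fun g hg => by rw [h3 g hg, bd, bd, ac, ac, e g hg]⟩

theorem lc_of_dv (e : ∀ g ∈ H, Dv n (x g)) : Lc o ρ H n x :=
  ⟨fun _ => 0, ⟨fun _ => zn_zero, fun _ => ⟨0, 0, fun g _ => by simp [bd_zero]⟩⟩,
    fun g hg => of_eq (e g hg) (sub_zero _)⟩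

theorem Lc.add (h : Lc o ρ H n x) (h' : Lc o ρ H n y) : Lc o ρ H n fun g => x g + y g :=
  let ⟨_, hb, e⟩ := h
  let ⟨_, hb', e'⟩ := h'
  ⟨_, hb.add hb', fun g hg => of_eq ((e g hg).add (e' g hg)) (add_sub_add_comm ..)⟩

theorem Lc.smul (h : Lc o ρ H n x) (c : Z2) : Lc o ρ H n fun g => c • x g :=
  let ⟨_, hb, e⟩ := h
  ⟨_, hb.smul c, fun g hg => of_eq ((e g hg).smul c) (smul_sub ..).symm⟩

theorem Lc.neg (h : Lc o ρ H n x) : Lc o ρ H n fun g => -x g := by simpa using h.smul (-1)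

theorem Lc.sub (h : Lc o ρ H n x) (h' : Lc o ρ H n y) : Lc o ρ H n fun g => x g - y g := by
  simpa only [sub_eq_add_neg] using h.add h'.neg

theorem Lc.sum {ι : Type} {s : Finset ι} {c : ι → Z2} {f : ι → GQ → O}
    (h : ∀ i ∈ s, c i ≠ 0 → Lc o ρ H n (f i)) : Lc o ρ H n fun g => ∑ i ∈ s, c i • f i g := by
  classical
  induction s using Finset.induction_on with
  | empty => exact lc_of_dv fun g _ => of_eq dv_zero (by simp)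
  | insert a s ha ih =>
    simp only [sum_insert ha]
    refine Lc.add ?_ (ih fun i hi => h i (mem_insert_of_mem hi))
    by_cases e : c a = 0
    · exact lc_of_dv fun g _ => of_eq dv_zero (by simp [e])
    · exact (h a (mem_insert_self ..) e).smul _

theorem lc_pow (hr : Rl α ρ ρ') (hα : Al j α) (e : ∀ g ∈ H, x g = α * y g) :
    Lc o ρ H (j + n) x ↔ Lc o ρ' H n y := by
  constructor
  · rintro ⟨b, hb, e'⟩
    have h3 : ∀ g ∈ H, α ∣ b g := fun g hg => hα.dvd.2 (of_eq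
      ((hα.dv.mul_right (y g)).sub ((e' g hg).mono (Nat.le_add_right j n))) (by rw [e g hg]; ring))
    choose! u hu using h3
    refine ⟨u, (ex_pow hr hα hu).1 hb, fun g hg => ?_⟩
    have h4 := e' g hg
    rwa [e g hg, hu g hg, ← mul_sub, hα.dv_mul] at h4
  · rintro ⟨b, hb, e'⟩
    refine ⟨fun g => α * b g, (ex_pow hr hα fun _ _ => rfl).2 hb, fun g hg => ?_⟩
    rw [e g hg, ← mul_sub, hα.dv_mul]
    exact e' g hg

theorem Lc.act (hρ : Cy ρ) (hx : Lc o ρ H n x) (h : GQ) :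
    Lc o (cn h ρ) H n fun g => ac ρ h (x g) := by
  obtain ⟨b, ⟨h1, h2⟩, e⟩ := hx
  refine ⟨fun g => ac ρ h (b g), ⟨fun n => (h1 n).act hρ h, fun ho => ?_⟩,
    fun g hg => of_eq ((e g hg).ac ρ h) (ac_sub ..).symm⟩
  obtain ⟨k, v, h3⟩ := h2 ho
  refine ⟨k, ac ρ h v, fun g hg => ?_⟩
  rw [← ac_two, h3 g hg, bd, bd, ac_sub, ac_cn, ← hρ.ac_mul, ← hρ.ac_mul, inv_mul_cancel_right]

theorem Lc.cnj (hρ : Cy ρ) (hz : Zn ρ ⊤ n x) (hx : Lc o ρ H n x) (h : GQ) :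
    Lc o (cn h ρ) H n (cn h x) :=
  ((hx.act hρ h).sub ((ex_bd (hρ.cn h) (x h)).lc n)).congr fun g _ =>
    of_eq (hz.conj (g := h) (h := g) trivial trivial) (by rw [bd, ac_cn, cn]; ring)

theorem lc_cn (hρ : Cy ρ) (hz : Zn ρ ⊤ n x) (h : GQ) :
    Lc o (cn h ρ) H n (cn h x) ↔ Lc o ρ H n x :=
  ⟨fun e => by simpa only [cn_cn] using e.cnj (hρ.cn h) (hz.cn h) h⁻¹, fun e => e.cnj hρ hz h⟩

theorem Ld.cnj {p : ℕ} {l : GQ → F2} (hρ : Cy ρ) (hz : Zn ρ ⊤ (n + 1) x) (hx : Ld o ρ n x p l)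
    (h : GQ) : Ld o (cn h ρ) n (cn h x) p l := by
  refine ⟨hx.1, ((hx.2.act hρ h).sub ((ex_bd (hρ.cn h) (x h)).lc _)).congr fun g _ => ?_⟩
  refine of_eq ((hz.conj (g := h) (h := g) trivial trivial).add
    (hρ.dv_bd (dv_om n (lf (l g))) h)) ?_
  rw [bd, bd, ac_cn, cn, ac_sub]
  ring

end Pool.Agent.P.MP_8b7eba_nt.QT
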