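import Pool.Agent.P.MP_8b7eba_nt.QT.BasW
import Pool.Agent.P.MP_8b7eba_nt.SM.TGLIFT

/-! Global lifts and the vanishing of the pairing. -/

namespace Pool.Agent.P.MP_8b7eba_nt.QT

open Finset R2 SM

variable {n : ℕ} {u v : O} {H : Subgroup GQ} {ρ ρ' x y b : GQ → O} {o : Bool} {k : GQ → GQ → O}
  {S : Finset ℕ}

namespace TGL

theorem cancel (h : om ^ n * u = om ^ n * v) : u = v := mul_left_cancel₀ (al_om n).ne h

theorem co2 (hρ : Cy ρ) (hx : Sm ⊤ x)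
    (hk : ∀ g h, x (g * h) - x g - ac ρ g (x h) = om ^ n * k g h) :
    Co2 ⊤ (sgn fun g h => rd (k g h)) := by
  obtain ⟨N, hN, e⟩ := hx
  obtain ⟨N', hN', e'⟩ := hρ.sm_ac (n + 1)
  refine co2_sgn.2 ⟨⟨N ⊓ N', hN.inf hN', fun g _ h _ m _ hm => ⟨?_, ?_⟩⟩, fun g _ h _ l _ => ?_⟩
  · refine rd_of (n := n) ?_
    have e1 : x (g * m * h) = x (g * h) := by
      rw [show g * m * h = g * h * (h⁻¹ * m * h) by group]
      exact e _ trivial _ trivial (hN.1.conj_mem' m hm.1 h)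
    rw [← hk, ← hk, e1, e g trivial m trivial hm.1, hρ.ac_mul]
    refine of_eq (((e' m hm.2).2 (x h)).ac ρ g).neg ?_
    rw [ac_sub]
    ring
  · refine congrArg rd (cancel (n := n) ?_)
    rw [← hk, ← hk, ← mul_assoc, e _ trivial m trivial hm.1, e _ trivial m trivial hm.1]
  · have e1 : ac (shn n ρ) g (k h l) + k g (h * l) = k (g * h) l + k g h := by
      refine cancel (n := n) ?_
      rw [mul_add, mul_add, ← (rl_shn n ρ).ac, ← hk, ← hk, ← hk, ← hk, hρ.ac_mul, ac_sub, ac_sub,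
        mul_assoc]
      ring
    have e2 := congrArg rd e1
    rwa [rd_add, rd_add, (hρ.shn n).rd_ac] at e2

theorem loc (hρ : Cy ρ) (hx : Sm H x) (hb : ∀ m, Zn ρ H m b) (e : ∀ g ∈ H, Dv n (x g - b g))
    (hk : ∀ g h, x (g * h) - x g - ac ρ g (x h) = om ^ n * k g h) :
    ∃ l, Bd H (fun g h => rd (k g h)) l := by
  choose! u hu using fun g hg => dv_iff.1 (e g hg)
  obtain ⟨N, hN, e1⟩ := hx
  obtain ⟨N', hN', e2⟩ := (hb (n + 1)).sm
  refine ⟨fun g => rd (u g), ⟨N ⊓ N', hN.inf hN', fun g hg m hm hN => rd_of (n := n) ?_⟩,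
    fun g hg h hh => ?_⟩
  · rw [← hu _ (mul_mem hg hm), ← hu g hg, e1 g hg m hm hN.1]
    exact of_eq (e2 g hg m hm hN.2).neg (by ring)
  · beta_reduce
    rw [← (hρ.shn n).rd_ac g (u h), ← rd_add, ← rd_add]
    refine congrArg rd (cancel (n := n) ?_)
    rw [mul_add, mul_add, ← (rl_shn n ρ).ac, ← hk, ← hu _ (mul_mem hg hh), ← hu g hg, ← hu h hh,
      Zn.exact hb hg hh, ac_sub]
    ring

theorem zero (hx : Zn ρ ⊤ n x) {i : GQ} (h0 : Dv n (x i)) (h1 : ∀ a, ac ρ i a = a)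
    (hk : ∀ g h, lv n (x (g * h)) - lv n (x g) - ac ρ g (lv n (x h)) = om ^ n * k g h)
    (g : GQ) : rd (k g i) = 0 ∧ rd (k i g) = 0 := by
  constructor
  · have e : lv n (x (g * i)) = lv n (x g) :=
      lv_eq.2 (of_eq ((hx.co g trivial i trivial).add (h0.ac ρ g)) (by ring))
    have e2 : k g i = 0 := by
      refine cancel (n := n) ?_
      rw [← hk, e, lv_zero h0, ac_zero]
      simp
    rw [e2, rd_zero]
  · have e : lv n (x (i * g)) = lv n (x g) :=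
      lv_eq.2 (of_eq ((hx.co i trivial g trivial).add h0) (by rw [h1]; ring))
    have e2 : k i g = 0 := by
      refine cancel (n := n) ?_
      rw [← hk, e, lv_zero h0, h1]
      simp
    rw [e2, rd_zero]

variable [HA]

theorem step (hρ : Tw ρ S) (h : Wn o ρ S n x) :
    ∃ y, Zn ρ ⊤ (n + 1) y ∧ (∀ g, Dv n (y g - x g)) ∧
      ∀ w : Pl, ¬ w.p ∣ 30 → w.p ∉ S → ∀ g ∈ w.I, y g = 0 := by
  have hS := hρ.gp
  have hs : Sm ⊤ fun g => lv n (x g) := h.zn.sm_lv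
  have hz : Zn ρ ⊤ n fun g => lv n (x g) := h.zn.congr fun g _ => dv_lv n _
  choose k hk using fun g g' => dv_iff.1 (hz.co g trivial g' trivial)
  have hl : ∀ H : Subgroup GQ, Lc o ρ H n x → ∃ l, Bd H (fun g h => rd (k g h)) l := fun H hc => by
    obtain ⟨b, hb, e⟩ := hc.congr (x' := fun g => lv n (x g)) fun g _ => dv_lv n _
    exact loc hρ.toCy (hs.mono le_top) hb.1 e hk
  have h1 := zero h.zn (h.zn.one hρ.toCy) hρ.ac_one hk
  have ht : ∀ g ∈ Ht, ∀ g' ∈ Ht, rd (k g g') = 0 := fun g hg g' hg' => by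
    rcases mem_Ht.1 hg with rfl | rfl
    · exact (h1 g').2
    rcases mem_Ht.1 hg' with rfl | rfl
    · exact (h1 _).1
    obtain ⟨l, -, e⟩ := hl _ h.inf
    have e1 := e 1 Ht.one_mem 1 Ht.one_mem
    have e2 := e _ hg _ hg
    beta_reduce at e1 e2
    rw [mul_one, CharTwo.add_self_eq_zero, (h1 1).1, add_zero] at e1
    rw [hA.tau.2.1, CharTwo.add_self_eq_zero, e1, zero_add] at e2
    exact e2.symm
  obtain ⟨θ, hθ, hu⟩ := HA.gth ((30 * ∏ q ∈ S, q : ℕ) : ℤ) _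
    (Int.natCast_ne_zero.2 (mul_ne_zero (by norm_num)
      (prod_ne_zero_iff.2 fun q hq => (hS q hq).1.ne_zero)))
    ((TGLIFT.dvd_n hS Nat.prime_two).2 (Or.inl (by norm_num))) (co2 hρ.toCy hs hk)
    (fun w hw j hj g => by
      rw [TGLIFT.dvd_n hS w.prime, not_or] at hw
      exact zero h.zn (h.unr w hw.1 hw.2 j hj)
        (ac_of (hρ.unr w hw.1 hw.2 j hj) (bs_I hw.1 hj 0)) hk g)
    (fun p hp hd => ⟨pl p, pl_p hp, by
      obtain ⟨l, hl⟩ := hl _ (h.loc p (mem_union.2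
        (((TGLIFT.dvd_n hS hp).1 hd).symm.imp_right fun e => mem_T30.2 ⟨hp, e⟩)))
      exact hl.triv⟩) ht
  refine ⟨fun g => lv n (x g) - om ^ n * lf (θ g), ⟨?_, fun g _ g' _ => ?_⟩,
    fun g => of_eq ((dv_lv n (x g)).sub (dv_om n (lf (θ g)))) (sub_right_comm ..),
    fun w a b g hg => ?_⟩
  · obtain ⟨N, a, b⟩ := hs.comp₂ hθ.1 fun a b => a - om ^ n * lf b
    exact ⟨N, a, fun g hg m hm e => of_eq dv_zero (sub_eq_zero.2 (b g hg m hm e))⟩
  · have e : Dv (n + 1) (om ^ n * (k g g' - (lf (θ (g * g')) - lf (θ g) -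
        ac (shn n ρ) g (lf (θ g'))))) := by
      rw [dv_pow, ← rd_eq, rd_sub, rd_sub, (hρ.toCy.shn n).rd_ac, rd_lf, rd_lf, rd_lf,
        hθ.2 g trivial g' trivial]
      beta_reduce
      generalize θ g = a
      generalize θ g' = b
      generalize rd (k g g') = c
      revert a b c
      decide
    refine of_eq e ?_
    rw [mul_sub, ← hk, mul_sub, mul_sub, ← (rl_shn n ρ).ac, ac_sub]
    ring
  · show lv n (x g) - om ^ n * lf (θ g) = 0
    rw [hu w (by rw [TGLIFT.dvd_n hS w.prime]; exact not_or.2 ⟨a, b⟩) g hg, lf_zero,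
      lv_zero (h.unr w a b g hg), mul_zero, sub_zero]

end TGL

variable [HA]

theorem glift (hρ : Tw ρ S) (h : Wn o ρ S n x) : ∃ y, Gy o ρ S (n + 1) y ∧
    (∀ g, Dv n (y g - x g)) ∧ ∀ p ∈ S ∪ T30, ∃ l, Ld o ρ n y p l := by
  obtain ⟨y, z1, d1, u1⟩ := TGL.step hρ h
  obtain ⟨l, l1, l2⟩ := ld_of_lc hρ.toCy (z1.res _) (h.inf.congr fun g _ => d1 g)
  have hq : IsCh ⊤ fun g => qz (-1) g • l tau := (isCh_qz _).smul _
  have z2 := z1.sub (zn_lf hρ.toCy hq)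
  have d2 : ∀ g, Dv n (y g - om ^ n * lf (qz (-1) g • l tau) - x g) := fun g =>
    of_eq ((d1 g).sub (dv_om n (lf (qz (-1) g • l tau)))) (by ring)
  refine ⟨_, ⟨⟨z2, fun w a b g hg => ?_⟩, l2.congr fun g hg => ?_⟩, d2, fun p hp =>
    ld_of_lc hρ.toCy (z2.res _) ((h.loc p hp).congr fun g _ => d2 g)⟩
  · have e : qz (-1) g = 0 := bs_I a hg 0
    rw [u1 w a b g hg, e, zero_smul, lf_zero, mul_zero, sub_zero]
    exact dv_zero
  · have e : qz (-1) g • l tau = l g := by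
      rcases mem_Ht.1 hg with rfl | rfl
      · rw [l1.one]
        exact hq.one
      · rw [eps_tau, one_smul]
    rw [e, sub_self]
    exact dv_zero

theorem zero_pair {α : O} {u : GQ → O} {l : ℕ → GQ → F2} (hρ : Tw ρ S) (hρ' : Tw ρ' S)
    (hr : Rl α ρ ρ') (hα : Al (n + 2) α) (hx : Wn o ρ S (n + 2) x) (hy : Gy o ρ S (n + 2) y)
    (e : ∀ g, rd (y g) = rd (x g)) (hl : ∀ p ∈ S ∪ T30, Ld o ρ (n + 1) y p (l p))
    (hu : Wn false ρ' S (n + 1) u) : ∑ p ∈ S ∪ T30, iv p (cu (l p) fun g => rd (u g)) = 0 := by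
  choose v hv using fun g => dv_iff.1 (rd_eq.1 (e g))
  rw [show n + 2 = 1 + (n + 1) by omega] at hx hy
  have r1 := rl_shn 1 ρ
  have c1 := hρ.shn 1
  have r2 := r1.symm.mul hr
  have a2 := (al_om 1).star.mul hα
  have m1 : 2 * (n + 1 + 1) ≤ 1 + (n + 2) + (n + 1) := by omega
  have hz : Zu (shn 1 ρ) S (n + 1) v := (zu_pow r1 (al_om 1) hv).1 (by
    simpa [sub_eq_add_neg] using hy.toZu.add (hx.toZu.smul (-1)))
  have h := recp_wp c1 hρ' r2 a2 m1 m1 hz hu.toZu (wp_iso c1.toCy hρ'.toCy r2 a2 m1 m1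
    ((lc_pow r1 (al_om 1) fun g _ => hv g).1 (hy.inf.sub hx.inf)) hu.inf)
  rw [prod_congr rfl (g := fun p => (-1) ^ (iv p (cu (l p) fun g => rd (u g))).val)
    fun p hp => ?_, ← BasN.e_sum] at h
  · exact LC.e_inj.1 (h.trans (by simp))
  have h1 := (hl p hp).2
  rw [show n + 1 + 1 = 1 + (n + 1) by omega] at h1
  have h2 : Lc o (shn 1 ρ) (pl p).D (n + 1) fun g => v g - om ^ n * lf (l p g) :=
    (lc_pow r1 (al_om 1) fun g _ => by rw [mul_sub, ← hv g]; ring).1 (h1.sub (hx.loc p hp))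
  have h3 := wp_iso c1.toCy hρ'.toCy r2 a2 m1 m1 h2 (hu.loc p hp)
  have h4 := co2_cu (hl p hp).1 ((hu.zn.res _).isCh hρ'.toCy)
  have h5 := wp_add (star (om ^ 1) * α) ρ' (n + 1 + 1) (fun g => v g - om ^ n * lf (l p g))
    (fun g => om ^ n * lf (l p g)) u
  simp only [sub_add_cancel] at h5
  rw [h5, wp_pow hρ'.toCy a2 (by omega), (hA.inv _ _ (pl p).loc_D).mul _ _ h3.co2T h4.sgnT,
    (hA.inv _ _ (pl p).loc_D).triv _ h3.co2 h3, one_mul, nv_iv h4]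

end Pool.Agent.P.MP_8b7eba_nt.QT
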