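import Pool.Agent.P.MP_8b7eba_nt.QT.FC
import Pool.Agent.P.MP_8b7eba_nt.SM.All

/-! The final form of the project QT. -/

namespace Pool.Agent.P.MP_8b7eba_nt.QT

open MP_9c97e9_nt Classical Filter Topology

theorem final (hQ : DENSQ) (G : ℤ → Prop) (h : ∀ D : ℤ,
    (Module.rank ℤ (Pt (W D) ℚ) = 0 ∧
      ∃ k : ℕ, ∀ φ : ZMod (2 ^ k) × ZMod (2 ^ k) →+ Sha (W D), ¬ Function.Injective φ) ∨
    (Module.rank ℤ (Pt (W D) ℚ) = 1 ∧ Finite (AddCommGroup.primaryComponent (Sha (W D)) 2)) →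
    G D) :
    Tendsto (fun X : ℕ => ({D : ℤ | |D| ≤ X ∧ D ≠ 0 ∧ G D}.ncard / (2 * X) : ℝ)) atTop (𝓝 1) :=
  dens_all t_CURVE hQ G fun D hD e => big_of_not hD
    (fun a k => by_contra fun b => e (h D (.inl ⟨a, k, fun φ c => b ⟨φ, c⟩⟩)))
    fun a => not_finite_iff_infinite.1 fun b => e (h D (.inr ⟨a, b⟩))

end Pool.Agent.P.MP_8b7eba_nt.QT
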