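import Pool.Agent.P.MP_8b7eba_nt.QT.IfQ
import Pool.Agent.P.MP_8b7eba_nt.SM.TBIL
import Pool.Agent.P.MP_8b7eba_nt.SM.TBIL2
import Pool.Agent.P.MP_8b7eba_nt.SM.TBX3
import Pool.Agent.P.MP_8b7eba_nt.SM.TEQ
import Pool.Agent.P.MP_8b7eba_nt.SM.TFOUR
import Pool.Agent.P.MP_8b7eba_nt.SM.TGENA
import Pool.Agent.P.MP_8b7eba_nt.SM.TMOD2
import Pool.Agent.P.MP_8b7eba_nt.SM.TRANK

/-! Most matrices of symbols are good. -/

namespace Pool.Agent.P.MP_8b7eba_nt.QT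

open Finset R2 SM

open TMOD2 Classical in
/-- the symbols are independent in a regular box -/
theorem mod2q {B : Box} {m : Mod (Fin B.r) B.S} {K l A N y₀ y₁ : ℕ} {J₀ : Finset (Fin B.r)}
    {J : Fin K ⊕ Bool → Finset (Fin B.r)}
    (hm : ∀ i, ∀ p ∈ B.X i, ∀ b, m.κ i b = js (smz B.S b) p) (hB : B.Reg K l A N y₀ y₁ J₀ J) :
    (∀ e : Fin 4 ⊕ B.S → F2, e ≠ 0 → ∃ i ∈ J₀, ∑ b, m.κ i b * e b = 1) ∧
    ∀ e : Fin 4 → F2, e ≠ 0 →
      4 * B.S.card + N ≤ (univ.filter fun i => ∑ b, m.κ i (.inl b) * e b = 1).card := by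
  have hX : ∀ i, ∃ p, p ∈ B.X i := fun i => by
    have h1 : 0 < y₀ := lt_of_lt_of_le (by positivity) hB.big
    have h2 := (hB.t0 i).trans (B.rich i).card
    exact card_pos.1 (Nat.pos_of_ne_zero fun h => by rw [h] at h2; omega)
  have key : ∀ (e : Fin 4 ⊕ B.S → F2) (a : ℤ), (∀ p, Gp p → p ∉ B.S → jacobiSym a p = -1 →
      ∑ b, js (smz B.S b) p * e b = 1) → ∀ i, (∀ p ∈ B.X i, jacobiSym a p = -1) →
      ∑ b, m.κ i b * e b = 1 := fun e a h i hi => by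
    obtain ⟨p, hp⟩ := hX i
    simp only [hm i p hp]
    exact h p ((B.rich i).gp p hp).1 (disjoint_left.1 (B.nS i) hp) (hi p hp)
  refine ⟨fun e he => ?_, fun e he => ?_⟩
  · obtain ⟨a, h1, h2, h3, -, h5⟩ := core e he
    obtain ⟨i, hi, h⟩ := hB.u1 a h1 h2 h3
    exact ⟨i, hi, key e a h5 i h⟩
  · obtain ⟨a, h1, h2, -, h4, h5⟩ := core (B := B) (Sum.elim e 0) fun h =>
      he (funext fun i => congrFun h (.inl i))
    refine (hB.na a h1 h2 (h4 fun _ => rfl)).trans (card_le_card fun i hi => ?_)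
    simp only [mem_filter, mem_univ, true_and] at hi ⊢
    simpa [Fintype.sum_sum_type] using key _ a h5 i hi

open BX3x Classical in
/-- most matrices of symbols are good -/
theorem bx3q (ε : ℝ) (hε : 0 < ε) : ∃ s : ℕ, ∀ K : ℕ, ∃ l A N : ℕ, ∀ (B : Box)
    (m : Mod (Fin B.r) B.S) (u : Fin B.r → Fin B.r → F2) (y₀ y₁ : ℕ) (J₀ : Finset (Fin B.r))
    (J : Fin K ⊕ Bool → Finset (Fin B.r)) (i₀ : Fin B.r),
    (∀ i, ∀ p ∈ B.X i, ∀ b, m.κ i b = js (smz B.S b) p) → B.Reg K l A N y₀ y₁ J₀ J →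
    ((B.pts.filter fun p => ¬ (m.ns i₀ (Leg p + u) ≤ 2 ^ s ∧
      ∀ α R, m.Sol i₀ (Leg p + u) α R → m.Typ J α R)).card : ℝ) ≤ ε * B.pts.card := by
  obtain ⟨c, hc, hG⟩ := t_GENA t_RANK t_PAT1
  obtain ⟨A, hA⟩ := t_OZ (t_BIL2 t_BIL)
  obtain ⟨s, hs⟩ := exists_pow_lt_of_lt_one (x := ε / (8 * c)) (y := (1 / 2 : ℝ)) (by positivity)
    (by norm_num)
  refine ⟨s, fun K => ?_⟩
  obtain ⟨l, hl⟩ := exists_pow_lt_of_lt_one (x := ε / (8 * c) / (K + 2)) (y := (15 / 16 : ℝ))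
    (by positivity) (by norm_num)
  refine ⟨l, A, s, fun B m u y₀ y₁ J₀ J i₀ hm hR => ?_⟩
  rcases B.pts.eq_empty_or_nonempty with h0 | ⟨p₀, h0⟩
  · simp [h0]
  obtain ⟨m1, m2⟩ := mod2q hm hR
  obtain ⟨w, hw⟩ : ∃ w : Fin B.r → Fin B.r → F2, ∀ p ∈ B.pts,
      (fun i j => if i < j then js (-1) (p i) * js (-1) (p j) else 0) = w := by
    refine ⟨fun i j => if i < j then js (-1) (p₀ i) * js (-1) (p₀ j) else 0, fun p hp => ?_⟩
    have e : ∀ i, js (-1) (p i) = js (-1) (p₀ i) := fun i =>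
      Box.js_eq (Box.mem_pts.1 hp i) (Box.mem_pts.1 h0 i) (.inl 0)
    simp only [e]
  obtain ⟨g1, g2⟩ := hG (Fin B.r) B.S (Fin K ⊕ Bool) m i₀ (w + u) J₀ J l _ m1 m2
    fun t => ⟨hR.card t, hR.dj0 t⟩
  obtain ⟨T, hT⟩ : ∃ T : ℕ, T = 2 ^ (B.r + B.S.card + 2) ^ 2 := ⟨_, rfl⟩
  have T2 : 2 ≤ T := by
    rw [hT]
    exact Nat.le_self_pow (by positivity) 2
  have big : ∀ i, (T * (B.E + 2)) ^ A ≤ B.t i := fun i => hT ▸ hR.big.trans (hR.t0 i)
  obtain ⟨e1, e2⟩ := t_EQ t_FOUR B.r B.X (T : ℝ)⁻¹ (by positivity)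
    (fun i p hp => ((B.rich i).gp p hp).1)
    fun i j h => ⟨B.dj i j h, hA _ _ _ _ (B.E + 2) T ((B.rich i).mono (by omega))
      ((B.rich j).mono (by omega)) (B.dj i j h) T2 (by omega) (big i) (big j)⟩
  obtain ⟨q0, q1⟩ := card_Sy B.r
  have q2 : ((Sy (Fin B.r)).card : ℝ) ≤ T := by
    rw [hT]
    exact Nat.cast_le.2 (q1.trans (Nat.pow_le_pow_right two_pos (Nat.pow_le_pow_left (by omega) 2)))
  have q3 : (0 : ℝ) < (Sy (Fin B.r)).card := Nat.cast_pos.2 q0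
  have q4 := inv_anti₀ q3 q2
  have e3 : (16 : ℝ) ^ Fintype.card B.S / 2 ^ (4 * B.S.card + s) = (1 / 2) ^ s := by
    rw [Fintype.card_coe, pow_add, pow_mul, one_div, inv_pow]
    norm_num
    field_simp
  rw [e3] at g1 g2
  simp only [← add_assoc] at g1 g2
  refine (cnt B.pts (Sy (Fin B.r)) Leg (· + w) (fun a => ?_)
    (fun x => ¬ (m.ns i₀ (x + u) ≤ 2 ^ s ∧ ∀ α R, m.Sol i₀ (x + u) α R → m.Typ J α R))
    (fun x => (1 / 2) ^ s * m.ns i₀ (x + u) + na m i₀ J (x + u))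
    (2 * ((Sy (Fin B.r)).card : ℝ)⁻¹ * B.pts.card)
    (fun p hp => ?_) (fun a => (e2 a).trans ?_) (fun a => by positivity)
    fun x => one_le m i₀ J s (x + u)).trans ?_
  · funext i j
    simp only [Pi.add_apply, add_assoc, CharTwo.add_self_eq_zero, add_zero]
  · rw [← hw p hp]
    exact e1 p hp
  · exact mul_le_mul_of_nonneg_right (by linarith) (Nat.cast_nonneg _)
  · rw [sum_add_distrib, ← mul_sum]
    refine (mul_le_mul_of_nonneg_left (add_le_add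
      (mul_le_mul_of_nonneg_left g1 (by positivity)) g2) (by positivity)).trans ?_
    have a1 : (1 / 2 : ℝ) ^ s ≤ 1 := pow_le_one₀ (by norm_num) (by norm_num)
    have a2 : (0 : ℝ) ≤ (1 / 2) ^ s := by positivity
    rw [lt_div_iff₀ (by positivity)] at hl
    have a3 : (1 / 2 : ℝ) ^ s * (1 + (1 / 2) ^ s) + ((K + 2) * (15 / 16) ^ l + (1 / 2) ^ s) ≤
        ε / (2 * c) := by
      have : ε / (2 * c) = 4 * (ε / (8 * c)) := by field_simp; norm_num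
      nlinarith
    rw [le_div_iff₀ (by positivity)] at a3
    refine le_trans (le_of_eq ?_) (mul_le_mul_of_nonneg_right a3 (Nat.cast_nonneg B.pts.card))
    simp only [Fintype.card_sum, Fintype.card_fin, Fintype.card_bool]
    push_cast
    field_simp

end Pool.Agent.P.MP_8b7eba_nt.QT
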