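import Pool.Agent.P.MP_8b7eba_nt.QT.MMOD

/-! The size of the Selmer groups and the typical solutions. -/

namespace Pool.Agent.P.MP_8b7eba_nt.QT

open Finset R2 SM

variable {Δ S : Finset ℕ} {c : GQ → F2} {B : Box} {p : Fin B.r → ℕ} {i₀ : Fin B.r}
  {m : (Δ → FF) → Mod (Fin B.r) B.S} {w : Fin B.r → Fin B.r → F2} {r : GQ → O}

theorem typ_alg (D : Submodule F2 FF) (hC : ∀ u ∈ D, (pL u.1, pL u.2) ∈ D) (a b : Bool)
    {s t s' t' : F2} (h : (ev a s, ev b t) ∈ D) (h' : (ev a s', ev b t') ∈ D) (hs : s ≠ 0)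
    (hab : a = b → s' ≠ t') : ∃ u ∈ D, co a u.1 = 1 ∧ co b u.2 = 0 := by
  have e : ∀ (a b : Bool) (s t s' t' : F2), s ≠ 0 → (a = b → s' ≠ t') →
      ∃ x y z : F2, co a (x • ev a s + y • ev a s' + z • pL (ev a s)) = 1 ∧
        co b (x • ev b t + y • ev b t' + z • pL (ev b t)) = 0 := by decide
  obtain ⟨x, y, z, h1⟩ := e a b s t s' t' hs hab
  exact ⟨_, D.add_mem (D.add_mem (D.smul_mem x h) (D.smul_mem y h')) (D.smul_mem z (hC _ h)), h1⟩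

variable [HA]

theorem Bs.uc (hr : Bs Δ r) : Uc Δ (cb r) :=
  ⟨hr.toCy.isCh_cb, fun _ a b _ hg => hr.cb_I a b hg⟩

theorem Uc.hb (h : Uc Δ c) (hΔ : Δ ⊆ S) (hS : ∀ p ∈ S, Gp p) (v : V1) :
    SeV Δ c S (fun g => (c g + chi S g) • v + qz (-1) g • pL v) ∧
      ∀ p ∈ S, p ∉ Δ → (c (tp p) + chi S (tp p)) • v + qz (-1) (tp p) • pL v = v := by
  have e : ∀ p ∈ S, p ∉ Δ → (c (tp p) + chi S (tp p)) • v + qz (-1) (tp p) • pL v = v :=
    fun p hp h1 => by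
      have h2 := hS p hp
      rw [h.unr (pl p) (by rw [pl_p h2.1]; exact h2.2) (by rwa [pl_p h2.1]) _ (tp_I h2.1 h2.ne.1),
        chi_tp hS hp, eps_tp h2.1 h2.ne.1, zero_add, one_smul, zero_smul, add_zero]
  refine ⟨⟨((h.ch.add (isCh_chi S)).smul v).add ((isCh_qz _).smul _), fun w a b g hg => ?_,
    fun p hp h1 => by rw [e p hp h1]⟩, e⟩
  rw [h.unr w a (fun e => b (hΔ e)) g hg, chi_I hS b hg, show qz (-1) g = 0 from bs_I a hg 0,
    add_zero, zero_smul, zero_smul, add_zero]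

theorem normq (h : Uc Δ c) (hΔ : Δ ⊆ B.S) (hm : IsMq Δ c B i₀ m w) (hp : p ∈ B.pts) :
    ∃ C : Finset (GQ → F2), C.card ≤ 8 * ∑ v, (m v).ns i₀ (Leg p + w) ∧
      ∀ (e : F2) χ, Se1 Δ (c + e • qz (-1)) (B.set p) χ → χ ∈ C := by
  classical
  have two : ∀ v : V1, v + v = 0 := by decide
  have hF : ∀ v, ∃ F : Finset ((Fin 4 ⊕ B.S → FF) × (Fin B.r → FF)),
      F.card = (m v).ns i₀ (Leg p + w) ∧ ∀ s, (m v).Sol i₀ (Leg p + w) s.1 s.2 → s ∈ F :=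
    fun v => ⟨_, rfl, fun s hs => by simpa using hs⟩
  choose F hF hF' using hF
  refine ⟨(((univ : Finset Bool) ×ˢ (univ : Finset V1)) ×ˢ univ.biUnion F).image fun x g =>
    co x.1.1 (pat (sp B.S fun b => (x.2.1 b).1) (fun i => (x.2.2 i).1) p g +
      ((c g + chi (B.set p) g) • x.1.2 + qz (-1) g • pL x.1.2)),
    card_image_le.trans ?_, fun e χ hχ => ?_⟩
  · rw [card_product]
    exact Nat.mul_le_mul (le_of_eq rfl) (card_biUnion_le.trans (by simp only [hF, le_refl]))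
  obtain ⟨t, rfl⟩ : ∃ t, bt t = e := by
    rcases f2 e with rfl | rfl
    exacts [⟨false, rfl⟩, ⟨true, rfl⟩]
  have h0 := hχ.ev
  obtain ⟨h1, h2⟩ := h.hb (S := B.set p) (hΔ.trans subset_union_left) (Box.set_gp hp)
    (ev t (χ (tp (p i₀))))
  have h3 := h0.add h1
  obtain ⟨η, hη⟩ : ∃ η : X2, η = fun g => ev t (χ g) + ((c g + chi (B.set p) g) •
    ev t (χ (tp (p i₀))) + qz (-1) g • pL (ev t (χ (tp (p i₀))))) := ⟨_, rfl⟩
  rw [← hη] at h3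
  obtain ⟨a, ha⟩ := pat_rep hp h3.ch h3.unr
  have h4 : η (tp (p i₀)) = 0 := by
    rw [hη]
    beta_reduce
    rw [h2 _ (Box.mem_set.2 (Or.inr ⟨i₀, rfl⟩)) fun e => ((Box.inj hp).2 i₀).2 (hΔ e), two]
  have e : pat (sp B.S fun _ => 0) (fun _ => 0) p = fun g => η g + η g := by
    funext g
    simp [pat, sp, two]
  obtain ⟨v, hs⟩ := (hm.sol p hp (fun b => (a b, 0)) fun i => (η (tp (p i)), 0)).2
    ⟨Prod.ext h4 rfl, ha ▸ h3, e ▸ h3.add h3⟩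
  refine mem_image.2 ⟨((t, ev t (χ (tp (p i₀)))), fun b => (a b, 0), fun i => (η (tp (p i)), 0)),
    mem_product.2 ⟨mem_product.2 ⟨mem_univ _, mem_univ _⟩,
      mem_biUnion.2 ⟨v, mem_univ _, hF' v _ hs⟩⟩, funext fun g => ?_⟩
  change co t (pat (sp B.S a) (fun i => η (tp (p i))) p g + ((c g + chi (B.set p) g) •
    ev t (χ (tp (p i₀))) + qz (-1) g • pL (ev t (χ (tp (p i₀)))))) = χ g
  rw [← ha, hη]
  beta_reduce
  rw [add_assoc, two, add_zero, co_ev]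

theorem typq {τ : Type} {J : τ → Finset (Fin B.r)} (hr : Bs Δ r)
    (hm : IsMq Δ (cb r) B i₀ m w) (hp : p ∈ B.pts) (hB : Bad r (B.set p) (p i₀))
    (hT : ∀ v a R, (m v).Sol i₀ (Leg p + w) a R → (m v).Typ J a R) :
    ∃ (ta tb : Bool) (v : Δ → FF) (a : Fin 4 ⊕ B.S → FF) (R : Fin B.r → FF),
      (m v).Sol i₀ (Leg p + w) a R ∧ (∃ u ∈ Submodule.span F2 (Set.range R),
        ∃ u' ∈ Submodule.span F2 (Set.range R), co ta u.1 = 1 ∧ co tb u.2 = 0 ∧ co tb u'.2 = 1) ∧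
      ∀ n, WK true (tw (ty ta r) (B.set p)) (B.set p) (n + 1)
          (pat1 (fun g => co ta (sp B.S (fun b => (a b).1) g)) (fun i => co ta (R i).1) p) ∧
        WK false (tw (ty tb r) (B.set p)) (B.set p) (n + 1)
          (pat1 (fun g => co tb (sp B.S (fun b => (a b).2) g)) (fun i => co tb (R i).2) p) := by
  obtain ⟨ta, tb, φ, ψ, hW, h1, h2, h3, h4, h5⟩ := hB
  have s1 := (hr.toCy.cb_ty ta ▸ (hW 0).1.se (hr.ty ta) (Box.set_gp hp)).ev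
  have s2 := (hr.toCy.cb_ty tb ▸ (hW 0).2.se (hr.ty tb) (Box.set_gp hp)).ev
  obtain ⟨a, ha⟩ := pat_rep hp s1.ch s1.unr
  obtain ⟨a', ha'⟩ := pat_rep hp s2.ch s2.unr
  obtain ⟨v, hs⟩ := (hm.sol p hp (fun b => (a b, a' b))
    fun i => (ev ta (φ (tp (p i))), ev tb (ψ (tp (p i))))).2
      ⟨by rw [h1, h2, ev_zero, ev_zero]; rfl, ha ▸ s1, ha' ▸ s2⟩
  obtain ⟨t1, t2, -⟩ := hT _ _ _ hs
  have in1 : ∀ g, (ev ta (φ g), ev tb (ψ g)) ∈ Submodule.span F2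
      (Set.range fun i => (ev ta (φ (tp (p i))), ev tb (ψ (tp (p i))))) := fun g => by
    have e : (ev ta (φ g), ev tb (ψ g)) = ∑ b, qz (smz B.S b) g • (a b, a' b) +
        ∑ i, qs (p i) g • (ev ta (φ (tp (p i))), ev tb (ψ (tp (p i)))) := by
      refine Prod.ext ((congrFun ha g).trans ?_) ((congrFun ha' g).trans ?_)
      · simp [pat, sp, Prod.fst_sum]
      · simp [pat, sp, Prod.snd_sum]
    rw [e]
    exact add_mem (sum_mem fun b _ => Submodule.smul_mem _ _ (t2 b))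
      (sum_mem fun i _ => Submodule.smul_mem _ _ (Submodule.subset_span ⟨i, rfl⟩))
  obtain ⟨g₁, e1⟩ := Function.ne_iff.1 h3
  obtain ⟨g₂, e2⟩ := Function.ne_iff.1 h4
  obtain ⟨g₃, e3⟩ : ∃ g, ta = tb → φ g ≠ ψ g := by
    by_cases e : ta = tb
    · exact (Function.ne_iff.1 (h5 e)).imp fun _ h _ => h
    · exact ⟨1, fun h => absurd h e⟩
  obtain ⟨u, u1, u2, u3⟩ := typ_alg _ (fun u hu => hm.C v u ▸ t1 0 u hu) ta tb (in1 g₁) (in1 g₃)
    e1 e3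
  refine ⟨ta, tb, v, _, _, hs, ⟨u, u1, _, in1 g₂, u2, u3, (co_ev ..).trans (BasG.one_of_ne e2)⟩,
    fun n => ?_⟩
  rw [co_pat, co_pat, ← ha, ← ha']
  simpa only [co_ev] using hW n

end Pool.Agent.P.MP_8b7eba_nt.QT
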