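import Pool.Agent.P.MP_8b7eba_nt.QT.IfB
import Pool.Agent.P.MP_8b7eba_nt.QT.MBX3
import Pool.Agent.P.MP_8b7eba_nt.QT.MTYP
import Pool.Agent.P.MP_8b7eba_nt.SM.TBOXL
import Pool.Agent.P.MP_8b7eba_nt.SM.TBX2

/-! Bad points are rare. -/

namespace Pool.Agent.P.MP_8b7eba_nt.QT

open Finset R2 SM

theorem card_idx (Δ : Finset ℕ) : Fintype.card (Δ → FF) = 2 ^ (4 * Δ.card) := by
  rw [Fintype.card_fun, Fintype.card_coe, pow_mul]
  rfl

variable [HA]

open Classical in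
/-- the bound for a fixed matrix of symbols -/
theorem bx2q (hBX1 : BX1Q) (Δ : Finset ℕ) (K s : ℕ) (ε : ℝ) (hε : 0 < ε) :
    ∃ A : ℕ, ∀ (r : GQ → O) (B : Box) (i₀ : Fin B.r) (m : (Δ → FF) → Mod (Fin B.r) B.S)
      (w : Fin B.r → Fin B.r → F2) (T y₀ y₁ : ℕ)
      (J : Fin (2 * K + 1) ⊕ Bool → Finset (Fin B.r)) (a : Fin B.r → Fin B.r → F2),
      Bs Δ r → Δ ⊆ B.S → IsMq Δ (cb r) B i₀ m w → 2 ≤ T →
      (T * (B.E + 2) * 2 ^ (B.r + B.S.card + 2)) ^ A ≤ y₀ → y₀ ≤ y₁ → (∀ i, y₀ ≤ B.t i) →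
      (∀ j, ∀ i ∈ J (.inl j), B.t i ≤ y₁) → (∀ j, ∀ i ∈ J (.inr j), y₁ ^ A ≤ B.t i) →
      (∀ j j', j ≠ j' → Disjoint (J j) (J j')) → Thr B J →
      (∀ v, (m v).ns i₀ (a + w) ≤ 2 ^ s ∧ ∀ α R, (m v).Sol i₀ (a + w) α R → (m v).Typ J α R) →
      ((B.pts.filter fun p => Leg p = a ∧ Bad r (B.set p) (p i₀)).card : ℝ) ≤
        2 ^ (s + 4 * Δ.card + 2) *
          (((2 ^ K)⁻¹ + ε) * (B.pts.filter fun p => Leg p = a).card + 2 / T * B.pts.card) := by
  obtain ⟨A, hA⟩ := hBX1 K (s + 4 * Δ.card + 3) ε hε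
  refine ⟨A, fun r B i₀ m w T y₀ y₁ J a hr hΔ hm hT hbig hle ht0 hlow hhigh hdj hthr hG => ?_⟩
  generalize hβ : (((2 ^ K)⁻¹ + ε) * (B.pts.filter fun p => Leg p = a).card +
    2 / T * B.pts.card : ℝ) = β
  have hβ0 : 0 ≤ β := by rw [← hβ]; positivity
  let F : Bool → Bool → (Fin 4 ⊕ B.S → FF) × (Fin B.r → FF) → Finset (Fin B.r → ℕ) :=
    fun ta tb σ => B.pts.filter fun p => Leg p = a ∧ (∃ u ∈ Submodule.span F2 (Set.range σ.2),
      ∃ u' ∈ Submodule.span F2 (Set.range σ.2),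
        co ta u.1 = 1 ∧ co tb u.2 = 0 ∧ co tb u'.2 = 1) ∧
      WK true (tw (ty ta r) (B.set p)) (B.set p) (2 * K + 2)
        (pat1 (fun g => co ta (sp B.S (fun b => (σ.1 b).1) g)) (fun i => co ta (σ.2 i).1) p) ∧
      WK false (tw (ty tb r) (B.set p)) (B.set p) (2 * K + 2)
        (pat1 (fun g => co tb (sp B.S (fun b => (σ.1 b).2) g)) (fun i => co tb (σ.2 i).2) p)
  have hF : ∀ ta tb v (σ : (Fin 4 ⊕ B.S → FF) × (Fin B.r → FF)), (m v).Sol i₀ (a + w) σ.1 σ.2 →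
      ((F ta tb σ).card : ℝ) ≤ β := by
    rintro ta tb v ⟨α, R⟩ hs
    rcases (F ta tb (α, R)).eq_empty_or_nonempty with h | ⟨p₀, h⟩
    · rwa [h, card_empty, Nat.cast_zero]
    obtain ⟨hp₀, hl₀, ⟨u, hu, u', hu', h0, h1, h2⟩, -⟩ := mem_filter.1 h
    have h3 : ∀ j : Fin (2 * K + 1) ⊕ Bool, ∃ i ∈ J j,
        R i = Sum.elim (fun _ => 0) (fun b => bif b then u' else u) j := by
      rintro (j | _ | _)
      · exact ((hG v).2 α R hs).2.2 _ _ (Submodule.zero_mem _)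
      · exact ((hG v).2 α R hs).2.2 _ _ hu
      · exact ((hG v).2 α R hs).2.2 _ _ hu'
    choose i hi hR using h3
    let 𝒯 : Stq (2 * K + 1) (s + 4 * Δ.card + 3) :=
      { B := B
        a := a
        e := TBX2.emb hdj i hi
        sy := ⟨p₀, hp₀, hl₀⟩
        r := r
        t := fun b => bif b then ta else tb
        Δ := Δ
        φ := fun b => bif b then fun g => co ta (sp B.S (fun c => (α c).1) g)
          else fun g => co tb (sp B.S (fun c => (α c).2) g)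
        R := fun b => bif b then fun j => co ta (R j).1 else fun j => co tb (R j).2
        bs := hr
        hΔ := hΔ
        φ0 := by
          rintro (_ | _) j q hq <;> exact (congrArg _ (sp_tp_X _ hq)).trans (co_zero _)
        lo := by
          rintro (_ | _) j
          · exact (congrArg (fun x : FF => co tb x.2) (hR (.inl j))).trans (co_zero _)
          · exact (congrArg (fun x : FF => co ta x.1) (hR (.inl j))).trans (co_zero _)
        ra := by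
          rintro (_ | _)
          · exact (congrArg (fun x : FF => co tb x.2) (hR (.inr false))).trans h1
          · exact (congrArg (fun x : FF => co ta x.1) (hR (.inr false))).trans h0
        rb := (congrArg (fun x : FF => co tb x.2) (hR (.inr true))).trans h2
        y3 := hthr _ (hi (.inr true))
        sel := fun p hp hl => by
          have h4 := (hm.sol p hp α R).1 ⟨v, hl ▸ hs⟩
          obtain ⟨C, h5, h6⟩ := normq hr.uc hΔ hm hp
          refine ⟨?_, C, h5.trans ?_, h6⟩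
          · rintro (_ | _) <;> rw [hr.toCy.cb_ty]
            · exact co_pat tb .. ▸ h4.2.2.co tb
            · exact co_pat ta .. ▸ h4.2.1.co ta
          · have := sum_le_card_nsmul univ _ _ fun v _ => (hG v).1
            rw [card_univ, card_idx, smul_eq_mul, ← pow_add, add_comm (4 * Δ.card)] at this
            rw [hl, pow_add]
            omega }
    have h7 := hA 𝒯 T y₀ y₁ ⟨hT, hbig, hle, ht0, fun j => hlow j _ (hi (.inl j)),
      hhigh false _ (hi (.inr false)), hhigh true _ (hi (.inr true))⟩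
    refine le_trans ?_ (h7.trans_eq hβ)
    refine Nat.cast_le.2 (card_le_card fun p hp => ?_)
    obtain ⟨h8, h9, -, h10, h11⟩ := mem_filter.1 hp
    refine mem_filter.2 ⟨h8, h9, ?_⟩
    rintro (_ | _)
    exacts [h11, h10]
  let U : (Bool × Bool) × (Δ → FF) → Finset (Fin B.r → ℕ) := fun z =>
    B.pts.filter fun p => ∃ σ : (Fin 4 ⊕ B.S → FF) × (Fin B.r → FF),
      (m z.2).Sol i₀ (a + w) σ.1 σ.2 ∧ p ∈ F z.1.1 z.1.2 σ
  have hU : ∀ z ∈ univ, ((U z).card : ℝ) ≤ (2 ^ s : ℕ) * β := fun z _ =>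
    TBX2.cover (m z.2) i₀ _ _ (F z.1.1 z.1.2) β _ (hG _).1 hβ0 (hF _ _ _)
      fun p hp => (mem_filter.1 hp).2
  refine (Nat.cast_le.2 ((card_le_card (t := univ.biUnion U) fun p hp => ?_).trans
    card_biUnion_le)).trans ?_
  · obtain ⟨h1, h2, h3⟩ := mem_filter.1 hp
    subst h2
    obtain ⟨ta, tb, v, α, R, h4, h5, h6⟩ := typq hr hm h1 h3 fun v => (hG v).2
    exact mem_biUnion.2 ⟨((ta, tb), v), mem_univ _, mem_filter.2
      ⟨h1, (α, R), h4, mem_filter.2 ⟨h1, rfl, h5, h6 (2 * K + 1)⟩⟩⟩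
  rw [Nat.cast_sum]
  refine (sum_le_card_nsmul _ _ _ hU).trans_eq ?_
  rw [card_univ, Fintype.card_prod, card_idx, Fintype.card_prod, Fintype.card_bool, nsmul_eq_mul]
  push_cast
  ring

theorem t_BOXQ (hBX1 : BX1Q) : BOXQ := by
  classical
  intro Δ ε hε
  obtain ⟨s₀, hs⟩ := bx3q (ε / 2 / 2 ^ (4 * Δ.card)) (by positivity)
  obtain ⟨s, hs₀⟩ : ∃ s, s = s₀ + 4 * Δ.card + 2 := ⟨_, rfl⟩
  have h2s : (0 : ℝ) < 2 ^ s := by positivity
  have hε' : 0 < ε / (8 * 2 ^ s) := by positivity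
  obtain ⟨K, hK⟩ := exists_pow_lt_of_lt_one hε' (show (2⁻¹ : ℝ) < 1 by norm_num)
  obtain ⟨A₁, hA₁⟩ := bx2q hBX1 Δ K s₀ _ hε'
  rw [← hs₀] at hA₁
  obtain ⟨l, A₂, N, h3⟩ := hs (2 * K + 1)
  obtain ⟨T₁, hT₁⟩ := exists_nat_ge (8 * 2 ^ s / ε)
  refine ⟨2 * K + 1, max l 1, (T₁ + 2 + 1) * A₁ + A₂, N, le_max_right _ _, ?_⟩
  intro r B y₀ y₁ J₀ J i₀ hr hΔ hR hthr
  obtain ⟨m, w, hm⟩ := exists_mq hr.uc hΔ i₀
  have e3 := fun v => h3 B (m v) w y₀ y₁ J₀ J i₀ (hm.κ v)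
    (TBOXL.mono hR (le_max_left _ _) (Nat.le_add_left _ _))
  have hR1 := TBOXL.mono hR le_rfl (Nat.le_add_right ((T₁ + 2 + 1) * A₁) A₂)
  have hT : 2 ≤ 2 ^ B.r ^ 2 * (T₁ + 2) :=
    le_trans (Nat.le_add_left 2 T₁) (Nat.le_mul_of_pos_left _ (by positivity))
  have hb : (2 ^ B.r ^ 2 * (T₁ + 2) * (B.E + 2) * 2 ^ (B.r + B.S.card + 2)) ^ A₁ ≤ y₀ := by
    refine le_trans (Nat.pow_le_pow_left (TBOXL.num B (T₁ + 2)) _) ?_
    rw [← pow_mul]
    exact hR1.big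
  have hh : ∀ j, ∀ i ∈ J (.inr j), y₁ ^ A₁ ≤ B.t i := fun j i hi =>
    le_trans (Nat.pow_le_pow_right (TBOXL.one_le hR) (Nat.le_mul_of_pos_left _ (by omega)))
      (hR1.high j i hi)
  have e2 := fun a => hA₁ r B i₀ m w _ y₀ y₁ J a hr hΔ hm hT hb hR.le hR.t0 hR.low hh hR.dj hthr
  set G : (Fin B.r → Fin B.r → F2) → Prop := fun a => ∀ v, (m v).ns i₀ (a + w) ≤ 2 ^ s₀ ∧
    ∀ α R, (m v).Sol i₀ (a + w) α R → (m v).Typ J α R with hG
  have e1 := TBOXL.split B.pts Leg G fun p => Bad r (B.set p) (p i₀)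
  have e4 := TBOXL.fib B.pts Leg G
  have hc : ((univ.filter G).card : ℝ) ≤ 2 ^ B.r ^ 2 := by
    have : (univ.filter G).card ≤ 2 ^ B.r ^ 2 := by
      refine (card_le_univ _).trans_eq ?_
      simp [← pow_mul, sq]
    exact_mod_cast this
  have hP : (0 : ℝ) ≤ B.pts.card := Nat.cast_nonneg _
  have e5 : ∑ a ∈ univ.filter G,
      ((B.pts.filter fun p => Leg p = a ∧ Bad r (B.set p) (p i₀)).card : ℝ) ≤
      ε / 2 * B.pts.card := by
    refine le_trans (sum_le_sum fun a ha => e2 a (mem_filter.1 ha).2) ?_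
    rw [← mul_sum, sum_add_distrib, ← mul_sum, sum_const, nsmul_eq_mul]
    have a1 : ((2 : ℝ) ^ K)⁻¹ + ε / (8 * 2 ^ s) ≤ ε / (4 * 2 ^ s) := by
      rw [inv_pow] at hK
      have : ε / (4 * 2 ^ s) = ε / (8 * 2 ^ s) + ε / (8 * 2 ^ s) := by field_simp; norm_num
      linarith
    have a2 : (2 : ℝ) ^ B.r ^ 2 * (2 / ((2 ^ B.r ^ 2 * (T₁ + 2) : ℕ) : ℝ)) ≤ ε / (4 * 2 ^ s) := by
      push_cast
      rw [div_le_iff₀ hε] at hT₁
      rw [← mul_div_assoc, mul_div_mul_left _ _ (by positivity), div_le_div_iff₀ (by positivity)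
        (by positivity)]
      nlinarith
    have a3 : (((2 : ℝ) ^ K)⁻¹ + ε / (8 * 2 ^ s)) *
        ∑ a ∈ univ.filter G, ((B.pts.filter fun p => Leg p = a).card : ℝ) ≤
        ε / (4 * 2 ^ s) * B.pts.card :=
      mul_le_mul a1 e4 (sum_nonneg fun _ _ => Nat.cast_nonneg _) (by positivity)
    have a4 : ((univ.filter G).card : ℝ) *
        (2 / ((2 ^ B.r ^ 2 * (T₁ + 2) : ℕ) : ℝ) * B.pts.card) ≤ ε / (4 * 2 ^ s) * B.pts.card := by
      rw [← mul_assoc]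
      exact mul_le_mul_of_nonneg_right
        (le_trans (mul_le_mul_of_nonneg_right hc (by positivity)) a2) hP
    refine le_trans (mul_le_mul_of_nonneg_left (add_le_add a3 a4) h2s.le) (le_of_eq ?_)
    field_simp
    ring
  have e6 : ((B.pts.filter fun p => Bad r (B.set p) (p i₀)).card : ℝ) ≤
      (B.pts.filter fun p => ¬ G (Leg p)).card + ∑ a ∈ univ.filter G,
      ((B.pts.filter fun p => Leg p = a ∧ Bad r (B.set p) (p i₀)).card : ℝ) := by
    exact_mod_cast e1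
  have e7 : ((B.pts.filter fun p => ¬ G (Leg p)).card : ℝ) ≤ ε / 2 * B.pts.card := by
    refine (Nat.cast_le.2 ((card_le_card (t := univ.biUnion fun v => B.pts.filter fun p =>
      ¬ ((m v).ns i₀ (Leg p + w) ≤ 2 ^ s₀ ∧ ∀ α R, (m v).Sol i₀ (Leg p + w) α R →
        (m v).Typ J α R)) fun p hp => ?_).trans card_biUnion_le)).trans ?_
    · obtain ⟨h1, h2⟩ := mem_filter.1 hp
      obtain ⟨v, hv⟩ := not_forall.1 h2
      exact mem_biUnion.2 ⟨v, mem_univ _, mem_filter.2 ⟨h1, hv⟩⟩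
    rw [Nat.cast_sum]
    refine (sum_le_card_nsmul _ _ (ε / 2 / 2 ^ (4 * Δ.card) * B.pts.card)
      fun v _ => by convert e3 v).trans_eq ?_
    rw [card_univ, card_idx, nsmul_eq_mul]
    push_cast
    field_simp
  linarith

end Pool.Agent.P.MP_8b7eba_nt.QT
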