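import Pool.Agent.P.MP_8b7eba_nt.QT.DefG

/-! The main blocks of the project QT. -/

namespace Pool.Agent.P.MP_8b7eba_nt.QT

open Finset R2 SM

/-- from the Selmer group of the curve to cocycles with values in a lattice -/
def CURVE : Prop :=
  ∀ (D₀ : ℤ) (Δ : Finset ℕ), D₀ ≠ 0 → (∀ p ∈ Δ, Gp p) →
    (∀ p : ℕ, p.Prime → (p : ℤ) ∣ D₀ → p ∣ 30 ∨ p ∈ Δ) →
    ∃ r, Bs Δ r ∧ ∀ S : Finset ℕ, (∀ p ∈ S, Gp p) → Disjoint Δ S →
      Big (D₀ * ∏ p ∈ S, ps p) → Two (tw r (Δ ∪ S)) (Δ ∪ S)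

/-- from two independent classes to a relaxed and a strict character -/
def RED : Prop :=
  ∀ (Δ : Finset ℕ) (r : GQ → O) (S : Finset ℕ) (p₀ : ℕ), Bs Δ r → Δ ⊆ S → (∀ p ∈ S, Gp p) →
    p₀ ∈ S → p₀ ∉ Δ → Two (tw r S) S → Bad r S p₀

open Classical in
/-- a property which is rare in regular boxes has density zero -/
def ANAQ : Prop :=
  ∀ Bad, BoxQ Bad → ∀ ε : ℝ, 0 < ε → ∃ X₀ : ℕ, ∀ X, X₀ ≤ X →
    (((Icc 1 X).filter fun n => Squarefree n ∧ n.Coprime 30 ∧ Bad n.primeFactors).card : ℝ) ≤ ε * X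

open Classical in
/-- bad points are rare -/
def BOXQ : Prop :=
  ∀ (Δ : Finset ℕ) (ε : ℝ), 0 < ε → ∃ K l A N : ℕ, 1 ≤ l ∧ ∀ (r : GQ → O) (B : Box) (y₀ y₁ : ℕ)
    (J₀ : Finset (Fin B.r)) (J : Fin K ⊕ Bool → Finset (Fin B.r)) (i₀ : Fin B.r), Bs Δ r →
    Δ ⊆ B.S → B.Reg K l A N y₀ y₁ J₀ J → Thr B J →
    ((B.pts.filter fun p => Bad r (B.set p) (p i₀)).card : ℝ) ≤ ε * B.pts.card

open Classical in
/-- the twists with two independent classes have density zero -/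
def DENSQ : Prop :=
  ∀ (Δ : Finset ℕ) (r : GQ → O), Bs Δ r → ∀ ε : ℝ, 0 < ε → ∃ X₀ : ℕ, ∀ X, X₀ ≤ X →
    (((Icc 1 X).filter fun n => Squarefree n ∧ n.Coprime 30 ∧ Δ ⊆ n.primeFactors ∧
      Two (tw r n.primeFactors) n.primeFactors).card : ℝ) ≤ ε * X

end Pool.Agent.P.MP_8b7eba_nt.QT
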