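import Pool.Agent.P.MP_8b7eba_nt.QT.R3
import Pool.Agent.P.MP_8b7eba_nt.QT.IfQ

/-! Proof of RED. -/

namespace Pool.Agent.P.MP_8b7eba_nt.QT

open Finset R2 SM QuadraticAlgebra

variable {ρ ρ' x y : GQ → O} {t : GQ} {S : Finset ℕ} {o a b : Bool} {α : O} {j : ℕ}

namespace R4x

/-- exact global cocycles which vanish at `t` -/
structure Gd (o : Bool) (ρ : GQ → O) (S : Finset ℕ) (t : GQ) (x : GQ → O) : Prop where
  zu : ∀ n, Zu ρ S n x
  ex : Ex o ρ (pl 2).D x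
  z : x t = 0

theorem gd_pow (hr : Rl α ρ ρ') (hα : Al j α) (e : ∀ g, x g = α * y g) :
    Gd o ρ S t x ↔ Gd o ρ' S t y :=
  ⟨fun h => ⟨fun _ => (zu_pow hr hα e).1 (h.zu _), (ex_pow hr hα fun g _ => e g).1 h.ex,
      (mul_eq_zero.1 ((e t).symm.trans h.z)).resolve_left hα.ne⟩,
    fun h => ⟨fun n => ((zu_pow hr hα e).2 (h.zu n)).mono (by omega),
      (ex_pow hr hα fun g _ => e g).2 h.ex, by rw [e, h.z, mul_zero]⟩⟩

theorem Gd.comb (hx : Gd o ρ S t x) (hy : Gd o ρ S t y) (c d : Z2) :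
    Gd o ρ S t fun g => c • x g + d • y g :=
  ⟨fun n => ((hx.zu n).smul c).add ((hy.zu n).smul d), (hx.ex.smul c).add (hy.ex.smul d),
    by simp [hx.z, hy.z]⟩

theorem step (a : Bool) (ρ : GQ → O) (h : ∀ g, rd (x g) = 0) :
    ∃ (α : O) (y : GQ → O), Al 1 α ∧ Rl α (ty a ρ) (ty (!a) ρ) ∧ ∀ g, x g = α * y g := by
  obtain ⟨α, h1, h2⟩ := rl_not a ρ
  choose y hy using fun g => h1.dvd.2 (rd_eq_zero.1 (h g))
  exact ⟨α, y, h1, h2, hy⟩

theorem prim (a : Bool) (ρ : GQ → O) (h : ∃ g, x g ≠ 0) : ∃ b j α, ∃ y : GQ → O, Al j α ∧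
    Rl α (ty a ρ) (ty b ρ) ∧ (∀ g, x g = α * y g) ∧ ∃ g, rd (y g) = 1 := by
  obtain ⟨g, hg⟩ := h
  obtain ⟨n, hn⟩ : ∃ n, ¬ Dv n (x g) := not_forall.1 (mt eq_zero_of_dv hg)
  induction n generalizing x a with
  | zero => exact absurd (dv_nil _) hn
  | succ n ih =>
    by_cases h1 : ∀ g, rd (x g) = 0
    · obtain ⟨α, y, h2, h3, h4⟩ := step a ρ h1
      obtain ⟨b, j, β, z, h5, h6, h7, h8⟩ := ih (x := y) (!a)
        (fun e => hg (by rw [h4, e, mul_zero])) fun e => hn (by rwa [h4, add_comm, h2.dv_mul])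
      exact ⟨b, _, _, z, h2.mul h5, h3.mul h6, fun g => by rw [h4, h7, mul_assoc], h8⟩
    · obtain ⟨k, hk⟩ := not_forall.1 h1
      exact ⟨a, 0, 1, x, al_one, rl_one _, fun g => (one_mul _).symm, k, (f2 _).resolve_left hk⟩

variable [HA]

theorem real (hρ : Cy ρ) (h : Rl α ρ ρ) : α.im = 0 := by
  have h1 := congrArg QuadraticAlgebra.im (mul_left_cancel₀ (hρ.unit tau).ne_zero (h tau))
  rw [cj, eps_tau, cs_one] at h1
  simp only [im_star] at h1
  exact (mul_eq_zero.1 (show 2 * α.im = 0 by linear_combination h1)).resolve_left two_ne_zero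

theorem sat (hρ : Cy ρ) (hx : Gd true (ty b ρ) S t x) (hy : Gd true (ty b ρ) S t y) {g : GQ}
    (hg : rd (y g) = 1) (hi : ∀ c d : Z2, (∀ g, c • x g + d • y g = 0) → c = 0) :
    ∃ a z, Gd true (ty a ρ) S t z ∧ (∃ g, rd (z g) = 1) ∧
      (a = b → ∃ g, rd (z g) ≠ rd (y g)) := by
  have h0 : nr (y g) ≠ 0 := fun e => by simp [nr_eq_zero.1 e, rd_zero] at hg
  obtain ⟨a, j, α, z, h1, h2, h3, h4⟩ := prim
    (x := fun k => nr (y g) • x k + -(star (y g) * x g).re • y k) b ρ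
    (not_forall.1 fun e => h0 (hi _ _ e))
  have h5 := (gd_pow h2 h1 h3).1 (hx.comb hy _ _)
  by_cases h6 : a = b → ∃ g, rd (z g) ≠ rd (y g)
  · exact ⟨a, z, h5, h4, h6⟩
  push Not at h6
  obtain ⟨rfl, h6⟩ := h6
  obtain ⟨β, u, h7, h8, h9⟩ := step (x := fun k => (1 : Z2) • z k + (-1 : Z2) • y k) a ρ
    fun k => by simp [rd_add, rd_neg, h6, CharTwo.add_self_eq_zero]
  refine ⟨!a, u, (gd_pow h8 h7 h9).1 (h5.comb hy _ _), ⟨g, (f2 _).resolve_left fun e => ?_⟩,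
    fun e => absurd e (by simp)⟩
  have k1 := real (hρ.ty a) h2
  have k2 : α.re ≠ 0 := fun e => h1.ne (by ext <;> simp [e, k1])
  have k3 : (star (y g) * z g).re = 0 := by
    have := congrArg (fun s => (star (y g) * s).re) (h3 g)
    refine mul_left_cancel₀ k2 ?_
    simp only [k1, nr, re_mul, re_add, im_add, im_mul, re_smul, im_smul, re_star, im_star,
      smul_eq_mul] at this ⊢
    linear_combination -this
  have k4 := (dv_two_iff (n := 1).1
    ((h9 g ▸ h7.dv_mul.2 (rd_eq_zero.1 e) :).mul_left (star (y g)))).1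
  rw [one_smul, neg_smul, one_smul, mul_add, re_add, k3, zero_add, mul_neg, mul_comm, mul_star_eq,
    re_neg, dvd_neg, ← BasY.dvd_iff1] at k4
  rw [← rd_nr] at hg
  simp [hg] at k4

end R4x

open R4x

variable [HA]

theorem t_RED : RED := by
  intro Δ r S p hr hΔ hS hp hp' h
  have hρ := hr.tw hΔ hS
  have c := hρ.toCy
  obtain ⟨X, Y, x1, y1, x2, y2, hi⟩ :=
    two_lim hρ (eps_tp (hS p hp).1 (hS p hp).ne.1) (hr.ram hS hp hp') h
  obtain ⟨a, b, h1, h2⟩ := str_two hρ x1 y1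
  have gx : Gd true (tw r S) S (tp p) X := ⟨x1, ex_true fun n => (x1 n).zn.res _, x2⟩
  have gy : Gd true (tw r S) S (tp p) Y := ⟨y1, ex_true fun n => (y1 n).zn.res _, y2⟩
  obtain ⟨x, gx', hx⟩ : ∃ x, Gd true (tw r S) S (tp p) x ∧
      ∀ c d : Z2, (∀ g, c • x g + d • (a • X g + b • Y g) = 0) → c = 0 := by
    by_cases e : a = 0
    · refine ⟨X, gx, fun c d h3 => (hi c (d * b) fun g => ?_).1⟩
      simpa [e, mul_smul] using h3 g
    · refine ⟨Y, gy, fun c d h3 => ?_⟩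
      obtain ⟨h4, h5⟩ := hi (d * a) (c + d * b) fun g => by
        rw [← h3 g, add_smul, mul_smul, mul_smul, smul_add]
        abel
      simpa [(mul_eq_zero.1 h4).resolve_right e] using h5
  obtain ⟨β, j, α, y, h3, h4, h5, g, h6⟩ := prim (x := fun g => a • X g + b • Y g) false (tw r S)
    (not_forall.1 fun e => h1 (hi a b e))
  rw [ty_false] at h4
  have h7 : Gd false _ S (tp p) y := (gd_pow h4 h3 h5).1 ⟨(gx.comb gy a b).zu, h2, by simp [x2, y2]⟩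
  obtain ⟨γ, z, h8, ⟨k, h9⟩, h10⟩ := sat c ((gd_pow (x := fun g => star α * x g) h4.symm h3.star
    fun _ => rfl).2 gx') ⟨h7.zu, h7.ex.relax, h7.z⟩ h6 fun c d e =>
    (mul_eq_zero.1 (hx (c * nr α) d fun g => by
      rw [h5 g, ← mul_zero α, ← e g, mul_add, mul_smul_comm, mul_smul_comm, ← mul_assoc,
        mul_star_eq, smul_mul_assoc, one_mul, mul_smul])).resolve_right (mt nr_eq_zero.1 h3.ne)
  refine ⟨γ, β, fun g => rd (z g), fun g => rd (y g), fun n => ?_, by simp [h8.z, rd_zero],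
    by simp [h7.z, rd_zero], fun e => ?_, fun e => ?_, fun e e' => ?_⟩
  · rw [tw_ty, tw_ty]
    exact ⟨⟨z, wn_of (hρ.ty γ) h8.zu h8.ex _, fun _ => rfl⟩,
      ⟨y, wn_of (hρ.ty β) h7.zu h7.ex _, fun _ => rfl⟩⟩
  · exact one_ne_zero (h9.symm.trans (congrFun e k))
  · exact one_ne_zero (h6.symm.trans (congrFun e g))
  · obtain ⟨g, hg⟩ := h10 e
    exact hg (congrFun e' g)

end Pool.Agent.P.MP_8b7eba_nt.QT
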