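import Pool.Agent.P.MP_8b7eba_nt.QT.TSTP3

/-! The iteration of the halving inequality. -/

namespace Pool.Agent.P.MP_8b7eba_nt.QT

open Finset R2 SM

variable {k K s : ℕ}

theorem card_split {α Γ : Type} [Fintype Γ] [DecidableEq Γ] (t : Finset α) (f : α → Prop)
    (c : α → Γ) [DecidablePred f] [∀ κ, DecidablePred fun a => f a ∧ c a = κ] :
    ∑ κ, ((t.filter fun a => f a ∧ c a = κ).card : ℝ) = (t.filter f).card := by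
  rw [card_eq_sum_card_fiberwise (f := c) (s := t.filter f) (t := univ) fun _ _ => mem_univ _,
    Nat.cast_sum]
  refine sum_congr rfl fun κ _ => ?_
  rw [filter_filter]
  congr

open Classical in
theorem split_le {α Γ : Type} [Fintype Γ] (t : Finset α) (f₁ f₀ g : α → Prop) (c : α → Γ)
    [DecidablePred g] (ε x : ℝ) (h : ∀ κ, ((t.filter fun a => f₁ a ∧ c a = κ).card : ℝ) ≤
      (t.filter fun a => f₀ a ∧ c a = κ).card / 2 +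
        ε * (t.filter fun a => g a ∧ c a = κ).card + x) :
    ((t.filter f₁).card : ℝ) ≤
      (t.filter f₀).card / 2 + ε * (t.filter g).card + Fintype.card Γ * x := by
  have h := sum_le_sum fun κ (_ : κ ∈ univ) => h κ
  rwa [sum_add_distrib, sum_add_distrib, ← Finset.sum_div, ← mul_sum, sum_const, card_univ,
    card_split, card_split, card_split, nsmul_eq_mul] at h

theorem Geo.Num.pos {𝒯 : Geo k} {A T y₀ y₁ : ℕ} (hN : 𝒯.Num A T y₀ y₁) :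
    0 < T * (𝒯.B.E + 2) * 2 ^ (𝒯.B.r + 𝒯.B.S.card + 2) ∧ 0 < y₁ := by
  have h2 := hN.two
  have h1 : 0 < T * (𝒯.B.E + 2) * 2 ^ (𝒯.B.r + 𝒯.B.S.card + 2) := by positivity
  exact ⟨h1, ((pow_pos h1 A).trans_le hN.big).trans_le hN.le⟩

theorem Geo.Num.mul {𝒯 : Geo k} {A c n T y₀ y₁ : ℕ} (hN : 𝒯.Num ((c + 1) * A) T y₀ y₁)
    (h0 : 0 < n) (hn : n ≤ (2 ^ (𝒯.B.r + 𝒯.B.S.card + 2)) ^ c) : 𝒯.Num A (T * n) y₀ y₁ := by
  have hA : A ≤ (c + 1) * A := Nat.le_mul_of_pos_left _ (Nat.succ_pos c)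
  have h2 := hN.two
  refine ⟨h2.trans (Nat.le_mul_of_pos_right _ h0), le_trans ?_ hN.big, hN.le, hN.t0, hN.low,
    (Nat.pow_le_pow_right hN.pos.2 hA).trans hN.ha, (Nat.pow_le_pow_right hN.pos.2 hA).trans hN.hb⟩
  rw [pow_mul]
  refine Nat.pow_le_pow_left ?_ _
  have h3 : n ≤ (T * (𝒯.B.E + 2) * 2 ^ (𝒯.B.r + 𝒯.B.S.card + 2)) ^ c :=
    hn.trans (Nat.pow_le_pow_left (Nat.le_mul_of_pos_left _ (by positivity)) _)
  calc T * n * (𝒯.B.E + 2) * 2 ^ (𝒯.B.r + 𝒯.B.S.card + 2)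
      = n * (T * (𝒯.B.E + 2) * 2 ^ (𝒯.B.r + 𝒯.B.S.card + 2)) := by ring
    _ ≤ _ := by rw [pow_succ]; exact Nat.mul_le_mul_right _ h3

theorem Geo.fib (𝒯 : Geo k) (f : (Fin 𝒯.B.r → ℕ) → Prop) [i₁ : DecidablePred f]
    [i₂ : ∀ p, DecidablePred fun z : (Option (Fin k) → ℕ) × ℕ => f (asm 𝒯.e p z.1 z.2)] [HA] :
    ∑ p ∈ 𝒯.B.pts,
      (((Fintype.piFinset 𝒯.X ×ˢ 𝒯.Y).filter fun z => f (asm 𝒯.e p z.1 z.2)).card : ℝ) =
      (∏ i, ((𝒯.X i).card : ℝ)) * 𝒯.Y.card * (𝒯.B.pts.filter f).card := by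
  have h : ∑ p ∈ 𝒯.B.pts,
      ((Fintype.piFinset 𝒯.X ×ˢ 𝒯.Y).filter fun z => f (asm 𝒯.e p z.1 z.2)).card =
      (∏ i, (𝒯.X i).card) * 𝒯.Y.card * (𝒯.B.pts.filter f).card := by
    obtain rfl : i₁ = fun a => Classical.propDecidable _ := Subsingleton.elim _ _
    obtain rfl : i₂ = fun a b => Classical.propDecidable _ := Subsingleton.elim _ _
    exact a_FIB (Option (Fin k)) 𝒯.B.r 𝒯.B.X 𝒯.e f
  exact_mod_cast h

/-- restriction to fewer coordinates -/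
def Stq.res (𝒯 : Stq K s) (h : k ≤ K) : Stq k s where
  B := 𝒯.B
  a := 𝒯.a
  e := ((Fin.castLEEmb h).optionMap.optionMap).trans 𝒯.e
  sy := 𝒯.sy
  r := 𝒯.r
  t := 𝒯.t
  Δ := 𝒯.Δ
  φ := 𝒯.φ
  R := 𝒯.R
  bs := 𝒯.bs
  hΔ := 𝒯.hΔ
  φ0 := 𝒯.φ0
  lo := fun β i => 𝒯.lo β (Fin.castLE h i)
  ra := 𝒯.ra
  rb := 𝒯.rb
  y3 := 𝒯.y3
  sel := 𝒯.sel

theorem Stq.num_res {𝒯 : Stq K s} (h : k ≤ K) {A A' T y₀ y₁ : ℕ} (hN : 𝒯.Num A T y₀ y₁)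
    (hA : A' ≤ A) : (𝒯.res h).Num A' T y₀ y₁ :=
  ⟨hN.two, (Nat.pow_le_pow_right hN.pos.1 hA).trans hN.big, hN.le, hN.t0,
    fun i => hN.low (Fin.castLE h i), (Nat.pow_le_pow_right hN.pos.2 hA).trans hN.ha,
    (Nat.pow_le_pow_right hN.pos.2 hA).trans hN.hb⟩

theorem Stq.W.mono {𝒯 : Stq k s} {m n : ℕ} {p : Fin 𝒯.B.r → ℕ} (h : 𝒯.W n p) (hm : m ≤ n) :
    𝒯.W m p := ⟨h.1, fun β => (h.2 β).mono hm⟩

variable [HA]

open Classical in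
theorem stp3 (k s : ℕ) {ε : ℝ} (hk : 2 ≤ k) (hε : 0 < ε) : ∃ A : ℕ, ∀ (𝒯 : Stq k s)
    (T y₀ y₁ : ℕ), Par k (𝒯.t true) (𝒯.t false) → 𝒯.Num A T y₀ y₁ → ∀ p ∈ 𝒯.B.pts,
      (((Fintype.piFinset 𝒯.X ×ˢ 𝒯.Y).filter fun z => 𝒯.W (k + 1) (asm 𝒯.e p z.1 z.2)).card : ℝ) ≤
        ((Fintype.piFinset 𝒯.X ×ˢ 𝒯.Y).filter fun z => 𝒯.W k (asm 𝒯.e p z.1 z.2)).card / 2 +
        ε * ((Fintype.piFinset 𝒯.X ×ˢ 𝒯.Y).filter fun z => Leg (asm 𝒯.e p z.1 z.2) = 𝒯.a).card +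
        (T : ℝ)⁻¹ * (∏ i, ((𝒯.X i).card : ℝ)) * 𝒯.Y.card := by
  obtain ⟨A, hA⟩ := stp3c k s hk hε
  refine ⟨(10 * (k + 1) + 1) * A, fun 𝒯 T y₀ y₁ par hN p hp => ?_⟩
  obtain ⟨cl, hcl⟩ := cls (𝒯.P p) fun q hq => (Geo.mem_P hp hq).1
  obtain ⟨n, hn⟩ : ∃ n, n =
    Fintype.card (Option (Fin k) → Option (↥(𝒯.P p ∪ T30) × Fin 3) → Fin 4) := ⟨_, rfl⟩
  have n0 : 0 < n := hn ▸ Fintype.card_pos
  have n1 : n ≤ (2 ^ (𝒯.B.r + 𝒯.B.S.card + 2)) ^ (10 * (k + 1)) := by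
    have h1 : (𝒯.P p ∪ T30).card ≤ 𝒯.B.r + 𝒯.B.S.card + 3 :=
      (card_union_le _ _).trans (Nat.add_le_add (𝒯.card_P p) (by unfold T30; exact card_le_three))
    simp only [hn, Fintype.card_fun, Fintype.card_option, Fintype.card_fin, Fintype.card_prod,
      Fintype.card_coe]
    rw [pow_mul]
    refine Nat.pow_le_pow_left ?_ _
    rw [show 4 = 2 ^ 2 from rfl, ← pow_mul, ← pow_mul]
    exact Nat.pow_le_pow_right two_pos (by omega)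
  have h := split_le (Fintype.piFinset 𝒯.X ×ˢ 𝒯.Y) (fun z => 𝒯.W (k + 1) (asm 𝒯.e p z.1 z.2))
    (fun z => 𝒯.W k (asm 𝒯.e p z.1 z.2)) (fun z => Leg (asm 𝒯.e p z.1 z.2) = 𝒯.a)
    (fun z o => cl (z.1 o)) ε (((T * n : ℕ) : ℝ)⁻¹ * (∏ i, ((𝒯.X i).card : ℝ)) * 𝒯.Y.card)
    fun κ => hA 𝒯 (T * n) y₀ y₁ par (hN.mul n0 n1) p hp (fun z => (fun o => cl (z o)) = κ)
      fun q ar hq => hcl q ar fun i j =>
        (congrFun (hq fun _ => j) i).trans (congrFun (hq fun _ => 0) i).symm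
  rw [← hn] at h
  have : (n : ℝ) ≠ 0 := Nat.cast_ne_zero.2 n0.ne'
  refine h.trans_eq (congrArg _ ?_)
  rw [Nat.cast_mul, mul_inv]
  field_simp

open Classical in
theorem step (k s : ℕ) {ε : ℝ} (hk : 2 ≤ k) (hε : 0 < ε) : ∃ A : ℕ, ∀ (𝒯 : Stq k s)
    (T y₀ y₁ : ℕ), Par k (𝒯.t true) (𝒯.t false) → 𝒯.Num A T y₀ y₁ →
    ((𝒯.B.pts.filter (𝒯.W (k + 1))).card : ℝ) ≤ (𝒯.B.pts.filter (𝒯.W k)).card / 2 +
      ε * (𝒯.B.pts.filter fun p => Leg p = 𝒯.a).card + (T : ℝ)⁻¹ * 𝒯.B.pts.card := by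
  obtain ⟨A, hA⟩ := stp3 k s hk hε
  refine ⟨A, fun 𝒯 T y₀ y₁ par hN => ?_⟩
  have h := sum_le_sum (hA 𝒯 T y₀ y₁ par hN)
  rw [sum_add_distrib, sum_add_distrib, ← Finset.sum_div, ← mul_sum, sum_const, nsmul_eq_mul,
    𝒯.fib (𝒯.W (k + 1)), 𝒯.fib (𝒯.W k), 𝒯.fib fun p => Leg p = 𝒯.a] at h
  obtain ⟨p, hp, -⟩ := 𝒯.sy
  have hX : ∀ i, (0 : ℝ) < (𝒯.B.X i).card := fun i =>
    Nat.cast_pos.2 (card_pos.2 ⟨p i, Fintype.mem_piFinset.1 hp i⟩)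
  have hn : 0 < (∏ i, ((𝒯.X i).card : ℝ)) * 𝒯.Y.card := mul_pos (prod_pos fun i _ => hX _) (hX _)
  refine le_of_mul_le_mul_left (h.trans_eq ?_) hn
  ring

theorem t_BX1Q : BX1Q := by
  classical
  intro K s ε hε
  choose! A hA using fun k (hk : 2 ≤ k) => step k s hk (half_pos hε)
  refine ⟨(range (2 * K + 2)).sup A, fun 𝒯 T y₀ y₁ hN => ?_⟩
  have mono : ∀ {m n}, m ≤ n →
      ((𝒯.B.pts.filter (𝒯.W n)).card : ℝ) ≤ (𝒯.B.pts.filter (𝒯.W m)).card := fun h =>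
    Nat.cast_le.2 (card_le_card fun p hp => mem_filter.2 ⟨(mem_filter.1 hp).1,
      (mem_filter.1 hp).2.mono h⟩)
  have key : ∀ j ≤ K, ((𝒯.B.pts.filter (𝒯.W (2 * j + 2))).card : ℝ) ≤
      ((2 ^ j)⁻¹ + ε) * (𝒯.B.pts.filter fun p => Leg p = 𝒯.a).card + 2 / T * 𝒯.B.pts.card := by
    intro j
    induction j with
    | zero =>
      intro _
      have h1 : ((𝒯.B.pts.filter (𝒯.W (2 * 0 + 2))).card : ℝ) ≤
          (𝒯.B.pts.filter fun p => Leg p = 𝒯.a).card :=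
        Nat.cast_le.2 (card_le_card fun p hp =>
          mem_filter.2 ⟨(mem_filter.1 hp).1, (mem_filter.1 hp).2.1⟩)
      have h2 : 0 ≤ ε * (𝒯.B.pts.filter fun p => Leg p = 𝒯.a).card := by positivity
      have h3 : 0 ≤ 2 / (T : ℝ) * 𝒯.B.pts.card := by positivity
      rw [pow_zero, inv_one]
      linarith
    | succ j ih =>
      intro hj
      have h1 := ih (by omega)
      obtain ⟨k, k1, k2, par⟩ : ∃ k, 2 * j + 2 ≤ k ∧ k ≤ 2 * j + 3 ∧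
          Par k (𝒯.t true) (𝒯.t false) := by
        by_cases h : Par (2 * j + 2) (𝒯.t true) (𝒯.t false)
        · exact ⟨_, le_rfl, by omega, h⟩
        · exact ⟨2 * j + 2 + 1, by omega, le_rfl, par_iff.2 h⟩
      have h2 : ((𝒯.B.pts.filter (𝒯.W (k + 1))).card : ℝ) ≤
          (𝒯.B.pts.filter (𝒯.W k)).card / 2 +
          ε / 2 * (𝒯.B.pts.filter fun p => Leg p = 𝒯.a).card + (T : ℝ)⁻¹ * 𝒯.B.pts.card :=
        hA k (by omega) (𝒯.res (by omega)) T y₀ y₁ par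
          (Stq.num_res _ hN (le_sup (f := A) (mem_range.2 (by omega))))
      have h3 := mono k1
      have h4 := mono (show k + 1 ≤ 2 * (j + 1) + 2 by omega)
      rw [pow_succ, mul_inv, div_eq_mul_inv 2] at *
      linarith
  convert key K le_rfl

end Pool.Agent.P.MP_8b7eba_nt.QT
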