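import Pool.Agent.P.MP_8b7eba_nt.QT.ADEN
import Pool.Agent.P.MP_8b7eba_nt.QT.FD
import Pool.Agent.P.MP_8b7eba_nt.QT.MBOX
import Pool.Agent.P.MP_8b7eba_nt.QT.R4
import Pool.Agent.P.MP_8b7eba_nt.QT.TBX1

/-! Assembly of the project QT. -/

namespace Pool.Agent.P.MP_8b7eba_nt.QT

open R2 SM

theorem a_DENSQ : DENSQ := t_DENSQ t_RED (t_BOXQ t_BX1Q)

end Pool.Agent.P.MP_8b7eba_nt.QT
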