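import Pool.Agent.P.MP_9c97e9_nt.Defs

/-! The `2^∞`-Selmer group of an integral Weierstrass model. -/

namespace Pool.Agent.P.MP_8b7eba_nt.QT

open MP_9c97e9_nt

open Classical in
/-- The algebraic points whose order is a power of two. -/
noncomputable def tors (E : WeierstrassCurve ℤ) : AddSubgroup (Pt E Qb) :=
  AddCommGroup.primaryComponent (Pt E Qb) 2

open Classical in
/-- The continuous 1-cocycles with values in the points of 2-power order whose image in the group
of all points becomes a coboundary over the reals and over all `p`-adic fields. -/
noncomputable def selCocycles (E : WeierstrassCurve ℤ) : AddSubgroup (Gal ℚ → Pt E Qb) :=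
  shaCocycles E ⊓ AddSubgroup.pi Set.univ fun _ => tors E

open Classical in
/-- The coboundaries of the points of 2-power order. -/
noncomputable def torCob (E : WeierstrassCurve ℤ) : AddSubgroup (Gal ℚ → Pt E Qb) :=
  (tors E).map (AddMonoidHom.pi fun σ : Gal ℚ => pm E σ - AddMonoidHom.id (Pt E Qb))

open Classical in
/-- The `2^∞`-Selmer group. -/
def Sel (E : WeierstrassCurve ℤ) : Type :=
  selCocycles E ⧸ (torCob E).addSubgroupOf (selCocycles E)

open Classical in
/-- The quotient group structure. -/
noncomputable instance selGroup (E : WeierstrassCurve ℤ) : AddCommGroup (Sel E) :=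
  QuotientAddGroup.Quotient.addCommGroup _

end Pool.Agent.P.MP_8b7eba_nt.QT
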