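import Pool.Agent.P.MP_8b7eba_nt.QT.AEX
import Pool.Agent.P.MP_8b7eba_nt.SM.TANA1
import Pool.Agent.P.MP_8b7eba_nt.SM.TEX1
import Pool.Agent.P.MP_8b7eba_nt.SM.TEX5
import Pool.Agent.P.MP_8b7eba_nt.SM.TMERT
import Pool.Agent.P.MP_8b7eba_nt.SM.TTILE
import Pool.Agent.P.MP_8b7eba_nt.SM.TTK

/-! Proof of ANAQ. -/

namespace Pool.Agent.P.MP_8b7eba_nt.QT

open Finset SM

open TANA1 in
/-- the box of a good integer is regular -/
theorem ana1 (K l A N B₁ : ℕ) (b1 : 1 ≤ B₁) : ∃ L₀ : ℕ, ∀ L n : ℕ, L₀ ≤ L → n < 2 ^ 2 ^ (L + 1) →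
    n.Coprime 30 → Gq K l A B₁ L n →
    ∃ (B : Box) (p : Fin B.r → ℕ), B.S = sm L n ∧ Function.Injective p ∧ univ.image p = la L n ∧
      (∀ i, B.X i = Xk L (sm L n) (p i)) ∧ ∃ y₀ y₁ J₀ J, B.Reg K l A N y₀ y₁ J₀ J ∧ Thr B J := by
  classical
  refine ⟨2 + A + 24 * N + B₁, fun L n hL hn cop G => ?_⟩
  obtain ⟨p, inj, im⟩ : ∃ p : Fin (la L n).card → ℕ, Function.Injective p ∧
      univ.image p = la L n :=
    ⟨(la L n).orderEmbOfFin rfl, ((la L n).orderEmbOfFin rfl).injective,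
      image_orderEmbOfFin_univ _ _⟩
  have pl : ∀ i, p i ∈ la L n := fun i => im ▸ mem_image_of_mem p (mem_univ i)
  have p0 : ∀ i, 2 ^ L ^ 7 ≤ 2 ^ Nat.log 2 (p i) := fun i => pw (mem_filter.1 (pl i)).2
  have p1 : ∀ i, 2 ^ Nat.log 2 (p i) ≤ p i := fun i =>
    Nat.pow_log_le_self 2 (Nat.prime_of_mem_primeFactors (mem_filter.1 (pl i)).1).ne_zero
  have y30 : 30 < 2 ^ L ^ 7 := lt_of_lt_of_le (by norm_num : 30 < 2 ^ 2 ^ 7)
    (Nat.pow_le_pow_right two_pos (Nat.pow_le_pow_left (by omega) 7))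
  have e1 : 2 ^ L ^ 7 ≤ 2 ^ (L ^ 7 * B₁) :=
    Nat.pow_le_pow_right two_pos (Nat.le_mul_of_pos_right _ b1)
  have e2 : 2 ^ (L ^ 7 * B₁) ≤ 2 ^ (L ^ 7 * (B₁ * (A + 1))) :=
    Nat.pow_le_pow_right two_pos (Nat.mul_le_mul_left _ (Nat.le_mul_of_pos_right _ A.succ_pos))
  have e3 : 2 ^ (L ^ 7 * B₁) ≤ 2 ^ L ^ 16 := by
    rw [show L ^ 16 = L ^ 7 * L ^ 9 by ring]
    exact Nat.pow_le_pow_right two_pos
      (Nat.mul_le_mul_left _ (le_trans (by omega) (Nat.le_self_pow (by norm_num) L)))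
  have sur : ∀ q ∈ n.primeFactors, 2 ^ L ^ 7 ≤ q → ∃ i, p i = q := fun q hq h => by
    have : q ∈ univ.image p := im.ge (mem_filter.2 ⟨hq, h⟩)
    simpa using this
  have cnt : ∀ (T : Finset ℕ) (U : Finset (Fin (la L n).card)),
      (∀ q ∈ T, q ∈ n.primeFactors ∧ 2 ^ L ^ 7 ≤ q) → (∀ i, p i ∈ T → i ∈ U) → T.card ≤ U.card :=
    fun T U h1 h2 => le_trans (card_le_card fun q hq => by
      obtain ⟨i, rfl⟩ := sur q (h1 q hq).1 (h1 q hq).2
      exact mem_image_of_mem p (h2 i hq)) card_image_le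
  obtain ⟨J1, c1, d1⟩ := blocks (univ.filter fun i => p i < 2 ^ (L ^ 7 * B₁)) (Fin K) l (by
    rw [Fintype.card_fin]
    exact G.low.trans (cnt _ _ (fun q hq => ⟨(mem_filter.1 hq).1, (mem_filter.1 hq).2.1⟩)
      fun i hi => mem_filter.2 ⟨mem_univ i, (mem_filter.1 hi).2.2⟩))
  obtain ⟨J2, c2, d2⟩ := blocks (univ.filter fun i => 2 ^ (L ^ 7 * (B₁ * (A + 1))) ≤ p i ∧
      p i < 2 ^ L ^ 16 ∧ p i % 4 = 3) Bool l (by
    rw [Fintype.card_bool]
    exact G.high.trans (cnt _ _ (fun q hq => ⟨(mem_filter.1 hq).1,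
      (e1.trans e2).trans (mem_filter.1 hq).2.1⟩)
      fun i hi => mem_filter.2 ⟨mem_univ i, (mem_filter.1 hi).2⟩))
  have m1 : ∀ s, ∀ i ∈ J1 s, p i < 2 ^ (L ^ 7 * B₁) := fun s i hi => (mem_filter.1 ((c1 s).1 hi)).2
  have m2 := fun s i (hi : i ∈ J2 s) => (mem_filter.1 ((c2 s).1 hi)).2
  have d3 : ∀ s s', Disjoint (J1 s) (J2 s') := fun s s' => disjoint_left.2 fun i a b =>
    (m1 s i a).not_ge (e2.trans (m2 s' i b).1)
  refine ⟨⟨sm L n, _, fun i => Xk L (sm L n) (p i), fun i => 2 ^ Nat.log 2 (p i), 2 ^ (5 * L),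
    fun q hq => ?_, fun i => ⟨fun q hq => ?_, G.rich _ (pl i), ?_⟩,
    fun i => disjoint_left.2 fun q a b => ?_, fun i j h => disjoint_left.2 fun q a b => ?_,
    fun i q a q' b c hc => ?_⟩, p, rfl, inj, im, fun _ => rfl, 2 ^ L ^ 7, 2 ^ (L ^ 7 * B₁),
    univ.filter fun i => 2 ^ L ^ 16 ≤ p i, Sum.elim J1 J2, ⟨?_, e1, p0,
    fun s i hi => (p1 i).trans (m1 s i hi).le, fun s i hi => ?_, ?_, ?_, ?_,
    fun a h1 h2 h3 => ?_, fun a h1 h2 h3 => ?_⟩, fun i hi q hq => ?_⟩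
  · have h := (mem_filter.1 hq).1
    have hp := Nat.prime_of_mem_primeFactors h
    exact ⟨hp, fun c => hp.ne_one (Nat.eq_one_of_dvd_coprimes cop
      (Nat.dvd_of_mem_primeFactors h) c)⟩
  · obtain ⟨a, -, -, b, c⟩ := mem_Xk hq
    exact ⟨⟨a, fun e => (y30.trans_le ((p0 i).trans b)).not_ge (Nat.le_of_dvd (by norm_num) e)⟩,
      b, c⟩
  · refine (p1 i).trans ((Nat.le_of_mem_primeFactors (mem_filter.1 (pl i)).1).trans
      (hn.le.trans ?_))
    exact Nat.pow_le_pow_right two_pos (Nat.pow_le_pow_right two_pos (by omega))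
  · exact (mem_filter.1 b).2.not_ge ((p0 i).trans (mem_Xk a).2.2.2.1)
  · exact h (inj (G.inj (pl i) (pl j) ((mem_Xk a).2.1.symm.trans (mem_Xk b).2.1)))
  · exact ((mem_Xk a).2.2.1 c hc).trans ((mem_Xk b).2.2.1 c hc).symm
  · refine num (by omega) (by omega) (le_trans ?_ G.om)
    refine (card_union_of_disjoint (s := la L n) (t := sm L n) (disjoint_left.2 fun q a b =>
      (mem_filter.1 b).2.not_ge (mem_filter.1 a).2)).ge.trans (card_le_card ?_)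
    exact union_subset (filter_subset _ _) (filter_subset _ _)
  · refine le_trans ?_ (pw (m2 s i hi).1)
    rw [← pow_mul, ← mul_assoc]
    exact Nat.pow_le_pow_right two_pos (Nat.mul_le_mul_left _ A.le_succ)
  · rintro (s | s)
    exacts [(c1 s).2, (c2 s).2]
  · rintro (s | s) (s' | s') h
    exacts [d1 s s' fun e => h (congrArg _ e), d3 s s', (d3 s' s).symm,
      d2 s s' fun e => h (congrArg _ e)]
  · rintro (s | s)
    · exact disjoint_left.2 fun i a b => (m1 s i a).not_ge (e3.trans (mem_filter.1 b).2)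
    · exact disjoint_left.2 fun i a b => (m2 s i a).2.1.not_ge (mem_filter.1 b).2
  · obtain ⟨q, q1, q2, q3⟩ := G.u1 a h1 h2 h3
    obtain ⟨i, rfl⟩ := sur q q1 ((e1.trans e3).trans q2)
    exact ⟨i, mem_filter.2 ⟨mem_univ i, q2⟩, fun q hq => ((mem_Xk hq).2.2.1 a h3).trans q3⟩
  · have f1 := G.na a h1 h2 h3
    have f2 := G.n0
    have f3 := cnt ((la L n).filter fun p => jacobiSym a p = -1)
      (univ.filter fun i => ∀ q ∈ Xk L (sm L n) (p i), jacobiSym a q = -1)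
      (fun q hq => mem_filter.1 (mem_filter.1 hq).1) fun i hi => mem_filter.2 ⟨mem_univ i,
        fun q hq => ((mem_Xk hq).2.2.1 a (h3.mul_right _)).trans (mem_filter.1 hi).2⟩
    refine le_trans ?_ f3
    change 4 * (sm L n).card + N ≤ _
    omega
  · obtain ⟨a, -, b, c, -⟩ := mem_Xk hq
    have := p0 i
    have := p1 i
    refine (mod4_iff a (by omega)).1 ((b (-1) (neg_dvd.2 (one_dvd _))).trans ?_)
    exact (mod4_iff (Nat.prime_of_mem_primeFactors (mem_filter.1 (pl i)).1) (by omega)).2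
      (m2 true i hi).2.2

open TANA2

/-- most integers are good -/
theorem ana2 (ε : ℝ) (K l A : ℕ) (hε : 0 < ε) :
    ∃ B₁ : ℕ, 1 ≤ B₁ ∧ RE ε fun L n => ¬ Gq K l A B₁ L n := by
  classical
  have hε3 : 0 < ε / 3 := by positivity
  obtain ⟨B₁, hB₁, h₁⟩ := re6 (t_EX6 t_MERT t_TK) hε3 (K * l)
  have h₁' := h₁ 1 le_rfl
  have h₂' := re_of_rare (ex9 t_TK (t_CHAR t_MERT) (B₁ * (A + 1)) (2 * l)
    (Nat.mul_pos hB₁ (Nat.succ_pos _))) hε3
  have h7 := rare_fin ((Icc (-30 : ℤ) 30).filter fun a => Squarefree a ∧ a ≠ 1) _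
    fun a ha => t_EX7 t_TK (t_CHAR t_MERT) a (mem_filter.1 ha).2.1 (mem_filter.1 ha).2.2
  have hall := rare_or (t_EX1 t_MERT) (rare_or (t_EX2 t_MERT) (rare_or (t_EX3 t_MERT)
    (rare_or (t_EX4 t_MERT) (rare_or t_EX5 (rare_or h7 (ex8q t_SIEVE (t_CHAR t_MERT)))))))
  have hre : RE ε fun L n => ¬ Gq K l A B₁ L n := by
    refine ((h₁'.or h₂').or (re_of_rare hall hε3)).mono (by linarith) ?_
    intro L n hn
    by_contra hc
    simp only [not_or, not_lt, not_not, not_and, not_exists] at hc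
    obtain ⟨⟨c1, c2⟩, c3, c4, c5, c6, c7, c8, c9⟩ := hc
    refine hn ⟨c3, c4, c6, fun p hp => ?_, ?_, c2, fun a ha1 ha2 ha3 => ?_,
      fun a ha1 ha2 ha3 => ?_⟩
    · exact c7 c4 p hp
    · simpa only [mul_one] using c1
    · have hd : a ∣ 30 * n := ha3.trans (mul_dvd_mul_left _ (sm_dvd L n))
      have hle : |a| ≤ 30 * 2 ^ L ^ 8 := by
        have h1 : |a| ≤ 30 * ∏ q ∈ sm L n, (q : ℤ) :=
          Int.le_of_dvd (by have := sm_pos L n; positivity) ((abs_dvd _ _).2 ha3)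
        have h2 : ((∏ q ∈ sm L n, q : ℕ) : ℤ) ≤ (2 ^ L ^ 8 : ℕ) := by exact_mod_cast c5
        rw [Nat.cast_prod] at h2
        push_cast at h2
        linarith
      have h3 := c9 a ha1 ha2 hd hle
      by_contra h4
      exact h3 fun p hp hle hj => h4 ⟨p, hp, hle, hj⟩
    · refine c8 a (mem_filter.2 ⟨?_, ha1, ha2⟩)
      have h1 : |a| ≤ 30 := Int.le_of_dvd (by norm_num) ((abs_dvd _ _).2 ha3)
      exact mem_Icc.2 (abs_le.1 h1)
  exact ⟨B₁, hB₁, hre⟩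

theorem t_ANAQ : ANAQ := by
  classical
  intro Bad hBad ε hε
  obtain ⟨K, l, A, N, hbox⟩ := hBad (ε / 4) (by positivity)
  obtain ⟨B₁, hB₁, L₂, h2⟩ := ana2 (ε / 2) K l A (by positivity)
  obtain ⟨L₁, h1⟩ := ana1 K l A N B₁ hB₁
  obtain ⟨L₃, h3⟩ := pow_le 2 2
  refine ⟨2 ^ 2 ^ (L₁ + L₂ + L₃ + 1), fun X hX => ?_⟩
  have hX0 : X ≠ 0 := by
    have : 0 < 2 ^ 2 ^ (L₁ + L₂ + L₃ + 1) := by positivity
    omega
  have hlog : 2 ^ (L₁ + L₂ + L₃ + 1) ≤ Nat.log 2 X := Nat.le_log_of_pow_le (by norm_num) hX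
  have hl0 : Nat.log 2 X ≠ 0 := by
    have : 0 < 2 ^ (L₁ + L₂ + L₃ + 1) := by positivity
    omega
  set L := Nat.log 2 (Nat.log 2 X) with hL
  have hLge : L₁ + L₂ + L₃ + 1 ≤ L := Nat.le_log_of_pow_le (by norm_num) hlog
  have hlo : 2 ^ 2 ^ L ≤ X :=
    (Nat.pow_le_pow_right (by norm_num) (Nat.pow_log_le_self 2 hl0)).trans
      (Nat.pow_log_le_self 2 hX0)
  have hhi : X < 2 ^ 2 ^ (L + 1) :=
    (Nat.lt_pow_succ_log_self (by norm_num : 1 < 2) X).trans_le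
      (Nat.pow_le_pow_right (by norm_num) (Nat.lt_pow_succ_log_self (by norm_num : 1 < 2) _))
  have hg := h2 L X (by omega) hlo hhi
  have ht := t_TILE Bad (ε / 4) L X
    ((Icc 1 X).filter fun n => Squarefree n ∧ n.Coprime 30 ∧ Gq K l A B₁ L n)
    (by positivity) (by omega) (by
      intro n hn
      obtain ⟨hn1, hsq, hcop, hG⟩ := mem_filter.1 hn
      have hnX := (mem_Icc.1 hn1).2
      refine ⟨hnX, hsq, ?_, hG.inj, ?_⟩
      · have h4 := h3 L (by omega)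
        have h5 : (la L n).card ≤ L ^ 2 := (card_le_card (filter_subset _ _)).trans hG.om
        omega
      · obtain ⟨B, p, hS, hinj, him, hBX, y₀, y₁, J₀, J, hreg, hthr⟩ :=
          h1 L n (by omega) (by omega) hcop hG
        refine ⟨B.r, p, hinj, him, ?_⟩
        have h4 := hbox B y₀ y₁ J₀ J hreg hthr
        have h5 : B.X = fun i => Xk L (sm L n) (p i) := funext hBX
        simpa only [Box.pts, Box.set, hS, h5] using h4)
  refine le_trans ?_ ((add_le_add ht hg).trans (le_of_eq (by ring)))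
  rw [← Nat.cast_add, Nat.cast_le]
  refine le_trans (card_le_card ?_) (card_union_le _ _)
  intro n hn
  simp only [mem_filter, mem_union] at hn ⊢
  tauto

end Pool.Agent.P.MP_8b7eba_nt.QT
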