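import Pool.Agent.P.MP_8b7eba_nt.QT.AANA

/-! Proof of DENSQ from RED and BOXQ. -/

namespace Pool.Agent.P.MP_8b7eba_nt.QT

open Finset R2 SM

theorem reg_mono {B : Box} {K l A A' N y₀ y₁ : ℕ} {J₀ : Finset (Fin B.r)}
    {J : Fin K ⊕ Bool → Finset (Fin B.r)} (h : B.Reg K l A' N y₀ y₁ J₀ J) (hA : A ≤ A') :
    B.Reg K l A N y₀ y₁ J₀ J :=
  { h with
    big := (Nat.pow_le_pow_right (by positivity) hA).trans h.big
    high := fun s i hi => (Nat.pow_le_pow_right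
      (lt_of_lt_of_le (by positivity) (h.big.trans h.le)) hA).trans (h.high s i hi) }

theorem reg_lt {B : Box} {K l A N y₀ y₁ : ℕ} {J₀ : Finset (Fin B.r)}
    {J : Fin K ⊕ Bool → Finset (Fin B.r)} (h : B.Reg K l A N y₀ y₁ J₀ J) {i : Fin B.r} {q : ℕ}
    (hq : q ∈ B.X i) : A < q := by
  have h1 : 2 ≤ 2 ^ (B.r + B.S.card + 2) ^ 2 * (B.E + 2) :=
    le_trans (by omega) (Nat.le_mul_of_pos_left _ (by positivity))
  exact Nat.lt_two_pow_self.trans_le ((((Nat.pow_le_pow_left h1 A).trans h.big).trans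
    (h.t0 i)).trans ((B.rich i).gp q hq).2.1)

theorem t_DENSQ (hRED : RED) (hBOX : BOXQ) : DENSQ := by
  classical
  intro Δ r hr ε hε
  obtain ⟨X₀, h⟩ := t_ANAQ (fun S => Δ ⊆ S ∧ Two (tw r S) S) (fun ε hε => by
    obtain ⟨K, l, A, N, hl, H⟩ := hBOX Δ ε hε
    refine ⟨K, l, A + Δ.sup id, N, fun B y₀ y₁ J₀ J hB hT => ?_⟩
    obtain ⟨i₀, -⟩ := card_pos.1 (hl.trans (hB.card (.inr true)))
    rcases (B.pts.filter fun p => Δ ⊆ B.set p ∧ Two (tw r (B.set p)) (B.set p)).eq_empty_or_nonempty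
      with e | ⟨p₀, e⟩
    · refine le_trans (le_of_eq ?_) (show 0 ≤ ε * B.pts.card by positivity)
      rw [Nat.cast_eq_zero, card_eq_zero]
      convert e
    have hΔ : Δ ⊆ B.S := fun q hq => by
      obtain ⟨e1, e2, -⟩ := mem_filter.1 e
      refine (mem_union.1 (e2 hq)).resolve_right fun c => ?_
      obtain ⟨i, -, rfl⟩ := mem_image.1 c
      have h1 := reg_lt hB (Fintype.mem_piFinset.1 e1 i)
      have h2 : p₀ i ≤ Δ.sup id := le_sup (f := id) hq
      omega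
    refine le_trans (Nat.cast_le.2 (card_le_card fun p hp => ?_))
      (H r B y₀ y₁ J₀ J i₀ hr hΔ (reg_mono hB (Nat.le_add_right _ _)) hT)
    simp only [mem_filter] at hp ⊢
    have hp' := Fintype.mem_piFinset.1 hp.1
    refine ⟨hp.1, hRED Δ r _ _ hr hp.2.1 (fun q hq => ?_)
      (mem_union_right _ (mem_image_of_mem p (mem_univ i₀)))
      (fun c => disjoint_left.1 (B.nS i₀) (hp' i₀) (hΔ c)) hp.2.2⟩
    rcases mem_union.1 hq with c | c
    · exact B.gS q c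
    · obtain ⟨i, -, rfl⟩ := mem_image.1 c
      exact ((B.rich i).gp _ (hp' i)).1) ε hε
  refine ⟨X₀, fun X hX => le_trans (le_of_eq ?_) (h X hX)⟩
  congr

end Pool.Agent.P.MP_8b7eba_nt.QT
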