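import Pool.Agent.P.MP_8b7eba_nt.QT.IfQ
import Pool.Agent.P.MP_8b7eba_nt.SM.TANA2
import Pool.Agent.P.MP_8b7eba_nt.SM.TEX6
import Pool.Agent.P.MP_8b7eba_nt.SM.TEX8

/-! Two more families of exceptional integers. -/

namespace Pool.Agent.P.MP_8b7eba_nt.QT

open Finset SM

theorem mod4_iff {p : ℕ} (hp : p.Prime) (h2 : 2 < p) : jacobiSym (-1) p = -1 ↔ p % 4 = 3 := by
  have h1 : p % 2 = 1 := Nat.odd_iff.1 (hp.odd_of_ne_two h2.ne')
  rw [jacobiSym.at_neg_one (Nat.odd_iff.2 h1), ZMod.χ₄_nat_eq_if_mod_four]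
  split_ifs with a b
  · omega
  · simp only [b]
    norm_num
  · simp only [true_iff]
    omega

open TEX6 in
/-- most integers have many prime factors which are three modulo four in the middle range -/
theorem ex9 (hTK : TK) (hCHAR : CHAR) (c T : ℕ) (hc : 1 ≤ c) :
    Rare fun L n => (n.primeFactors.filter fun p =>
      2 ^ (L ^ 7 * c) ≤ p ∧ p < 2 ^ L ^ 16 ∧ p % 4 = 3).card < T := by
  intro ε hε
  obtain ⟨C, hC⟩ := hCHAR
  obtain ⟨L₁, h₁⟩ := TANA2.pow_le 16 1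
  refine ⟨L₁ + c + 1 + ⌈Real.exp (2 * T + 8 / ε + Real.log c +
    Real.log (Real.log 4 + 3) / 2 + C)⌉₊, fun L X hL hX _ => ?_⟩
  have h2 := h₁ L (by omega)
  rw [mul_one] at h2
  have L1 : 1 ≤ L := by omega
  have L0 : (0 : ℝ) < L := by exact_mod_cast L1
  have c0 : (0 : ℝ) < c := by exact_mod_cast hc
  have hl : 2 * T + 8 / ε + Real.log c + Real.log (Real.log 4 + 3) / 2 + C ≤ Real.log L := by
    rw [Real.le_log_iff_exp_le L0]
    exact (Nat.le_ceil _).trans (Nat.cast_le.2 (by omega))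
  have a1 : 1 ≤ L ^ 7 * c := Nat.mul_pos (Nat.one_le_pow _ _ L1) hc
  have a2 : L ^ 7 * c ≤ L ^ 16 := by
    rw [show L ^ 16 = L ^ 7 * L ^ 9 by ring]
    exact Nat.mul_le_mul_left _ (le_trans (by omega) (Nat.le_self_pow (by norm_num) L))
  have a3 : 2 ≤ 2 ^ (L ^ 7 * c) := Nat.le_self_pow (by omega) 2
  have h := hC (-1) (2 ^ (L ^ 7 * c)) (2 ^ L ^ 16) isUnit_one.neg.squarefree (by norm_num) a3
    (Nat.pow_le_pow_right two_pos a2) (by simp)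
  have c4 : Real.log (Real.log 2) ≤ 0 :=
    Real.log_nonpos (by linarith [Real.log_two_gt_d9]) (by linarith [Real.log_two_lt_d9])
  rw [ll a1, ll (a1.trans a2), Nat.cast_mul, Nat.cast_pow, Nat.cast_pow,
    Real.log_mul (by positivity) c0.ne', Real.log_pow, Real.log_pow, Int.cast_neg, Int.cast_one,
    mul_neg_one, Real.log_neg_eq_log] at h
  have hε' : 0 < 8 / ε := by positivity
  refine tk hTK (P := (Ico (2 ^ (L ^ 7 * c)) (2 ^ L ^ 16)).filter fun p =>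
    p.Prime ∧ jacobiSym (-1) p = -1) (m := 2 * T + 8 / ε)
    (fun p hp => (mem_filter.1 hp).2.1)
    ((card_le _ _ _).trans ((Nat.pow_le_pow_right two_pos h2).trans hX)) hε
    (by linarith [Nat.cast_nonneg (α := ℝ) T]) (le_trans ?_ h) fun n hn => ?_
  · push_cast
    linarith
  obtain ⟨h3, h4⟩ := (@mem_filter _ _ (_) _ _).1 hn
  refine ⟨h3, le_trans (b := (T : ℝ)) ?_ (by linarith)⟩
  refine Nat.cast_le.2 (le_trans (card_le_card fun p hp => ?_) h4.le)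
  simp only [mem_filter, mem_Ico, mem_Icc, Nat.mem_primeFactors] at hp h3 ⊢
  obtain ⟨⟨⟨b1, b2⟩, b3, b4⟩, b5⟩ := hp
  refine ⟨⟨b3, b5, by omega⟩, b1, b2, (mod4_iff b3 ((a3.trans b1).lt_of_ne ?_)).1 b4⟩
  rintro rfl
  revert b4
  norm_num

open TEX8 in
/-- most integers have a very large prime factor which is inert in a given small field -/
theorem ex8q (hSIEVE : SIEVE) (hCHAR : CHAR) :
    Rare fun L n => ∃ a : ℤ, Squarefree a ∧ a ≠ 1 ∧ a ∣ 30 * n ∧ |a| ≤ 30 * 2 ^ L ^ 8 ∧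
      ∀ p ∈ n.primeFactors, 2 ^ L ^ 16 ≤ p → jacobiSym a p ≠ -1 := by
  classical
  intro ε hε
  obtain ⟨C, hC⟩ := hCHAR
  obtain ⟨L₁, h₁⟩ := TEX8.ev (2 + 240 / ε) 24
  refine ⟨L₁ + 20 * (⌈C⌉₊ + 2), fun L X hL hX _ => ?_⟩
  have hK := h₁ L (by omega)
  obtain ⟨h, hh⟩ : ∃ h, h = L / 20 := ⟨_, rfl⟩
  obtain ⟨u, hu⟩ : ∃ u, L = 5 * h + u := ⟨L - 5 * h, by omega⟩
  rw [← hh] at hK
  have L1 : (20 : ℝ) ≤ L := by exact_mod_cast (by omega : 20 ≤ L)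
  have e0 : 0 < 240 / ε := by positivity
  obtain ⟨c, hc⟩ : ∃ c, L ^ 9 = c + 1 :=
    Nat.exists_eq_succ_of_ne_zero (pow_ne_zero 9 (by omega : L ≠ 0))
  have c1 : (c + 1 : ℝ) = L ^ 9 := by exact_mod_cast hc.symm
  have c2 : L ^ 16 = L ^ 7 * (c + 1) := by rw [← hc]; ring
  have p15 : (0 : ℝ) ≤ (L : ℝ) ^ 24 := by positivity
  have K1 : 2 * (c + 1) * (L : ℝ) ^ 15 ≤ 2 ^ h := by
    rw [c1, show 2 * (L : ℝ) ^ 9 * L ^ 15 = 2 * L ^ 24 by ring]
    nlinarith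
  have p8 : (L : ℝ) ^ 8 ≤ L ^ 15 := pow_le_pow_right₀ (by linarith) (by norm_num)
  have L8 : (L : ℝ) ≤ L ^ 8 := le_self_pow₀ (by linarith) (by norm_num)
  have K2 : 240 / ε * (L : ℝ) ^ 8 ≤ 2 ^ h := by
    have : (L : ℝ) ^ 8 ≤ L ^ 24 := pow_le_pow_right₀ (by linarith) (by norm_num)
    nlinarith
  have K3 : 2 * (c + 1) * L ^ 15 ≤ 2 ^ h := by exact_mod_cast K1
  have n7 : L ^ 7 ≤ L ^ 15 := Nat.pow_le_pow_right (by omega) (by norm_num)
  have n8 : L ^ 8 ≤ L ^ 15 := Nat.pow_le_pow_right (by omega) (by norm_num)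
  have n1 : L ≤ L ^ 7 := Nat.le_self_pow (by norm_num) L
  have hu2 : 2 ^ h ≤ 2 ^ u := Nat.pow_le_pow_right (by norm_num) (by omega)
  have K4 : 2 * L ^ 15 ≤ 2 ^ h := le_trans (by nlinarith) K3
  have hy : 2 ^ h ≤ 2 ^ (L ^ 7 * (c + 1)) := Nat.pow_le_pow_right (by norm_num) (by nlinarith)
  have hyz : 2 ^ (L ^ 7 * (c + 1)) ≤ 2 ^ 2 ^ u := Nat.pow_le_pow_right (by norm_num) (by nlinarith)
  have hC1 : C + 1 ≤ h := by
    have : ((⌈C⌉₊ + 1 : ℕ) : ℝ) ≤ h := Nat.cast_le.2 (by omega)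
    push_cast at this
    linarith [Nat.le_ceil C]
  set A := 30 * 2 ^ L ^ 8 with hA
  set N : ℕ × ℤ → Finset ℕ := fun s => (Icc 1 X).filter fun n => Squarefree (s.2 * s.1) ∧
    s.2 * s.1 ≠ 1 ∧ s.1 ∣ 30 * n ∧
    ∀ p ∈ n.primeFactors, 2 ^ L ^ 16 ≤ p → jacobiSym (s.2 * s.1) p ≠ -1 with hN
  have key : ∀ s ∈ Icc 1 A ×ˢ ({1, -1} : Finset ℤ), ((N s).card : ℝ) ≤
      30 * X / 2 ^ h * (s.1 : ℝ)⁻¹ + (2 ^ 2 ^ u : ℕ) ^ (2 * h) := fun s hs => by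
    obtain ⟨s1, s2⟩ := mem_product.1 hs
    rw [mem_Icc] at s1
    rcases (N s).eq_empty_or_nonempty with e | ⟨n₀, e⟩
    · rw [e, card_empty, Nat.cast_zero]; positivity
    obtain ⟨-, q1, q2, -⟩ := mem_filter.1 e
    have e1 : ∀ r : ℝ, Real.log (r * (s.2 * s.1 : ℤ)) = Real.log (r * s.1) := fun r => by
      rcases mem_insert.1 s2 with a | a
      · simp [a]
      · simp [mem_singleton.1 a]
    have m1 : (1 : ℝ) ≤ s.1 := by exact_mod_cast s1.1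
    have b1 := hC _ _ _ q1 q2 (le_trans (by nlinarith) hy) hyz (by
      have b2 := e1 1
      rw [one_mul, one_mul] at b2
      have b3 := Real.log_le_log (by linarith) (show (s.1 : ℝ) ≤ 4 * s.1 by linarith)
      have b4 : ((2 * L ^ 15 : ℕ) : ℝ) ≤ _ := Nat.cast_le.2 (K4.trans hy)
      rw [Nat.cast_mul, Nat.cast_pow L] at b4
      rw [b2]
      norm_num only [Nat.cast_ofNat] at b4
      linarith [logA s1.1 s1.2])
    rw [e1] at b1
    refine cnt hSIEVE s1.1 (fun p hp => ?_) ((big (by omega) (by omega) hC1 K1 s1.1 s1.2).trans b1)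
      fun n hn => ?_
    · exact ⟨(mem_filter.1 hp).2.1, (mem_Ico.1 (mem_filter.1 hp).1).2.le⟩
    obtain ⟨r0, -, -, r1, r2⟩ := mem_filter.1 hn
    refine ⟨r0, r1, fun p hp hd => ?_⟩
    obtain ⟨t1, t2, t3⟩ := mem_filter.1 hp
    refine r2 p (Nat.mem_primeFactors.2 ⟨t2, hd, by have := (mem_Icc.1 r0).1; omega⟩) ?_ t3
    exact c2 ▸ (mem_Ico.1 t1).1
  refine le_trans (Nat.cast_le.2 ((card_le_card (t := (Icc 1 A ×ˢ ({1, -1} : Finset ℤ)).biUnion N)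
    fun n hn => ?_).trans card_biUnion_le)) ?_
  · obtain ⟨r0, a, a1, a2, a3, a4, a5⟩ := mem_filter.1 hn
    have a0 := a1.ne_zero
    have e : a.sign * (a.natAbs : ℤ) = a := Int.sign_mul_natAbs a
    refine mem_biUnion.2 ⟨(a.natAbs, a.sign), mem_product.2 ⟨mem_Icc.2 ⟨by simp only; omega, ?_⟩,
      ?_⟩, mem_filter.2 ⟨r0, ?_⟩⟩
    · rw [Int.abs_eq_natAbs] at a4
      exact_mod_cast a4
    · rcases lt_or_gt_of_ne a0 with b | b
      · simp [Int.sign_eq_neg_one_of_neg b]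
      · simp [Int.sign_eq_one_of_pos b]
    · simp only [e]
      exact ⟨a1, a2, by exact_mod_cast Int.natAbs_dvd.2 a3, a5⟩
  push_cast
  refine (sum_le_sum key).trans ?_
  rw [sum_product]
  simp only [sum_const, nsmul_eq_mul]
  rw [← mul_sum, sum_add_distrib, ← mul_sum, sum_const, nsmul_eq_mul, Nat.card_Icc,
    card_pair (by norm_num), Nat.add_sub_cancel]
  have A0 : 0 < A := by positivity
  have s1 : ∑ m ∈ Icc 1 A, (m : ℝ)⁻¹ ≤ 2 * L ^ 8 := by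
    have b1 := harmonic_le_one_add_log A
    rw [harmonic_eq_sum_Icc] at b1
    push_cast at b1
    have b2 : (0 : ℝ) < A := by exact_mod_cast A0
    have b3 := Real.log_le_log b2 (show (A : ℝ) ≤ 4 * A by linarith)
    linarith [logA A0 le_rfl]
  have s2 : 30 * (X : ℝ) / 2 ^ h * (2 * L ^ 8) ≤ ε / 4 * X := by
    rw [div_mul_eq_mul_div, div_le_iff₀ (by positivity)]
    have := mul_le_mul_of_nonneg_left K2 (show 0 ≤ ε / 4 * X by positivity)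
    refine le_trans (le_of_eq ?_) this
    field_simp
    ring
  have s3 : 2 ^ h * (2 ^ L ^ 8 * (2 ^ 2 ^ u) ^ (2 * h)) ≤ X := by
    refine le_trans ?_ hX
    rw [← pow_mul, ← pow_add, ← pow_add]
    refine Nat.pow_le_pow_right (by norm_num) ?_
    have b1 : 5 * h < 2 ^ (5 * h) := Nat.lt_two_pow_self
    have b2 : 2 ^ L = 2 ^ (5 * h) * 2 ^ u := by rw [← pow_add, ← hu]
    have b3 := Nat.mul_le_mul_right (2 ^ u) (show 2 * h + 1 ≤ 2 ^ (5 * h) by omega)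
    have b4 : h + L ^ 8 ≤ 2 ^ u := by omega
    rw [b2]
    linarith
  have s4 : (A : ℝ) * ((2 ^ 2 ^ u : ℕ) : ℝ) ^ (2 * h) ≤ ε / 4 * X := by
    have b1 : (2 : ℝ) ^ h * (2 ^ L ^ 8 * ((2 ^ 2 ^ u : ℕ) : ℝ) ^ (2 * h)) ≤ X := by
      exact_mod_cast s3
    have b2 : 240 / ε ≤ 2 ^ h := le_trans (le_mul_of_one_le_right e0.le (by linarith)) K2
    rw [div_le_iff₀ hε] at b2
    have b3 := mul_le_mul_of_nonneg_right b2
      (show (0 : ℝ) ≤ 2 ^ L ^ 8 * ((2 ^ 2 ^ u : ℕ) : ℝ) ^ (2 * h) by positivity)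
    have b4 := mul_le_mul_of_nonneg_left b1 hε.le
    have b5 : 0 ≤ ε * X := by positivity
    rw [hA, Nat.cast_mul, Nat.cast_pow 2 (L ^ 8)]
    norm_num only [Nat.cast_ofNat]
    linarith
  have s5 := mul_le_mul_of_nonneg_left s1 (show 0 ≤ 30 * (X : ℝ) / 2 ^ h by positivity)
  norm_num only [Nat.cast_ofNat]
  linarith

end Pool.Agent.P.MP_8b7eba_nt.QT
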