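import Pool.Agent.P.MP_8b7eba_nt.QT.BasP
import Pool.Agent.P.MP_8b7eba_nt.SM.TLAM

/-! Algebra of functions on grids with values in the Gaussian integers. -/

namespace Pool.Agent.P.MP_8b7eba_nt.QT

open Finset SM

variable {k M n : ℕ} {l l' f F : Gz k M → O} {c : Gz k M → Z2} {Y : Gz k M → Prop}
  {Θ Ξ : Set (Gz k M → O)}

/-- the indicator function of a subgrid -/
noncomputable def ind (U : Finset (Option (Fin k))) (ζ z : Gz k M) : Z2 :=
  if ∀ i ∈ U, z i = ζ i then 1 else 0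

/-- the multiples of indicator functions of subgrids -/
noncomputable def go (d : ℕ) (U : Finset (Option (Fin k))) (ζ z : Gz k M) : O :=
  ind U ζ z • om ^ d

theorem go_mem {d : ℕ} {U : Finset (Option (Fin k))} (h : U.card ≤ d) (ζ : Gz k M) :
    go d U ζ ∈ LamO k M := by
  have e : go d U ζ = om ^ (d - U.card) • ∏ i ∈ U, fun z : Gz k M =>
      if z i = ζ i then om else 0 := by
    funext z
    rw [Pi.smul_apply, Finset.prod_apply, go, ind, prod_ite_zero, prod_const, smul_eq_mul]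
    split_ifs
    · rw [one_smul, ← pow_add, Nat.sub_add_cancel h]
    · rw [zero_smul, mul_zero]
  rw [e]
  refine Subalgebra.smul_mem _ (Subalgebra.prod_mem _ fun i _ => ?_) _
  exact Algebra.subset_adjoin ⟨i, ζ i, rfl⟩

theorem gg_eq (U : Finset (Option (Fin k))) (ζ z : Gz k M) :
    TLAM.gg U ζ z = 2 ^ U.card * ind U ζ z := by
  rw [TLAM.gg, ind]
  split_ifs <;> simp

theorem ind_mem {d : ℕ} {U : Finset (Option (Fin k))} (h : U.card ≤ d) (ζ : Gz k M) :
    (fun z => 2 ^ d * ind U ζ z) ∈ Lam k M := by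
  have e : (fun z => 2 ^ d * ind U ζ z) = (2 : Z2) ^ (d - U.card) • TLAM.gg U ζ := by
    funext z
    rw [Pi.smul_apply, gg_eq, smul_eq_mul, ← mul_assoc, ← pow_add, Nat.sub_add_cancel h]
  rw [e]
  exact Subalgebra.smul_mem _ (TLAM.gg_mem U ζ) _

theorem ind_mul (U U' : Finset (Option (Fin k))) (ζ ζ' : Gz k M) : ∃ (c : Z2) (ζ'' : Gz k M),
    ∀ z, ind U ζ z * ind U' ζ' z = c * ind (U ∪ U') ζ'' z := by
  by_cases h : ∀ i ∈ U, i ∈ U' → ζ i = ζ' i
  · refine ⟨1, fun i => if i ∈ U then ζ i else ζ' i, fun z => ?_⟩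
    have e : (∀ i ∈ U ∪ U', z i = if i ∈ U then ζ i else ζ' i) ↔
        (∀ i ∈ U, z i = ζ i) ∧ ∀ i ∈ U', z i = ζ' i := by
      refine ⟨fun h1 => ⟨fun i hi => ?_, fun i hi => ?_⟩, fun h1 i hi => ?_⟩
      · rw [h1 i (mem_union_left _ hi), if_pos hi]
      · rw [h1 i (mem_union_right _ hi)]
        split_ifs with h2
        exacts [h i h2 hi, rfl]
      · split_ifs with h2
        exacts [h1.1 i h2, h1.2 i ((mem_union.1 hi).resolve_left h2)]
    simp only [ind, e, ite_zero_mul_ite_zero, one_mul]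
  · refine ⟨0, ζ, fun z => ?_⟩
    simp only [ind, zero_mul, ite_zero_mul_ite_zero]
    exact if_neg fun h1 => h fun i hi hi' => (h1.1 i hi).symm.trans (h1.2 i hi')

theorem mem_lam (U : Finset (Option (Fin k))) (hf : ∀ z z', (∀ i ∈ U, z i = z' i) → f z = f z')
    (hd : ∀ z, Dv U.card (f z)) : f ∈ LamO k M := by
  choose! u hu using fun a => (dv_iff (n := U.card) (u := a)).1
  have e : f = ∑ ζ ∈ univ.filter (fun ζ : Gz k M => ∀ i, i ∉ U → ζ i = 0),
      u (f ζ) • go U.card U ζ := by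
    funext z
    rw [Finset.sum_apply, sum_eq_single fun i => if i ∈ U then z i else 0]
    · rw [Pi.smul_apply, go, ind, if_pos fun i hi => (if_pos hi).symm, smul_eq_mul, one_smul,
        mul_comm, ← hf z _ fun i hi => (if_pos hi).symm]
      exact hu _ (hd z)
    · intro ζ hζ hne
      rw [Pi.smul_apply, go, ind, if_neg, zero_smul, smul_zero]
      refine fun h => hne (funext fun i => ?_)
      split_ifs with hi
      exacts [(h i hi).symm, (mem_filter.1 hζ).2 i hi]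
    · exact fun h => absurd (mem_filter.2 ⟨mem_univ _, fun i hi => if_neg hi⟩) h
  rw [e]
  exact sum_mem fun ζ _ => Subalgebra.smul_mem _ (go_mem le_rfl ζ) _

theorem lam_le (N : Submodule O (Gz k M → O)) (h : ∀ U ζ, go U.card U ζ ∈ N) (hl : l ∈ LamO k M) :
    l ∈ N := by
  rw [LamO, ← Subalgebra.mem_toSubmodule, Algebra.adjoin_eq_span] at hl
  refine Submodule.span_le.2 (fun g hg => ?_) hl
  suffices ∃ (c : O) (U : _) (ζ : Gz k M), g = c • go U.card U ζ by
    obtain ⟨c, U, ζ, rfl⟩ := this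
    exact Submodule.smul_mem _ _ (h U ζ)
  induction hg using Submonoid.closure_induction with
  | mem g hg =>
    obtain ⟨i, j, rfl⟩ := hg
    exact ⟨1, {i}, fun _ => j, funext fun z => by simp [go, ind]⟩
  | one => exact ⟨1, ∅, 0, funext fun z => by simp [go, ind]⟩
  | mul g g' _ _ h h' =>
    obtain ⟨c, U, ζ, rfl⟩ := h
    obtain ⟨c', U', ζ', rfl⟩ := h'
    obtain ⟨c'', ζ'', e⟩ := ind_mul U U' ζ ζ'
    refine ⟨c * c' * (c'' • om ^ (U ∩ U').card), U ∪ U', ζ'', funext fun z => ?_⟩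
    simp only [Pi.mul_apply, Pi.smul_apply, smul_eq_mul, go]
    rw [mul_mul_mul_comm, smul_mul_smul_comm, e, mul_assoc (c * c'), smul_mul_smul_comm, ← pow_add,
      ← pow_add, add_comm (U ∩ U').card, card_union_add_card_inter]

theorem mx_le (N : Submodule O (Gz k M → O))
    (h : ∀ d U ζ, 1 ≤ d → U.card ≤ d → go d U ζ ∈ N) (hl : MxO l) : l ∈ N := by
  let N' : Submodule O (Gz k M → O) := N ⊓ Submodule.comap
    (LinearMap.proj (R := O) (φ := fun _ : Gz k M => O) 0) (Ideal.span {om ^ 1})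
  have h1 : l ∈ Submodule.span O {go 0 ∅ (0 : Gz k M)} ⊔ N' := by
    refine lam_le _ (fun U ζ => ?_) hl.1
    rcases U.eq_empty_or_nonempty with rfl | hU
    · exact Submodule.mem_sup_left (Submodule.subset_span (funext fun z => by simp [go, ind]))
    · refine Submodule.mem_sup_right ⟨h _ U ζ hU.card_pos le_rfl, Ideal.mem_span_singleton.2 ?_⟩
      exact ((al_om _).dv.mono hU.card_pos).smul _
  obtain ⟨f, hf, g, hg, rfl⟩ := Submodule.mem_sup.1 h1
  obtain ⟨a, rfl⟩ := Submodule.mem_span_singleton.1 hf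
  obtain ⟨b, hb⟩ : Dv 1 a := by
    have h2 := (hl.2 0).sub (Ideal.mem_span_singleton.1 hg.2)
    simpa [go, ind] using h2
  refine N.add_mem ?_ hg.1
  have e : a • go 0 ∅ (0 : Gz k M) = b • go 1 ∅ (0 : Gz k M) :=
    funext fun z => by simp [go, ind, hb, mul_comm]
  rw [e]
  exact N.smul_mem _ (h 1 ∅ 0 le_rfl (by simp))

/-- the functions which are killed by a linear form -/
def kl (n : ℕ) (c : Gz k M → Z2) (F : Gz k M → O) (z₀ : Gz k M) (F₀ : O) :
    Submodule O (Gz k M → O) where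
  carrier := {l | Dv n (∑ z, c z • (l z * F z) - l z₀ * F₀)}
  add_mem' := fun {f g} hf hg => of_eq (Dv.add hf hg) (by
    simp only [Pi.add_apply, add_mul, smul_add, sum_add_distrib]; ring)
  zero_mem' := of_eq dv_zero (by simp)
  smul_mem' := fun a f hf => of_eq (Dv.mul_left hf a) (by
    simp only [Pi.smul_apply, smul_eq_mul, mul_sub, mul_sum, mul_smul_comm, mul_assoc])

theorem go_kl {d : ℕ} {U : Finset (Option (Fin k))} {ζ z₀ : Gz k M} {F₀ : O} :
    go d U ζ ∈ kl n c F z₀ F₀ ↔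
      Dv n (om ^ d * (∑ z, (c z * ind U ζ z) • F z - ind U ζ z₀ • F₀)) := by
  refine iff_of_eq (congrArg (Dv n) ?_)
  simp only [go, mul_sub, mul_sum, mul_smul_comm, smul_mul_assoc, mul_smul]

theorem MxO.mul (h : MxO l) (h' : l' ∈ LamO k M) : MxO (l * l') :=
  ⟨mul_mem h.1 h', fun z => (h.2 z).mul_right _⟩

theorem go_mx {d : ℕ} {U : Finset (Option (Fin k))} (h1 : 1 ≤ d) (h : U.card ≤ d) (ζ : Gz k M) :
    MxO (go d U ζ) := ⟨go_mem h ζ, fun _ => ((al_om _).dv.mono h1).smul _⟩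

theorem mx_om : MxO fun _ : Gz k M => om :=
  ⟨(LamO k M).algebraMap_mem om, fun _ => by simpa using (al_om 1).dv⟩

theorem one_mem_lam (i : Option (Fin k)) {f : Fin (M + 1) → O} (h : ∀ j, Dv 1 (f j)) :
    (fun z : Gz k M => f (z i)) ∈ LamO k M :=
  mem_lam {i} (fun z z' e => by rw [e i (mem_singleton_self i)]) fun z => h _

theorem peO_of (h : ∀ z, c z ≠ 0 → Dv n (f z)) : PeO n c f := Dv.sum fun z _ => dv_of (h z)

theorem PeO.congr (h : PeO n c f) (e : ∀ z, c z ≠ 0 → Dv n (F z - f z)) : PeO n c F :=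
  of_eq (Dv.add h (peO_of e)) (by
    rw [← sum_add_distrib]
    exact sum_congr rfl fun z _ => by rw [← smul_add, add_sub_cancel])

theorem PeO.add (h : PeO n c f) (h' : PeO n c F) : PeO n c (f + F) :=
  of_eq (Dv.add h h') (by simp only [Pi.add_apply, smul_add, sum_add_distrib])

theorem dv_sub_pow {d : ℕ} {a : O} (h : Dv (n - d) a) : Dv n (om ^ d * a) :=
  (dv_pow.2 h).mono (by omega)

theorem dv_pow_sub {d : ℕ} {a : O} (h : Dv n (om ^ d * a)) : Dv (n - d) a := by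
  rcases le_total d n with e | e
  · obtain ⟨m, rfl⟩ := Nat.exists_eq_add_of_le e
    rw [Nat.add_sub_cancel_left]
    exact dv_pow.1 h
  · rw [Nat.sub_eq_zero_of_le e]
    exact dv_nil _

theorem conv_lam {j : ℕ} (hj : j ≤ 1) {z₀ : Gz k M} {F₀ : O} (h : ∀ l ∈ Lam k M,
    (2 : O) ^ n ∣ om ^ j * (∑ z, (c z * l z) • F z - l z₀ • F₀)) (hl : l ∈ LamO k M) :
    Dv n (∑ z, c z • (l z * F z) - l z₀ * F₀) := by
  refine lam_le (kl n c F z₀ F₀) (fun U ζ => go_kl.2 (dv_conv hj ?_)) hl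
  refine (h _ (ind_mem (U := U) le_rfl ζ)).trans (dvd_of_eq (congrArg _ ?_))
  simp only [← two_smul_eq, smul_sub, smul_sum, smul_smul, mul_left_comm]

theorem conv_mx {j : ℕ} (hj : j ≤ 1) (h : ∀ l, Mx l →
    (2 : O) ^ n ∣ om ^ j * ∑ z, (c z * l z) • F z) (hl : MxO l) : PeO n c (l * F) := by
  have h1 := mx_le (kl n c F 0 0) (fun d U ζ h1 h2 => go_kl.2 (dv_conv hj ?_)) hl
  · exact of_eq h1 (by simp)
  refine (h _ ⟨ind_mem h2 ζ, fun z => (dvd_pow_self 2 (by omega)).mul_right _⟩).trans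
    (dvd_of_eq (congrArg _ ?_))
  simp only [← two_smul_eq, smul_zero, sub_zero, smul_sum, smul_smul, mul_left_comm]

theorem alg1 (hG : ∀ m < n, Gen m Y Θ Ξ) (hc : ∀ z, c z ≠ 0 → Y z)
    (h1 : ∀ l ∈ LamO k M, PeO n c l) (h2 : ∀ l, MxO l → ∀ θ ∈ Θ, PeO n c (l * θ))
    (hF : F ∈ Ξ) (hl : MxO l) : PeO n c (l * F) := by
  rcases n.eq_zero_or_pos with rfl | hn
  · exact dv_nil _
  have h3 := mx_le (kl n c F 0 0) (fun d U ζ a b => go_kl.2 (dv_sub_pow ?_)) hl
  · exact of_eq h3 (by simp)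
  have e : ∀ f : Gz k M → O, PeO n c (go d U ζ * f) →
      PeO (n - d) (fun z => c z * ind U ζ z) f := fun f hf => dv_pow_sub (of_eq hf (by
    simp only [go, mul_sum, Pi.mul_apply, mul_smul_comm, smul_mul_assoc, mul_smul]))
  rw [smul_zero, sub_zero]
  exact hG (n - d) (by omega) _ (fun z hz => hc z (left_ne_zero_of_mul hz))
    (fun l hl => e _ (h1 _ (mul_mem (go_mem b ζ) hl)))
    (fun l hl θ hθ => e _ (mul_assoc _ l θ ▸ h2 _ ((go_mx a b ζ).mul hl) θ hθ)) F hF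

theorem alg2 (hG : ∀ m ≤ n, Gen m Y Θ Ξ) (hc : ∀ z, c z ≠ 0 → Y z) {z₀ : Gz k M}
    (h1 : ∀ l ∈ LamO k M, Dv n (∑ z, c z • l z - l z₀))
    (h2 : ∀ θ ∈ Θ, ∃ a, ∀ l ∈ LamO k M, Dv n (∑ z, c z • (l z * θ z) - l z₀ * a))
    (hF : F ∈ Ξ) (hl : l ∈ LamO k M) : PeO n c fun z => (l z - l z₀) * F z := by
  have h3 := lam_le (kl n c F z₀ (∑ z, c z • F z)) (fun U ζ => go_kl.2 (dv_sub_pow ?_)) hl
  · refine of_eq h3 ?_
    simp only [sub_mul, smul_sub, sum_sub_distrib, mul_sum, mul_smul_comm]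
  have e : ∀ (f : Gz k M → O) (a : O),
      (∀ l ∈ LamO k M, Dv n (∑ z, c z • (l z * f z) - l z₀ * a)) → ∀ l ∈ LamO k M,
      PeO (n - U.card) (fun z => c z * (ind U ζ z - ind U ζ z₀)) (l * f) := fun f a hf l hl => by
    refine dv_pow_sub (of_eq ((hf _ (mul_mem (go_mem (U := U) le_rfl ζ) hl)).sub
      ((hf l hl).mul_left (go U.card U ζ z₀))) ?_)
    simp only [go, mul_sum, Pi.mul_apply, mul_smul_comm, smul_mul_assoc, mul_smul, mul_sub,
      sub_smul, sum_sub_distrib, mul_assoc]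
    ring
  have h4 := hG (n - U.card) (by omega) _ (fun z hz => hc z (left_ne_zero_of_mul hz))
    (fun l hl => by simpa using e 1 1 (by simpa using h1) l hl)
    (fun l hl θ hθ => let ⟨a, ha⟩ := h2 θ hθ; e θ a ha l hl) F hF
  refine of_eq h4 ?_
  simp only [mul_sub, sub_smul, sum_sub_distrib, smul_sum, smul_smul, mul_comm (ind U ζ z₀)]

end Pool.Agent.P.MP_8b7eba_nt.QT
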