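import Pool.Agent.P.MP_8b7eba_nt.QT.BasA

/-! The governing function. -/

namespace Pool.Agent.P.MP_8b7eba_nt.QT

open Finset SM

variable {k M : ℕ}

/-- dependence on the first coordinate and those in `W` only -/
def Dep (W : Finset (Fin k)) (g : Gz k M → O) : Prop :=
  ∀ z z' : Gz k M, z none = z' none → (∀ i ∈ W, z (some i) = z' (some i)) → g z = g z'

theorem dep_mem (W : Finset (Fin k)) {g : Gz k M → O} (hg : Dep W g)
    (hd : ∀ z, Dv (W.card + 1) (g z)) : g ∈ LamO k M :=
  mem_lam (Finset.insertNone W)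
    (fun z z' hz => hg z z' (hz none (by simp)) fun i hi => hz (some i) (by simpa using hi))
    (by rwa [Finset.card_insertNone])

/-- one term of the governing function -/
noncomputable def mte (γ : Fin (M + 1) → Mu k M → F2) (U : Finset (Fin k)) (z : Gz k M) : O :=
  if ∀ i ∈ U, z (some i) ≠ 0 then
    om ^ U.card * lf (γ (z none) (ers (fun i => z (some i)) Uᶜ)) else 0

theorem mm_eq (γ : Fin (M + 1) → Mu k M → F2) (z : Gz k M) : mmO γ z = ∑ U, mte γ U z := rfl

theorem mte_dep (γ : Fin (M + 1) → Mu k M → F2) {U W : Finset (Fin k)} (h : U ⊆ W) :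
    Dep W (mte γ U) := by
  intro z z' h0 h1
  have e : ers (fun i => z (some i)) Uᶜ = ers (fun i => z' (some i)) Uᶜ := by
    funext i
    by_cases hi : i ∈ U
    · simp [ers, hi, h1 i (h hi)]
    · simp [ers, hi]
  unfold mte
  rw [e, h0]
  exact if_congr (forall₂_congr fun i hi => by rw [h1 i (h hi)]) rfl rfl

theorem mte_dv (γ : Fin (M + 1) → Mu k M → F2) (U : Finset (Fin k)) (z : Gz k M) :
    Dv U.card (mte γ U z) := by
  unfold mte
  split_ifs
  · exact dv_om _ _
  · exact dv_zero

/-- one term of the product of the units -/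
noncomputable def pt (a : Fin k → Fin (M + 1) → O) (V : Finset (Fin k)) (z : Gz k M) : O :=
  om ^ V.card * ∏ i ∈ V, a i (z (some i))

theorem pt_dep (a : Fin k → Fin (M + 1) → O) {U W : Finset (Fin k)} (h : U ⊆ W) :
    Dep W (pt a U) := by
  intro z z' _ h1
  unfold pt
  rw [Finset.prod_congr rfl fun i hi => by rw [h1 i (h hi)]]

theorem prod_pt (a : Fin k → Fin (M + 1) → O) (z : Gz k M) :
    ∏ i, (1 + om * a i (z (some i))) = ∑ V, pt a V z := by
  rw [Finset.prod_one_add, Finset.powerset_univ]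
  refine Finset.sum_congr rfl fun V _ => ?_
  rw [Finset.prod_mul_distrib, Finset.prod_const, pt]

theorem regroup (F : Finset (Fin k) → Finset (Fin k) → O) :
    ∑ V, ∑ U, F V U = ∑ W : Finset (Fin k), ∑ V ∈ W.powerset, F V (W \ V) +
      ∑ V, ∑ U ∈ univ.filter fun U => ¬Disjoint U V, F V U := by
  have : ∑ W : Finset (Fin k), ∑ V ∈ W.powerset, F V (W \ V) =
      ∑ V, ∑ U ∈ univ.filter fun U => Disjoint U V, F V U := by
    rw [Finset.sum_comm' (t' := univ) (s' := fun V => univ.filter fun W => V ⊆ W) (by simp)]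
    refine Finset.sum_congr rfl fun V _ => ?_
    refine Finset.sum_bij' (fun W _ => W \ V) (fun U _ => U ∪ V) ?_ ?_ ?_ ?_ ?_
    · intro W _; simp [Finset.sdiff_disjoint]
    · intro U _; simp
    · intro W hW; exact Finset.sdiff_union_of_subset (by simpa using hW)
    · intro U hU; exact Finset.union_sdiff_cancel_right (by simpa using hU)
    · intro W _; rfl
  rw [this, ← Finset.sum_add_distrib]
  exact Finset.sum_congr rfl fun V _ => (Finset.sum_filter_add_sum_filter_not _ _ _).symm

theorem mco (a : Fin k → Fin (M + 1) → O) (γ γ' γ'' : Fin (M + 1) → Mu k M → F2)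
    (ha : ∀ i, a i 0 = 0) (hγ : ∀ j μ, γ'' j μ = γ j μ +
      ∑ U : Finset (Fin k), (∏ i ∈ U, rd (a i (μ i))) * γ' j (ers μ U)) :
    (fun z => mmO γ'' z - mmO γ z - (∏ i, (1 + om * a i (z (some i)))) * mmO γ' z) ∈
      LamO k M := by
  have e : (fun z => mmO γ'' z - mmO γ z - (∏ i, (1 + om * a i (z (some i)))) * mmO γ' z) =
      ∑ W : Finset (Fin k), (fun z => mte γ'' W z - mte γ W z -
        ∑ V ∈ W.powerset, pt a V z * mte γ' (W \ V) z) -
      ∑ V, ∑ U ∈ univ.filter fun U => ¬Disjoint U V, fun z => pt a V z * mte γ' U z := by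
    funext z
    simp only [Pi.sub_apply, Finset.sum_apply, mm_eq, prod_pt, Finset.sum_mul_sum,
      Finset.sum_sub_distrib]
    rw [regroup fun V U => pt a V z * mte γ' U z]
    ring
  rw [e]
  refine Subalgebra.sub_mem _ (Subalgebra.sum_mem _ fun W _ => ?_)
    (Subalgebra.sum_mem _ fun V _ => Subalgebra.sum_mem _ fun U hU => ?_)
  · refine dep_mem W (fun z z' h0 h1 => ?_) fun z => ?_
    · show _ - _ - _ = _ - _ - _
      rw [mte_dep γ'' (Subset.refl W) z z' h0 h1, mte_dep γ (Subset.refl W) z z' h0 h1,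
        Finset.sum_congr rfl fun V hV => by
          rw [pt_dep a (mem_powerset.1 hV) z z' h0 h1, mte_dep γ' sdiff_subset z z' h0 h1]]
    · by_cases hW : ∀ i ∈ W, z (some i) ≠ 0
      · have e1 : ∀ V ∈ W.powerset, pt a V z * mte γ' (W \ V) z = om ^ W.card *
            ((∏ i ∈ V, a i (z (some i))) *
              lf (γ' (z none) (ers (fun i => z (some i)) (W \ V)ᶜ))) := by
          intro V hV
          rw [pt, mte, if_pos fun i hi => hW i (sdiff_subset hi),
            ← card_sdiff_add_card_eq_card (mem_powerset.1 hV), pow_add]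
          ring
        rw [Finset.sum_congr rfl e1, ← Finset.mul_sum, mte, mte, if_pos hW, if_pos hW, ← mul_sub,
          ← mul_sub, dv_pow, ← rd_eq, rd_sub, rd_sum]
        simp only [rd_mul, rd_prod, rd_lf]
        rw [hγ, add_right_comm, CharTwo.add_self_eq_zero, zero_add]
        symm
        refine (Finset.sum_congr rfl fun V hV => ?_).trans (Finset.sum_subset (subset_univ _)
          fun V _ hV => ?_)
        · have hV' := mem_powerset.1 hV
          congr 1
          · exact Finset.prod_congr rfl fun i hi => by simp [ers, hV' hi]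
          · congr 1
            funext i
            by_cases h1 : i ∈ V <;> by_cases h2 : i ∈ W <;> simp [ers, h1, h2]
        · obtain ⟨i, h1, h2⟩ := not_subset.1 fun h => hV (mem_powerset.2 h)
          rw [Finset.prod_eq_zero h1 (by simp [ers, h2, ha, rd_zero]), zero_mul]
      · rw [mte, mte, if_neg hW, if_neg hW, Finset.sum_eq_zero, sub_zero, sub_zero]
        · exact dv_zero
        intro V _
        push Not at hW
        obtain ⟨i, h1, h2⟩ := hW
        by_cases h3 : i ∈ V
        · rw [pt, Finset.prod_eq_zero h3 (by simp [h2, ha]), mul_zero, zero_mul]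
        · rw [mte, if_neg fun h => h i (mem_sdiff.2 ⟨h1, h3⟩) h2, mul_zero]
  · refine dep_mem (U ∪ V) (fun z z' h0 h1 => ?_) fun z => ?_
    · show _ * _ = _ * _
      rw [pt_dep a subset_union_right z z' h0 h1, mte_dep γ' subset_union_left z z' h0 h1]
    · have h1 : (U ∪ V).card + 1 ≤ V.card + U.card := by
        have h2 := card_union_add_card_inter U V
        have h3 : (U ∩ V).Nonempty := not_disjoint_iff_nonempty_inter.1 (by simpa using hU)
        have := h3.card_pos
        omega
      exact ((dv_om _ _).mul (mte_dv _ _ _)).mono h1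

theorem mcv (γ : Fin (M + 1) → Mu k M → F2) {f : Fin (M + 1) → O} (hf : ∀ j, rd (f j) = 1)
    (s : F2) : (fun z => f (z none) * cs s (mmO γ z) - mmO γ z) ∈ LamO k M := by
  have e : (fun z => f (z none) * cs s (mmO γ z) - mmO γ z) =
      ∑ W : Finset (Fin k), fun z : Gz k M => f (z none) * cs s (mte γ W z) - mte γ W z := by
    funext z
    simp only [Finset.sum_apply, mm_eq, Finset.mul_sum, map_sum, sum_sub_distrib]
  rw [e]
  refine Subalgebra.sum_mem _ fun W _ => dep_mem W (fun z z' h0 h1 => ?_) fun z =>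
    dv_act (hf _) (mte_dv γ W z) s
  show _ * _ - _ = _ * _ - _
  rw [mte_dep γ (Subset.refl W) z z' h0 h1, h0]

theorem mte_empty (γ : Fin (M + 1) → Mu k M → F2) (z : Gz k M) :
    mte γ ∅ z = lf (γ (z none) 0) := by
  have : ers (fun i => z (some i)) (∅ : Finset (Fin k))ᶜ = 0 := by
    funext i; simp [ers]
  rw [mte, this]
  simp

theorem rd_mm (γ : Fin (M + 1) → Mu k M → F2) (z : Gz k M) : rd (mmO γ z) = γ (z none) 0 := by
  rw [mm_eq, rd_sum, Finset.sum_eq_single ∅, mte_empty, rd_lf]
  · exact fun U _ hU => rd_eq_zero.2 ((mte_dv γ U z).mono (nonempty_iff_ne_empty.2 hU).card_pos)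
  · simp

theorem mm_low {γ : Fin (M + 1) → Mu k M → F2} {z : Gz k M}
    (h : ∀ μ, μ ≠ 0 → γ (z none) μ = 0) : mmO γ z = lf (γ (z none) 0) := by
  rw [mm_eq, Finset.sum_eq_single ∅, mte_empty]
  · intro U _ hU
    obtain ⟨i, hi⟩ := nonempty_iff_ne_empty.2 hU
    unfold mte
    split_ifs with h1
    · rw [h _ fun h2 => h1 i hi (by simpa [ers, hi] using congrFun h2 i), lf_zero, mul_zero]
    · rfl
  · simp

theorem mm_top {γ : Fin (M + 1) → Mu k M → F2} {z : Gz k M}
    (h : ∀ μ, (∃ i, μ i = 0) → γ (z none) μ = 0) : mmO γ z =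
      if ∀ i, z (some i) ≠ 0 then om ^ k * lf (γ (z none) fun i => z (some i)) else 0 := by
  rw [mm_eq, Finset.sum_eq_single univ]
  · have : ers (fun i => z (some i)) (univ : Finset (Fin k))ᶜ = fun i => z (some i) := by
      funext i; simp [ers]
    rw [mte, this]
    simp
  · intro U _ hU
    obtain ⟨i, hi⟩ : ∃ i, i ∉ U := by
      by_contra hn
      push Not at hn
      exact hU (eq_univ_of_forall hn)
    unfold mte
    rw [h _ ⟨i, by simp [ers, hi]⟩, lf_zero]
    simp
  · simp

end Pool.Agent.P.MP_8b7eba_nt.QT
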