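import Pool.Agent.P.MP_8b7eba_nt.QT.BasO

/-! Units, representatives and limits in the 2-adic Gaussian integers. -/

namespace Pool.Agent.P.MP_8b7eba_nt.QT

open Finset SM QuadraticAlgebra Filter

variable {n m j : ℕ} {a a' b b' f u v α : O} {s t : F2}

theorem dv_act (hf : rd f = 1) (h : Dv n v) (s : F2) : Dv (n + 1) (f * cs s v - v) :=
  of_eq (((h.cs s).mul (dv_one_sub.2 hf)).add (h.cs_sub s)) (by ring)

theorem rd_of_sq (h : u ^ 2 = -1) : rd u = 1 :=
  unit_iff.1 (IsUnit.of_mul_eq_one (-u) (by linear_combination -h))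

theorem sq_cases (h : u ^ 2 = -1) : u = ii ∨ u = -ii :=
  sq_eq_sq_iff_eq_or_eq_neg.1 (h.trans ii_sq.symm)

theorem al_add (h : u ^ 2 = -1) : Al 1 (1 + u) := by
  rcases sq_cases h with rfl | rfl
  · rw [← om_eq]
    simpa using al_om 1
  · have e : 1 + -ii = star om := by ext <;> simp
    rw [e]
    exact al_star_om

theorem dv_one_add (h : rd u = 1) : Dv 1 (1 + u) := by
  rw [← rd_eq_zero, rd_add, rd_one, h]
  rfl

theorem fq_congr (hf : rd f = 1) (hu : rd u = 1) (ha : Dv n (a - a')) (hb : Dv n (b - b'))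
    (s : F2) : Dv (n + 2) (fq s f u a b - fq s f u a' b') := by
  have h1 := dv_act hf (hb.mul (dv_one_add hu)) s
  refine of_eq ((ha.mul (al_two 1).dv).add h1) ?_
  simp only [fq, map_mul, map_sub]
  ring

theorem rd_im (h : rd f = 1) : ∃ w, f - 1 = om * w ∧ rd w = PadicInt.toZMod f.im := by
  obtain ⟨w, hw⟩ := dv_one_sub.2 h
  rw [pow_one] at hw
  refine ⟨w, hw, ?_⟩
  have h1 := congrArg QuadraticAlgebra.im hw
  simp only [im_sub, im_mul, om_re, om_im, im_one] at h1
  rw [rd, show f.im = w.re + w.im by linear_combination h1]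

theorem fq_se (hf : rd f = 1) (hu : u ^ 2 = -1) (h : Dv 3 (fq s f u a b)) :
    rd a = (PadicInt.toZMod f.im + s) * rd b := by
  have h1 := h.sub (fq_congr hf (rd_of_sq hu) (dv_lf_rd a) (dv_lf_rd b) s)
  rw [sub_sub_cancel] at h1
  generalize rd a = x at h1 ⊢
  generalize rd b = y at h1 ⊢
  obtain ⟨c, hc, e⟩ := (al_add hu).eq
  obtain ⟨f', e1, e2, e3⟩ : ∃ f', f * cs s (1 + u) = f' * (1 + u) ∧ rd f' = 1 ∧
      (PadicInt.toZMod f'.im : F2) = PadicInt.toZMod f.im + s := by
    rcases f2 s with rfl | rfl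
    · exact ⟨f, by rw [cs_zero], hf, (add_zero _).symm⟩
    · have e4 : (PadicInt.toZMod f.re : F2) = PadicInt.toZMod f.im + 1 := by
        rw [← hf, rd, map_add, add_left_comm, CharTwo.add_self_eq_zero, add_zero]
      refine ⟨-u * f, ?_, by rw [rd_mul, rd_neg, rd_of_sq hu, hf, mul_one], ?_⟩
      · rcases sq_cases hu with rfl | rfl <;> (rw [cs_one]; ext <;> simp <;> ring)
      · rcases sq_cases hu with rfl | rfl <;> simp [e4, CharTwo.neg_eq]
  obtain ⟨w, hw, e5⟩ := rd_im e2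
  have h2 : fq s f u (lf x) (lf y) = om ^ 2 * (-ii * lf x + w * c * lf y) := by
    rw [fq, map_mul, cs_lf, ← mul_assoc, e1, show f' = 1 + om * w by linear_combination hw, e]
    linear_combination (lf x) * om_sq * ii + 2 * lf x * ii_sq
  rw [h2, show 3 = 2 + 1 from rfl, dv_pow, ← rd_eq_zero, rd_add, rd_mul, rd_mul, rd_mul, rd_neg,
    rd_ii, rd_lf, rd_lf, e5, e3, unit_iff.1 hc, one_mul, mul_one, CharTwo.add_eq_zero] at h1
  exact h1

theorem im_mul_unit (ha : rd a = 1) (hb : rd b = 1) :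
    (PadicInt.toZMod (a * b).im : F2) = PadicInt.toZMod a.im + PadicInt.toZMod b.im := by
  simp only [rd, map_add] at ha hb
  simp only [im_mul, map_add, map_mul, map_zero, zero_mul, add_zero]
  revert ha hb
  generalize PadicInt.toZMod a.re = x
  generalize PadicInt.toZMod a.im = y
  generalize PadicInt.toZMod b.re = z
  generalize PadicInt.toZMod b.im = w
  revert x y z w
  decide

theorem im_cs (s : F2) (a : O) : (PadicInt.toZMod (cs s a).im : F2) = PadicInt.toZMod a.im := by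
  rw [cs_im, map_mul, BasY.toZMod_sg, one_mul]

theorem im_ii_pow (e : ℕ) : (PadicInt.toZMod (ii ^ e).im : F2) = e := by
  induction e with
  | zero => simp
  | succ e ih =>
    rw [pow_succ, im_mul_unit (by rw [rd_pow, rd_ii, one_pow]) rd_ii, ih]
    simp

theorem Dv.im (h : Dv (2 * n) a) : 2 ^ n ∣ a.im := (dv_two_iff.1 h).2

theorem im_al (h : Al (2 * m + 1) α) (b : O) :
    ∃ c : Z2, (α * b).im = 2 ^ m * c ∧ PadicInt.toZMod c = rd b := by
  obtain ⟨u, hu⟩ := (h.trans ((al_two m).mul (al_om 1)).symm).symm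
  refine ⟨u.1.re * b.re - u.1.im * b.im + (u.1.re * b.im + u.1.im * b.re), ?_, ?_⟩
  · rw [← hu, mul_assoc, mul_assoc, ← two_smul_eq, im_smul, pow_one]
    simp only [im_mul, re_mul, om_re, om_im, smul_eq_mul]
    ring
  · have h1 := rd_mul u b
    rw [unit_iff.1 u.isUnit, one_mul] at h1
    rw [← h1, rd]
    simp only [im_mul, re_mul]
    congr 1
    ring

theorem par_iff {k : ℕ} {a b : Bool} : Par (k + 1) a b ↔ ¬ Par k a b := by
  unfold Par
  rw [Nat.odd_add_one]
  tauto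

/-! ### Representatives -/

open Classical in
/-- a canonical representative of the class modulo the `n`-th power of the uniformiser -/
noncomputable def lv (n : ℕ) (a : O) : O :=
  if Dv n a then 0 else Classical.epsilon fun b => Dv n (b - a)

theorem dv_lv (n : ℕ) (a : O) : Dv n (lv n a - a) := by
  unfold lv
  split_ifs with h
  · exact of_eq h.neg (zero_sub a)
  · exact Classical.epsilon_spec (p := fun b => Dv n (b - a)) ⟨a, dv_refl a⟩

theorem lv_zero (h : Dv n a) : lv n a = 0 := if_pos h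

theorem lv_eq : lv n a = lv n b ↔ Dv n (a - b) := by
  refine ⟨fun h => (dv_lv n a).symm.trans (h ▸ dv_lv n b), fun h => ?_⟩
  have e1 : Dv n a ↔ Dv n b :=
    ⟨fun e => of_eq (e.sub h) (by ring), fun e => of_eq (e.add h) (by ring)⟩
  have e2 : (fun c => Dv n (c - a)) = fun c => Dv n (c - b) :=
    funext fun c => propext ⟨fun e => e.trans h, fun e => e.trans h.symm⟩
  unfold lv
  rw [e2, e1]

/-- the reduction modulo `2 ^ n` -/
noncomputable def rn (n : ℕ) : O →+ ZMod (2 ^ n) × ZMod (2 ^ n) :=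
  AddMonoidHom.mk' (fun a => (PadicInt.toZModPow n a.re, PadicInt.toZModPow n a.im))
    fun a b => by simp

theorem rn_eq_zero : rn n a = 0 ↔ Dv (2 * n) a := by
  rw [dv_two_iff, ← BasY.dvd_iff, ← BasY.dvd_iff]
  exact Prod.ext_iff

theorem rn_eq : rn n a = rn n b ↔ Dv (2 * n) (a - b) := by rw [← rn_eq_zero, map_sub, sub_eq_zero]

theorem rn_surj (n : ℕ) : Function.Surjective (rn n) := fun c =>
  ⟨⟨c.1.val, c.2.val⟩, Prod.ext (by simp [rn]) (by simp [rn])⟩

theorem finite_lv (n : ℕ) : (Set.range (lv n)).Finite := by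
  choose r hr using rn_surj n
  refine (Set.finite_range fun c => lv n (r c)).subset ?_
  rintro _ ⟨a, rfl⟩
  exact ⟨rn n a, lv_eq.2 ((rn_eq.1 (hr _)).mono (by omega))⟩

theorem exists_nat (n : ℕ) (c : Z2) : ∃ k : ℕ, 2 ^ n ∣ c - k :=
  ⟨(PadicInt.toZModPow n c).val, (BasY.dvd_iff n _).1 (by simp)⟩

theorem exists_lim {ι : Type} (F : Ultrafilter ι) (x : ι → O) :
    ∃ b, ∀ n, ∀ᶠ i in (F : Filter ι), Dv n (x i - b) := by
  have k : ∀ y : ι → Z2, ∃ c, ∀ n, ∀ᶠ i in (F : Filter ι), 2 ^ n ∣ y i - c := fun y => by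
    obtain ⟨c, -, hc⟩ := isCompact_univ.ultrafilter_le_nhds (F.map y) (by simp)
    refine ⟨c, fun n => ?_⟩
    have h1 : Tendsto y F (nhds c) := hc
    filter_upwards [h1.eventually (Metric.closedBall_mem_nhds c
      (show (0 : ℝ) < ((2 : ℕ) : ℝ) ^ (-n : ℤ) by positivity))] with i hi
    rw [dist_eq_norm, PadicInt.norm_le_pow_iff_mem_span_pow, Ideal.mem_span_singleton] at hi
    exact_mod_cast hi
  obtain ⟨c, hc⟩ := k fun i => (x i).re
  obtain ⟨d, hd⟩ := k fun i => (x i).im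
  refine ⟨⟨c, d⟩, fun n => ?_⟩
  filter_upwards [hc n, hd n] with i h1 h2
  exact (dv_two_iff.2 ⟨h1, h2⟩).mono (by omega)

theorem exists_lim' (x : ℕ → O) (h : ∀ n, Dv (2 * n) (x (n + 1) - x n)) :
    ∃ b, ∀ n, Dv (2 * n) (x n - b) := by
  obtain ⟨b, hb⟩ := exists_lim (hyperfilter ℕ) x
  refine ⟨b, fun n => ?_⟩
  have h1 : ∀ k, Dv (2 * n) (x (n + k) - x n) := fun k => by
    induction k with
    | zero => exact dv_refl _
    | succ k ih => exact ((h (n + k)).mono (by omega)).trans ih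
  obtain ⟨i, h2, h3⟩ := ((hb (2 * n)).and
    (Nat.hyperfilter_le_atTop (eventually_ge_atTop n))).exists
  obtain ⟨k, rfl⟩ := Nat.exists_eq_add_of_le h3
  exact (h1 k).symm.trans h2

end Pool.Agent.P.MP_8b7eba_nt.QT
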