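import Pool.Agent.P.MP_8b7eba_nt.QT.IfB
import Pool.Agent.P.MP_8b7eba_nt.SM.BasT
import Pool.Agent.P.MP_8b7eba_nt.SM.BasM

/-! Points of a box and points of a grid. -/

namespace Pool.Agent.P.MP_8b7eba_nt.QT

open Finset R2 SM

namespace Geo

variable {k : ℕ} {𝒯 : Geo k} {p : Fin 𝒯.B.r → ℕ} {z : Option (Fin k) → ℕ} {y : ℕ}

theorem asm_mem (hp : p ∈ 𝒯.B.pts) (hz : ∀ o, z o ∈ 𝒯.X o) (hy : y ∈ 𝒯.Y) :
    asm 𝒯.e p z y ∈ 𝒯.B.pts := by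
  refine Box.mem_pts.2 fun j => ?_
  rcases BasT.tri 𝒯.e j with rfl | ⟨i, rfl⟩ | h
  · rw [(asm_e 𝒯.e p z y).1]
    exact hy
  · rw [(asm_e 𝒯.e p z y).2.1]
    exact hz i
  · rw [(asm_e 𝒯.e p z y).2.2 j h]
    exact Box.mem_pts.1 hp j

theorem set_asm : 𝒯.B.set (asm 𝒯.e p z y) = insert y (𝒯.P p) ∪ univ.image z := by
  obtain ⟨h1, h2, h3⟩ := asm_e 𝒯.e p z y
  ext q
  simp only [Box.mem_set, P, mem_union, mem_insert, mem_image, mem_filter, mem_univ, true_and]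
  constructor
  · rintro (h | ⟨j, rfl⟩)
    · exact Or.inl (Or.inr (Or.inl h))
    · rcases BasT.tri 𝒯.e j with rfl | ⟨i, rfl⟩ | h
      · exact Or.inl (Or.inl h1)
      · exact Or.inr ⟨i, (h2 i).symm⟩
      · exact Or.inl (Or.inr (Or.inr ⟨j, h, (h3 j h).symm⟩))
  · rintro ((rfl | h | ⟨j, h, rfl⟩) | ⟨i, rfl⟩)
    · exact Or.inr ⟨_, h1⟩
    · exact Or.inl h
    · exact Or.inr ⟨j, h3 j h⟩
    · exact Or.inr ⟨_, h2 i⟩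

theorem cp_of (h : Leg (asm 𝒯.e p z y) = 𝒯.a) : 𝒯.cp p z y := by
  refine ⟨fun i j hi hj => ?_, fun j hj => ?_, fun o => ?_⟩
  · rw [← h, BasT.leg_off 𝒯.e p z 0 y hi hj]
  · rw [← h, BasT.leg_out 𝒯.e p z y hj]
  · beta_reduce
    rw [← h, BasT.leg_some]

theorem leg_of (hp : p ∈ 𝒯.B.pts) (hz : ∀ o, z o ∈ 𝒯.X o) (hy : y ∈ 𝒯.Y) (h : 𝒯.cp p z y) :
    Leg (asm 𝒯.e p z y) = 𝒯.a := by
  obtain ⟨h1, h2, h3⟩ := h
  obtain ⟨p', hp', ha⟩ := 𝒯.sy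
  have row : ∀ j, Leg (asm 𝒯.e p z y) (𝒯.e none) j = 𝒯.a (𝒯.e none) j := by
    intro j
    rcases BasT.tri 𝒯.e j with rfl | ⟨i, rfl⟩ | h
    · rw [← ha]
      unfold Leg
      rw [if_pos rfl, if_pos rfl]
    · rw [BasT.leg_some]
      exact h3 i
    · rw [BasT.leg_out 𝒯.e p z y h]
      exact h2 j h
  funext i j
  by_cases hi : i = 𝒯.e none
  · rw [hi, row]
  by_cases hj : j = 𝒯.e none
  · have h4 := Box.leg_swap (asm_mem hp hz hy) hp' i j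
    rw [ha, hj, row] at h4
    rw [hj]
    exact add_right_cancel h4
  · rw [BasT.leg_off 𝒯.e p z y 0 hi hj]
    exact h1 i j hi hj

theorem card_P (p : Fin 𝒯.B.r → ℕ) : (𝒯.P p).card ≤ 𝒯.B.r + 𝒯.B.S.card := by
  refine (card_union_le _ _).trans ?_
  rw [add_comm]
  exact Nat.add_le_add_right (card_image_le.trans ((card_le_univ _).trans_eq (Fintype.card_fin _))) _

theorem mem_P (hp : p ∈ 𝒯.B.pts) {q : ℕ} (hq : q ∈ 𝒯.P p) :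
    Gp q ∧ ∀ o, q ∉ 𝒯.B.X (𝒯.e o) := by
  rcases mem_union.1 hq with h | h
  · exact ⟨𝒯.B.gS q h, fun o h' => disjoint_left.1 (𝒯.B.nS _) h' h⟩
  · obtain ⟨j, hj, rfl⟩ := mem_image.1 h
    have h1 := Box.mem_pts.1 hp j
    exact ⟨((𝒯.B.rich j).gp _ h1).1, fun o =>
      disjoint_left.1 (𝒯.B.dj j _ fun e => (mem_filter.1 hj).2 ⟨o, e.symm⟩) h1⟩

end Geo

theorem Stq.pat_asm {k s : ℕ} {𝒯 : Stq k s} {p : Fin 𝒯.B.r → ℕ} {z : Option (Fin k) → ℕ} {y : ℕ}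
    (β : Bool) (g : GQ) : pat1 (𝒯.φ β) (𝒯.R β) (asm 𝒯.e p z y) g =
      𝒯.Φ p y β g + qs (z none) g * bt β := by
  obtain ⟨h1, h2, h3⟩ := asm_e 𝒯.e p z y
  unfold pat1 Stq.Φ
  rw [BasT.sum_split 𝒯.e, Fintype.sum_option, Fintype.sum_option, h1, h2,
    sum_congr rfl fun j hj => by rw [h3 j (mem_filter.1 hj).2]]
  simp only [𝒯.lo, 𝒯.ra, mul_zero, sum_const_zero, add_zero, add_assoc]

end Pool.Agent.P.MP_8b7eba_nt.QT
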