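import Pool.Agent.P.MP_8b7eba_nt.QT.BasB
import Pool.Agent.P.MP_8b7eba_nt.QT.BasW
import Pool.Agent.P.MP_8b7eba_nt.SM.BasM

/-! Grids of quartic twists. -/

namespace Pool.Agent.P.MP_8b7eba_nt.QT

open Finset R2 SM SM.BasM

variable {k M s : ℕ} {𝒢 : Grid k M} {y p : ℕ} {z z' : Gz k M} {g : GQ} {w : Pl} {r : GQ → O}
  {R : F2}

theorem prod_lam {ι : Type} [Fintype ι] (e : ι → Option (Fin k)) {f : ι → Fin (M + 1) → O}
    (hf : ∀ i j, rd (f i j) = 1) : (fun z : Gz k M => ∏ i, f i (z (e i))) ∈ LamO k M ∧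
      MxO ((fun z : Gz k M => ∏ i, f i (z (e i))) - 1) := by
  have h : (fun z : Gz k M => ∏ i, f i (z (e i))) ∈ LamO k M := by
    rw [← Finset.prod_fn]
    refine Subalgebra.prod_mem _ fun i _ => ?_
    have := add_mem (one_mem_lam (e i) fun j => dv_one_sub.2 (hf i j)) (one_mem (LamO k M))
    exact (congrArg (· ∈ LamO k M) (funext fun z => sub_add_cancel _ _)).mp this
  exact ⟨h, sub_mem h (one_mem _), fun z => dv_one_sub.2 (by simp [rd_prod, hf])⟩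

theorem prod_S (h : 𝒢.Pt y) (z : Gz k M) (f : ℕ → O) :
    ∏ p ∈ 𝒢.S y z, f p = (∏ p ∈ insert y 𝒢.P, f p) * ∏ i, f (𝒢.q i (z i)) :=
  BasV.sum_S (A := Additive O) h z f

theorem tw_S (h : 𝒢.Pt y) (r : GQ → O) (z : Gz k M) (g : GQ) :
    tw r (𝒢.S y z) g = lq 𝒢 g z * tw r (𝒢.S y 0) g := by
  rw [tw, tw, prod_S h, prod_S h, lq, prod_congr rfl fun i _ => kq_eq (gq 𝒢 i 0) (z i) g,
    prod_mul_distrib]
  simp only [Pi.zero_apply]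
  ring

theorem tw_eq (h : 𝒢.Pt y) (r : GQ → O) (e : ∀ i j, kr 𝒢.q i j g = 1) (z z' : Gz k M) :
    tw r (𝒢.S y z) g = tw r (𝒢.S y z') g := by
  rw [tw_S h r z, tw_S h r z']
  simp [lq, e]

theorem tw_S0 (h : 𝒢.Pt y) (r : GQ → O) (z : Gz k M) (g : GQ) :
    tw r (𝒢.S y z) g = kq (ps y) g * tw r (S0 𝒢 z) g := by
  rw [Grid.S, insert_union, S0, tw_insert]
  simp only [mem_union, mem_image, not_or, not_exists, not_and]
  exact ⟨h.nP, fun i _ => h.nq _ _⟩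

theorem rd_kr (𝒢 : Grid k M) (i : Option (Fin k)) (j : Fin (M + 1)) (g : GQ) :
    rd (kr 𝒢.q i j g) = 1 := (cr_kr (gq 𝒢 i) j).rd g

theorem lq_mem (𝒢 : Grid k M) (g h : GQ) : (fun z => cj h (lq 𝒢 g z)) ∈ LamO k M ∧
    MxO ((fun z => cj h (lq 𝒢 g z)) - 1) := by
  simpa only [lq, map_prod] using prod_lam (fun i => i) (f := fun i j => cj h (kr 𝒢.q i j g))
    fun i j => by rw [rd_cj, rd_kr]

theorem mq_red (𝒢 : Grid k M) (g : GQ) (z : Gz k M) :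
    rd (mq 𝒢 g z) = qs (𝒢.q none (z none)) g + qs (𝒢.q none 0) g := by
  rw [mq, rd_mm, (𝒢.gov _).zero, Pi.add_apply]

theorem rd_xv {φ : GQ → F2} {x : GQ → O} (h : rd (x g) = ph 𝒢 φ R z g) :
    rd (xv 𝒢 R z x g) = φ g + qs (𝒢.q none 0) g * R := by
  rw [xv, rd_sub, rd_mul, rd_lf, mq_red, h, ph, add_mul, add_assoc, ← add_assoc (_ * R),
    CharTwo.add_self_eq_zero, zero_add]

theorem mq_sm (𝒢 : Grid k M) : Sm ⊤ (mq 𝒢) :=
  Sm.comp (c := fun g j μ => 𝒢.γ j μ g) (Sm.pi fun j => Sm.pi fun μ => ((𝒢.gov j).rel μ (dl μ)).1)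
    mmO

/-- the error term -/
noncomputable def er (𝒢 : Grid k M) (r : GQ → O) (y : ℕ) (R : F2) (g h : GQ) (z : Gz k M) : O :=
  ac (tw r (𝒢.S y z)) g (mq 𝒢 h z * lf R) + mq 𝒢 g z * lf R - mq 𝒢 (g * h) z * lf R

theorem err_mem (h : 𝒢.Pt y) (hr : Cy r) (R : F2) (g g' : GQ) : er 𝒢 r y R g g' ∈ LamO k M := by
  choose α h1 h2 using fun i j => kr_eq (q := 𝒢.q) (i := some i) (gq 𝒢 _) j g
  have h3 := mco α (fun j μ => 𝒢.γ j μ g) (fun j μ => 𝒢.γ j μ g') (fun j μ => 𝒢.γ j μ (g * g'))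
    (fun i => (mul_eq_zero.1 (left_eq_add.1 ((kr_zero (gq 𝒢 _ 0) g).symm.trans
      (h1 i 0)))).resolve_left om_ne)
    fun j μ => by simp only [h2]; exact ((𝒢.gov j).rel μ (dl μ)).all g g'
  have h4 := mcv (fun j μ => 𝒢.γ j μ g') (f := fun j => kr 𝒢.q none j g * tw r (𝒢.S y 0) g)
    (fun j => by rw [rd_mul, rd_kr, (hr.tw (Grid.S_gp h 0)).rd, one_mul]) (qz (-1) g)
  have h5 := (prod_lam (M := M) (some : Fin k → _) fun i j => rd_kr 𝒢 (some i) j g).1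
  refine (congrArg (· ∈ LamO k M) (funext fun z => ?_)).mp
    ((LamO k M).smul_mem (sub_mem (mul_mem h5 h4) h3) (lf R))
  rw [er, ac, tw_S h r z, lq, Fintype.prod_option, map_mul, cj_lf]
  simp only [Pi.smul_apply, Pi.sub_apply, Pi.mul_apply, smul_eq_mul, h1, mq, cj]
  ring

theorem mq_zero (h : ∀ μ, 𝒢.γ (z none) μ g = 0) : mq 𝒢 g z = 0 := by
  rw [mq, mm_low fun μ _ => h μ, h, lf_zero]

theorem mq_loc (hp : p ∈ 𝒢.P ∪ T30) (hg : g ∈ (pl p).D) (z : Gz k M) : mq 𝒢 g z = 0 :=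
  mq_zero fun μ => (𝒢.gov _).loc μ (dl μ) p (mem_union_left _ hp) g hg

theorem mq_I (h2 : w.p ≠ 2) (hq : ∀ i j, w.p ≠ 𝒢.q i j) (hg : g ∈ w.I) (z : Gz k M) :
    mq 𝒢 g z = 0 :=
  mq_zero fun μ => (𝒢.gov _).ram μ (dl μ) w h2 (hq _ _) (hq _ _) (fun _ _ => hq _ _) g hg

theorem not_mem_S (h1 : p ∉ 𝒢.P) (h2 : p ≠ y) (h3 : ∀ i j, p ≠ 𝒢.q i j) : p ∉ 𝒢.S y z :=
  fun e => by
    rcases Grid.mem_S.1 e with e | e | ⟨i, e⟩
    exacts [h2 e, h1 e, h3 _ _ e.symm]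

variable [HA]

theorem mq_Ht (hg : g ∈ Ht) (z : Gz k M) : mq 𝒢 g z = 0 := by
  refine mq_zero fun μ => ?_
  rcases mem_Ht.1 hg with rfl | rfl
  exacts [((𝒢.gov _).rel μ (dl μ)).one, (𝒢.gov _).tau μ (dl μ)]

theorem mq_y (h : 𝒢.Pt y) {u : GQ → F2} (hu : IsCh (pl y).D u) (h0 : ∀ g ∈ (pl y).I, u g = 0)
    (h1 : u (fr y) = 1) (hg : g ∈ (pl y).D) (a : GQ) (z : Gz k M) :
    mq 𝒢 (a * g * a⁻¹) z = om ^ k * lf (u g * ex (𝒢.G y) z) := by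
  have e : ∀ j μ, 𝒢.γ j μ (a * g * a⁻¹) = u g * 𝒢.γ j μ (fr y) := fun j μ => by
    rw [((𝒢.gov j).rel μ (dl μ)).conj (fun i j => h.a (some i) j g hg), sum_eq_zero, add_zero,
      ga_y h hu h0 h1 hg]
    intro U hU
    obtain ⟨i, hi⟩ := nonempty_iff_ne_empty.2 (mem_erase.1 hU).1
    rw [ga_y h hu h0 h1 hg, h.g j _ ⟨i, by simp [ers, hi]⟩, mul_zero, mul_zero]
  rw [mq, mm_top fun μ hμ => by rw [e, h.g _ μ hμ, mul_zero], e, ex]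
  by_cases hz : ∀ i, z i ≠ 0
  · rw [if_pos fun i => hz _, dif_pos hz]
    simp only [Grid.G, Fin.succ_pred]
  rw [dif_neg hz]
  split_ifs with hs
  · have : z none = 0 := by
      by_contra hn
      exact hz fun i => by cases i; exacts [hn, hs _]
    simp [this, 𝒢.g0]
  · simp [lf_zero]

theorem mq_tp (𝒢 : Grid k M) (j : Fin (M + 1)) (z : Gz k M) : mq 𝒢 (tp (𝒢.q none j)) z =
    lf ((if j = z none then 1 else 0) + if j = 0 then 1 else 0) := by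
  have hp := gq 𝒢 none j
  have G := 𝒢.gov (z none)
  rw [mq, mm_low fun μ hμ => ?_, G.zero, Pi.add_apply, qs_q, qs_q]
  · simp
  by_cases h1 : j = z none
  · rw [h1]; exact (G.tw μ (dl μ) hμ).1
  by_cases h0 : j = 0
  · rw [h0]; exact (G.tw μ (dl μ) hμ).2
  refine G.ram μ (dl μ) (pl (𝒢.q none j)) ?_ ?_ ?_ (fun i j' => ?_) _ (tp_I hp.1 hp.ne.1) <;>
    rw [pl_p hp.1]
  · exact hp.ne.1
  · exact fun e => h1 (𝒢.ar.inj _ _ _ _ e).2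
  · exact fun e => h0 (𝒢.ar.inj _ _ _ _ e).2
  · exact fun e => by simpa using (𝒢.ar.inj _ _ (some i) j' e).1

theorem tq_mem (𝒢 : Grid k M) (R : F2) (l : Sl k M) :
    (fun z => tq R z l - mq 𝒢 (tp (𝒢.q l.1 l.2)) z * lf R) ∈ LamO k M := by
  obtain ⟨_ | i', j⟩ := l
  · have := add_mem (one_mem_lam (k := k) none
      (f := fun j' => if j = 0 ∧ j' = 0 then 2 * lf R else 0) fun j' => by
        split_ifs
        exacts [(rd_eq_zero.1 rd_two).mul_right _, dv_zero])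
      ((LamO k M).algebraMap_mem (if j = 0 then -lf R else 0))
    refine (congrArg (· ∈ LamO k M) (funext fun z => ?_)).mp this
    have e2 : (1 + 1 : F2) = 0 := rfl
    simp only [mq_tp, tq, Pi.add_apply, Pi.algebraMap_apply, Algebra.algebraMap_self_apply,
      true_and]
    by_cases h0 : j = 0 <;> by_cases h1 : z none = j
    · simp [h0, h1, e2, two_mul, lf_zero]
    · simp [h0, lf_one, show z none ≠ 0 from h0 ▸ h1,
        show ¬ 0 = z none from fun e => h1 (h0 ▸ e.symm)]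
    · simp [h0, h1, lf_one]
    · simp [h0, h1, Ne.symm h1, lf_zero]
  · have hp := gq 𝒢 (some i') j
    refine (congrArg (· ∈ LamO k M) (funext fun z => ?_)).mp (zero_mem _)
    rw [mq_zero fun μ => (𝒢.gov _).loc μ (dl μ) (𝒢.q (some i') j)
      (mem_union_right _ (mem_image.2 ⟨(i', j), mem_univ _, rfl⟩)) _ (tp_D hp.1 hp.ne.1)]
    simp [tq]

theorem exists_qs (T : Finset ℕ) (hT : ∀ p ∈ T, Gp p) (s : ℕ → F2) :
    ∃ h, qz (-1) h = 0 ∧ ∀ p, Gp p → qs p h = if p ∈ T then s p else 0 := by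
  induction T using Finset.induction_on with
  | empty => exact ⟨1, eps_one, fun p _ => (isCh_qs (H := ⊤) p).one⟩
  | insert q T hq ih =>
    obtain ⟨h, h1, h2⟩ := ih fun p hp => hT p (mem_insert_of_mem hp)
    have h3 := hT q (mem_insert_self ..)
    rcases f2 (s q) with e | e
    · refine ⟨h, h1, fun p hp => ?_⟩
      by_cases a : p = q
      · simp [h2 q h3, a, hq, e]
      · simp [h2 p hp, a]
    · refine ⟨h * tp q, by rw [eps_mul, h1, eps_tp h3.1 h3.ne.1, add_zero], fun p hp => ?_⟩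
      rw [(isCh_qs (H := ⊤) p).2 h trivial _ trivial, h2 p hp, qs_tp h3 hp]
      by_cases a : p = q
      · simp [a, hq, e]
      · simp [a, Ne.symm a]

theorem adapt (h : 𝒢.Pt y) (h3 : y % 4 = 3) :
    ∃ a, ∀ i j, ∀ g ∈ (pl y).D, kr 𝒢.q i j (a * g * a⁻¹) = 1 := by
  classical
  obtain ⟨a, h1, h2⟩ := exists_qs (univ.image fun l : Sl k M => 𝒢.q l.1 l.2)
    (fun p hp => by obtain ⟨l, -, rfl⟩ := mem_image.1 hp; exact gq 𝒢 _ _)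
    fun p => if ∃ i j, 𝒢.q i j = p ∧ kr 𝒢.q i j (fr y) ≠ 1 then 1 else 0
  have h4 : ∀ i j, qs (𝒢.q i j) a = if kr 𝒢.q i j (fr y) = 1 then 0 else 1 := fun i j => by
    rw [h2 _ (gq 𝒢 i j), if_pos (mem_image.2 ⟨(i, j), mem_univ _, rfl⟩), ← ite_not]
    refine if_congr ⟨fun e => not_not.1 fun e' => e ⟨i, j, rfl, e'⟩, ?_⟩ rfl rfl
    rintro e ⟨i', j', e1, e2⟩
    obtain ⟨rfl, rfl⟩ := 𝒢.ar.inj _ _ _ _ e1
    exact e2 e
  refine ⟨a, fun i j g hg => ?_⟩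
  have c := cr_kr (gq 𝒢 i) j
  have hp := h.gp
  have u : IsUnit (kr 𝒢.q i j a) := unit_iff.2 (c.rd a)
  have sq : ∀ g ∈ (pl y).D, kr 𝒢.q i j g ^ 2 = 1 := fun g hg => by
    rw [kr_sq (gq 𝒢 i), h.a i j g hg, BasY.sg_zero, one_smul]
  have ch := (c.cn a).ch (H := (pl y).D) fun g hg => by
    rw [cn, kr_sq (gq 𝒢 i), (isCh_aa 𝒢.q i j).conj, h.a i j g hg, BasY.sg_zero, one_smul]
  have e1 : cn a (kr 𝒢.q i j) (tp y) = 1 := by
    have e := c.conj h1 (tp y)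
    have n : ∀ j, kq (ps (𝒢.q i j)) (tp y) = 1 := fun j => kq_ps_I (w := pl y) (gq 𝒢 i j).1
      (by rw [pl_p hp.1]; exact hp.ne.1) (by rw [pl_p hp.1]; exact (h.nq i j).symm)
      (tp_I hp.1 hp.ne.1)
    rw [cj_of (eps_tp hp.1 hp.ne.1), kr_of (g := tp y) (gq 𝒢 i 0) (by rw [n, n]), mul_comm] at e
    exact u.mul_left_cancel e
  have e2 : cn a (kr 𝒢.q i j) (fr y) = 1 := by
    have e := congrArg (· * kr 𝒢.q i j a) (c.conj h1 (fr y))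
    rw [cj, eps_fr hp.1 h3, cs_one, mul_assoc, mul_comm (star _), c.mul_star, mul_one,
      mul_right_comm, ← pow_two, kr_sq (gq 𝒢 i), aa, Pi.add_apply, h4, h4,
      if_pos (kr_zero (gq 𝒢 i 0) _), add_zero] at e
    rw [cn, e]
    rcases sq_eq_one_iff_of_ne_zero' (sq _ (fr_D hp.1 hp.ne.1)) with b | b
    · simp [b, sg]
    · rw [b, if_neg fun e => two_ne (by linear_combination -e)]
      simp [sg, ZMod.val_one]
  have := ch_D hp.1 hp.ne.1 ch (if_pos e1) (if_pos e2) hg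
  by_contra n
  exact one_ne_zero ((if_neg n).symm.trans this)

namespace QG

variable (𝒬 : QG k M) {Δ : Finset ℕ}

omit [HA] in
theorem gp (z : Gz k M) : ∀ p ∈ 𝒬.S 𝒬.y z, Gp p := Grid.S_gp 𝒬.pt z

omit [HA] in
theorem sub (z : Gz k M) : 𝒬.Δ ⊆ 𝒬.S 𝒬.y z := fun _ h => Grid.mem_S.2 (.inr (.inl (𝒬.hΔ h)))

omit [HA] in
theorem cy (hr : Cy r) (z : Gz k M) : Cy (𝒬.rho r z) := hr.tw (𝒬.gp z)

theorem tw (hr : Bs 𝒬.Δ r) (z : Gz k M) : Tw (𝒬.rho r z) (𝒬.S 𝒬.y z) := hr.tw (𝒬.sub z) (𝒬.gp z)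

omit [HA] in
theorem nq (i : Option (Fin k)) (j : Fin (M + 1)) : 𝒬.q i j ∉ 𝒬.Δ :=
  fun e => (𝒬.ar.gp i j).2 (𝒬.hΔ e)

theorem rho_Ht (r : GQ → O) (hg : g ∈ Ht) (z z' : Gz k M) : 𝒬.rho r z g = 𝒬.rho r z' g := by
  refine tw_eq 𝒬.pt r (fun i j => ?_) z z'
  rcases mem_Ht.1 hg with rfl | rfl
  exacts [(cr_kr (gq 𝒬.toGrid i) j).one, 𝒬.q4.tau i j]

theorem loc (hp : p ∈ insert 𝒬.y 𝒬.P ∪ T30) : ∃ (a : GQ) (u : GQ → F2), IsCh (pl p).D u ∧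
    (∀ r z z', ∀ g ∈ (pl p).D, cn a (𝒬.rho r z) g = cn a (𝒬.rho r z') g) ∧
    (∀ z, ∀ g ∈ (pl p).D, mq 𝒬.toGrid (a * g * a⁻¹) z = om ^ k * lf (u g * ex (𝒬.G 𝒬.y) z)) ∧
    ∀ (s : F2) (ψ : GQ → F2), IsCh (pl p).D ψ →
      iv p (cu (fun g => u g * s) ψ) = if p = 𝒬.y then s * ψ (tp 𝒬.y) else 0 := by
  by_cases e : p = 𝒬.y
  · subst e
    have g2 := 𝒬.pt.gp.ne.1
    obtain ⟨u, u1, u2, u3⟩ := exists_un 𝒬.pt.gp.1 g2
    refine ⟨𝒬.h, u, u1, fun r z z' g hg => tw_eq 𝒬.pt r (fun i j => 𝒬.ad i j g hg) z z',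
      fun z g hg => mq_y 𝒬.pt u1 u2 u3 hg _ z, fun s ψ hψ => ?_⟩
    rw [iv_cu_unr 𝒬.pt.gp.1 g2 (l := fun g => u g * s) (u1.smul s) hψ fun g hg => by simp [u2 g hg], if_pos rfl]
    simp [u3]
  · have hp' : p ∈ 𝒬.P ∪ T30 := by
      rw [insert_union, mem_insert] at hp
      exact hp.resolve_left e
    refine ⟨1, 0, ⟨Sm.const _, fun _ _ _ _ => by simp⟩, fun r z z' g hg => ?_, fun z g hg => ?_,
      fun s ψ _ => ?_⟩
    · rw [cn_one, cn_one]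
      exact tw_eq 𝒬.pt r (fun i j => 𝒬.q4.aP i j p hp' g hg) z z'
    · simp [mq_loc hp' hg, lf_zero]
    · rw [if_neg e]
      exact BasN.zero fun g _ h _ => by simp [cu]

omit [HA] in
theorem mem_loc (hp : p ∈ insert 𝒬.y 𝒬.P ∪ T30) (z : Gz k M) : p ∈ 𝒬.S 𝒬.y z ∪ T30 :=
  union_subset_union_left subset_union_left hp

end QG

theorem Sit.ph_tp (𝒮 : Sit k M s) (β : Bool) (z : Gz k M) (l : Sl k M) :
    ph 𝒮.toGrid (𝒮.φ β) (bt β) z (tp (𝒮.q l.1 l.2)) = rd (tq (bt β) z l) := by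
  rw [ph, 𝒮.φ0, zero_add, qs_q, tq]
  have : (l.1 = none ∧ l.2 = z none) ↔ (l.1 = none ∧ z l.1 = l.2) :=
    and_congr_right fun h => by rw [h, eq_comm]
  rw [if_congr this rfl rfl]
  split_ifs
  · rw [one_mul, rd_lf]
  · rw [zero_mul, rd_zero]

theorem Sit.psi (𝒮 : Sit k M s) : (∀ z, ph 𝒮.toGrid (𝒮.φ false) (bt false) z = 𝒮.φ false) ∧
    IsCh ⊤ (𝒮.φ false) ∧ (∀ i j, ∀ g ∈ (pl (𝒮.q i j)).D, 𝒮.φ false g = 0) ∧
    ∀ w : Pl, ¬ w.p ∣ 30 → w.p ∉ 𝒮.P → w.p ≠ 𝒮.y → ∀ g ∈ w.I, 𝒮.φ false g = 0 := by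
  have e : ∀ z, ph 𝒮.toGrid (𝒮.φ false) (bt false) z = 𝒮.φ false := fun z =>
    funext fun g => by rw [ph, bt_false, mul_zero, add_zero]
  have se := fun z => e z ▸ 𝒮.se false z
  have c := (se 0).ch
  have d : ∀ i j, ∀ g ∈ (pl (𝒮.q i j)).D, 𝒮.φ false g = 0 := fun i j g hg => by
    have hp := gq 𝒮.toGrid i j
    refine ch_D hp.1 hp.ne.1 (c.mono le_top) (𝒮.φ0 _ _ _) ?_ hg
    rw [(se (Function.update 0 i j)).loc _ ((Grid.q_mem 𝒮.pt i j).2 (Function.update_self ..))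
      (𝒮.nq i j), 𝒮.φ0, mul_zero]
  refine ⟨e, c, d, fun w h30 hP hy g hg => ?_⟩
  by_cases hq : ∃ i, 𝒮.q i 0 = w.p
  · obtain ⟨i, hi⟩ := hq
    exact ch_D_top c (hi ▸ d i 0) (w.I_le_D hg)
  · exact (se 0).unr w h30 (fun hm => (Grid.mem_S.1 hm).elim hy fun h => h.elim hP hq) g hg

end Pool.Agent.P.MP_8b7eba_nt.QT
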