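import Pool.Agent.P.MP_8b7eba_nt.SM.IfG
import Pool.Agent.P.MP_8b7eba_nt.QT.DefO
import Pool.Agent.P.MP_8b7eba_nt.QT.DefS

/-! Definitions for the project QT: semilinear lattices, Selmer conditions, grids. -/

namespace Pool.Agent.P.MP_8b7eba_nt.QT

open Finset R2 SM
open MP_9c97e9_nt (Pt pm Is)

noncomputable section

/-! ### Lattices and cocycles -/

/-- the action on the Gaussian integers -/
def cj (g : GQ) : O →+* O := cs (qz (-1) g)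

/-- the semilinear action -/
def ac (ρ : GQ → O) (g : GQ) (a : O) : O := ρ g * cj g a

/-- the coboundary of a vector -/
def bd (ρ : GQ → O) (v : O) (g : GQ) : O := ac ρ g v - v

/-- a lattice with cyclotomic determinant -/
structure Cy (ρ : GQ → O) : Prop where
  co : ∀ g h, ρ (g * h) = ρ g * cj g (ρ h)
  sm : ∀ n, ∃ N, ON N ∧ ∀ g ∈ N, Dv n (ρ g - 1)
  nm : ∀ g, nr (ρ g) * sg (qz (-1) g) = cyc g

/-- a lattice which is unramified outside `30 Δ` -/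
structure Bs (Δ : Finset ℕ) (r : GQ → O) : Prop extends Cy r where
  unr : ∀ w : Pl, ¬ w.p ∣ 30 → w.p ∉ Δ → ∀ g ∈ w.I, r g = 1

/-- a lattice which is unramified outside `30 S` -/
structure Tw (ρ : GQ → O) (S : Finset ℕ) : Prop extends Cy ρ where
  gp : ∀ p ∈ S, Gp p
  unr : ∀ w : Pl, ¬ w.p ∣ 30 → w.p ∉ S → ∀ g ∈ w.I, ρ g = 1

/-- cocycles modulo the `n`-th power of the uniformiser -/
structure Zn (ρ : GQ → O) (H : Subgroup GQ) (n : ℕ) (x : GQ → O) : Prop where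
  sm : ∃ N, ON N ∧ ∀ g ∈ H, ∀ k ∈ H, k ∈ N → Dv n (x (g * k) - x g)
  co : ∀ g ∈ H, ∀ h ∈ H, Dv n (x (g * h) - x g - ac ρ g (x h))

/-- exact cocycles, which are rational coboundaries if `o` is false -/
def Ex (o : Bool) (ρ : GQ → O) (H : Subgroup GQ) (b : GQ → O) : Prop :=
  (∀ n, Zn ρ H n b) ∧ (o = false → ∃ (e : ℕ) (v : O), ∀ g ∈ H, 2 ^ e * b g = bd ρ v g)

/-- the local condition -/
def Lc (o : Bool) (ρ : GQ → O) (H : Subgroup GQ) (n : ℕ) (x : GQ → O) : Prop :=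
  ∃ b, Ex o ρ H b ∧ ∀ g ∈ H, Dv n (x g - b g)

/-- global cocycles which are unramified outside `30 S` -/
structure Zu (ρ : GQ → O) (S : Finset ℕ) (n : ℕ) (x : GQ → O) : Prop where
  zn : Zn ρ ⊤ n x
  unr : ∀ w : Pl, ¬ w.p ∣ 30 → w.p ∉ S → ∀ g ∈ w.I, Dv n (x g)

/-- global cocycles without conditions at the bad primes -/
structure Gy (o : Bool) (ρ : GQ → O) (S : Finset ℕ) (n : ℕ) (x : GQ → O) : Prop
    extends Zu ρ S n x where
  inf : Lc o ρ Ht n x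

/-- Selmer cocycles -/
structure Wn (o : Bool) (ρ : GQ → O) (S : Finset ℕ) (n : ℕ) (x : GQ → O) : Prop
    extends Gy o ρ S n x where
  loc : ∀ p ∈ S ∪ T30, Lc o ρ (pl p).D n x

/-- characters which lift to Selmer cocycles -/
def WK (o : Bool) (ρ : GQ → O) (S : Finset ℕ) (n : ℕ) (φ : GQ → F2) : Prop :=
  ∃ x, Wn o ρ S n x ∧ ∀ g, rd (x g) = φ g

/-- the local discrepancy -/
def Ld (o : Bool) (ρ : GQ → O) (n : ℕ) (x : GQ → O) (p : ℕ) (l : GQ → F2) : Prop :=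
  IsCh (pl p).D l ∧ Lc o ρ (pl p).D (n + 1) fun g => x g - om ^ n * lf (l g)

/-- the lattice multiplied by the `j`-th power of the uniformiser -/
def shn (j : ℕ) (ρ : GQ → O) (g : GQ) : O := ρ g * if qz (-1) g = 0 then 1 else (-ii) ^ j

/-- the two types of lattices -/
def ty (b : Bool) (ρ : GQ → O) : GQ → O := shn (if b then 1 else 0) ρ

/-- multiplication by `α` maps the second lattice to the first -/
def Rl (α : O) (ρ ρ' : GQ → O) : Prop := ∀ g, ρ' g * α = ρ g * cj g α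

/-- the cup product -/
def wp (α : O) (ρ' : GQ → O) (m : ℕ) (x y : GQ → O) (g h : GQ) : Om :=
  ec (((α * star (x g) * ac ρ' g (y h)).im : ℚ_[2]) / 2 ^ m)

/-- the cup product modulo two -/
def cu (l φ : GQ → F2) (g h : GQ) : F2 := l g * φ h

/-- the action modulo the third power of the uniformiser -/
def cb (ρ : GQ → O) (g : GQ) : F2 := PadicInt.toZMod (ρ g).im + qz (-1) g

/-- the relaxed Selmer group of the first level -/
structure Se1 (Δ : Finset ℕ) (c : GQ → F2) (S : Finset ℕ) (φ : GQ → F2) : Prop where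
  ch : IsCh ⊤ φ
  unr : ∀ w : Pl, ¬ w.p ∣ 30 → w.p ∉ S → ∀ g ∈ w.I, φ g = 0
  loc : ∀ p ∈ S, p ∉ Δ → φ (fr p) = (c (fr p) + chi S (fr p)) * φ (tp p)

/-- conjugation of a cochain -/
def cn {A : Type} (h : GQ) (f : GQ → A) (g : GQ) : A := f (h * g * h⁻¹)

/-! ### Quartic characters -/

open Classical in
/-- the exponent of the quartic Kummer cocycle -/
def ke (δ : Om) (g : GQ) : Fin 4 :=
  if g δ = δ then 0 else if g δ = rt (-1) * δ then 1 else if g δ = -δ then 2 else 3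

/-- the quartic Kummer cocycle -/
def kd (δ : Om) (g : GQ) : O := ii ^ (ke δ g : ℕ)

/-- a fourth root -/
def r4 (a : ℤ) : Om := Classical.epsilon fun δ : Om => δ ^ 4 = a

/-- the quartic cocycle of an integer -/
def kq (a : ℤ) : GQ → O := kd (r4 a)

/-- the quartic twist -/
def tw (r : GQ → O) (S : Finset ℕ) (g : GQ) : O := r g * ∏ p ∈ S, kq (ps p) g

/-- the ratio of two quartic cocycles -/
def kr {ι : Type} {M : ℕ} (q : ι → Fin (M + 1) → ℕ) (i : ι) (j : Fin (M + 1)) (g : GQ) : O :=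
  kq (ps (q i j)) g * star (kq (ps (q i 0)) g)

/-! ### Grids of twists -/

/-- the quartic conditions on a grid -/
structure Q4 {k M : ℕ} (q : Option (Fin k) → Fin (M + 1) → ℕ) (P : Finset ℕ) : Prop where
  aP : ∀ i j, ∀ p ∈ P ∪ T30, ∀ g ∈ (pl p).D, kr q i j g = 1
  tau : ∀ i j, kr q i j tau = 1

/-- the governing function -/
def mq {k M : ℕ} (𝒢 : Grid k M) (g : GQ) (z : Gz k M) : O := mmO (fun j μ => 𝒢.γ j μ g) z

/-- the ratio of the twists -/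
def lq {k M : ℕ} (𝒢 : Grid k M) (g : GQ) (z : Gz k M) : O := ∏ i, kr 𝒢.q i (z i) g

/-- the corrected cochain -/
def xv {k M : ℕ} (𝒢 : Grid k M) (R : F2) (z : Gz k M) (x : GQ → O) (g : GQ) : O :=
  x g - mq 𝒢 g z * lf R

/-- the character at a point -/
def ph {k M : ℕ} (𝒢 : Grid k M) (φ : GQ → F2) (R : F2) (z : Gz k M) (g : GQ) : F2 :=
  φ g + qs (𝒢.q none (z none)) g * R

/-- the expected value at a generator of inertia -/
def tq {k M : ℕ} (R : F2) (z : Gz k M) (l : Sl k M) : O :=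
  if l.1 = none ∧ z l.1 = l.2 then lf R else 0

/-- the test values -/
def tv {k M s : ℕ} (𝒢 : Grid k M) (σ : Fin s → GQ) (R : F2) (z : Gz k M) (x : GQ → O) :
    Fin s ⊕ Sl k M ⊕ Sl k M → O
  | .inl j => xv 𝒢 R z x (σ j)
  | .inr (.inl l) => x (tp (𝒢.q l.1 l.2)) - tq R z l
  | .inr (.inr l) => xv 𝒢 R z x (fr (𝒢.q l.1 l.2))

/-- the shift of a test value -/
def exo {k M s : ℕ} : Fin s ⊕ Sl k M ⊕ Sl k M → ℕ
  | .inr (.inl _) => 1
  | _ => 0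

/-- the Gaussian integer with given coordinates -/
def dd {k M s : ℕ} (δ : TT k M s → Z2) (β : Bool) (τ : Fin s ⊕ Sl k M ⊕ Sl k M) : O :=
  ⟨δ (β, 0, τ), δ (β, 1, τ)⟩

/-- the primes of a point without the last prime -/
def S0 {k M : ℕ} (𝒢 : Grid k M) (z : Gz k M) : Finset ℕ := 𝒢.P ∪ univ.image fun i => 𝒢.q i (z i)

/-- valid test values -/
def val {k M s : ℕ} (𝒢 : Grid k M) (r : Bool → GQ → O) (e : Sl k M → Fin 4) (z : Gz k M)
    (δ : TT k M s → Z2) : Prop :=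
  ∀ β (l : Sl k M), ∃ b, om * b = dd δ β (.inr (.inl l)) ∧
    (z l.1 ≠ l.2 → Dv k (b + tq (bt β) z l)) ∧
    (z l.1 = l.2 → Dv (k + 2) (fq (qz (-1) (fr (𝒢.q l.1 l.2)))
      (ii ^ (e l : ℕ) * tw (r β) (S0 𝒢 z) (fr (𝒢.q l.1 l.2))) (tw (r β) (S0 𝒢 z) (tp (𝒢.q l.1 l.2)))
      (dd δ β (.inr (.inr l)) + mq 𝒢 (fr (𝒢.q l.1 l.2)) z * lf (bt β)) (b + tq (bt β) z l)))

/-- the characters which occur in the generation argument -/
structure InB {k M : ℕ} (𝒢 : Grid k M) (Δ : Finset ℕ) (c : GQ → F2) (y : ℕ) (η : GQ → F2) :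
    Prop where
  ch : IsCh ⊤ η
  unr : ∀ w : Pl, ¬ w.p ∣ 30 → w.p ∉ 𝒢.P → w.p ≠ y → (∀ i j, w.p ≠ 𝒢.q i j) → ∀ g ∈ w.I, η g = 0
  loc : ∀ p ∈ 𝒢.P, p ∉ Δ → η (fr p) = (c (fr p) + chi (𝒢.S y 0) (fr p)) * η (tp p)

/-- test elements -/
def Tst {k M s : ℕ} (𝒢 : Grid k M) (Δ : Finset ℕ) (r : GQ → O) (y : ℕ) (σ : Fin s → GQ) : Prop :=
  ∀ (e : F2) (η : GQ → F2), InB 𝒢 Δ (cb r + e • qz (-1)) y η → (∀ j, η (σ j) = 0) →
    (∀ i j, η (tp (𝒢.q i j)) = 0) → η = 0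

/-- a grid with a last prime -/
structure QG (k M : ℕ) extends Grid k M where
  y : ℕ
  h : GQ
  Δ : Finset ℕ
  hΔ : Δ ⊆ P
  pt : toGrid.Pt y
  q4 : Q4 q P
  ad : ∀ i j, ∀ g ∈ (pl y).D, kr q i j (h * g * h⁻¹) = 1

/-- the lattice at a point -/
def QG.rho {k M : ℕ} (𝒬 : QG k M) (r : GQ → O) (z : Gz k M) : GQ → O := tw r (𝒬.S 𝒬.y z)

/-- a sum of global lifts -/
structure QG.Sum {k M : ℕ} (𝒬 : QG k M) (r r' : GQ → O) (R : F2) (ψ η : GQ → F2)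
    (c : Gz k M → Z2) (x : Gz k M → GQ → O) (l : Gz k M → ℕ → GQ → F2) : Prop where
  k1 : 1 ≤ k
  bs : Bs 𝒬.Δ r ∧ Bs 𝒬.Δ r'
  rl : ∃ α, Al (k + 1) α ∧ Rl α r r'
  gy : ∀ z, c z ≠ 0 → Gy true (𝒬.rho r z) (𝒬.S 𝒬.y z) (k + 1) (x z) ∧
    WK false (𝒬.rho r' z) (𝒬.S 𝒬.y z) k ψ ∧
    ∀ p ∈ insert 𝒬.y 𝒬.P ∪ T30, Ld true (𝒬.rho r z) k (x z) p (l z p)
  ch : IsCh ⊤ η ∧ IsCh ⊤ ψ
  sum : ∀ g, Dv (k + 1) (∑ z, c z • xv 𝒬.toGrid R z (x z) g - om ^ k * lf (η g))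

/-- a grid with a last prime, a pair of families of characters and test elements -/
structure Sit (k M s : ℕ) extends QG k M where
  r : GQ → O
  t : Bool → Bool
  φ : Bool → GQ → F2
  σ : Fin s → GQ
  bs : Bs Δ r
  par : Par k (t true) (t false)
  se : ∀ β z, Se1 Δ (cb (ty (t β) r)) (toGrid.S y z) (ph toGrid (φ β) (bt β) z)
  φ0 : ∀ β i j, φ β (tp (q i j)) = 0
  Ry : φ false (tp y) = 1
  hσ : Tst toGrid Δ r y σ

namespace Sit

variable {k M s : ℕ} (𝒮 : Sit k M s)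

/-- the two lattices -/
def rr (β : Bool) : GQ → O := ty (𝒮.t β) 𝒮.r

/-- lifts of the pair of characters at a point -/
def Lif (n : ℕ) (z : Gz k M) (x : Bool → GQ → O) : Prop :=
  ∀ β, Wn β (𝒮.rho (𝒮.rr β) z) (𝒮.S 𝒮.y z) n (x β) ∧
    ∀ g, rd (x β g) = ph 𝒮.toGrid (𝒮.φ β) (bt β) z g

/-- realised test values -/
def Re (z : Gz k M) (δ : TT k M s → Z2) : Prop :=
  ∃ x, 𝒮.Lif k z x ∧ ∀ β τ,
    Dv (k + exo τ) (om ^ exo τ * tv 𝒮.toGrid 𝒮.σ (bt β) z (x β) τ - dd δ β τ)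

/-- the values of the quartic cocycle of the last prime at the Frobenius elements -/
def e (l : Sl k M) : Fin 4 := ke (r4 (ps 𝒮.y)) (fr (𝒮.q l.1 l.2))

end Sit

/-! ### Patterns in boxes -/

/-- a box with a matrix of symbols and marked positions -/
structure Geo (k : ℕ) where
  B : Box
  a : Fin B.r → Fin B.r → F2
  e : Option (Option (Fin k)) ↪ Fin B.r
  sy : ∃ p ∈ B.pts, Leg p = a

namespace Geo

variable {k : ℕ} (𝒯 : Geo k)

/-- the sets of the variable primes -/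
def X (o : Option (Fin k)) : Finset ℕ := 𝒯.B.X (𝒯.e (some o))

/-- the set of the last prime -/
def Y : Finset ℕ := 𝒯.B.X (𝒯.e none)

open Classical in
/-- the fixed primes -/
def P (p : Fin 𝒯.B.r → ℕ) : Finset ℕ :=
  𝒯.B.S ∪ (univ.filter fun i => i ∉ Set.range 𝒯.e).image p

/-- valid points -/
def V (p : Fin 𝒯.B.r → ℕ) (z : Option (Fin k) → ℕ) : Prop :=
  ∀ i j, i ≠ 𝒯.e none → j ≠ 𝒯.e none → Leg (asm 𝒯.e p z 0) i j = 𝒯.a i j

/-- compatibility -/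
def cp (p : Fin 𝒯.B.r → ℕ) : (Option (Fin k) → ℕ) → ℕ → Prop :=
  cpf (𝒯.V p) (fun y => ∀ j, j ∉ Set.range 𝒯.e → js (ps (p j)) y = 𝒯.a (𝒯.e none) j)
    (fun u y => js (ps u) y) fun o => 𝒯.a (𝒯.e none) (𝒯.e (some o))

/-- grids with governing systems -/
structure Ok {M : ℕ} (p : Fin 𝒯.B.r → ℕ)
    (θ : (Fin k → Fin (M + 1) → ℕ) → ℕ → Mu k M → GQ → F2)
    (q : Option (Fin k) → Fin (M + 1) → ℕ) : Prop where
  inj : ∀ i, Function.Injective (q i)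
  v : ∀ π, 𝒯.V p (gp q π)
  gov : ∀ j j', Gov (k + 1) (low q) (Qs (𝒯.P p) (low q)) (q none j) (q none j')
    (θ (low q) (q none j) + θ (low q) (q none j'))

/-- the conditions on the sizes -/
structure Num (A T y₀ y₁ : ℕ) : Prop where
  two : 2 ≤ T
  big : (T * (𝒯.B.E + 2) * 2 ^ (𝒯.B.r + 𝒯.B.S.card + 2)) ^ A ≤ y₀
  le : y₀ ≤ y₁
  t0 : ∀ i, y₀ ≤ 𝒯.B.t i
  low : ∀ i, 𝒯.B.t (𝒯.e (some (some i))) ≤ y₁
  ha : y₁ ^ A ≤ 𝒯.B.t (𝒯.e (some none))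
  hb : y₁ ^ A ≤ 𝒯.B.t (𝒯.e none)

end Geo

/-- the character attached to a pattern -/
def pat1 {r : ℕ} (φ : GQ → F2) (R : Fin r → F2) (p : Fin r → ℕ) (g : GQ) : F2 :=
  φ g + ∑ i, qs (p i) g * R i

/-- a good pair of patterns -/
structure Stq (k s : ℕ) extends Geo k where
  r : GQ → O
  t : Bool → Bool
  Δ : Finset ℕ
  φ : Bool → GQ → F2
  R : Bool → Fin B.r → F2
  bs : Bs Δ r
  hΔ : Δ ⊆ B.S
  φ0 : ∀ β i, ∀ q ∈ B.X i, φ β (tp q) = 0
  lo : ∀ β i, R β (e (some (some i))) = 0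
  ra : ∀ β, R β (e (some none)) = bt β
  rb : R false (e none) = 1
  y3 : ∀ y ∈ B.X (e none), y % 4 = 3
  sel : ∀ p ∈ B.pts, Leg p = a → (∀ β, Se1 Δ (cb (ty (t β) r)) (B.set p) (pat1 (φ β) (R β) p)) ∧
    ∃ C : Finset (GQ → F2), C.card ≤ 2 ^ s ∧
      ∀ (e : F2) χ, Se1 Δ (cb r + e • qz (-1)) (B.set p) χ → χ ∈ C

namespace Stq

variable {k s : ℕ} (𝒯 : Stq k s)

open Classical in
/-- the part of the characters which does not depend on the point of the grid -/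
def Φ (p : Fin 𝒯.B.r → ℕ) (y : ℕ) (β : Bool) (g : GQ) : F2 := 𝒯.φ β g +
  ∑ i ∈ univ.filter (fun i => i ∉ Set.range 𝒯.e), qs (p i) g * 𝒯.R β i + qs y g * 𝒯.R β (𝒯.e none)

/-- the points at which the pair lifts -/
def W (n : ℕ) (p : Fin 𝒯.B.r → ℕ) : Prop :=
  Leg p = 𝒯.a ∧ ∀ β, WK β (tw (ty (𝒯.t β) 𝒯.r) (𝒯.B.set p)) (𝒯.B.set p) n (pat1 (𝒯.φ β) (𝒯.R β) p)

end Stq

/-- a relaxed and a strict character which lift to all levels -/
def Bad (r : GQ → O) (S : Finset ℕ) (p₀ : ℕ) : Prop :=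
  ∃ (a b : Bool) (φ ψ : GQ → F2), (∀ n, WK true (tw (ty a r) S) S (n + 1) φ ∧
    WK false (tw (ty b r) S) S (n + 1) ψ) ∧ φ (tp p₀) = 0 ∧ ψ (tp p₀) = 0 ∧ φ ≠ 0 ∧ ψ ≠ 0 ∧
    (a = b → φ ≠ ψ)

/-- two independent classes at every level -/
def Two (ρ : GQ → O) (S : Finset ℕ) : Prop :=
  ∀ k : ℕ, ∃ x y, Zu ρ S (2 * k) x ∧ Zu ρ S (2 * k) y ∧ ∀ (a b : Z2) (v : O),
    (∀ g, Dv (2 * k) (a • x g + b • y g - bd ρ v g)) → 2 ^ k ∣ a ∧ 2 ^ k ∣ b

/-- the vector with one coordinate -/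
def ev (a : Bool) (s : F2) : V1 := if a then ![0, s] else ![s, 0]

/-- the coordinate of a vector -/
def co (a : Bool) (v : V1) : F2 := if a then v 1 else v 0

/-! ### Regular boxes -/

/-- the last primes are three modulo four -/
def Thr (B : Box) {K : ℕ} (J : Fin K ⊕ Bool → Finset (Fin B.r)) : Prop :=
  ∀ i ∈ J (.inr true), ∀ p ∈ B.X i, p % 4 = 3

open Classical in
/-- a property of finite sets of primes which is rare in all regular boxes -/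
def BoxQ (Bad : Finset ℕ → Prop) : Prop :=
  ∀ ε : ℝ, 0 < ε → ∃ K l A N : ℕ, ∀ (B : Box) (y₀ y₁ : ℕ) (J₀ : Finset (Fin B.r))
    (J : Fin K ⊕ Bool → Finset (Fin B.r)), B.Reg K l A N y₀ y₁ J₀ J → Thr B J →
    ((B.pts.filter fun p => Bad (B.set p)).card : ℝ) ≤ ε * B.pts.card

/-- good integers -/
structure Gq (K l A B₁ L n : ℕ) : Prop where
  om : n.primeFactors.card ≤ L ^ 2
  n0 : 40 * (sm L n).card ≤ L
  inj : Set.InjOn (ce L) (la L n)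
  rich : ∀ p ∈ la L n, 2 ^ Nat.log 2 p ≤ 2 ^ (5 * L) * (Xk L (sm L n) p).card
  low : K * l ≤ (n.primeFactors.filter fun p => 2 ^ L ^ 7 ≤ p ∧ p < 2 ^ (L ^ 7 * B₁)).card
  high : 2 * l ≤ (n.primeFactors.filter fun p =>
    2 ^ (L ^ 7 * (B₁ * (A + 1))) ≤ p ∧ p < 2 ^ L ^ 16 ∧ p % 4 = 3).card
  u1 : ∀ a : ℤ, Squarefree a → a ≠ 1 → a ∣ 30 * ∏ q ∈ sm L n, (q : ℤ) →
    ∃ p ∈ n.primeFactors, 2 ^ L ^ 16 ≤ p ∧ jacobiSym a p = -1
  na : ∀ a : ℤ, Squarefree a → a ≠ 1 → a ∣ 30 →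
    L ≤ 7 * ((la L n).filter fun p => jacobiSym a p = -1).card

/-! ### The curves -/

/-- the curve `y² = x³ - D x` -/
def W (D : ℤ) : WeierstrassCurve ℤ := ⟨0, 0, 0, -D, 0⟩

open Classical in
/-- the points of 2-power order -/
structure TM0 (D : ℤ) (e : ℕ → O →+ Pt (W D) Om) : Prop where
  ker : ∀ n a, e n a = 0 ↔ Dv (2 * n) a
  two : ∀ n a, e (n + 1) (2 * a) = e n a
  surj : ∀ n P, 2 ^ n • P = 0 → ∃ a, e n a = P

/-- the Tate module -/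
structure TM (D : ℤ) (ρ : GQ → O) (e : ℕ → O →+ Pt (W D) Om) : Prop extends TM0 D e where
  gal : ∀ (g : GQ) n a, pm (W D) (g : Om →+* Om) (e n a) = e n (ac ρ g a)

/-- `f` is the scaling by `u` -/
def IsSc {D D' : ℤ} (u : Om) (f : Pt (W D) Om → Pt (W D') Om) : Prop :=
  ∀ P x η, Is P x η → Is (f P) (u ^ 2 * x) (u ^ 3 * η)

/-- multiplication by `i` is the complex multiplication -/
def Cm (D : ℤ) (e : ℕ → O →+ Pt (W D) Om) : Prop :=
  ∀ n a x η, Is (e n a) x η → Is (e n (ii * a)) (-x) (-(rt (-1) * η))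

/-- the Selmer group contains two independent elements of every 2-power order -/
def Big (D : ℤ) : Prop :=
  ∀ k : ℕ, ∃ φ : ZMod (2 ^ k) × ZMod (2 ^ k) →+ Sel (W D), Function.Injective φ

end

end Pool.Agent.P.MP_8b7eba_nt.QT
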