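import Pool.Agent.P.MP_8b7eba_nt.QT.BasP
import Pool.Agent.P.MP_8b7eba_nt.QT.DefG

/-! The semilinear action and relations between lattices. -/

namespace Pool.Agent.P.MP_8b7eba_nt.QT

open Finset R2 SM QuadraticAlgebra

variable {n m j : ℕ} {a b u v α β : O} {H : Subgroup GQ} {ρ ρ' ρ'' r : GQ → O} {g h : GQ}

theorem eps_mul (g h : GQ) : qz (-1) (g * h) = qz (-1) g + qz (-1) h :=
  (isCh_qz (H := ⊤) (-1)).2 g trivial h trivial

theorem eps_one : qz (-1) 1 = 0 := (isCh_qz (H := ⊤) (-1)).one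

theorem eps_inv (g : GQ) : qz (-1) g⁻¹ = qz (-1) g :=
  ((isCh_qz (H := ⊤) (-1)).inv trivial).trans (CharTwo.neg_eq _)

theorem cj_mul (g h : GQ) (a : O) : cj (g * h) a = cj g (cj h a) := by
  rw [cj, eps_mul, cs_add]; rfl

theorem cj_of (h : qz (-1) g = 0) (a : O) : cj g a = a := by rw [cj, h, cs_zero]

theorem cj_one (a : O) : cj 1 a = a := cj_of eps_one a

theorem cj_cj (g : GQ) (a : O) : cj g (cj g a) = a := cs_cs _ a

theorem cj_inv (g : GQ) : cj g⁻¹ = cj g := by rw [cj, eps_inv]; rfl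

theorem cj_conj (h g : GQ) : cj (h * g * h⁻¹) = cj g := by rw [cj, qz_conj]; rfl

theorem cj_smul (g : GQ) (c : Z2) (a : O) : cj g (c • a) = c • cj g a := cs_smul _ c a

theorem cj_star (g : GQ) (a : O) : cj g (star a) = star (cj g a) := cs_star _ a

theorem cj_lf (g : GQ) (s : F2) : cj g (lf s) = lf s := cs_lf _ s

theorem rd_cj (g : GQ) (a : O) : rd (cj g a) = rd a := rd_cs _ a

theorem Dv.cj (h : Dv n a) (g : GQ) : Dv n (cj g a) := h.cs _

theorem ac_add (ρ : GQ → O) (g : GQ) (a b : O) : ac ρ g (a + b) = ac ρ g a + ac ρ g b := by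
  simp only [ac, map_add, mul_add]

theorem ac_sub (ρ : GQ → O) (g : GQ) (a b : O) : ac ρ g (a - b) = ac ρ g a - ac ρ g b := by
  simp only [ac, map_sub, mul_sub]

theorem ac_neg (ρ : GQ → O) (g : GQ) (a : O) : ac ρ g (-a) = -ac ρ g a := by
  simp only [ac, map_neg, mul_neg]

theorem ac_zero (ρ : GQ → O) (g : GQ) : ac ρ g 0 = 0 := by simp only [ac, map_zero, mul_zero]

theorem ac_smul (ρ : GQ → O) (g : GQ) (c : Z2) (a : O) : ac ρ g (c • a) = c • ac ρ g a := by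
  rw [ac, cj_smul, mul_smul_comm, ac]

theorem ac_sum {ι : Type} (ρ : GQ → O) (g : GQ) (S : Finset ι) (f : ι → O) :
    ac ρ g (∑ i ∈ S, f i) = ∑ i ∈ S, ac ρ g (f i) := by simp only [ac, map_sum, mul_sum]

theorem ac_mul (ρ : GQ → O) (g : GQ) (α a : O) : ac ρ g (α * a) = cj g α * ac ρ g a := by
  simp only [ac, map_mul]; ring

theorem ac_two (ρ : GQ → O) (g : GQ) (e : ℕ) (a : O) : ac ρ g (2 ^ e * a) = 2 ^ e * ac ρ g a := by
  rw [ac_mul, map_pow, map_ofNat]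

theorem ac_of (h1 : ρ g = 1) (h2 : qz (-1) g = 0) (a : O) : ac ρ g a = a := by
  rw [ac, h1, cj_of h2, one_mul]

theorem Dv.ac (h : Dv n a) (ρ : GQ → O) (g : GQ) : Dv n (ac ρ g a) := (h.cj g).mul_left _

theorem bd_add (ρ : GQ → O) (u v : O) (g : GQ) : bd ρ (u + v) g = bd ρ u g + bd ρ v g := by
  simp only [bd, ac_add]; ring

theorem bd_smul (ρ : GQ → O) (c : Z2) (v : O) (g : GQ) : bd ρ (c • v) g = c • bd ρ v g := by
  rw [bd, bd, ac_smul, smul_sub]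

theorem bd_two (ρ : GQ → O) (e : ℕ) (v : O) (g : GQ) : bd ρ (2 ^ e * v) g = 2 ^ e * bd ρ v g := by
  rw [bd, bd, ac_two, mul_sub]

theorem bd_neg (ρ : GQ → O) (v : O) (g : GQ) : bd ρ (-v) g = -bd ρ v g := by
  simp only [bd, ac_neg]; ring

theorem bd_zero (ρ : GQ → O) (g : GQ) : bd ρ 0 g = 0 := by rw [bd, ac_zero, sub_zero]

namespace Cy

theorem rd (hρ : Cy ρ) (g : GQ) : rd (ρ g) = 1 := by
  have h1 := congrArg PadicInt.toZMod (hρ.nm g)
  rw [map_mul, BasY.toZMod_sg, mul_one, rd_nr] at h1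
  exact (f2 _).resolve_left (h1 ▸ ((cyc g).isUnit.map PadicInt.toZMod).ne_zero)

theorem unit (hρ : Cy ρ) (g : GQ) : IsUnit (ρ g) := unit_iff.2 (hρ.rd g)

theorem one (hρ : Cy ρ) : ρ 1 = 1 := by
  have h1 := hρ.co 1 1
  rw [mul_one, cj_one] at h1
  exact mul_left_cancel₀ (hρ.unit 1).ne_zero (h1.symm.trans (mul_one _).symm)

theorem ac_mul (hρ : Cy ρ) (g h : GQ) (a : O) : ac ρ (g * h) a = ac ρ g (ac ρ h a) := by
  simp only [ac, hρ.co, cj_mul, map_mul, mul_assoc]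

theorem ac_one (hρ : Cy ρ) (a : O) : ac ρ 1 a = a := ac_of hρ.one eps_one a

theorem rd_ac (hρ : Cy ρ) (g : GQ) (a : O) : QT.rd (ac ρ g a) = QT.rd a := by
  rw [ac, rd_mul, hρ.rd, one_mul, rd_cj]

theorem dv_ac (hρ : Cy ρ) : Dv n (ac ρ g a) ↔ Dv n a := by
  simpa [ac, cj, dv_cs] using (al_unit.2 (hρ.unit g)).dv_mul (n := n) (u := cj g a)

theorem dv_bd (hρ : Cy ρ) (h : Dv n v) (g : GQ) : Dv (n + 1) (bd ρ v g) := dv_act (hρ.rd g) h _

theorem sm_ac (hρ : Cy ρ) (n : ℕ) :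
    ∃ N, ON N ∧ ∀ g ∈ N, qz (-1) g = 0 ∧ ∀ u, Dv n (ac ρ g u - u) := by
  obtain ⟨N, hN, hs⟩ := hρ.sm n
  obtain ⟨N', hN', hs'⟩ := (isCh_qz (H := ⊤) (-1)).1
  refine ⟨N ⊓ N', hN.inf hN', fun g hg => ?_⟩
  have h1 := hs' 1 trivial g trivial hg.2
  rw [one_mul, eps_one] at h1
  exact ⟨h1, fun u => of_eq ((hs g hg.1).mul_right u) (by rw [ac, cj_of h1]; ring)⟩

theorem conj (hρ : Cy ρ) (hg : qz (-1) g = 0) (h : GQ) : ρ (h * g * h⁻¹) = cj h (ρ g) := by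
  have h1 := hρ.co (h * g * h⁻¹) h
  rw [inv_mul_cancel_right, hρ.co, cj_conj, cj_of hg, mul_comm (ρ h)] at h1
  exact (mul_right_cancel₀ (hρ.unit h).ne_zero h1).symm

theorem isCh_cb (hρ : Cy ρ) : IsCh H (cb ρ) := by
  refine ⟨Sm.mono ?_ le_top, fun g _ h _ => ?_⟩
  · obtain ⟨N, hN, hs⟩ := hρ.sm_ac 2
    refine ⟨N, hN, fun g _ k _ hk => ?_⟩
    have h1 := (((hs k hk).2 1).ac ρ g).im (n := 1)
    rw [ac_sub, ← hρ.ac_mul, ← BasY.dvd_iff1] at h1
    simp only [ac, map_one, mul_one, im_sub, map_sub, sub_eq_zero] at h1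
    rw [cb, cb, eps_mul, (hs k hk).1, add_zero, h1]
  · rw [cb, cb, cb, hρ.co, im_mul_unit (hρ.rd g) (by rw [rd_cj, hρ.rd]), cj, im_cs, eps_mul]
    ring

theorem cn (hρ : Cy ρ) (h : GQ) : Cy (cn h ρ) := by
  refine ⟨fun g k => ?_, fun n => ?_, fun g => ?_⟩
  · rw [QT.cn, QT.cn, QT.cn, ← cj_conj h g, ← hρ.co]
    congr 1
    group
  · obtain ⟨N, hN, hs⟩ := hρ.sm n
    exact ⟨N, hN, fun g hg => hs _ (hN.1.conj_mem g hg h)⟩
  · have e : cyc (h * g * h⁻¹) = cyc g := by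
      change (cyclotomicCharacter Om 2).comp (MulSemiringAction.toRingAut GQ Om) (h * g * h⁻¹) =
        (cyclotomicCharacter Om 2).comp (MulSemiringAction.toRingAut GQ Om) g
      rw [map_mul, map_mul, map_inv, mul_inv_cancel_comm]
    rw [QT.cn, ← qz_conj (-1) h g, hρ.nm, e]

/-- multiplication by a cocycle with values of norm one -/
theorem mul (hρ : Cy ρ) {κ : GQ → O} (h1 : ∀ g h, κ (g * h) = κ g * cj g (κ h))
    (h2 : ∃ N, ON N ∧ ∀ g ∈ N, κ g = 1) (h3 : ∀ g, nr (κ g) = 1) : Cy fun g => ρ g * κ g := by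
  refine ⟨fun g h => ?_, fun n => ?_, fun g => ?_⟩
  · rw [hρ.co, h1, map_mul]; ring
  · obtain ⟨N, hN, hs⟩ := hρ.sm n
    obtain ⟨N', hN', hs'⟩ := h2
    exact ⟨_, hN.inf hN', fun g hg => by simpa [hs' g hg.2] using hs g hg.1⟩
  · rw [nr_mul, h3, mul_one, hρ.nm]

end Cy

theorem cb_of (h1 : ρ g = 1) (h2 : qz (-1) g = 0) : cb ρ g = 0 := by simp [cb, h1, h2]

theorem ac_cn (ρ : GQ → O) (h g : GQ) (a : O) : ac (cn h ρ) g a = ac ρ (h * g * h⁻¹) a := by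
  rw [ac, ac, cj_conj]; rfl

theorem cn_cn {A : Type} (h : GQ) (f : GQ → A) : cn h⁻¹ (cn h f) = f := by
  funext g
  simp only [cn]
  congr 1
  group

theorem cn_one {A : Type} (f : GQ → A) : cn 1 f = f := by
  funext g
  simp [cn]

/-! ### Relations between lattices -/

theorem Rl.ac (h : Rl α ρ ρ') (g : GQ) (a : O) : ac ρ g (α * a) = α * ac ρ' g a := by
  rw [QT.ac, QT.ac, map_mul, ← mul_assoc, ← h g]; ring

theorem Rl.bd (h : Rl α ρ ρ') (v : O) (g : GQ) : bd ρ (α * v) g = α * bd ρ' v g := by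
  rw [QT.bd, QT.bd, h.ac, mul_sub]

theorem Rl.mul (h : Rl α ρ ρ') (h' : Rl β ρ' ρ'') : Rl (α * β) ρ ρ'' := fun g => by
  rw [map_mul, ← mul_assoc (ρ g), ← h g]
  linear_combination α * h' g

theorem Rl.of_mul (h : Rl α ρ ρ') (κ : GQ → O) : Rl α (fun g => ρ g * κ g) fun g => ρ' g * κ g :=
  fun g => by linear_combination κ g * h g

theorem Rl.tw (h : Rl α r ρ') (S : Finset ℕ) : Rl α (tw r S) (tw ρ' S) := h.of_mul _

theorem Rl.cn (h : Rl α ρ ρ') (k : GQ) : Rl α (cn k ρ) (cn k ρ') := fun g => by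
  rw [← cj_conj k g]
  exact h _

theorem Rl.symm (h : Rl α ρ ρ') : Rl (star α) ρ' ρ := fun g => by
  by_cases h0 : α = 0
  · simp [h0]
  refine mul_left_cancel₀ h0 ?_
  have h1 : cj g α * cj g (star α) = α * star α := by
    rw [← map_mul, mul_star_eq, cj_smul, map_one]
  linear_combination -cj g (star α) * h g - ρ g * h1

theorem rl_two (ρ : GQ → O) (e : ℕ) : Rl (2 ^ e) ρ ρ := fun g => by rw [map_pow, map_ofNat]

theorem rl_one (ρ : GQ → O) : Rl 1 ρ ρ := fun g => by rw [map_one]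

theorem rl_shn (j : ℕ) (ρ : GQ → O) : Rl (om ^ j) ρ (shn j ρ) := fun g => by
  rw [shn, cj, cs_om, mul_assoc]

theorem shn_zero (ρ : GQ → O) : shn 0 ρ = ρ := by
  funext g
  simp [shn]

theorem ty_false (ρ : GQ → O) : ty false ρ = ρ := shn_zero ρ

theorem ty_true (ρ : GQ → O) : ty true ρ = shn 1 ρ := rfl

theorem shn_of (hg : qz (-1) g = 0) (j : ℕ) (ρ : GQ → O) : shn j ρ g = ρ g := by
  rw [shn, if_pos hg, mul_one]

theorem tw_shn (j : ℕ) (r : GQ → O) (S : Finset ℕ) : tw (shn j r) S = shn j (tw r S) := by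
  funext g
  simp only [tw, shn]
  ring

theorem tw_ty (b : Bool) (r : GQ → O) (S : Finset ℕ) : tw (ty b r) S = ty b (tw r S) := tw_shn ..

theorem Cy.shn (hρ : Cy ρ) (j : ℕ) : Cy (shn j ρ) := by
  have e : (-ii) ^ j * ii ^ j = 1 := by
    rw [← mul_pow, show -ii * ii = 1 by linear_combination -ii_sq, one_pow]
  refine hρ.mul (κ := fun g => if qz (-1) g = 0 then 1 else (-ii) ^ j) (fun g h => ?_) ?_
    fun g => ?_
  · rw [eps_mul, cj]
    rcases f2 (qz (-1) g) with a | a <;> rcases f2 (qz (-1) h) with b | b <;>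
      simp [a, b, cs_zero, cs_one, star_ii, e, show (1 + 1 : F2) = 0 from rfl]
  · obtain ⟨N, hN, hs⟩ := hρ.sm_ac 0
    exact ⟨N, hN, fun g hg => if_pos (hs g hg).1⟩
  · split_ifs
    · exact nr_one
    · induction j with
      | zero => exact nr_one
      | succ j ih =>
        rw [pow_succ, nr_mul, ih (by
          rw [← mul_pow, show -ii * ii = 1 by linear_combination -ii_sq, one_pow])]
        simp [nr]

theorem Cy.ty (hρ : Cy ρ) (b : Bool) : Cy (ty b ρ) := hρ.shn _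

theorem Cy.cb_shn (hρ : Cy ρ) (j : ℕ) : cb (QT.shn j ρ) = cb ρ + (j : F2) • qz (-1) := by
  funext g
  simp only [cb, QT.shn, Pi.add_apply, Pi.smul_apply, smul_eq_mul]
  rcases f2 (qz (-1) g) with a | a
  · simp [a]
  · rw [if_neg (a ▸ one_ne_zero), show -ii = ii ^ 3 by linear_combination -ii * ii_sq, ← pow_mul,
      im_mul_unit (hρ.rd g) (by rw [rd_pow, rd_ii, one_pow]), im_ii_pow, a]
    push_cast
    rw [show (3 : F2) = 1 from rfl]
    ring

theorem Cy.cb_ty (hρ : Cy ρ) (b : Bool) : cb (QT.ty b ρ) = cb ρ + bt b • qz (-1) := by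
  rw [QT.ty, hρ.cb_shn]
  cases b <;> simp [bt]

theorem par_rl {k : ℕ} {a b : Bool} (h : Par k a b) (r : GQ → O) :
    ∃ α, Al (k + 1) α ∧ Rl α (ty a r) (ty b r) := by
  by_cases e : a = b
  · obtain ⟨m, rfl⟩ := h.1 e
    exact ⟨_, al_two (m + 1), e ▸ rl_two _ _⟩
  · obtain ⟨m, rfl⟩ := Nat.not_odd_iff_even.1 (mt h.2 e)
    have h1 := rl_shn 1 r
    rw [← two_mul]
    cases a <;> cases b
    · exact absurd rfl e
    · exact ⟨_, (al_two m).mul (al_om 1), by rw [ty_false]; exact (rl_two r m).mul h1⟩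
    · exact ⟨_, (al_two m).mul (al_om 1).star, by
        rw [ty_false]; exact (rl_two _ m).mul h1.symm⟩
    · exact absurd rfl e

theorem rl_not (b : Bool) (r : GQ → O) : ∃ α, Al 1 α ∧ Rl α (ty b r) (ty (!b) r) :=
  par_rl (k := 0) (by cases b <;> simp [Par]) r

end Pool.Agent.P.MP_8b7eba_nt.QT
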