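import Pool.Agent.P.MP_8b7eba_nt.QT.DefG

/-! The curve `y² = x³ - D x` over a valued field. -/

namespace Pool.Agent.P.MP_8b7eba_nt.QT

open MP_9c97e9_nt Classical
open scoped NNReal

namespace CA

variable {K : Type} [Field K] {D : ℤ} {s : K} {P Q : Pt (W D) K} {x η x₁ η₁ x₂ η₂ : K}

/-- the roots of the cubic -/
abbrev Sp (D : ℤ) (s : K) : Prop := Split (W D) 0 s (-s)

theorem split (h2 : (2 : K) ≠ 0) (hD : (D : K) ≠ 0) (hs : s ^ 2 = D) : Sp D s := by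
  have h0 : s ≠ 0 := fun e => hD (by rw [← hs, e]; ring)
  refine ⟨h2, by simpa using h0, by simpa using h0, fun e => mul_ne_zero h2 h0 ?_, ?_, ?_, ?_⟩
  · linear_combination e
  · simp [W]
  · simp only [W]
    push_cast
    linear_combination 2 * hs
  · simp [W]

theorem Sp.sq (h : Sp D s) : s ^ 2 = D := mul_left_cancel₀ h.two (by
  have := h.h4
  simp only [W] at this
  push_cast at this
  linear_combination this)

theorem eqn (h : Sp D s) (hP : Is P x η) : η ^ 2 = 4 * (x ^ 3 - D * x) := by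
  linear_combination hP.eq h - 4 * x * h.sq

theorem add_line (h : Sp D s) (hP : Is P x₁ η₁) (hQ : Is Q x₂ η₂) (h0 : P + Q ≠ 0) :
    ∃ m x₃, Is (P + Q) x₃ (-(η₁ + m * (x₃ - x₁))) ∧ 4 * (x₁ + x₂ + x₃) = m ^ 2 ∧
      m * (x₁ - x₂) = η₁ - η₂ ∧ m * (η₁ + η₂) = 4 * (x₁ ^ 2 + x₁ * x₂ + x₂ ^ 2 - D) := by
  have e1 := eqn h hP
  have e2 := eqn h hQ
  have h4 := h.four
  have hc : ∀ m : K, 4 * (x₁ + x₂ + (m ^ 2 / 4 - x₁ - x₂)) = m ^ 2 := fun m => by
    field_simp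
    ring
  by_cases hx : x₁ = x₂
  · subst hx
    have h5 : η₂ ≠ -η₁ := fun e => h0 (hP.add_eq_zero h (e ▸ hQ))
    obtain rfl : η₂ = η₁ := (sq_eq_sq_iff_eq_or_eq_neg.1 (e2.trans e1.symm)).resolve_right h5
    obtain rfl := hP.unique h hQ
    have h6 : η₂ ≠ 0 := fun e => h5 (by simp [e])
    obtain ⟨m, hm⟩ : ∃ m, m * η₂ = 2 * (3 * x₁ ^ 2 - D) := ⟨_, div_mul_cancel₀ _ h6⟩
    exact ⟨m, _, hP.add_self h h6 (by linear_combination hm + 2 * h.sq)
      (by linear_combination hc m), hc m, by ring, by linear_combination 2 * hm⟩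
  · have h5 := sub_ne_zero.2 hx
    obtain ⟨m, hm⟩ : ∃ m, m * (x₁ - x₂) = η₁ - η₂ := ⟨_, div_mul_cancel₀ _ h5⟩
    exact ⟨m, _, hP.add_ne h hQ hx hm (by linear_combination hc m), hc m, hm,
      mul_right_cancel₀ h5 (by linear_combination (η₁ + η₂) * hm + e1 - e2)⟩

variable {v : Valuation K ℝ≥0}

theorem v_nat (v : Valuation K ℝ≥0) (n : ℕ) [n.AtLeastTwo] : v (OfNat.ofNat n) ≤ 1 :=
  ofNat_mem v.integer n

theorem v_int (v : Valuation K ℝ≥0) (n : ℤ) : v n ≤ 1 := intCast_mem v.integer n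

theorem small {a b : K} (ha : v a < 1) (hb : v b ≤ 1) : v (a * b) < 1 := by
  rw [map_mul]
  exact (mul_le_of_le_one_right zero_le hb).trans_lt ha

theorem v_four (h2 : v 2 = 1) : v 4 = 1 := by
  rw [show (4 : K) = 2 * 2 by norm_num, map_mul, h2, mul_one]

theorem of_sq {m a : K} (h2 : v 2 = 1) (ha : v a ≤ 1) (e : 4 * a = m ^ 2) : v m ≤ 1 := by
  have h1 := congrArg v e
  rw [map_mul, v_four h2, one_mul, map_pow] at h1
  exact (pow_le_one_iff_of_nonneg zero_le two_ne_zero).1 (h1 ▸ ha)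

theorem v_eta (h : Sp D s) (h2 : v 2 = 1) (hP : Is P x η) (hx : v x ≤ 1) : v η ≤ 1 :=
  have hx' : x ∈ v.integer := hx
  of_sq h2 (sub_mem (pow_mem hx' 3) (mul_mem (intCast_mem _ D) hx')) (eqn h hP).symm

/-- the kernel of reduction -/
def E1 (v : Valuation K ℝ≥0) (P : Pt (W D) K) : Prop := ∀ x η, Is P x η → 1 < v x

theorem e1_iff (hP : Is P x η) : E1 v P ↔ 1 < v x :=
  ⟨fun h => h _ _ hP, fun h _ _ e => (hP.inj e).1 ▸ h⟩

theorem e1_two (h : Sp D s) (h2 : v 2 = 1) (hP : E1 v P) (h0 : P ≠ 0) :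
    E1 v (P + P) ∧ P + P ≠ 0 := by
  obtain ⟨x, η, hx⟩ := (zero_or_is P).resolve_left h0
  have h1 := (e1_iff hx).1 hP
  have hp : 0 < v x := zero_lt_one.trans h1
  have e := eqn h hx
  have h3 : v (x ^ 2 - D) = v x ^ 2 ∧ v (x ^ 2 + D) = v x ^ 2 := by
    have : v D < v (x ^ 2) := by
      rw [map_pow]
      exact (v_int v D).trans_lt (one_lt_pow₀ h1 two_ne_zero)
    rw [Valuation.map_sub_eq_of_lt_left _ this, Valuation.map_add_eq_of_lt_left _ this, map_pow]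
    exact ⟨rfl, rfl⟩
  have h4 : v η ^ 2 = v x ^ 3 := by
    rw [← map_pow, e, show x ^ 3 - D * x = x * (x ^ 2 - D) by ring, map_mul, map_mul, v_four h2,
      h3.1]
    ring
  have h5 : P + P ≠ 0 := (hx.two_ne h).2 fun e0 => by
    rw [e0, map_zero, zero_pow two_ne_zero] at h4
    exact (pow_pos hp 3).ne h4
  obtain ⟨m, x₃, a, b, -, c⟩ := add_line h hx hx h5
  refine ⟨(e1_iff a).2 ?_, h5⟩
  have h6 : x₃ * η ^ 2 = (x ^ 2 + D) ^ 2 := mul_left_cancel₀ (pow_ne_zero 2 h.four) (by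
    linear_combination 4 * η ^ 2 * b - 32 * x * e +
      (m * (η + η) + 4 * (x ^ 2 + x * x + x ^ 2 - D)) * c)
  have h7 := congrArg v h6
  rw [map_mul, map_pow, map_pow, h4, h3.2, show (v x ^ 2) ^ 2 = v x * v x ^ 3 by ring] at h7
  rwa [mul_right_cancel₀ (pow_pos hp 3).ne' h7]

theorem e1_tors (h : Sp D s) (h2 : v 2 = 1) (k : ℕ) (hP : E1 v P) (h0 : 2 ^ k • P = 0) :
    P = 0 := by
  induction k generalizing P with
  | zero => simpa using h0
  | succ k ih =>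
    by_contra h1
    obtain ⟨a, b⟩ := e1_two h h2 hP h1
    exact b (ih a (by rwa [← two_nsmul, ← mul_nsmul', ← pow_succ]))

theorem int_of_tors (h : Sp D s) (h2 : v 2 = 1) {k : ℕ} (h0 : 2 ^ k • P = 0) (hP : Is P x η) :
    v x ≤ 1 :=
  not_lt.1 fun e => hP.ne_zero (e1_tors h h2 k ((e1_iff hP).2 e) h0)

theorem cong (h : Sp D s) (h2 : v 2 = 1) (hD : v D = 1) (hP : Is P x₁ η₁) (hQ : Is Q x₂ η₂)
    (h1 : v x₂ ≤ 1) (ha : v (x₁ - x₂) < 1) (hb : v (η₁ - η₂) < 1) : E1 v (P - Q) := by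
  intro x₃ η₃ h3
  rw [sub_eq_add_neg] at h3
  obtain ⟨m, x₄, a, b, c, d⟩ := add_line h hP hQ.neg h3.ne_zero
  obtain rfl := (h3.inj a).1
  by_contra h4
  have i2 : x₂ ∈ v.integer := h1
  have ia : x₁ - x₂ ∈ v.integer := ha.le
  have ib : η₁ - η₂ ∈ v.integer := hb.le
  have i1 : x₁ ∈ v.integer := by simpa using add_mem ia i2
  have im : m ∈ v.integer := of_sq h2 (add_mem (add_mem i1 i2) (not_lt.1 h4)) b
  have iD : (D : K) ∈ v.integer := hD.le
  have e := eqn h hQ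
  have k : 32 * (D : K) ^ 2 = (x₁ - x₂) * (-(16 * (x₁ + 2 * x₂) * (3 * x₂ ^ 2 - 2 * D)) -
      9 * x₂ * m * (m * (x₁ - x₂) - 2 * (η₁ - η₂))) +
      (η₁ - η₂) * (4 * m * (3 * x₂ ^ 2 - 2 * D) - 9 * x₂ * (η₁ - η₂)) := by
    linear_combination (-4 * (3 * x₂ ^ 2 - 2 * D)) * d + 36 * x₂ * e +
      9 * x₂ * (m * (x₁ - x₂) - (η₁ - η₂) + 2 * η₂) * c
  have k1 : v (32 * (D : K) ^ 2) < 1 := by
    rw [k]
    refine v.map_add_lt (small ha ?_) (small hb ?_) <;> change _ ∈ v.integer <;>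
      apply_rules (maxDepth := 60) [sub_mem, add_mem, mul_mem, neg_mem, pow_mem, ofNat_mem]
  rw [show (32 : K) = 2 ^ 5 by norm_num, map_mul, map_pow, map_pow, h2, hD] at k1
  simp at k1

theorem halfi (h : Sp D s) (h2 : v 2 = 1) (hD : v D = 1) {σ : K →+* K}
    (h4 : ∀ x, v x ≤ 1 → v (σ x - x) < 1) {k : ℕ} (h0 : 2 ^ k • (pm (W D) σ P - P) = 0) :
    pm (W D) σ P = P := by
  have key : ∀ {P : Pt (W D) K} {x η}, Is P x η → v x ≤ 1 → 2 ^ k • (pm (W D) σ P - P) = 0 →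
      pm (W D) σ P = P := fun hP hx h0 => sub_eq_zero.1 (e1_tors h h2 k
    (cong h h2 hD (hP.map σ) hP hx (h4 _ hx) (h4 _ (v_eta h h2 hP hx))) h0)
  rcases zero_or_is P with rfl | ⟨x, η, hP⟩
  · exact map_zero _
  rcases le_or_gt (v x) 1 with hx | hx
  · exact key hP hx h0
  obtain ⟨T, hT⟩ := h.exists_is (x := 0) (η := 0) (by simp)
  have h5 : pm (W D) σ T = T := by
    have := hT.map σ
    rw [map_zero] at this
    exact this.unique h hT
  have x0 : x ≠ 0 := fun e => by simp [e] at hx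
  obtain ⟨m, x₃, a, b, c, -⟩ := add_line h hP hT fun e => x0 (by
    rw [eq_neg_of_add_eq_zero_left e] at hP
    exact (hP.inj hT.neg).1)
  have h6 : x * x₃ = -D := mul_left_cancel₀ (mul_ne_zero h.four x0) (by
    linear_combination x ^ 2 * b + (m * x + η) * c + eqn h hP)
  have h7 := congrArg v h6
  rw [map_mul, Valuation.map_neg, hD] at h7
  have h8 := key a (not_lt.1 fun e => (one_lt_mul'' hx e).ne' h7)
    (by rwa [map_add, h5, add_sub_add_right_eq_sub])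
  rwa [map_add, h5, add_left_inj] at h8

theorem pm_of_x (h : Sp D s) (h2 : v 2 = 1) (hD : v D = 1) {k : ℕ} (hP : Is P x₁ η₁)
    (hQ : Is Q x₂ η₂) (h3 : 2 ^ k • P = 0) (h4 : 2 ^ k • Q = 0) (ha : v (x₁ - x₂) < 1) :
    P = Q ∨ P = -Q := by
  have i1 : x₁ ∈ v.integer := int_of_tors h h2 h3 hP
  have i2 : x₂ ∈ v.integer := int_of_tors h h2 h4 hQ
  have iD : (D : K) ∈ v.integer := hD.le
  have k1 : v ((η₁ - η₂) * (η₁ - -η₂)) < 1 := by
    rw [show (η₁ - η₂) * (η₁ - -η₂) = (x₁ - x₂) * (4 * (x₁ ^ 2 + x₁ * x₂ + x₂ ^ 2 - D)) by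
      linear_combination eqn h hP - eqn h hQ]
    refine small ha ?_
    change _ ∈ v.integer
    apply_rules [sub_mem, add_mem, mul_mem, pow_mem, ofNat_mem]
  rw [map_mul] at k1
  rcases lt_or_ge (v (η₁ - η₂)) 1 with e | e
  · exact .inl (sub_eq_zero.1 (e1_tors h h2 k (cong h h2 hD hP hQ i2 ha e)
      (by rw [smul_sub, h3, h4, sub_zero])))
  · exact .inr (sub_eq_zero.1 (e1_tors h h2 k (cong h h2 hD hP hQ.neg i2 ha
      (not_le.1 fun e' => k1.not_ge (one_le_mul e e'))) (by rw [smul_sub, smul_neg, h3, h4]; simp)))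

theorem nine {R : Type} [CommRing R] {x η m n x₂ x₃ : R} (h3 : (3 : R) = 0)
    (e1 : η ^ 2 = 4 * (x ^ 3 - x)) (e2 : m * (η + η) = 4 * (x ^ 2 + x * x + x ^ 2 - 1))
    (e3 : 4 * (x + x + x₂) = m ^ 2) (e5 : n * (x₂ - x) = -(η + m * (x₂ - x)) - η)
    (e6 : 4 * (x₂ + x + x₃) = n ^ 2) : x₃ = x ^ 9 := by
  have a1 : m * η = 1 := by linear_combination -e2 + (1 - 4 * x ^ 2 + m * η) * h3
  have a2 : η ^ 2 = x ^ 3 - x := by linear_combination e1 + (x ^ 3 - x) * h3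
  have a3 : x₂ = m ^ 2 + x := by linear_combination e3 - (3 * x + x₂) * h3
  have a4 : n = η ^ 3 - m := by
    rw [a3] at e5
    linear_combination η ^ 2 * e5 - (n * (m * η + 1) + m * (m * η + 1)) * a1 - η ^ 3 * h3
  have a5 : x₃ = η ^ 6 + η ^ 2 + x := by
    rw [a3, a4] at e6
    linear_combination e6 - 2 * η ^ 2 * a1 - (m ^ 2 + 3 * x + x₃ + η ^ 2) * h3
  rw [a5, show η ^ 6 = (η ^ 2) ^ 3 by ring, a2]
  linear_combination (x ^ 5 - x ^ 7) * h3

theorem fr3 {s : K} (h : Sp 1 s) (h3 : v 3 < 1) {P : Pt (W 1) K} {k : ℕ} (h0 : 2 ^ k • P = 0)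
    (h1 : P + P ≠ 0) (hP : Is P x η) : ∃ x₃ η₃, Is (P + P + P) x₃ η₃ ∧ v (x ^ 9 - x₃) < 1 := by
  have h2 : v 2 = 1 := by
    rw [show (2 : K) = -(1 - 3) by norm_num, Valuation.map_neg,
      Valuation.map_sub_eq_of_lt_left _ (by simpa using h3), map_one]
  have t2 : 2 ^ k • (P + P) = 0 := by rw [smul_add, h0, add_zero]
  have t3 : 2 ^ k • (P + P + P) = 0 := by rw [smul_add, h0, t2, add_zero]
  obtain ⟨m, x₂, a1, a2, -, a3⟩ := add_line h hP hP h1
  obtain ⟨n, x₃, b1, b2, b3, -⟩ := add_line h a1 hP fun e => hP.ne_zero (by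
    have h5 : (3 : ℤ) • P = 0 := by rw [← e]; abel
    have h6 : ((2 : ℤ) ^ k) • P = 0 := by exact_mod_cast h0
    obtain ⟨a, b, hab⟩ : IsCoprime (3 : ℤ) (2 ^ k) := IsCoprime.pow_right (by norm_num)
    have h7 := congrArg (· • P) hab
    simpa only [add_smul, mul_smul, h5, h6, smul_zero, add_zero, one_smul] using h7.symm)
  refine ⟨x₃, _, b1, ?_⟩
  have i1 : x ∈ v.integer := int_of_tors h h2 h0 hP
  have i2 : x₂ ∈ v.integer := int_of_tors h h2 t2 a1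
  have i3 : x₃ ∈ v.integer := int_of_tors h h2 t3 b1
  have e1 := eqn h hP
  rw [Int.cast_one] at a3
  rw [Int.cast_one, one_mul] at e1
  lift m to v.integer using of_sq h2 (add_mem (add_mem i1 i1) i2) a2
  lift n to v.integer using of_sq h2 (add_mem (add_mem i2 i1) i3) b2
  lift η to v.integer using v_eta h h2 hP i1
  lift x to v.integer using i1
  lift x₂ to v.integer using i2
  lift x₃ to v.integer using i3
  let I : Ideal v.integer :=
    { carrier := {z | v z < 1}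
      add_mem' := fun hz hz' => v.map_add_lt hz hz'
      zero_mem' := by simp
      smul_mem' := fun c z hz => by
        change v (c * z) < 1
        rw [mul_comm]
        exact small hz c.2 }
  have f1 : η ^ 2 = 4 * (x ^ 3 - x) := Subtype.ext e1
  have f2 : m * (η + η) = 4 * (x ^ 2 + x * x + x ^ 2 - 1) := Subtype.ext a3
  have f3 : 4 * (x + x + x₂) = m ^ 2 := Subtype.ext a2
  have f5 : n * (x₂ - x) = -(η + m * (x₂ - x)) - η := Subtype.ext b3
  have f6 : 4 * (x₂ + x + x₃) = n ^ 2 := Subtype.ext b2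
  apply_fun Ideal.Quotient.mk I at f1 f2 f3 f5 f6
  simp only [map_add, map_sub, map_mul, map_pow, map_neg, map_ofNat, map_one] at f1 f2 f3 f5 f6
  have f0 : Ideal.Quotient.mk I 3 = 0 := Ideal.Quotient.eq_zero_iff_mem.2 h3
  rw [map_ofNat] at f0
  have f7 := nine f0 f1 f2 f3 f5 f6
  rw [← map_pow] at f7
  exact Ideal.Quotient.eq.1 f7.symm

end CA

end Pool.Agent.P.MP_8b7eba_nt.QT
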