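import Pool.Agent.P.MP_8b7eba_nt.R2.TSHA
import Pool.Agent.P.MP_8b7eba_nt.QT.BasY
import Pool.Agent.P.MP_8b7eba_nt.QT.CA

/-! The Tate module of `y² = x³ - D x`. -/

namespace Pool.Agent.P.MP_8b7eba_nt.QT

open R2 SM MP_9c97e9_nt Classical CA

namespace CB

variable {D D' : ℤ} {ρ : GQ → O} {e : ℕ → O →+ Pt (W D) Om} {u : Om}

theorem i_sq : rt (-1) ^ 2 = -1 := by simpa using rt_sq (-1)

theorem sp (hD : D ≠ 0) : Sp D (rt D) := split two_ne_zero (Int.cast_ne_zero.2 hD) (rt_sq D)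

theorem exists_sc (hD : D ≠ 0) (hD' : D' ≠ 0) (hu : u ^ 4 * D = D') :
    ∃ f : Pt (W D) Om →+ Pt (W D') Om, Function.Bijective f ∧ IsSc u f := by
  have h1 : Sp D' (u ^ 2 * rt D) := split two_ne_zero (Int.cast_ne_zero.2 hD')
    (by linear_combination u ^ 4 * rt_sq D + hu)
  obtain ⟨f, a, b⟩ := TSHA.exists_iso (W' := W D') (u := u) (r := 0) (sp hD) (by simpa using h1)
    fun e => hD' (by simpa [e, eq_comm] using hu)
  exact ⟨f, a, fun P x η h => by simpa using b P x η h⟩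

theorem extO {E : Type} [AddCommGroup E] {φ ψ : O →+ E} (n : ℕ) (h1 : ∀ a, Dv (2 * n) a → φ a = 0)
    (h2 : ∀ a, Dv (2 * n) a → ψ a = 0) (h3 : φ 1 = ψ 1) (h4 : φ ii = ψ ii) (a : O) :
    φ a = ψ a := by
  obtain ⟨m, hm⟩ := exists_nat n a.re
  obtain ⟨m', hm'⟩ := exists_nat n a.im
  have h5 : Dv (2 * n) (a - (m • 1 + m' • ii)) :=
    dv_two_iff.2 ⟨by simpa using hm, by simpa using hm'⟩
  rw [← sub_add_cancel a (m • 1 + m' • ii), map_add, map_add ψ, h1 _ h5, h2 _ h5]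
  simp only [map_add, map_nsmul, h3, h4]

theorem exists_hom {E : Type} [AddCommGroup E] {n : ℕ} {P Q : E} (hP : 2 ^ n • P = 0)
    (hQ : 2 ^ n • Q = 0) : ∃ φ : ZMod (2 ^ n) × ZMod (2 ^ n) →+ E, φ (1, 0) = P ∧ φ (0, 1) = Q := by
  have k : ∀ P : E, 2 ^ n • P = 0 → ∃ L : ZMod (2 ^ n) →+ E, L 1 = P := fun P h =>
    ⟨ZMod.lift _ ⟨zmultiplesHom E P, by rwa [zmultiplesHom_apply, natCast_zsmul]⟩, by
      rw [← Int.cast_one, ZMod.lift_coe]
      simp⟩
  obtain ⟨L, a⟩ := k P hP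
  obtain ⟨L', b⟩ := k Q hQ
  exact ⟨L.coprod L', by simpa using a, by simpa using b⟩

theorem up (h : ∀ n a, e (n + 1) (2 * a) = e n a) (n j : ℕ) (a : O) :
    e (n + j) (2 ^ j * a) = e n a := by
  induction j with
  | zero => simp
  | succ j ih => rw [pow_succ', mul_assoc, ← add_assoc, h, ih]

theorem gal_i (g : GQ) : (g (rt (-1)) = rt (-1) ∧ cj g ii = ii) ∨
    (g (rt (-1)) = -rt (-1) ∧ cj g ii = -ii) := by
  rcases f2 (qz (-1) g) with h | h
  · exact .inl ⟨(qz_eq_zero (rt_sq _)).1 h, cj_of h _⟩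
  · exact .inr ⟨(GrpA.pm (rt_sq _) g).resolve_left ((qz_eq_one (rt_sq _)).1 h),
      by rw [cj, h, cs_one, star_ii]⟩

theorem tate0 (hD : D ≠ 0) : ∃ e, TM0 D e ∧ Cm D e := by
  have h := sp hD
  obtain ⟨J, -, hJ⟩ := exists_sc (u := rt (-1)) hD hD (by
    linear_combination (rt (-1) ^ 2 - 1) * D * i_sq)
  have hJ' : ∀ P x η, Is P x η → Is (J P) (-x) (-(rt (-1) * η)) := fun P x η hP => by
    have := hJ P x η hP
    rwa [pow_succ _ 2, i_sq, neg_one_mul, neg_one_mul, neg_mul] at this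
  have JJ : ∀ P, J (J P) = -P := fun P => by
    rcases zero_or_is P with rfl | ⟨x, η, hP⟩
    · simp
    have := hJ' _ _ _ (hJ' _ _ _ hP)
    rw [neg_neg, show -(rt (-1) * -(rt (-1) * η)) = -η by linear_combination η * i_sq] at this
    exact this.unique h hP.neg
  obtain ⟨T, t1⟩ := h.exists_is (x := rt D) (η := 0) (by simp)
  have t2 : Is (J T) (-rt D) 0 := by simpa using hJ' _ _ _ t1
  have t3 : Is (T + J T) 0 0 := by
    simpa using t1.add_ne h t2 (sub_ne_zero.1 h.n23) (m := 0) (x₃ := 0) (by simp) (by simp)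
  choose hf hhf using exists_half h
  let Q : ℕ → Pt (W D) Om := fun n => Nat.casesOn n 0 fun n => hf^[n] T
  have q2 : ∀ n, Q (n + 1) + Q (n + 1) = Q n := fun n => by
    rcases n with _ | n
    · exact t1.add_eq_zero h (by rw [neg_zero]; exact t1)
    · simp only [Q, Function.iterate_succ_apply', hhf]
  have q0 : ∀ n, 2 ^ n • Q n = 0 := fun n => by
    induction n with
    | zero => simp [Q]
    | succ n ih => rw [pow_succ, mul_nsmul', two_nsmul, q2, ih]
  choose φ p1 p2 using fun n => exists_hom (q0 n) (Q := J (Q n))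
    (by rw [← map_nsmul, q0, map_zero])
  let e : ℕ → O →+ Pt (W D) Om := fun n => (φ n).comp (rn n)
  have k0 : ∀ n a, Dv (2 * n) a → e n a = 0 := fun n a ha => by
    simp [e, rn_eq_zero.2 ha]
  have k1 : ∀ n, e n 1 = Q n := fun n => by
    rw [← p1]
    exact congrArg (φ n)
      (Prod.ext (map_one (PadicInt.toZModPow n)) (map_zero (PadicInt.toZModPow n)))
  have k2 : ∀ n, e n ii = J (Q n) := fun n => by
    rw [← p2]
    exact congrArg (φ n) (by simp [rn])
  have two : ∀ n a, e (n + 1) (2 * a) = e n a := fun n =>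
    extO (φ := (e (n + 1)).comp (AddMonoidHom.mulLeft 2)) n
      (fun a ha => k0 _ _ (by simpa [mul_add, add_comm] using (al_two 1).dv.mul ha)) (k0 n)
      (show e _ (2 * 1) = _ by rw [two_mul, map_add, k1, k1, q2])
      (show e _ (2 * ii) = _ by rw [two_mul, map_add, k2, k2, ← map_add, q2])
  have cm : ∀ n a, e n (ii * a) = J (e n a) := fun n =>
    extO (φ := (e n).comp (AddMonoidHom.mulLeft ii)) (ψ := J.comp (e n)) n
      (fun a ha => k0 _ _ (ha.mul_left _)) (fun a ha => by simp [k0 n a ha])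
      (show e _ (ii * 1) = J (e n 1) by rw [mul_one, k1, k2])
      (show e _ (ii * ii) = J (e n ii) by rw [← sq, ii_sq, map_neg, k1, k2, JJ])
  refine ⟨e, ⟨fun n a => ⟨fun ha => ?_, k0 n a⟩, two, fun n P hP => ?_⟩,
    fun n a x η ha => cm n a ▸ hJ' _ _ _ ha⟩
  · induction n with
    | zero => exact dv_nil a
    | succ n ih =>
      obtain ⟨b, rfl⟩ := dv_two.1 (ih (by rw [← two, two_mul, map_add, ha, add_zero]))
      rw [add_comm, up two] at ha
      rw [mul_add, (al_two n).dv_mul, ← rn_eq_zero]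
      change φ 1 (rn 1 b) = 0 at ha
      generalize rn 1 b = z at ha ⊢
      obtain ⟨c, d⟩ := z
      have k : ∀ c : ZMod (2 ^ 1), c = 0 ∨ c = 1 := by decide
      rcases k c with rfl | rfl <;> rcases k d with rfl | rfl
      · rfl
      · exact absurd ((p2 1).symm.trans ha) t2.ne_zero
      · exact absurd ((p1 1).symm.trans ha) t1.ne_zero
      · refine absurd ?_ t3.ne_zero
        rw [← ha, show ((1, 1) : ZMod (2 ^ 1) × ZMod (2 ^ 1)) = (1, 0) + (0, 1) from rfl, map_add,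
          p1, p2]
        rfl
  · induction n generalizing P with
    | zero => exact ⟨0, by simpa using hP.symm⟩
    | succ n ih =>
      obtain ⟨a, ha⟩ := ih (P + P) (by rwa [← two_nsmul, ← mul_nsmul', ← pow_succ])
      obtain ⟨b, hb⟩ : ∃ b, e 1 b = P - e (n + 1) a := by
        rcases two_torsion h (T := P - e (n + 1) a) (by
          rw [sub_add_sub_comm, ← map_add, ← two_mul, two, ha, sub_self]) with h1 | h1 | h1 | h1
        · exact ⟨0, by rw [h1, map_zero]⟩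
        · exact ⟨1 + ii, by rw [map_add, k1, k2]; exact t3.unique h h1⟩
        · exact ⟨1, by rw [k1]; exact t1.unique h h1⟩
        · exact ⟨ii, by rw [k2]; exact t2.unique h h1⟩
      refine ⟨2 ^ n * b + a, ?_⟩
      rw [map_add, add_comm n, up two, hb, add_comm 1, sub_add_cancel]

theorem tors (h : TM0 D e) (n : ℕ) (a : O) : 2 ^ n • e n a = 0 := by
  rw [← map_nsmul, h.ker, nsmul_eq_mul, Nat.cast_pow, Nat.cast_ofNat]
  exact dv_two.2 (dvd_mul_right _ _)

theorem inj (h : TM0 D e) {n : ℕ} {a b : O} : e n a = e n b ↔ Dv (2 * n) (a - b) := by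
  rw [← h.ker, map_sub, sub_eq_zero]

theorem tate (hD : D ≠ 0) : ∃ ρ e, TM D ρ e ∧ Cm D e := by
  obtain ⟨e, h, hc⟩ := tate0 hD
  have h1 : ∀ g : GQ, ∃ b, ∀ n, pm (W D) (g : Om →+* Om) (e n 1) = e n b := fun g => by
    choose a ha using fun n => h.surj n (pm (W D) (g : Om →+* Om) (e n 1))
      (by rw [← map_nsmul, tors h, map_zero])
    obtain ⟨b, hb⟩ := exists_lim' a fun n => (inj h).1 (by
      rw [← h.two, two_mul, map_add, ha, ha, ← map_add, ← map_add, ← two_mul, h.two])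
    exact ⟨b, fun n => (ha n).symm.trans ((inj h).2 (hb n))⟩
  choose ρ hρ using h1
  refine ⟨ρ, e, ⟨h, fun g n => extO (φ := (pm (W D) (g : Om →+* Om)).comp (e n))
    (ψ := (e n).comp (AddMonoidHom.mk' (ac ρ g) (ac_add ρ g))) n
    (fun a ha => by simp [(h.ker n a).2 ha]) (fun a ha => (h.ker _ _).2 (ha.ac ρ g))
    ((hρ g n).trans (by simp [ac])) ?_⟩, hc⟩
  change pm (W D) (g : Om →+* Om) (e n ii) = e n (ρ g * cj g ii)
  rcases zero_or_is (e n 1) with h0 | ⟨x, η, h0⟩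
  · have h2 := ((h.ker _ _).1 h0).mul_right
    simp only [one_mul] at h2
    rw [(h.ker _ _).2 (h2 _), (h.ker _ _).2 (h2 _), map_zero]
  have h2 := (hc n 1 x η h0).map (K := Om) g
  have h3 := h0.map (K := Om) g
  rw [hρ] at h3
  have h4 := hc _ _ _ _ h3
  rw [mul_one, map_neg, map_neg, map_mul, RingHom.coe_coe] at h2
  rcases gal_i g with ⟨a, b⟩ | ⟨a, b⟩ <;> rw [a] at h2 <;> rw [b, mul_comm]
  · exact h2.unique (sp hD) h4
  · rw [neg_mul, map_neg]
    exact h2.unique (sp hD) (by simpa using h4.neg)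

theorem cm_pow (hc : Cm D e) (m : ℕ) {n : ℕ} {a : O} {x η : Om} (h : Is (e n a) x η) :
    Is (e n (ii ^ m * a)) ((rt (-1) ^ m) ^ 2 * x) ((rt (-1) ^ m) ^ 3 * η) := by
  induction m with
  | zero => simpa using h
  | succ m ih =>
    have := hc _ _ _ _ ih
    rw [pow_succ' ii, mul_assoc]
    convert this using 1
    · linear_combination (rt (-1) ^ m) ^ 2 * x * i_sq
    · linear_combination (rt (-1) ^ m) ^ 3 * rt (-1) * η * i_sq

theorem twist (h : TM D ρ e) (hc : Cm D e) (hD : D ≠ 0) (hD' : D' ≠ 0) (hu : u ^ 4 * D = D')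
    {m : GQ → ℕ} (hm : ∀ g : GQ, g u = rt (-1) ^ m g * u) :
    ∃ e', TM D' (fun g => ρ g * ii ^ m g) e' := by
  obtain ⟨f, hf, hs⟩ := exists_sc hD hD' hu
  refine ⟨fun n => f.comp (e n), ⟨fun n a => ?_, fun n a => congrArg f (h.two n a),
    fun n P hP => ?_⟩, fun g n a => ?_⟩
  · exact (map_eq_zero_iff f hf.1).trans (h.ker n a)
  · obtain ⟨P, rfl⟩ := hf.2 P
    obtain ⟨a, rfl⟩ := h.surj n P (hf.1 (by rw [map_nsmul, hP, map_zero]))
    exact ⟨a, rfl⟩
  · change pm (W D') (g : Om →+* Om) (f (e n a)) = f (e n _)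
    rcases zero_or_is (e n a) with h0 | ⟨x, η, h0⟩
    · rw [h0, (h.ker _ _).2 (((h.ker _ _).1 h0).ac _ g), map_zero, map_zero]
    have h1 := (hs _ _ _ h0).map (K := Om) g
    have h2 := h0.map (K := Om) g
    rw [h.gal] at h2
    have h3 := hs _ _ _ (cm_pow hc (m g) h2)
    rw [show ii ^ m g * ac ρ g a = ac (fun g => ρ g * ii ^ m g) g a by simp only [ac]; ring] at h3
    refine h1.unique (sp hD') ?_
    convert h3 using 1 <;> simp only [map_mul, map_pow, RingHom.coe_coe, hm] <;> ring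

theorem ke_spec {δ : Om} {a : ℤ} (h : δ ^ 4 = a) (g : GQ) :
    g δ = rt (-1) ^ (ke δ g : ℕ) * δ := by
  have h1 : g δ ^ 4 = δ ^ 4 := by rw [← map_pow, h, map_intCast]
  unfold ke
  split_ifs with a b c
  · simpa using a
  · simpa using b
  · rw [c]
    exact (neg_one_mul δ).symm.trans (congrArg (· * δ) i_sq.symm)
  · have h2 : (g δ - δ) * (g δ - rt (-1) * δ) * (g δ - -δ) * (g δ - rt (-1) ^ 3 * δ) = 0 := by
      linear_combination h1 +
        (g δ ^ 2 - δ ^ 2) * (δ ^ 2 * (rt (-1) ^ 2 - 1) - g δ * δ * rt (-1)) * i_sq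
    exact sub_eq_zero.1 ((mul_eq_zero.1 h2).resolve_left (mul_ne_zero
      (mul_ne_zero (sub_ne_zero.2 a) (sub_ne_zero.2 b)) (sub_ne_zero.2 c)))

theorem r4_spec (a : ℤ) : r4 a ^ 4 = a :=
  Classical.epsilon_spec (p := fun δ : Om => δ ^ 4 = a) (exists_root _ (by norm_num))

theorem exists_ON (hD : D ≠ 0) (P : Pt (W D) Om) :
    ∃ N, ON N ∧ ∀ g ∈ N, pm (W D) (g : Om →+* Om) P = P := by
  rcases zero_or_is P with rfl | ⟨x, η, h⟩
  · exact ⟨⊤, ON.top, fun g _ => map_zero _⟩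
  obtain ⟨N, hN, k⟩ := exists_ON_fix {x, η}
  refine ⟨N, hN, fun g hg => ?_⟩
  have := h.map (K := Om) g
  rw [RingHom.coe_coe, k x (by simp) g hg, k η (by simp) g hg] at this
  exact this.unique (sp hD) h

theorem co (h : TM D ρ e) (g k : GQ) : ρ (g * k) = ρ g * cj g (ρ k) := by
  refine sub_eq_zero.1 (eq_zero_of_dv fun n => Dv.mono (n := 2 * n) ?_ (by omega))
  have h1 := h.gal (g * k) n 1
  rw [pm_mul, h.gal, h.gal] at h1
  simpa [ac] using (inj h.toTM0).1 h1.symm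

theorem sm (h : TM D ρ e) (hD : D ≠ 0) (n : ℕ) : ∃ N, ON N ∧ ∀ g ∈ N, Dv n (ρ g - 1) := by
  obtain ⟨N, hN, k⟩ := exists_ON hD (e n 1)
  refine ⟨N, hN, fun g hg => Dv.mono (n := 2 * n) ?_ (by omega)⟩
  simpa [ac] using (inj h.toTM0).1 ((h.gal g n 1).symm.trans (k g hg))

end CB

end Pool.Agent.P.MP_8b7eba_nt.QT
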