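import Pool.Agent.P.MP_8b7eba_nt.QT.CB

/-! Selmer cocycles are unramified at the primes of good reduction. -/

namespace Pool.Agent.P.MP_8b7eba_nt.QT

open R2 SM MP_9c97e9_nt Classical CA CB Filter Topology
open scoped NNReal

namespace CC

theorem lc {k : Type} [Field k] (x : AlgebraicClosure k) :
    IsLocallyConstant fun g : Gal k => g x := by
  refine (IsLocallyConstant.iff_eventually_eq _).2 fun g => ?_
  have h : IsOpen ((fun h : Gal k => g⁻¹ * h) ⁻¹'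
      (MulAction.stabilizer (Gal k) x : Set (Gal k))) :=
    (stabilizer_isOpen_of_isIntegral (K := k) x).preimage (continuous_const_mul _)
  filter_upwards [h.mem_nhds (x := g) (by simp)] with h hh
  have e : g⁻¹ (h x) = x := hh
  conv_rhs => rw [← e]
  simp

/-- the restrictions of the local automorphisms -/
def res (K : Type) [Field K] [CharZero K] : Subgroup GQ where
  carrier := {g | ∃ σ : Gal K, ∀ x, emb ℚ K (g x) = σ (emb ℚ K x)}
  one_mem' := ⟨1, fun _ => rfl⟩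
  mul_mem' := by
    rintro g h ⟨σ, hσ⟩ ⟨τ, hτ⟩
    exact ⟨σ * τ, fun x => by rw [AlgEquiv.mul_apply, AlgEquiv.mul_apply, hσ, hτ]⟩
  inv_mem' := by
    rintro g ⟨σ, hσ⟩
    refine ⟨σ⁻¹, fun x => σ.injective ?_⟩
    rw [← hσ]
    simp

theorem closed_res (K : Type) [Field K] [CharZero K] : IsClosed (res K : Set GQ) := by
  have h : IsClosed {q : GQ × Gal K | ∀ x, emb ℚ K (q.1 x) = q.2 (emb ℚ K x)} := by
    rw [Set.ofPred_forall]
    refine isClosed_iInter fun x => ?_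
    have h1 : IsLocallyConstant fun q : GQ × Gal K => q.1 x :=
      (lc x).comp_continuous continuous_fst
    have h2 : IsLocallyConstant fun q : GQ × Gal K => q.2 (emb ℚ K x) :=
      (lc (emb ℚ K x)).comp_continuous continuous_snd
    simpa using (h1.comp₂ h2 fun a b => emb ℚ K a = b).isClosed_fiber True
  have e : (res K : Set GQ) =
      Prod.fst '' {q : GQ × Gal K | ∀ x, emb ℚ K (q.1 x) = q.2 (emb ℚ K x)} := by
    ext g
    exact ⟨fun ⟨σ, h⟩ => ⟨(g, σ), h, rfl⟩, fun ⟨q, h, e⟩ => e ▸ ⟨q.2, h⟩⟩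
  rw [e]
  exact isClosedMap_fst_of_compactSpace _ h

variable {p : ℕ} [Fact p.Prime]

/-- the valuation of the local algebraic closure -/
noncomputable abbrev vp (p : ℕ) [Fact p.Prime] : Valuation (AlgebraicClosure ℚ_[p]) ℝ≥0 :=
  (PadicAlgCl.valued p).v

theorem dec [HA] {w : Pl} (hw : w.v = (vp p).comap (emb ℚ ℚ_[p])) {g : GQ} (hg : g ∈ w.D) :
    g ∈ res ℚ_[p] := by
  refine (hA.gal (res ℚ_[p]) (closed_res _)).1 g fun x hx => ?_
  obtain ⟨y, hy⟩ := of_fixed (k := ℚ_[p]) (x := emb ℚ ℚ_[p] x) fun σ => by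
    obtain ⟨τ, hτ⟩ := exists_restrict (k := ℚ) σ
    rw [← hτ, hx τ ⟨σ, hτ⟩]
  have hv : ∀ z, (w.v z : ℝ) = ‖(emb ℚ ℚ_[p] z : PadicAlgCl p)‖ := fun z => by
    rw [hw]
    rfl
  have key : ∀ ε : ℝ, 0 < ε → (w.v (g x - x) : ℝ) < ε := by
    intro ε hε
    obtain ⟨q, hq⟩ := Padic.rat_dense (p := p) y hε
    have h1 : (w.v (x - algebraMap ℚ Om q) : ℝ) < ε := by
      rw [hv, map_sub, ← hy, emb_alg, ← map_sub]
      exact (PadicAlgCl.norm_extends p _).trans_lt (by simpa using hq)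
    have h2 : w.v (g x - algebraMap ℚ Om q) = w.v (x - algebraMap ℚ Om q) := by
      rw [← Pl.mem_D.1 hg (x - algebraMap ℚ Om q), map_sub g, AlgEquiv.commutes]
    have h3 := w.v.map_sub (g x - algebraMap ℚ Om q) (x - algebraMap ℚ Om q)
    rw [h2, max_self, sub_sub_sub_cancel_right] at h3
    exact lt_of_le_of_lt (NNReal.coe_le_coe.2 h3) h1
  have h0 : w.v (g x - x) = 0 := by
    by_contra h
    exact lt_irrefl _ (key _ (NNReal.coe_pos.2 (pos_iff_ne_zero.2 h)))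
  exact sub_eq_zero.1 ((Valuation.zero_iff _).1 h0)

open Polynomial in
theorem resq (x : PadicAlgCl p) (hx : vp p x ≤ 1) : ∃ y, vp p (x - emb ℚ ℚ_[p] y) < 1 := by
  have hf := minpoly.monic (Algebra.IsIntegral.isIntegral (R := ℚ_[p]) x)
  have h0 : (0 : ℝ) < (minpoly ℚ_[p] x).natDegree + 1 := by positivity
  obtain ⟨g, g1, g2, g3⟩ := exists_monic_and_natDegree_eq_and_norm_map_algebraMap_coeff_sub_lt
    (K := ℚ) (Padic.denseRange_ratCast p) hf (inv_pos.2 h0)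
  obtain ⟨b, b1, b2⟩ := exists_aroots_norm_sub_lt_of_norm_coeff_sub_lt (inv_pos.2 h0)
    (minpoly.aeval ℚ_[p] x) hf (g1.map _) (by rw [g2, g1.natDegree_map]) g3 (IsAlgClosed.splits _)
  rw [mul_inv_cancel₀ h0.ne', Real.one_rpow, one_mul, max_eq_right (show ‖x‖ ≤ 1 from hx)] at b2
  obtain ⟨y, rfl⟩ := (IsAlgClosed.splits (g.map (am ℚ))).mem_range_of_isRoot (g1.map _).ne_zero
    (i := emb ℚ ℚ_[p]) (x := b) (by
      have := isRoot_of_mem_roots b1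
      rwa [Polynomial.map_map, Subsingleton.elim (RingHom.comp _ _) ((emb ℚ ℚ_[p]).comp (am ℚ)),
        ← Polynomial.map_map] at this)
  exact ⟨y, b2⟩

variable {D : ℤ} {w : Pl} {g : GQ}

theorem v_one (h : ¬ (w.p : ℤ) ∣ 2 * D) : w.v 2 = 1 ∧ w.v D = 1 :=
  ⟨by simpa using (Pl.v_int_eq_one (n := 2)).2 fun e => h (e.mul_right _),
    Pl.v_int_eq_one.2 fun e => h (e.mul_left _)⟩

theorem inert (h : ¬ (w.p : ℤ) ∣ 2 * D) (hg : g ∈ w.I) {T : Pt (W D) Om} {k : ℕ}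
    (hT : 2 ^ k • T = 0) : pm (W D) (g : Om →+* Om) T = T :=
  halfi (sp fun e => h (by simp [e])) (v_one h).1 (v_one h).2 hg.2 (k := k)
    (by rw [smul_sub, ← map_nsmul, hT, map_zero, sub_zero])

theorem selu [HA] {c : GQ → Pt (W D) Om} (hc : c ∈ shaCocycles (W D))
    (ht : ∀ g, ∃ k : ℕ, 2 ^ k • c g = 0) (h : ¬ (w.p : ℤ) ∣ 2 * D) (hg : g ∈ w.I) : c g = 0 := by
  have := Fact.mk w.prime
  let w' : Pl := ⟨w.p, w.prime, (vp w.p).comap (emb ℚ ℚ_[w.p]), by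
    rw [Valuation.comap_apply, map_natCast, ← one_div]
    exact PadicAlgCl.valuation_p w.p⟩
  have h' : ¬ (w'.p : ℤ) ∣ 2 * D := h
  obtain ⟨τ, hτ⟩ := hA.pl.2.1 w' w rfl
  rw [← hτ, Pl.mem_I_smul] at hg
  obtain ⟨σ, hσ⟩ := dec (w := w') rfl hg.1
  obtain ⟨P, hP⟩ := hc.2.2.2 w.p
  have h1 := hP σ _ hσ
  obtain ⟨k, hk⟩ := ht (τ⁻¹ * g * τ)
  have h2 := halfi (v := vp w.p) (P := P) (k := k) (σ := σ)
    (by simpa using (sp fun e => h (by simp [e])).map (emb ℚ ℚ_[w.p]))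
    (by simpa [w', map_ofNat] using (v_one h').1) (by simpa [w'] using (v_one h').2)
    (fun x hx => by
      obtain ⟨y, hy⟩ := resq x hx
      have h3 : vp w.p (σ (x - emb ℚ ℚ_[w.p] y)) = vp w.p (x - emb ℚ ℚ_[w.p] y) :=
        NNReal.eq (spectralNorm_eq_of_equiv σ _).symm
      have h4 : w'.v y ≤ 1 := by
        change vp w.p (emb ℚ ℚ_[w.p] y) ≤ 1
        rw [← sub_sub_cancel x (emb ℚ ℚ_[w.p] y)]
        exact (vp w.p).map_sub_le hx hy.le
      have h5 : vp w.p (emb ℚ ℚ_[w.p] (_ - y)) < 1 := hg.2 y h4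
      rw [map_sub, hσ] at h5
      rw [show (σ : _ →+* _) x - x = σ (x - emb ℚ ℚ_[w.p] y) + (σ (emb ℚ ℚ_[w.p] y) -
        emb ℚ ℚ_[w.p] y) - (x - emb ℚ ℚ_[w.p] y) by simp]
      exact (vp w.p).map_sub_lt ((vp w.p).map_add_lt (h3 ▸ hy) h5) hy)
    (by rw [← h1, ← map_nsmul, hk, map_zero])
  rw [h2, sub_self, map_eq_zero_iff _ (pm_injective _)] at h1
  obtain ⟨j, hj⟩ := ht τ⁻¹
  have h3 := hc.2.1 τ (τ⁻¹ * g * τ * τ⁻¹)
  have h4 := hc.2.1 τ τ⁻¹
  have h5 : c 1 = 0 := by simpa [pm_one] using hc.2.1 1 1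
  rw [hc.2.1 _ τ⁻¹, h1, inert h' hg hj, zero_add, ← h4, mul_inv_cancel, h5] at h3
  rw [← h3]
  congr 1
  group

end CC

end Pool.Agent.P.MP_8b7eba_nt.QT
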