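import Pool.Agent.P.MP_8b7eba_nt.QT.BasK
import Pool.Agent.P.MP_8b7eba_nt.QT.CC

/-! The determinant of the Tate module is the cyclotomic character. -/

namespace Pool.Agent.P.MP_8b7eba_nt.QT

open R2 SM MP_9c97e9_nt Classical CA CB CC

namespace CD

variable [HA] {D : ℤ} {ρ : GQ → O} {e : ℕ → O →+ Pt (W D) Om} {w : Pl} {g : GQ}

omit [HA] in
theorem unr (h : TM D ρ e) (hw : ¬ (w.p : ℤ) ∣ 2 * D) (hg : g ∈ w.I) : ρ g = 1 := by
  refine sub_eq_zero.1 (eq_zero_of_dv fun n => Dv.mono (n := 2 * n) ?_ (by omega))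
  simpa [ac] using (inj h.toTM0).1 ((h.gal g n 1).symm.trans (inert hw hg (CB.tors h.toTM0 n 1)))

theorem ch_zero {χ : GQ → F2} (h : IsCh ⊤ χ) (h1 : ∀ w : Pl, w.p ≠ 2 → ∀ g ∈ w.I, χ g = 0)
    (h2 : χ tau = 0) (h3 : χ (fr 3) = 0) : χ = 0 := by
  obtain ⟨m, hm, rfl⟩ := exists_qz hA h
  have h4 := (qz_tau hA.tau hm.ne_zero).1 h2
  have h5 : m.natAbs ∣ 2 := by
    rw [← Nat.prod_primeFactors_of_squarefree (Int.squarefree_natAbs.2 hm)]
    refine (Finset.prod_dvd_prod_of_subset _ {2} _ fun p hp => ?_).trans (by simp)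
    have k := Nat.prime_of_mem_primeFactors hp
    have e := pl_p k
    refine Finset.mem_singleton.2 (by_contra fun h6 => ?_)
    refine (qz_gen hA (by rwa [e]) (tp_I k h6) (by rw [e]; exact tp_mov k h6) hm).1
      (h1 _ (by rwa [e]) _ (tp_I k h6)) ?_
    rw [e]
    exact Int.natCast_dvd.2 (Nat.dvd_of_mem_primeFactors hp)
  rcases (Nat.dvd_prime Nat.prime_two).1 h5 with h6 | h6
  · rw [show m = 1 by omega, qz_one]
  · rw [show m = 2 by omega, qz_fr Nat.prime_three (by norm_num), js,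
      if_neg (by norm_num)] at h3
    exact absurd h3 one_ne_zero

theorem hom_one {θ : GQ → Z2} (hm : ∀ g k, θ (g * k) = θ g * θ k)
    (hs : ∀ n, ∃ N, ON N ∧ ∀ g ∈ N, 2 ^ n ∣ θ g - 1) (h0 : ∀ g, 2 ^ 1 ∣ θ g - 1)
    (h1 : ∀ w : Pl, w.p ≠ 2 → ∀ g ∈ w.I, θ g = 1) (h2 : θ tau = 1) (h3 : θ (fr 3) = 1) (g : GQ) :
    θ g = 1 := by
  have key : ∀ n g, 2 ^ (n + 1) ∣ θ g - 1 := fun n => by
    induction n with
    | zero => exact h0
    | succ n ih =>
      choose c hc using ih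
      have a : ∀ g, PadicInt.toZMod (c g) = 0 ↔ 2 ^ (n + 1 + 1) ∣ θ g - 1 := fun g => by
        rw [BasY.dvd_iff1, hc, pow_add _ (n + 1), mul_dvd_mul_iff_left (pow_ne_zero _ two_ne_zero)]
      have b : ∀ g k, PadicInt.toZMod (c (g * k)) = PadicInt.toZMod (c g) + PadicInt.toZMod (c k) :=
        fun g k => by
          have : c (g * k) = c g + c k + 2 * (2 ^ n * c g * c k) :=
            mul_left_cancel₀ (pow_ne_zero (n + 1) two_ne_zero) (by
              linear_combination -hc (g * k) + hm g k + θ k * hc g + (1 + 2 ^ (n + 1) * c g) * hc k)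
          rw [this, map_add, map_add, map_mul, BasY.toZMod_two, zero_mul, add_zero]
      have z : ∀ g, θ g = 1 → PadicInt.toZMod (c g) = 0 := fun g e => (a g).2 (by simp [e])
      obtain ⟨N, hN, k⟩ := hs (n + 1 + 1)
      have := ch_zero (χ := fun g => PadicInt.toZMod (c g))
        ⟨⟨N, hN, fun g _ u _ hu => (b g u).trans (by rw [(a u).2 (k u hu), add_zero])⟩,
          fun g _ k _ => b g k⟩
        (fun w hw g hg => z g (h1 w hw g hg)) (z _ h2) (z _ h3)
      exact fun g => (a g).1 (congrFun this g)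
  exact sub_eq_zero.1 (PadicInt.ext_of_toZModPow.1 fun n => by
    rw [map_zero]
    exact (BasY.dvd_iff n _).2 ((pow_dvd_pow _ n.le_succ).trans (key n g)))

omit [HA] in
theorem unit (h : TM D ρ e) (g : GQ) : rd (ρ g) = 1 := by
  refine (f2 _).resolve_left fun h0 => ?_
  have h1 := (inj h.toTM0).1 (show e 1 (ρ 1) = e 1 1 by
    simpa [ac] using (h.gal 1 1 1).symm.trans (pm_one _))
  have h2 := dv_one_sub.1 (h1.mono one_le_two)
  rw [← mul_inv_cancel g, CB.co h, rd_mul, h0, zero_mul] at h2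
  exact zero_ne_one h2

omit [HA] in
theorem nr_mod (a : O) : ¬ 2 ^ 2 ∣ nr a - 3 := fun e => by
  have h1 := (BasY.dvd_iff 2 _).2 e
  simp only [nr, map_sub, map_add, map_pow, map_ofNat] at h1
  exact absurd h1 ((by decide : ∀ x y : ZMod (2 ^ 2), x ^ 2 + y ^ 2 - 3 ≠ 0) _ _)

theorem nr_fr {e : ℕ → O →+ Pt (W 1) Om} (h : TM 1 ρ e) : nr (ρ (fr 3)) = -3 := by
  have e3 := pl_p Nat.prime_three
  have hf := fr_frob Nat.prime_three (by norm_num)
  have h3 : (pl 3).v 3 < 1 := by simpa [e3] using (pl 3).v_p_lt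
  obtain ⟨v2, v1⟩ := v_one (w := pl 3) (D := 1) (by rw [e3]; norm_num)
  have h1 : ρ (fr 3 * fr 3) = nr (ρ (fr 3)) • 1 := by
    rw [CB.co h, cj, qz_fr Nat.prime_three (by norm_num), js, if_neg (by norm_num), cs_one,
      mul_star_eq]
  have key : ∀ n, 2 ^ (n + 2) ∣ nr (ρ (fr 3)) + 3 := fun n => by
    have h4 : e (n + 2) 1 + e (n + 2) 1 ≠ 0 := fun e0 => by
      rw [← map_add, h.ker, dv_two_iff] at e0
      have := (BasY.dvd_iff 2 _).2 ((pow_dvd_pow _ (Nat.le_add_left 2 n)).trans e0.1)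
      simp only [QuadraticAlgebra.re_add, QuadraticAlgebra.re_one, map_add, map_one] at this
      exact absurd this (by decide)
    obtain ⟨x, η, hP⟩ := (zero_or_is (e (n + 2) 1)).resolve_left fun e0 => h4 (by simp [e0])
    have t := CB.tors h.toTM0 (n + 2)
    obtain ⟨x₃, η₃, a, b⟩ := fr3 (sp one_ne_zero) h3 (t 1) h4 hP
    have h5 := hP.map (K := Om) (fr 3 * fr 3 : GQ)
    rw [h.gal] at h5
    rw [← map_add, ← map_add] at a
    have h6 := (hf.mul hf).2 x (int_of_tors (sp one_ne_zero) v2 (t 1) hP)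
    rw [e3] at h6
    have h7 := pm_of_x (sp one_ne_zero) v2 v1 h5 a (t _) (t _)
      (by simpa using (pl 3).v.map_add_lt h6 b)
    rw [← map_neg, inj h.toTM0, inj h.toTM0, ac, map_one, mul_one, h1, dv_two_iff,
      dv_two_iff] at h7
    rcases h7 with ⟨k, -⟩ | ⟨k, -⟩
    · refine absurd ((pow_dvd_pow _ (Nat.le_add_left 2 n)).trans ?_) (nr_mod (ρ (fr 3)))
      convert k using 1
      simp [QuadraticAlgebra.re_one]
      norm_num
    · convert k using 1
      simp [QuadraticAlgebra.re_one]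
      norm_num
  exact eq_neg_of_add_eq_zero_left (PadicInt.ext_of_toZModPow.1 fun n => by
    rw [map_zero]
    exact (BasY.dvd_iff n _).2 ((pow_dvd_pow _ (Nat.le_add_right n 2)).trans (key n)))

theorem det {e : ℕ → O →+ Pt (W 1) Om} (h : TM 1 ρ e) (g : GQ) :
    nr (ρ g) * SM.sg (qz (-1) g) = cyc g := by
  obtain ⟨-, c1, -, -, c2, c3, c4, c5⟩ := hA.ec
  have one : ρ 1 = 1 := mul_left_cancel₀ (unit_iff.2 (unit h 1)).ne_zero (by
    simpa [cj_one] using (CB.co h 1 1).symm)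
  have et : qz (-1) tau = 1 :=
    (f2 _).resolve_left fun e => absurd ((qz_tau hA.tau (by norm_num)).1 e) (by norm_num)
  have k : ∀ g, nr (ρ g) * SM.sg (qz (-1) g) * ((cyc g)⁻¹ : Z2ˣ) = 1 ↔
      nr (ρ g) * SM.sg (qz (-1) g) = cyc g := fun g => Units.mul_inv_eq_one
  refine (k g).1 (hom_one (θ := fun g => nr (ρ g) * SM.sg (qz (-1) g) * ((cyc g)⁻¹ : Z2ˣ))
    (fun g k => ?_) (fun n => ?_) (fun g => ?_) (fun w hw g hg => (k g).2 ?_) ((k _).2 ?_)
    ((k _).2 ?_) g)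
  · rw [CB.co h, nr_mul, cj, nr_cs, eps_mul, sg_add, c1, mul_inv, Units.val_mul]
    ring
  · obtain ⟨N, a, b⟩ := sm h one_ne_zero (2 * n)
    obtain ⟨N', a', b'⟩ := c2 n
    obtain ⟨M, c, d⟩ := (isCh_qz (H := ⊤) (-1)).1
    refine ⟨N ⊓ N' ⊓ M, (a.inf a').inf c, fun g hg => ?_⟩
    have h1 := d 1 trivial g trivial hg.2
    obtain ⟨⟨x, hx⟩, y, hy⟩ := dv_two_iff.1 (b g hg.1.1)
    obtain ⟨z, hz⟩ := (b' _).1 (N'.inv_mem hg.1.2)
    have h2 : cyc g⁻¹ = (cyc g)⁻¹ := eq_inv_of_mul_eq_one_left (by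
      rw [← c1, inv_mul_cancel]
      exact mul_left_cancel (a := cyc 1) (by rw [← c1, mul_one, mul_one]))
    rw [one_mul, eps_one] at h1
    rw [h1, BasY.sg_zero, ← h2, sub_eq_iff_eq_add.1 hz, nr]
    simp only [QuadraticAlgebra.re_sub, QuadraticAlgebra.im_sub, QuadraticAlgebra.re_one,
      QuadraticAlgebra.im_one, sub_zero] at hx hy
    rw [sub_eq_iff_eq_add.1 hx, hy]
    exact ⟨z + (2 ^ n * z + 1) * (2 * x + 2 ^ n * (x ^ 2 + y ^ 2)), by ring⟩
  · rw [← BasY.dvd_iff1, map_sub, map_mul, map_mul, rd_nr, unit h, BasY.toZMod_sg,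
      (f2 _).resolve_left ((cyc g)⁻¹.isUnit.map PadicInt.toZMod).ne_zero]
    simp
  · rw [unr h (fun e => hw ((Nat.prime_dvd_prime_iff_eq w.prime Nat.prime_two).1
      (by exact_mod_cast e))) hg, eps_I hw hg, c4 w hw g hg, nr_one, BasY.sg_zero]
    simp
  · have h1 := CB.co h tau tau
    rw [hA.tau.2.1, one, cj, et, cs_one, mul_star_eq] at h1
    have h2 : nr (ρ tau) = 1 := by
      simpa [QuadraticAlgebra.re_one] using congrArg QuadraticAlgebra.re h1.symm
    rw [h2, et, c5]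
    simp [SM.sg, ZMod.val_one]
  · rw [nr_fr h, qz_fr Nat.prime_three (by norm_num), js, if_neg (by norm_num),
      c3 (pl 3) 1 _ (by rw [pl_p Nat.prime_three]; norm_num)
        (fr_frob Nat.prime_three (by norm_num)), pl_p Nat.prime_three]
    simp [SM.sg, ZMod.val_one]

end CD

end Pool.Agent.P.MP_8b7eba_nt.QT
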