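import Pool.Agent.P.MP_8b7eba_nt.QT.BasZ
import Pool.Agent.P.MP_8b7eba_nt.QT.CD
import Pool.Agent.P.MP_8b7eba_nt.QT.IfQ

/-! From the Selmer group to cocycles with values in a lattice. -/

namespace Pool.Agent.P.MP_8b7eba_nt.QT

open R2 SM MP_9c97e9_nt Classical CA CB CC CD

namespace CE

variable {D : ℤ} {ρ : GQ → O} {e : ℕ → O →+ Pt (W D) Om}

theorem mem_tors {P : Pt (W D) Om} : P ∈ tors (W D) ↔ ∃ k : ℕ, 2 ^ k • P = 0 :=
  AddCommMonoid.mem_primaryComponent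

theorem exists_div (hD : D ≠ 0) (k : ℕ) (P : Pt (W D) Om) : ∃ Q, 2 ^ k • Q = P := by
  induction k with
  | zero => exact ⟨P, by simp⟩
  | succ k ih =>
    obtain ⟨Q, rfl⟩ := ih
    obtain ⟨R, rfl⟩ := exists_half (sp hD) Q
    exact ⟨R, by rw [pow_succ, mul_nsmul', two_nsmul]⟩

/-- the coboundary of a point -/
noncomputable def cob (P : Pt (W D) Om) (g : GQ) : Pt (W D) Om := pm (W D) (g : Om →+* Om) P - P

theorem cob_sha (hD : D ≠ 0) (P : Pt (W D) Om) : cob P ∈ shaCocycles (W D) := by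
  have k : ∀ (K : Type) [Field K] [CharZero K], LocTriv (W D) K (cob P) := fun K _ _ =>
    ⟨pm _ (emb ℚ K) P, fun _ _ h => by rw [cob, map_sub, pm_compat h]⟩
  obtain ⟨N, hN, h⟩ := exists_ON hD P
  refine ⟨sm_top_iff.1 ⟨N, hN, fun g _ u _ hu => ?_⟩, fun g u => ?_, k ℝ, fun p _ => k _⟩
  · rw [cob, cob, pm_mul, h u hu]
  · rw [cob, cob, cob, pm_mul, map_sub]
    abel

theorem cob_nsmul (n : ℕ) (P : Pt (W D) Om) (g : GQ) : cob (n • P) g = n • cob P g := by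
  rw [cob, cob, map_nsmul, smul_sub]

theorem mem_sel {c : GQ → Pt (W D) Om} :
    c ∈ selCocycles (W D) ↔ c ∈ shaCocycles (W D) ∧ ∀ g, ∃ k : ℕ, 2 ^ k • c g = 0 :=
  and_congr_right' (forall_congr' fun _ => (forall_true_left _).trans mem_tors)

theorem mk_eq_zero {c : selCocycles (W D)} : (QuotientAddGroup.mk c : Sel (W D)) = 0 ↔
    ∃ T, (∃ k : ℕ, 2 ^ k • T = 0) ∧ ∀ g, cob T g = c.1 g :=
  (QuotientAddGroup.eq_zero_iff _).trans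
    (exists_congr fun _ => and_congr mem_tors funext_iff)

theorem lift (hD : D ≠ 0) {k : ℕ} {s : Sel (W D)} (hs : 2 ^ k • s = 0) :
    ∃ c : selCocycles (W D), QuotientAddGroup.mk c = s ∧ ∀ g, 2 ^ k • c.1 g = 0 := by
  obtain ⟨c, rfl⟩ := QuotientAddGroup.mk_surjective s
  obtain ⟨T, ⟨j, hj⟩, hT⟩ := (mk_eq_zero (c := 2 ^ k • c)).1 hs
  obtain ⟨T, rfl⟩ := exists_div hD k T
  rw [smul_smul, ← pow_add] at hj
  have h1 : cob T ∈ selCocycles (W D) := mem_sel.2 ⟨cob_sha hD T, fun g =>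
    ⟨j + k, by rw [← cob_nsmul, hj, cob, map_zero, sub_zero]⟩⟩
  refine ⟨c - ⟨_, h1⟩, ?_, fun g => ?_⟩
  · exact (QuotientAddGroup.mk_sub ..).trans (sub_eq_self.2
      ((mk_eq_zero (c := ⟨_, h1⟩)).2 ⟨T, ⟨_, hj⟩, fun _ => rfl⟩))
  · change 2 ^ k • (c.1 g - cob T g) = 0
    rw [smul_sub, ← cob_nsmul, hT]
    exact sub_self _

theorem zu [HA] (h : TM D ρ e) {S : Finset ℕ}
    (hS : ∀ w : Pl, ¬ w.p ∣ 30 → w.p ∉ S → ¬ (w.p : ℤ) ∣ 2 * D) {k : ℕ} {c : GQ → Pt (W D) Om}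
    (hc : c ∈ shaCocycles (W D)) (hk : ∀ g, 2 ^ k • c g = 0) :
    ∃ x, Zu ρ S (2 * k) x ∧ ∀ g, e k (x g) = c g := by
  choose x hx using fun g => h.surj k _ (hk g)
  obtain ⟨N, hN, h1⟩ := sm_top_iff.2 hc.1
  refine ⟨x, ⟨⟨⟨N, hN, fun g a u b hu => (inj h.toTM0).1 ?_⟩, fun g _ u _ => ?_⟩,
    fun w a b g hg => (h.ker _ _).1 ?_⟩, hx⟩
  · rw [hx, hx, h1 g a u b hu]
  · rw [sub_sub, ← inj h.toTM0, map_add, ← h.gal, hx, hx, hx, hc.2.1]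
  · rw [hx, selu hc (fun g => ⟨k, hk g⟩) (hS w a b) hg]

theorem two [HA] (hD : D ≠ 0) (h : TM D ρ e) {S : Finset ℕ}
    (hS : ∀ w : Pl, ¬ w.p ∣ 30 → w.p ∉ S → ¬ (w.p : ℤ) ∣ 2 * D) (hb : Big D) : Two ρ S := by
  intro k
  obtain ⟨φ, hφ⟩ := hb k
  have t : ∀ z, 2 ^ k • φ z = 0 := fun z => by
    rw [← map_nsmul, ← Nat.cast_smul_eq_nsmul (ZMod (2 ^ k)), ZMod.natCast_self, zero_smul,
      map_zero]
  obtain ⟨c, c1, c2⟩ := lift hD (t (1, 0))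
  obtain ⟨d, d1, d2⟩ := lift hD (t (0, 1))
  obtain ⟨x, x1, x2⟩ := zu h hS (mem_sel.1 c.2).1 c2
  obtain ⟨y, y1, y2⟩ := zu h hS (mem_sel.1 d.2).1 d2
  refine ⟨x, y, x1, y1, fun a b v hv => ?_⟩
  obtain ⟨m, hm⟩ := exists_nat k a
  obtain ⟨n, hn⟩ := exists_nat k b
  have h1 : φ (m, n) = 0 := by
    rw [show ((m, n) : ZMod (2 ^ k) × ZMod (2 ^ k)) = m • (1, 0) + n • (0, 1) by simp, map_add,
      map_nsmul, map_nsmul, ← c1, ← d1]
    refine (mk_eq_zero (c := m • c + n • d)).2 ⟨e k v, ⟨k, CB.tors h.toTM0 k v⟩, fun g => ?_⟩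
    change _ = m • c.1 g + n • d.1 g
    rw [cob, h.gal, ← map_sub, ← x2, ← y2, ← map_nsmul, ← map_nsmul, ← map_add, inj h.toTM0]
    refine of_eq (((dv_smul hm (x g)).add (dv_smul hn (y g))).sub (hv g)) ?_
    simp only [sub_smul, Nat.cast_smul_eq_nsmul, bd]
    abel
  have h2 := (map_eq_zero_iff φ hφ).1 h1
  have k1 : ∀ {a : Z2} {m : ℕ}, 2 ^ k ∣ a - m → (m : ZMod (2 ^ k)) = 0 → 2 ^ k ∣ a :=
    fun {a m} h1 h2 => by
      rw [← BasY.dvd_iff, map_sub, map_natCast, h2, sub_zero, BasY.dvd_iff] at h1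
      exact h1
  exact ⟨k1 hm (congrArg Prod.fst h2), k1 hn (congrArg Prod.snd h2)⟩

theorem nr_ii (m : ℕ) : nr (ii ^ m) = 1 := by
  induction m with
  | zero => exact nr_one
  | succ m ih => rw [pow_succ, nr_mul, ih]; simp [nr]

theorem not_dvd {S : Finset ℕ} (hS : ∀ p ∈ S, Gp p) {p : ℕ} (hp : p.Prime) (h : p ∉ S) :
    ¬ (p : ℤ) ∣ ∏ q ∈ S, ps q := fun e => by
  obtain ⟨q, a, b⟩ := (Nat.prime_iff_prime_int.1 hp).exists_mem_finset_dvd e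
  rw [Int.natCast_dvd, BasG.abs_ps, Nat.prime_dvd_prime_iff_eq hp (hS q a).1] at b
  exact h (b ▸ a)

end CE

open CE in
theorem t_CURVE [HA] : CURVE := by
  intro D₀ Δ h0 hΔ hp
  obtain ⟨ρ, e, h, hc⟩ := tate (D := 1) one_ne_zero
  have n0 : ∀ S : Finset ℕ, (∀ p ∈ S, Gp p) → ∏ p ∈ S, ps p ≠ 0 := fun S hS =>
    Finset.prod_ne_zero_iff.2 fun p hp => ps_ne (hS p hp)
  have k : ∀ w : Pl, ¬ w.p ∣ 30 → w.p ∉ Δ → ∀ a : ℤ, ¬ (w.p : ℤ) ∣ a →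
      ¬ (w.p : ℤ) ∣ 2 * (D₀ * a) := fun w a b c d e => by
    have q := Nat.prime_iff_prime_int.1 w.prime
    rcases q.dvd_or_dvd e with e | e
    · exact a ((Int.natCast_dvd.1 e).trans (by norm_num))
    · exact (q.dvd_or_dvd e).elim (fun e => (hp _ w.prime e).elim a b) d
  set c := ∏ p ∈ Δ, ps p with hc'
  have c0 : c ≠ 0 := n0 Δ hΔ
  obtain ⟨e₁, h₁⟩ := twist h hc one_ne_zero (mul_ne_zero h0 (pow_ne_zero 3 c0))
    (u := r4 (D₀ * c ^ 3)) (by rw [r4_spec]; simp) (CB.ke_spec (r4_spec _))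
  refine ⟨_, ⟨⟨CB.co h₁, CB.sm h₁ (mul_ne_zero h0 (pow_ne_zero 3 c0)), fun g => ?_⟩,
    fun w a b g hg => unr h₁ (k w a b _ fun e => not_dvd hΔ w.prime b
      ((Nat.prime_iff_prime_int.1 w.prime).dvd_of_dvd_pow e)) hg⟩, fun S hS hd hb => ?_⟩
  · rw [nr_mul, nr_ii, mul_one, det h]
  have c1 : (c : Om) ≠ 0 := Int.cast_ne_zero.2 c0
  obtain ⟨e₂, h₂⟩ := twist h hc one_ne_zero (mul_ne_zero h0 (n0 S hS))
    (u := r4 (D₀ * c ^ 3) * (∏ p ∈ Δ ∪ S, r4 (ps p)) / c)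
    (m := fun g => ke (r4 (D₀ * c ^ 3)) g + ∑ p ∈ Δ ∪ S, (ke (r4 (ps p)) g : ℕ)) (by
      rw [div_pow, mul_pow, r4_spec, ← Finset.prod_pow (Δ ∪ S),
        Finset.prod_congr rfl fun p _ => r4_spec (ps p), Finset.prod_union hd, ← Int.cast_prod,
        ← hc']
      push_cast
      field_simp) fun g => by
      rw [map_div₀, map_mul, map_prod, map_intCast, CB.ke_spec (r4_spec _),
        Finset.prod_congr rfl fun p _ => CB.ke_spec (r4_spec (ps p)) g, Finset.prod_mul_distrib,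
        Finset.prod_pow_eq_pow_sum, pow_add]
      ring
  have h3 := two (mul_ne_zero h0 (n0 S hS)) h₂ (S := Δ ∪ S) (fun w a b =>
    k w a (fun e => b (Finset.mem_union_left _ e)) _
      (not_dvd hS w.prime fun e => b (Finset.mem_union_right _ e))) hb
  convert h3 using 1
  funext g
  simp only [tw, kq, kd, Finset.prod_pow_eq_pow_sum, pow_add, mul_assoc]

end Pool.Agent.P.MP_8b7eba_nt.QT
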