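import Pool.Agent.P.MP_8b7eba_nt.QT.CE
import Pool.Agent.P.MP_8b7eba_nt.DescGen

/-! The theorem of Mordell for `y² = x³ - D x`. -/

namespace Pool.Agent.P.MP_8b7eba_nt.QT

open R2 SM MP_9c97e9_nt Classical CA CB CC CD CE Height

namespace FA

variable {D : ℤ}

theorem exists_cy [HA] (hD : D ≠ 0) : ∃ ρ e, TM D ρ e ∧ Cy ρ := by
  obtain ⟨ρ, e, h, hc⟩ := tate (D := 1) one_ne_zero
  obtain ⟨e₁, h₁⟩ := twist h hc one_ne_zero hD (u := r4 D) (by rw [r4_spec]; simp)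
    (CB.ke_spec (r4_spec _))
  exact ⟨_, e₁, h₁, CB.co h₁, CB.sm h₁ hD, fun g => by rw [nr_mul, nr_ii, mul_one, det h]⟩

theorem fib (hD : D ≠ 0) (x : Om) : {P : Pt (W D) Om | P = 0 ∨ ∃ η, Is P x η}.Finite := by
  have hs := sp hD
  by_cases h : ∃ Q : Pt (W D) Om, ∃ η, Is Q x η
  · obtain ⟨Q, η, hQ⟩ := h
    refine (Set.toFinite {0, Q, -Q}).subset fun P hP => hP.imp_right ?_
    rintro ⟨η', h⟩
    rcases sq_eq_sq_iff_eq_or_eq_neg.1 ((h.eq hs).trans (hQ.eq hs).symm) with rfl | rfl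
    exacts [.inl (h.unique hs hQ), .inr (h.unique hs hQ.neg)]
  · exact (Set.finite_singleton 0).subset fun P hP => hP.resolve_right fun e => h ⟨P, e⟩

theorem finc [HA] (hD : D ≠ 0) :
    {c | c ∈ shaCocycles (W D) ∧ ∀ g, 2 ^ 1 • c g = 0}.Finite := by
  obtain ⟨ρ, e, h, hρ⟩ := exists_cy hD
  obtain ⟨s, hs⟩ := BasH.dual
  let S := D.natAbs.primeFactors.filter fun p => ¬ p ∣ 30
  have hS : ∀ p ∈ S, Gp p := fun p hp =>
    ⟨Nat.prime_of_mem_primeFactors (Finset.mem_filter.1 hp).1, (Finset.mem_filter.1 hp).2⟩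
  have h2 : {T : Pt (W D) Om | 2 ^ 1 • T = 0}.Finite :=
    ((fib hD 0).union ((fib hD (rt D)).union (fib hD (-rt D)))).subset fun T hT => by
      rcases two_torsion (sp hD) (T := T) (by simpa [two_nsmul] using hT) with a | a | a | a
      exacts [.inl (.inl a), .inl (.inr ⟨_, a⟩), .inr (.inl (.inr ⟨_, a⟩)),
        .inr (.inr (.inr ⟨_, a⟩))]
  refine Set.Finite.of_finite_image
    (f := fun c (i : Fin 4 ⊕ S) => c (Sum.elim s (fun p => tp p) i))
    ((Set.Finite.pi' fun _ => h2).subset ?_) ?_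
  · rintro _ ⟨c, hc, rfl⟩ i
    exact hc.2 _
  rintro c ⟨c1, c2⟩ d ⟨d1, d2⟩ e0
  obtain ⟨x, x1, x2⟩ := zu h (S := S) (k := 1) (fun w a b e => by
    rcases (Nat.prime_iff_prime_int.1 w.prime).dvd_or_dvd e with e | e
    · exact a ((Int.natCast_dvd.1 e).trans (by norm_num))
    · exact b (Finset.mem_filter.2 ⟨Nat.mem_primeFactors.2
        ⟨w.prime, Int.natCast_dvd.1 e, Int.natAbs_ne_zero.2 hD⟩, a⟩)) (sub_mem c1 d1)
    fun g => by rw [Pi.sub_apply, smul_sub, c2, d2, sub_zero]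
  funext g
  rw [← sub_eq_zero, ← Pi.sub_apply, ← x2, h.ker]
  refine x1.zn.zero_of hρ
    {g | (∃ i, g = s i) ∨ (∃ p ∈ S, g = tp p) ∨ ∃ w : Pl, ¬ w.p ∣ 30 ∧ w.p ∉ S ∧ g ∈ w.I}
    (fun φ hφ h0 => ?_) ?_ (Subgroup.mem_top g)
  · obtain ⟨c, hc⟩ := chars hS hφ fun w a b g hg => h0 g (Or.inr (Or.inr ⟨w, a, b, hg⟩))
    have k : ∀ g, φ g = ∑ i, qz (bs i) g • c i := fun g => by
      rw [hc, Finset.sum_eq_zero (s := S) fun p hp => by
        rw [h0 _ (Or.inr (Or.inl ⟨p, hp, rfl⟩)), smul_zero], add_zero]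
    have k' : ∀ j, c j = 0 := fun j => by
      have := k (s j)
      rw [h0 _ (Or.inl ⟨j, rfl⟩)] at this
      simpa [hs] using this.symm
    intro g _
    simp [k, k']
  · rintro g (⟨i, rfl⟩ | ⟨p, hp, rfl⟩ | ⟨w, a, b, hg⟩)
    · exact (h.ker _ _).1 ((x2 _).trans (sub_eq_zero.2 (congrFun e0 (.inl i))))
    · exact (h.ker _ _).1 ((x2 _).trans (sub_eq_zero.2 (congrFun e0 (.inr ⟨p, hp⟩))))
    · exact x1.unr w a b g hg

/-- the points which are fixed by the Galois group -/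
noncomputable def Fx (D : ℤ) : AddSubgroup (Pt (W D) Om) where
  carrier := {P | ∀ g : GQ, pm (W D) (g : Om →+* Om) P = P}
  zero_mem' := fun _ => map_zero _
  add_mem' := fun a b g => by rw [map_add, a g, b g]
  neg_mem' := fun a g => by rw [map_neg, a g]

theorem cob_fx {P Q : Pt (W D) Om} : (∀ g, cob P g = cob Q g) ↔ P - Q ∈ Fx D :=
  forall_congr' fun g => by rw [cob, cob, map_sub, sub_eq_sub_iff_sub_eq_sub]

theorem cob_tors {k : ℕ} {P : Pt (W D) Om} (h : k • P ∈ Fx D) (g : GQ) : k • cob P g = 0 := by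
  rw [← cob_nsmul, cob, h g, sub_self]

theorem weak [HA] (hD : D ≠ 0) : (nsmulAddMonoidHom (α := Fx D) 2).range.FiniteIndex := by
  choose f hf using exists_div hD 1
  have := (finc hD).to_subtype
  have : Finite (Fx D ⧸ (nsmulAddMonoidHom (α := Fx D) 2).range) := Finite.of_injective
    (β := {c | c ∈ shaCocycles (W D) ∧ ∀ g, 2 ^ 1 • c g = 0})
    (fun q => ⟨cob (f q.out), cob_sha hD _, cob_tors (by rw [hf]; exact q.out.2)⟩) fun q r e => by
      rw [← q.out_eq', ← r.out_eq', QuotientAddGroup.eq_iff_sub_mem]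
      refine ⟨⟨_, cob_fx.1 (congrFun (congrArg Subtype.val e))⟩, Subtype.ext ?_⟩
      change 2 ^ 1 • (f _ - f _) = _
      rw [smul_sub, hf, hf]
      rfl
  exact AddSubgroup.finiteIndex_of_finite_quotient

theorem hsum (hD : D ≠ 0) : ∃ C : ℝ, (∀ x : ℚ, 4 * logHeight₁ x - C ≤
    logHeight₁ ((x ^ 2 + D) ^ 2 / (4 * (x ^ 3 - D * x)))) ∧ ∀ a b c d : ℚ, a ≠ b →
      (a - b) ^ 2 * (c * d) = (a * b + D) ^ 2 → (a - b) ^ 2 * (c + d) = 2 * (a * b - D) * (a + b) →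
      logHeight₁ c ≤ 2 * logHeight₁ a + (2 * logHeight₁ b + C) := by
  let V : WeierstrassCurve ℚ := ⟨0, 0, 0, -D, 0⟩
  have : V.IsElliptic := ⟨by
    have : V.Δ = 64 * D ^ 3 := by
      simp only [V, WeierstrassCurve.Δ, WeierstrassCurve.b₂, WeierstrassCurve.b₄,
        WeierstrassCurve.b₆, WeierstrassCurve.b₈]
      ring
    rw [this]
    exact Ne.isUnit (by positivity)⟩
  obtain ⟨C₀, hc⟩ := Desc.height_dup V
  obtain ⟨C, hC⟩ := V.abs_logHeight_addSubMap_sub_two_mul_logHeight_le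
  obtain ⟨C₁, h1⟩ := logHeight_sym2_ge ℚ
  obtain ⟨C₂, h2⟩ := logHeight_sym2_le ℚ
  refine ⟨max C₀ (C + 2 * C₂ - C₁), fun x => ?_, fun a b c d h0 e1 e2 => ?_⟩
  · refine (sub_le_sub_left (le_max_left _ _) _).trans ((hc x).trans_eq ?_)
    simp only [V, WeierstrassCurve.b₂, WeierstrassCurve.b₄, WeierstrassCurve.b₆,
      WeierstrassCurve.b₈]
    congr 2 <;> ring
  have h3 := (abs_le.1 (hC ![a * b, a * 1 + 1 * b, 1 * 1])).2
  have e : (fun i => MvPolynomial.eval ![a * b, a * 1 + 1 * b, 1 * 1] (V.addSubMap i)) =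
      (a - b) ^ 2 • ![c * d, c * 1 + 1 * d, 1 * 1] := by
    ext i
    fin_cases i <;> simp [WeierstrassCurve.addSubMap, V, WeierstrassCurve.b₂, WeierstrassCurve.b₄,
      WeierstrassCurve.b₆, WeierstrassCurve.b₈, e1, e2] <;> ring
  rw [e, logHeight_smul_eq_logHeight _ (pow_ne_zero 2 (sub_ne_zero.2 h0))] at h3
  have h4 := h1 (a := c) (b := 1) (c := d) (d := 1) (by simp) (by simp)
  have h5 := h2 a 1 b 1
  simp only [← logHeight₁_eq_logHeight] at h4 h5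
  linarith [zero_le_logHeight₁ d, le_max_right C₀ (C + 2 * C₂ - C₁)]

theorem fg [HA] (hD : D ≠ 0) : AddGroup.FG (Fx D) := by
  have hs := sp hD
  have key : ∀ P : Fx D, ∃ x : ℚ, (P.1 = 0 → x = 0) ∧ ∀ x' η, Is P.1 x' η → x' = x := fun P => by
    rcases zero_or_is P.1 with h | ⟨x, η, hP⟩
    · exact ⟨0, fun _ => rfl, fun x η e => absurd h e.ne_zero⟩
    obtain ⟨a, rfl⟩ := of_fixed (x := x) fun g => by
      have := hP.map (K := Om) g
      rw [P.2 g] at this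
      exact (this.inj hP).1
    exact ⟨a, fun e => absurd e hP.ne_zero, fun _ _ e => (e.inj hP).1⟩
  choose f f0 f1 using key
  obtain ⟨C, c1, c2⟩ := hsum hD
  have : Northcott fun P => logHeight₁ (f P) := ⟨fun B =>
    (NumberField.finite_setOfPred_logHeight₁_le ℚ B).preimage' (f := f) fun x _ =>
      ((fib hD x).preimage Subtype.val_injective.injOn).subset fun P hP =>
        (zero_or_is P.1).imp_right fun ⟨_, η, h⟩ => ⟨η, by rwa [← hP, ← f1 _ _ _ h]⟩⟩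
  have z := fun P => zero_le_logHeight₁ (f P)
  refine AddCommGroup.fg_of_descent (h := fun P => logHeight₁ (f P)) (a := 2) (b := 4) (c₀ := |C|)
    (c := fun Q => |2 * logHeight₁ (f Q) + C| + logHeight₁ (f (-Q)) + logHeight₁ (f (-Q - Q)))
    zero_le_two (by norm_num) (weak hD) (fun Q R => ?_) fun P => ?_
  · obtain ⟨P, rfl⟩ : ∃ P, R = P - Q := ⟨Q + R, by abel⟩
    rw [add_sub_cancel]
    have a0 := abs_nonneg (2 * logHeight₁ (f Q) + C)
    rcases zero_or_is Q.1 with h | ⟨x₂, η₂, hQ⟩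
    · rw [sub_eq_self.2 (show Q = 0 from Subtype.ext h)]
      linarith [z P, z (-Q), z (-Q - Q)]
    rcases zero_or_is P.1 with h | ⟨x₁, η₁, hP⟩
    · rw [show P - Q = -Q by rw [show P = 0 from Subtype.ext h, zero_sub]]
      linarith [z P, z (-Q - Q)]
    by_cases hx : x₁ = x₂
    · subst hx
      rcases sq_eq_sq_iff_eq_or_eq_neg.1 ((hP.eq hs).trans (hQ.eq hs).symm) with rfl | rfl
      · rw [f0 _ (sub_eq_zero.2 (hP.unique hs hQ)), logHeight₁_zero]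
        linarith [z P, z (-Q), z (-Q - Q)]
      · rw [show P - Q = -Q - Q by rw [show P = -Q from Subtype.ext (hP.unique hs hQ.neg)]]
        linarith [z P, z (-Q)]
    have h5 := sub_ne_zero.2 hx
    have e1 := eqn hs hP
    have e2 := eqn hs hQ
    have k : ∀ {Q η₂}, Is Q x₂ η₂ → η₂ ^ 2 = 4 * (x₂ ^ 3 - D * x₂) → ∃ x η, Is (P.1 + Q) x η ∧
        (x₁ - x₂) ^ 2 * x = (x₁ * x₂ - D) * (x₁ + x₂) - η₁ * η₂ / 2 := fun {Q η₂} hQ e2 => by
      obtain ⟨m, hm⟩ : ∃ m, m * (x₁ - x₂) = η₁ - η₂ := ⟨_, div_mul_cancel₀ _ h5⟩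
      exact ⟨m ^ 2 / 4 - x₁ - x₂, _, hP.add_ne hs hQ hx hm (by ring), by
        linear_combination (m * (x₁ - x₂) + η₁ - η₂) / 4 * hm + e1 / 4 + e2 / 4⟩
    obtain ⟨x₃, η₃, a3, b3⟩ := k hQ.neg (by rwa [neg_sq])
    obtain ⟨x₄, η₄, a4, b4⟩ := k hQ e2
    rw [← sub_eq_add_neg] at a3
    obtain rfl := f1 (P - Q) _ _ a3
    obtain rfl := f1 (P + Q) _ _ a4
    obtain rfl := f1 _ _ _ hP
    obtain rfl := f1 _ _ _ hQ
    have := c2 (f P) (f Q) (f (P - Q)) (f (P + Q)) (fun e => hx (by rw [e]))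
      (Rat.cast_injective (α := Om) (by
        push_cast
        exact mul_left_cancel₀ (pow_ne_zero 2 h5) (by
          linear_combination ((f P - f Q : Om) ^ 2 * f (P + Q)) * b3 +
            ((f P * f Q - D) * (f P + f Q) + η₁ * η₂ / 2) * b4 - η₂ ^ 2 / 4 * e1 -
            (f P ^ 3 - D * f P) * e2)))
      (Rat.cast_injective (α := Om) (by push_cast; linear_combination b3 + b4))
    linarith [z (-Q), z (-Q - Q), le_abs_self (2 * logHeight₁ (f Q) + C)]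
  rcases zero_or_is P.1 with h | ⟨x, η, hP⟩
  · rw [f0 P h, logHeight₁_zero]
    linarith [z (2 • P), abs_nonneg C]
  refine (sub_le_sub_left (le_abs_self C) _).trans ((c1 _).trans_eq ?_)
  have e := eqn hs hP
  obtain rfl := f1 _ _ _ hP
  congr 1
  refine Rat.cast_injective (α := Om) ?_
  push_cast
  rw [← e, two_nsmul]
  by_cases h0 : η = 0
  · rw [f0 (P + P) (hP.add_eq_zero hs (by simpa [h0] using hP)), h0]
    simp
  obtain ⟨m, x₃, a, b, -, c⟩ := add_line hs hP hP ((hP.two_ne hs).2 h0)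
  rw [← f1 (P + P) _ _ a, div_eq_iff (pow_ne_zero 2 h0)]
  linear_combination -η ^ 2 / 4 * b + 2 * f P * e -
    (m * (η + η) + 4 * (f P ^ 2 + f P * f P + f P ^ 2 - D)) / 16 * c

end FA

end Pool.Agent.P.MP_8b7eba_nt.QT
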