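import Pool.Agent.P.MP_8b7eba_nt.QT.FA

/-! The rank, the Tate-Shafarevich group and the Selmer group. -/

namespace Pool.Agent.P.MP_8b7eba_nt.QT

open R2 SM MP_9c97e9_nt Classical CB CE FA

namespace FB

variable {D : ℤ}

theorem basis (A : Type) [AddCommGroup A] [AddGroup.FG A] :
    ∃ (ι : Type) (f : ι → A →+ ℤ) (P : ι → A), Cardinal.mk ι = Module.rank ℤ A ∧
      ∀ i j, f i (P j) = if j = i then 1 else 0 := by
  have : Module.Finite ℤ A := Module.Finite.iff_addGroup_fg.2 inferInstance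
  have : Module.Free ℤ (A ⧸ Submodule.torsion ℤ A) := Module.free_of_finite_type_torsion_free'
  let b := Module.Free.chooseBasis ℤ (A ⧸ Submodule.torsion ℤ A)
  choose P hP using fun i => (Submodule.torsion ℤ A).mkQ_surjective (b i)
  refine ⟨_, fun i => ((b.coord i).comp (Submodule.torsion ℤ A).mkQ).toAddMonoidHom, P,
    b.mk_eq_rank''.trans (rank_quotient_eq_of_le_torsion le_rfl), fun i j => ?_⟩
  change b.coord i ((Submodule.torsion ℤ A).mkQ (P j)) = _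
  simp [hP, Finsupp.single_apply]

theorem ord {B : Type} [AddCommGroup B] (h : {s : B | 2 ^ 1 • s = 0}.Finite)
    [Infinite (AddCommGroup.primaryComponent B 2)] (k : ℕ) :
    ∃ s : B, ∀ b : ℕ, b • s = 0 ↔ 2 ^ k ∣ b := by
  have h1 : ∀ k, {s : B | 2 ^ k • s = 0}.Finite := fun k => by
    induction k with
    | zero => simp
    | succ k ih =>
      refine (ih.preimage' (f := fun s => 2 ^ 1 • s) fun t _ => ?_).subset fun s hs => by
        rwa [Set.mem_ofPred_eq, pow_add, mul_smul] at hs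
      rcases (_ ⁻¹' {t}).eq_empty_or_nonempty with e | ⟨u, hu⟩
      · exact e ▸ Set.finite_empty
      exact (h.image (· + u)).subset fun s hs =>
        ⟨s - u, (smul_sub ..).trans (sub_eq_zero.2 (Eq.trans hs hu.symm)), sub_add_cancel _ _⟩
  obtain ⟨s, hs, h2⟩ := (Set.infinite_coe_iff.1 ‹_›).exists_notMem_finite (h1 k)
  obtain ⟨j, hj⟩ := AddCommMonoid.mem_primaryComponent.1 hs
  obtain ⟨m, -, hm⟩ := (Nat.dvd_prime_pow Nat.prime_two).1 (addOrderOf_dvd_of_nsmul_eq_zero hj)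
  obtain ⟨m, rfl⟩ := Nat.exists_eq_add_of_le' (le_of_not_ge fun e : m ≤ k =>
    h2 (addOrderOf_dvd_iff_nsmul_eq_zero.1 (hm ▸ pow_dvd_pow 2 e)))
  refine ⟨2 ^ m • s, fun b => ?_⟩
  rw [smul_smul, ← addOrderOf_dvd_iff_nsmul_eq_zero, hm, pow_add, mul_comm b,
    Nat.mul_dvd_mul_iff_left (by positivity)]

/-- the map from the Selmer group to the Tate-Shafarevich group -/
noncomputable def pr (D : ℤ) : Sel (W D) →+ Sha (W D) :=
  QuotientAddGroup.map _ _ (AddSubgroup.inclusion inf_le_left) fun _ ⟨T, _, h⟩ => ⟨T, h⟩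

theorem lift_sha (hD : D ≠ 0) {k : ℕ} {s : Sha (W D)} (hs : 2 ^ k • s = 0) :
    ∃ c : shaCocycles (W D), QuotientAddGroup.mk c = s ∧ ∀ g, 2 ^ k • c.1 g = 0 := by
  obtain ⟨c, rfl⟩ := QuotientAddGroup.mk_surjective s
  obtain ⟨T, hT⟩ := (QuotientAddGroup.eq_zero_iff (2 ^ k • c)).1 hs
  obtain ⟨T, rfl⟩ := exists_div hD k T
  refine ⟨c - ⟨_, cob_sha hD T⟩, ?_, fun g => ?_⟩
  · exact (QuotientAddGroup.mk_sub ..).trans (sub_eq_self.2
      ((QuotientAddGroup.eq_zero_iff _).2 ⟨T, rfl⟩))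
  · change 2 ^ k • (c.1 g - cob T g) = 0
    rw [smul_sub, ← cob_nsmul]
    exact sub_eq_zero.2 (congrFun hT g).symm

theorem lift_sel (hD : D ≠ 0) {k : ℕ} {s : Sha (W D)} (hs : 2 ^ k • s = 0) :
    ∃ t, pr D t = s ∧ 2 ^ k • t = 0 := by
  obtain ⟨c, rfl, h⟩ := lift_sha hD hs
  refine ⟨QuotientAddGroup.mk ⟨c, mem_sel.2 ⟨c.2, fun g => ⟨k, h g⟩⟩⟩, rfl,
    (mk_eq_zero (c := 2 ^ k • _)).2 ⟨0, ⟨0, smul_zero _⟩, fun g => ?_⟩⟩
  exact (sub_eq_zero.2 (map_zero _)).trans (h g).symm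

theorem kum (hD : D ≠ 0) (k : ℕ) : ∃ κ : Fx D →+ Sel (W D), ∀ P, 2 ^ k • κ P = 0 ∧
    pr D (κ P) = 0 ∧ (κ P = 0 → ∀ f : Fx D →+ ℤ, 2 ^ k ∣ f P) := by
  choose q hq using exists_div hD k
  have h1 : ∀ (P : Fx D) g, 2 ^ k • cob (q P) g = 0 := fun P => cob_tors (by rw [hq]; exact P.2)
  let c : Fx D → selCocycles (W D) := fun P =>
    ⟨cob (q P), mem_sel.2 ⟨cob_sha hD _, fun g => ⟨k, h1 P g⟩⟩⟩
  refine ⟨AddMonoidHom.mk' (fun P => QuotientAddGroup.mk (c P)) fun P Q => sub_eq_zero.1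
    ((mk_eq_zero (c := c (P + Q) - (c P + c Q))).2 ⟨q (P + Q) - (q P + q Q), ⟨k, ?_⟩, fun g => ?_⟩),
    fun P => ⟨(mk_eq_zero (c := 2 ^ k • c P)).2 ⟨0, ⟨0, smul_zero _⟩, fun g => ?_⟩,
      (QuotientAddGroup.eq_zero_iff _).2 ⟨q P, rfl⟩, fun h f => ?_⟩⟩
  · rw [smul_sub, smul_add, hq, hq, hq, sub_self]
  · change _ = cob (q (P + Q)) g - (cob (q P) g + cob (q Q) g)
    simp only [cob, map_sub, map_add]
    abel
  · exact (sub_eq_zero.2 (map_zero _)).trans (h1 P g).symm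
  obtain ⟨T, ⟨j, hj⟩, hT⟩ := (mk_eq_zero (c := c P)).1 h
  have h2 : 2 ^ j • (P + 2 ^ k • ⟨_, cob_fx.1 hT⟩) = 0 := Subtype.ext (by
    change 2 ^ j • (P.1 + 2 ^ k • (T - q P)) = 0
    rw [smul_sub, hq, add_sub_cancel, smul_comm, hj, smul_zero])
  have h3 := congrArg f h2
  rw [map_nsmul, map_add, map_nsmul, map_zero, smul_eq_zero_iff_right (by positivity)] at h3
  exact ⟨-_, by simpa using eq_neg_of_add_eq_zero_left h3⟩

theorem big_of (h : ∀ k : ℕ, ∃ s t : Sel (W D), 2 ^ k • s = 0 ∧ 2 ^ k • t = 0 ∧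
    ∀ a b : ℕ, a • s + b • t = 0 → 2 ^ k ∣ a ∧ 2 ^ k ∣ b) : Big D := fun k => by
  obtain ⟨s, t, h1, h2, h3⟩ := h k
  obtain ⟨φ, rfl, rfl⟩ := exists_hom h1 h2
  refine ⟨φ, (injective_iff_map_eq_zero _).2 fun z hz => ?_⟩
  obtain ⟨a, b⟩ := h3 z.1.val z.2.val (by
    rw [← map_nsmul, ← map_nsmul, ← map_add, ← hz]
    simp)
  rw [← ZMod.natCast_eq_zero_iff, ZMod.natCast_zmod_val] at a b
  exact Prod.ext a b

theorem rank_eq (D : ℤ) : Module.rank ℤ (Pt (W D) ℚ) = Module.rank ℤ (Fx D) := by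
  rw [show instDecidableEqRat = fun a b => propDecidable (a = b) from Subsingleton.elim _ _]
  have k : ∀ P, pm (W D) (algebraMap ℚ Om) P ∈ Fx D := fun P g => by
    rw [pm_pm, Subsingleton.elim (RingHom.comp _ _) (algebraMap ℚ Om)]
  let : DecidableEq ℚ := fun a b => propDecidable (a = b)
  refine (AddEquiv.ofBijective ((pm (W D) (algebraMap ℚ Om)).codRestrict (Fx D) k)
    ⟨fun P Q h => pm_injective _ (congrArg Subtype.val h), ?_⟩).toIntLinearEquiv.rank_eq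
  rintro ⟨_ | ⟨x, y, h⟩, hP⟩
  · exact ⟨0, rfl⟩
  obtain ⟨a, rfl⟩ := of_fixed (x := x) fun g => (WeierstrassCurve.Affine.Point.some.inj (hP g)).1
  obtain ⟨b, rfl⟩ := of_fixed (x := y) fun g => (WeierstrassCurve.Affine.Point.some.inj (hP g)).2
  exact ⟨.some a b ((WeierstrassCurve.Affine.baseChange_nonsingular _
    (f := (algebraMap ℚ Om).toIntAlgHom) (algebraMap ℚ Om).injective a b).1 h), rfl⟩

end FB

open FB in
theorem big_of_not [HA] {D : ℤ} (hD : D ≠ 0)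
    (h0 : Module.rank ℤ (Pt (W D) ℚ) = 0 →
      ∀ k : ℕ, ∃ φ : ZMod (2 ^ k) × ZMod (2 ^ k) →+ Sha (W D), Function.Injective φ)
    (h1 : Module.rank ℤ (Pt (W D) ℚ) = 1 →
      Infinite (AddCommGroup.primaryComponent (Sha (W D)) 2)) : Big D := by
  have := fg hD
  obtain ⟨ι, f, P, h2, h3⟩ := basis (Fx D)
  rw [rank_eq, ← h2] at h0 h1
  refine big_of fun k => ?_
  obtain ⟨κ, hκ⟩ := kum hD k
  rcases isEmpty_or_nonempty ι with e | ⟨⟨i⟩⟩
  · obtain ⟨φ, hφ⟩ := h0 (Cardinal.mk_eq_zero ι) k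
    have t : ∀ z, 2 ^ k • φ z = 0 := fun z => by
      rw [← map_nsmul, ← Nat.cast_smul_eq_nsmul (ZMod (2 ^ k)), ZMod.natCast_self, zero_smul,
        map_zero]
    obtain ⟨s, s1, s2⟩ := lift_sel hD (t (1, 0))
    obtain ⟨t, t1, t2⟩ := lift_sel hD (t (0, 1))
    refine ⟨s, t, s2, t2, fun a b e => ?_⟩
    have h4 := congrArg (pr D) e
    rw [map_add, map_nsmul, map_nsmul, s1, t1, ← map_nsmul, ← map_nsmul, ← map_add, map_zero,
      map_eq_zero_iff φ hφ] at h4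
    simpa [ZMod.natCast_eq_zero_iff] using h4
  rcases subsingleton_or_nontrivial ι with e | ⟨i, j, e⟩
  · have := h1 (Cardinal.eq_one_iff_unique.2 ⟨e, ⟨i⟩⟩)
    obtain ⟨s, hs⟩ := ord (B := Sha (W D)) (((finc hD).preimage Subtype.val_injective.injOn).image
      QuotientAddGroup.mk |>.subset fun s hs => by
        obtain ⟨c, a, b⟩ := lift_sha hD hs
        exact ⟨c, ⟨c.2, b⟩, a⟩) k
    obtain ⟨t, t1, t2⟩ := lift_sel hD ((hs _).2 dvd_rfl)
    refine ⟨κ (P i), t, (hκ _).1, t2, fun a b e => ?_⟩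
    have h4 := congrArg (pr D) e
    rw [map_add, map_nsmul, map_nsmul, (hκ _).2.1, t1, smul_zero, zero_add, map_zero, hs] at h4
    obtain ⟨c, rfl⟩ := h4
    rw [mul_comm, mul_smul, t2, smul_zero, add_zero, ← map_nsmul] at e
    exact ⟨by exact_mod_cast (by simpa [h3] using (hκ _).2.2 e (f i) : (2 : ℤ) ^ k ∣ a),
      dvd_mul_right _ _⟩
  refine ⟨κ (P i), κ (P j), (hκ _).1, (hκ _).1, fun a b e' => ?_⟩
  rw [← map_nsmul, ← map_nsmul, ← map_add] at e'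
  exact ⟨by exact_mod_cast (by simpa [h3, e.symm] using (hκ _).2.2 e' (f i) : (2 : ℤ) ^ k ∣ a),
    by exact_mod_cast (by simpa [h3, e] using (hκ _).2.2 e' (f j) : (2 : ℤ) ^ k ∣ b)⟩

end Pool.Agent.P.MP_8b7eba_nt.QT
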