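import Pool.Agent.P.MP_8b7eba_nt.QT.FB

/-! The density over all quartic twists. -/

namespace Pool.Agent.P.MP_8b7eba_nt.QT

open Finset R2 SM Classical Filter Topology

namespace FC

theorem abs_prod (S : Finset ℕ) : (∏ p ∈ S, ps p).natAbs = ∏ p ∈ S, p :=
  (map_prod Int.natAbsHom _ _).trans (prod_congr rfl fun p _ => BasG.abs_ps p)

theorem decomp {D : ℤ} (hD : D ≠ 0) {y : ℕ} (h : ∀ d, d ^ 2 ∣ D.natAbs → d ≤ y) :
    ∃ (D₀ : ℤ) (S : Finset ℕ), D₀.natAbs ≤ 30 * y ^ 3 ∧ (∀ p ∈ S, Gp p ∧ ¬ p ∣ D₀.natAbs) ∧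
      D = D₀ * ∏ p ∈ S, ps p := by
  obtain ⟨b, a, e, hb⟩ := Nat.sq_mul_squarefree D.natAbs
  have ha := h a ⟨b, e.symm⟩
  have a0 : 0 < a := Nat.pos_of_ne_zero fun e0 => hD (by simpa [e0] using e.symm)
  have h1 := prod_filter_mul_prod_filter_not b.primeFactors (· ∣ 30 * a) fun p => p
  rw [Nat.prod_primeFactors_of_squarefree hb] at h1
  have h2 : ∏ p ∈ b.primeFactors with p ∣ 30 * a, p ∣ 30 * a :=
    Finset.prod_primes_dvd _ (fun p hp => (Nat.prime_of_mem_primeFactors (mem_filter.1 hp).1).prime)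
      fun p hp => (mem_filter.1 hp).2
  set S := b.primeFactors.filter fun p => ¬ p ∣ 30 * a
  generalize ∏ p ∈ b.primeFactors with p ∣ 30 * a, p = c at h1 h2
  rw [← h1, ← mul_assoc, ← abs_prod] at e
  obtain ⟨D₀, rfl⟩ := Int.natAbs_dvd_natAbs.1 (Dvd.intro_left _ e)
  rw [Int.natAbs_mul, mul_comm, Nat.mul_right_inj (Int.natAbs_ne_zero.2 (left_ne_zero_of_mul hD))]
    at e
  refine ⟨D₀, S, ?_, fun p hp => ?_, mul_comm _ _⟩
  · rw [← e]
    calc a ^ 2 * c ≤ y ^ 2 * (30 * y) := Nat.mul_le_mul (Nat.pow_le_pow_left ha 2)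
          ((Nat.le_of_dvd (by omega) h2).trans (by omega))
      _ = _ := by ring
  obtain ⟨h3, h4⟩ := mem_filter.1 hp
  have h5 := Nat.prime_of_mem_primeFactors h3
  refine ⟨⟨h5, fun e => h4 (e.mul_right _)⟩, fun h6 => h4 ?_⟩
  rw [← e] at h6
  exact ((Nat.Prime.dvd_mul h5).1 h6).elim (fun e => (h5.dvd_of_dvd_pow e).mul_left _)
    fun e => e.trans h2

theorem sqs (X y : ℕ) :
    (((Ioc 0 X).filter fun m => ∃ d, y < d ∧ d ^ 2 ∣ m).card : ℝ) ≤ X * (2 / (y + 1)) := by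
  have h1 : ((Ioc 0 X).filter fun m => ∃ d, y < d ∧ d ^ 2 ∣ m) ⊆
      (Ioo y (X + 1)).biUnion fun d => (Ioc 0 X).filter fun m => d ^ 2 ∣ m := fun m hm => by
    obtain ⟨a, d, b, c⟩ := mem_filter.1 hm
    have := (Nat.le_self_pow two_ne_zero d).trans (Nat.le_of_dvd (mem_Ioc.1 a).1 c)
    exact mem_biUnion.2 ⟨d, mem_Ioo.2 ⟨b, by have := (mem_Ioc.1 a).2; omega⟩, mem_filter.2 ⟨a, c⟩⟩
  refine (Nat.cast_le.2 ((card_le_card h1).trans card_biUnion_le)).trans ?_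
  refine le_trans ?_ (mul_le_mul_of_nonneg_left (sum_Ioo_inv_sq_le y (X + 1)) X.cast_nonneg)
  rw [Nat.cast_sum, mul_sum]
  refine sum_le_sum fun d _ => ?_
  rw [Nat.Ioc_filter_dvd_card_eq_div, ← div_eq_mul_inv, ← Nat.cast_pow]
  exact Nat.cast_div_le

theorem rare (hC : CURVE) (hQ : DENSQ) {ε : ℝ} (hε : 0 < ε) :
    ∀ᶠ X : ℕ in atTop, ((((Icc (-X : ℤ) X).erase 0).filter Big).card : ℝ) ≤ ε * X := by
  obtain ⟨y, hy⟩ := exists_nat_gt (8 / ε)
  let Δ : ℤ → Finset ℕ := fun D => D.natAbs.primeFactors.filter fun p => ¬ p ∣ 30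
  have hΔ : ∀ D, ∀ p ∈ Δ D, Gp p := fun D p hp =>
    ⟨Nat.prime_of_mem_primeFactors (mem_filter.1 hp).1, (mem_filter.1 hp).2⟩
  choose! r r1 r2 using fun D hD => hC D (Δ D) hD (hΔ D) fun p hp e => or_iff_not_imp_left.2
    fun a => mem_filter.2 ⟨Nat.mem_primeFactors.2 ⟨hp, Int.natCast_dvd.1 e,
      Int.natAbs_ne_zero.2 hD⟩, a⟩
  let T := (Icc (-(30 * y ^ 3 : ℕ) : ℤ) (30 * y ^ 3 : ℕ)).erase 0
  have hT : (0 : ℝ) < T.card + 1 := by positivity
  filter_upwards [T.eventually_all.2 fun D hD => eventually_atTop.2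
    (hQ _ _ (r1 D (ne_of_mem_erase hD)) _ (div_pos (half_pos hε) hT))] with X hX
  let N := (Ioc 0 X).filter fun m => ∃ d, y < d ∧ d ^ 2 ∣ m
  have h1 : ((Icc (-X : ℤ) X).erase 0).filter Big ⊆ (N.image (↑) ∪ N.image fun m : ℕ => -(m : ℤ)) ∪
      T.biUnion fun D => ((Icc 1 X).filter fun n => Squarefree n ∧ n.Coprime 30 ∧
        Δ D ⊆ n.primeFactors ∧ Two (tw (r D) n.primeFactors) n.primeFactors).image
          fun n => D * ∏ p ∈ n.primeFactors \ Δ D, ps p := fun D hD => by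
    obtain ⟨a, hb⟩ := mem_filter.1 hD
    obtain ⟨h0, a⟩ := mem_erase.1 a
    have a1 : D.natAbs ≤ X := by
      rw [mem_Icc] at a
      omega
    by_cases h : ∃ d, y < d ∧ d ^ 2 ∣ D.natAbs
    · have h2 : D.natAbs ∈ N := mem_filter.2 ⟨mem_Ioc.2 ⟨Int.natAbs_pos.2 h0, a1⟩, h⟩
      exact mem_union_left _ (mem_union.2 ((Int.natAbs_eq D).imp
        (fun e => mem_image.2 ⟨_, h2, e.symm⟩) fun e => mem_image.2 ⟨_, h2, e.symm⟩))
    obtain ⟨D₀, S, b, c, rfl⟩ := decomp h0 (y := y) fun d e => not_lt.1 fun f => h ⟨d, f, e⟩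
    have h3 := left_ne_zero_of_mul h0
    have h4 : Disjoint (Δ D₀) S := disjoint_left.2 fun p e f =>
      (c p f).2 (Nat.dvd_of_mem_primeFactors (mem_filter.1 e).1)
    have h5 : ∀ p ∈ Δ D₀ ∪ S, Gp p := fun p e => (mem_union.1 e).elim (hΔ _ p) fun f => (c p f).1
    have h6 := Nat.primeFactors_prod fun p e => (h5 p e).1
    refine mem_union_right _ (mem_biUnion.2 ⟨D₀, mem_erase.2 ⟨h3, mem_Icc.2 (by omega)⟩,
      mem_image.2 ⟨∏ p ∈ Δ D₀ ∪ S, p, mem_filter.2 ⟨mem_Icc.2 ⟨prod_pos fun p e => (h5 p e).1.pos,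
        le_trans (Nat.le_of_dvd (Int.natAbs_pos.2 h0) ?_) a1⟩, ?_, ?_, ?_, ?_⟩, ?_⟩⟩)
    · rw [Int.natAbs_mul, abs_prod, prod_union h4]
      exact mul_dvd_mul_right ((prod_dvd_prod_of_subset _ _ _ (filter_subset _ _)).trans
        (Nat.prod_primeFactors_dvd _)) _
    · exact Finset.squarefree_prod_of_pairwise_isCoprime (fun p a q b e =>
        Nat.coprime_iff_isRelPrime.1 ((Nat.coprime_primes (h5 p a).1 (h5 q b).1).2 e))
        fun p e => (h5 p e).1.squarefree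
    · exact Nat.Coprime.prod_left fun p e => (h5 p e).1.coprime_iff_not_dvd.2 (h5 p e).2
    · rw [h6]
      exact subset_union_left
    · rw [h6]
      exact r2 D₀ h3 S (fun p e => (c p e).1) h4 hb
    · rw [h6, union_sdiff_cancel_left h4]
  refine (Nat.cast_le.2 ((card_le_card h1).trans ((card_union_le _ _).trans (add_le_add
    ((card_union_le _ _).trans (add_le_add card_image_le card_image_le))
    (card_biUnion_le.trans (sum_le_sum fun _ _ => card_image_le)))))).trans ?_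
  have h2 : (N.card : ℝ) ≤ X * (ε / 4) := (sqs X y).trans (mul_le_mul_of_nonneg_left (by
    rw [div_lt_iff₀ hε] at hy
    rw [div_le_iff₀ (by positivity)]
    linarith) X.cast_nonneg)
  have h3 := sum_le_card_nsmul _ _ _ hX
  rw [nsmul_eq_mul] at h3
  have h4 : T.card * (ε / 2 / (T.card + 1) * X) ≤ ε / 2 * X := by
    rw [← mul_assoc, ← mul_div_assoc]
    exact mul_le_mul_of_nonneg_right ((div_le_iff₀ hT).2 (by linarith)) X.cast_nonneg
  push_cast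
  linarith

end FC

theorem dens_all (hC : CURVE) (hQ : DENSQ) (G : ℤ → Prop) (h : ∀ D, D ≠ 0 → ¬ G D → Big D) :
    Tendsto (fun X : ℕ => ({D : ℤ | |D| ≤ X ∧ D ≠ 0 ∧ G D}.ncard / (2 * X) : ℝ)) atTop (𝓝 1) := by
  refine Metric.tendsto_nhds.2 fun ε hε => ?_
  filter_upwards [FC.rare hC hQ hε, eventually_gt_atTop 0] with X h1 h0
  have h2 := card_filter_add_card_filter_not (s := (Icc (-X : ℤ) X).erase 0) G
  have h3 := card_le_card (s := ((Icc (-X : ℤ) X).erase 0).filter fun D => ¬ G D)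
    (t := ((Icc (-X : ℤ) X).erase 0).filter Big) fun D hD => mem_filter.2 ⟨(mem_filter.1 hD).1,
      h D (ne_of_mem_erase (mem_filter.1 hD).1) (mem_filter.1 hD).2⟩
  rw [card_erase_of_mem (by simp), Int.card_Icc, show (X + 1 - -X : ℤ).toNat - 1 = 2 * X by omega]
    at h2
  rw [show {D : ℤ | |D| ≤ X ∧ D ≠ 0 ∧ G D} = ↑(((Icc (-X : ℤ) X).erase 0).filter G) by
    ext D
    simp [abs_le, and_assoc, and_left_comm], Set.ncard_coe_finset, Real.dist_eq]
  have h4 : (0 : ℝ) < X := Nat.cast_pos.2 h0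
  have h5 := congrArg (Nat.cast (R := ℝ)) h2
  have h6 := (Nat.cast_le (α := ℝ)).2 h3
  push_cast at h5
  rw [div_sub_one (by positivity), abs_div, div_lt_iff₀ (by positivity), ← h5, sub_add_cancel_left,
    abs_neg, Nat.abs_cast, h5, abs_of_pos (by positivity)]
  nlinarith

end Pool.Agent.P.MP_8b7eba_nt.QT
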