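import Pool.Agent.P.MP_8b7eba_nt.QT.IfQ

/-! The inner blocks of the project QT. -/

namespace Pool.Agent.P.MP_8b7eba_nt.QT

open Finset R2 SM

open Classical in
/-- the local inequality -/
def STP1Q : Prop :=
  ∀ (k s : ℕ) (ε : ℝ), 2 ≤ k → 0 < ε → ∃ M₀ : ℕ, ∀ M, M₀ ≤ M → ∀ 𝒯 : Stq k s,
    Par k (𝒯.t true) (𝒯.t false) → ∀ p ∈ 𝒯.B.pts,
    ∀ θ : (Fin k → Fin (M + 1) → ℕ) → ℕ → Mu k M → GQ → F2,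
    ∀ q ∈ grids M 𝒯.X, 𝒯.Ok p θ q → Q4 q (𝒯.P p) →
    ∃ B : Finset (Gf k M → F2), (B.card : ℝ) ≤ ε * Fintype.card (Gf k M → F2) ∧
      ∀ y ∈ 𝒯.Y, ∀ G, G ∉ B → tyf (𝒯.cp p) (fun u w μ y => θ u w μ (fr y)) q y = some G →
        ((univ.filter fun π => 𝒯.W (k + 1) (asm 𝒯.e p (gp q π) y)).card : ℝ) ≤
          (univ.filter fun π => 𝒯.W k (asm 𝒯.e p (gp q π) y)).card / 2 +
            ε * (M + 1) ^ Fintype.card (Option (Fin k))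

open Classical in
/-- iteration -/
def BX1Q : Prop :=
  ∀ (K s : ℕ) (ε : ℝ), 0 < ε → ∃ A : ℕ, ∀ (𝒯 : Stq (2 * K + 1) s) (T y₀ y₁ : ℕ),
    𝒯.Num A T y₀ y₁ → ((𝒯.B.pts.filter (𝒯.W (2 * K + 2))).card : ℝ) ≤
      ((2 ^ K)⁻¹ + ε) * (𝒯.B.pts.filter fun p => Leg p = 𝒯.a).card + 2 / T * 𝒯.B.pts.card

end Pool.Agent.P.MP_8b7eba_nt.QT
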