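import Pool.Agent.P.MP_8b7eba_nt.QT.BasL
import Pool.Agent.P.MP_8b7eba_nt.SM.BasP

/-! The model of the relaxed Selmer groups of the first level. -/

namespace Pool.Agent.P.MP_8b7eba_nt.QT

open Finset R2 SM

/-- the projection to the second coordinate -/
def pL : V1 →ₗ[F2] V1 := ⟨⟨fun v => ![0, v 1], by decide⟩, by decide⟩

/-- the coordinate as an additive map -/
def coH (a : Bool) : V1 →+ F2 := ⟨⟨co a, by revert a; decide⟩, by revert a; decide⟩

/-- the vector as an additive map -/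
def evH (a : Bool) : F2 →+ V1 := ⟨⟨ev a, by revert a; decide⟩, by revert a; decide⟩

/-- pairs of characters of the two types -/
structure SeV (Δ : Finset ℕ) (c : GQ → F2) (S : Finset ℕ) (χ : X2) : Prop where
  ch : IsCh ⊤ χ
  unr : ∀ w : Pl, ¬ w.p ∣ 30 → w.p ∉ S → ∀ g ∈ w.I, χ g = 0
  loc : ∀ p ∈ S, p ∉ Δ →
    χ (fr p) = (c (fr p) + chi S (fr p)) • χ (tp p) + qz (-1) (fr p) • pL (χ (tp p))

/-- characters which are unramified outside `30 Δ` -/
structure Uc (Δ : Finset ℕ) (c : GQ → F2) : Prop where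
  ch : IsCh ⊤ c
  unr : ∀ w : Pl, ¬ w.p ∣ 30 → w.p ∉ Δ → ∀ g ∈ w.I, c g = 0

/-- a family of models, indexed by the values at the bad primes -/
structure IsMq (Δ : Finset ℕ) (c : GQ → F2) (B : Box) (i₀ : Fin B.r)
    (m : (Δ → FF) → Mod (Fin B.r) B.S) (w : Fin B.r → Fin B.r → F2) : Prop where
  κ : ∀ v i, ∀ p ∈ B.X i, ∀ b, (m v).κ i b = js (smz B.S b) p
  C : ∀ v u, (m v).C 0 u = (pL u.1, pL u.2)
  sol : ∀ p ∈ B.pts, ∀ a R, (∃ v, (m v).Sol i₀ (Leg p + w) a R) ↔ R i₀ = 0 ∧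
    SeV Δ c (B.set p) (pat (sp B.S fun b => (a b).1) (fun i => (R i).1) p) ∧
    SeV Δ c (B.set p) (pat (sp B.S fun b => (a b).2) (fun i => (R i).2) p)

variable {Δ S : Finset ℕ} {c φ : GQ → F2} {χ χ' : X2} {B : Box} {p : Fin B.r → ℕ}

theorem co_ev : ∀ (a : Bool) (s : F2), co a (ev a s) = s := by decide

theorem co_zero : ∀ a : Bool, co a 0 = 0 := by decide

theorem ev_zero : ∀ a : Bool, ev a 0 = 0 := by decide

theorem SeV.add (h : SeV Δ c S χ) (h' : SeV Δ c S χ') : SeV Δ c S fun g => χ g + χ' g := by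
  refine ⟨h.ch.add h'.ch, fun w a b g hg => ?_, fun p hp hΔ => ?_⟩
  · rw [h.unr w a b g hg, h'.unr w a b g hg, add_zero]
  · rw [h.loc p hp hΔ, h'.loc p hp hΔ, map_add, smul_add, smul_add]
    abel

theorem SeV.co (h : SeV Δ c S χ) (a : Bool) :
    Se1 Δ (c + bt a • qz (-1)) S fun g => co a (χ g) := by
  have e : ∀ (a : Bool) (s t u : F2) (y : V1),
      QT.co a ((s + t) • y + u • pL y) = (s + bt a * u + t) * QT.co a y := by decide
  exact ⟨h.ch.map (coH a), fun w h1 h2 g hg => by rw [h.unr w h1 h2 g hg, co_zero],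
    fun p hp hΔ => by rw [h.loc p hp hΔ, e]; rfl⟩

theorem Se1.ev {a : Bool} (h : Se1 Δ (c + bt a • qz (-1)) S φ) :
    SeV Δ c S fun g => ev a (φ g) := by
  have e : ∀ (a : Bool) (s t u y : F2),
      QT.ev a ((s + bt a * u + t) * y) = (s + t) • QT.ev a y + u • pL (QT.ev a y) := by decide
  exact ⟨h.ch.map (evH a), fun w h1 h2 g hg => by rw [h.unr w h1 h2 g hg, ev_zero],
    fun p hp hΔ => by rw [h.loc p hp hΔ]; exact e ..⟩

theorem co_pat {n : ℕ} (a : Bool) (χ : X2) (R : Fin n → V1) (p : Fin n → ℕ) :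
    pat1 (fun g => co a (χ g)) (fun i => co a (R i)) p = fun g => co a (pat χ R p g) := by
  have e : ∀ (a : Bool) (s : F2) (y : V1), co a (s • y) = s * co a y := by decide
  funext g
  change _ = coH a _
  rw [pat, map_add, map_sum, pat1]
  exact congrArg _ (sum_congr rfl fun i _ => (e ..).symm)

variable [HA]

theorem pat_rep (hp : p ∈ B.pts) (h : IsCh ⊤ χ)
    (hu : ∀ w : Pl, ¬ w.p ∣ 30 → w.p ∉ B.set p → ∀ g ∈ w.I, χ g = 0) :
    ∃ a, χ = pat (sp B.S a) (fun i => χ (tp (p i))) p := by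
  obtain ⟨c, hc⟩ := chars (Box.set_gp hp) h hu
  refine ⟨Sum.elim (fun i => c i + if i = 0 then ∑ q : B.S, js (-1) q • χ (tp q) else 0)
    fun q => χ (tp q), funext fun g => ?_⟩
  have e : ∀ q : B.S, qs q g = qz q g + js (-1) q * qz (-1) g := fun q => by
    rw [qs_eq (B.gS q q.2).ne.2.2.2.2.1]
    rfl
  rw [hc g, Box.sum_set hp fun q => qs q g • χ (tp q), pat, sp, Fintype.sum_sum_type]
  simp only [e, smz, Sum.elim_inl, Sum.elim_inr, smul_add, add_smul, sum_add_distrib, smul_ite,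
    smul_zero, sum_ite_eq', mem_univ, if_true, smul_sum, smul_smul, mul_comm (qz (bs 0) g)]
  rw [show bs 0 = -1 from rfl]
  abel

theorem Uc.fr_eq (h : Uc Δ c) (hΔ : Δ ⊆ B.S) {i : Fin B.r} {q q' : ℕ} (hq : q ∈ B.X i)
    (hq' : q' ∈ B.X i) : c (fr q) = c (fr q') := by
  obtain ⟨d, hd⟩ := chars B.gS h.ch fun w a b => h.unr w a fun e => b (hΔ e)
  have e : ∀ q ∈ B.X i, c (fr q) =
      ∑ j, js (bs j) q • d j + ∑ u ∈ B.S, js (ps u) q • c (tp u) := fun q hq => by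
    have h1 := ((B.rich i).gp q hq).1
    have h2 := disjoint_left.1 (B.nS i) hq
    rw [hd]
    congr 1
    · exact sum_congr rfl fun j _ =>
        congrArg (· • _) (qz_fr h1.1 (BasP.not_dvd h1.1 h1.2 h2 (.inl j)))
    · exact sum_congr rfl fun u hu => by rw [qs_fr h1 (B.gS u hu) fun e => h2 (e ▸ hu)]
  rw [e q hq, e q' hq']
  congr 1
  · exact sum_congr rfl fun j _ => congrArg (· • _) (Box.js_eq hq hq' (.inl j))
  · refine sum_congr rfl fun u hu => congrArg (· • _) ?_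
    rw [js, js, B.key i q hq q' hq' _ (.trans ?_ (BasP.smz_dvd (.inr ⟨u, hu⟩)))]
    unfold ps
    split_ifs
    exacts [dvd_rfl, neg_dvd.2 dvd_rfl]

theorem mq_one {κ : Fin B.r → Fin 4 ⊕ B.S → F2}
    (hκ : ∀ i, ∀ p ∈ B.X i, ∀ b, κ i b = js (smz B.S b) p) (hΔ : Δ ⊆ B.S) {s : Fin B.r → F2}
    (hs : ∀ i, s i = c (fr (p i)) + (∑ q : B.S, js (-1) q) * κ i (.inl 0)) (hp : p ∈ B.pts)
    (a : Fin 4 ⊕ B.S → V1) {R : Fin B.r → V1} {i₀ : Fin B.r} (h0 : R i₀ = 0) :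
    SeV Δ c (B.set p) (pat (sp B.S a) R p) ↔
      (∀ i, ∑ j, (Leg p i j + if j = i₀ then s i else 0) • (R j + R i) + ∑ b, κ i b • a b +
        (∑ q, κ i (.inr q)) • R i + κ i (.inl 0) • pL (R i) = 0) ∧
      ∀ q : B.S, q.1 ∉ Δ → ∑ i, κ i (.inr q) • R i = sp B.S a (fr q) +
        ((c (fr q) + (chi B.S (fr q) + ∑ i, κ i (.inr q))) • a (.inr q) +
          qz (-1) (fr q) • pL (a (.inr q))) := by
  have two : ∀ x y : V1, x = y ↔ x + y = 0 := by decide
  have two' : ∀ x y z : V1, x + y = z ↔ y = x + z := by decide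
  have hX := Box.mem_pts.1 hp
  have hk : ∀ i b, κ i b = js (smz B.S b) (p i) := fun i => hκ i _ (hX i)
  have h1 : SeV Δ c (B.set p) (pat (sp B.S a) R p) ↔ ∀ q ∈ B.set p, q ∉ Δ →
      pat (sp B.S a) R p (fr q) = (c (fr q) + chi (B.set p) (fr q)) • pat (sp B.S a) R p (tp q) +
        qz (-1) (fr q) • pL (pat (sp B.S a) R p (tp q)) :=
    ⟨fun h => h.loc, fun h => ⟨isCh_pat (isCh_sp a) R p, fun w h1 h2 g hg => by
      rw [pat_I hp h2 hg, sp_I h1 (fun c => h2 (Box.mem_set.2 (.inl c))) hg], h⟩⟩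
  simp only [h1, Box.mem_set, or_imp, forall_and, forall_exists_index, forall_apply_eq_imp_iff]
  rw [and_comm, Subtype.forall' (p := (· ∈ B.S))]
  refine and_congr (forall_congr' fun i => ?_) (forall_congr' fun q => imp_congr_right fun _ => ?_)
  · have hg := ((Box.inj hp).2 i).1
    have e : qz (-1) (fr (p i)) = js (-1) (p i) :=
      qz_fr hg.1 (BasP.not_dvd hg.1 hg.2 ((Box.inj hp).2 i).2 (.inl 0))
    rw [imp_iff_right fun e => ((Box.inj hp).2 i).2 (hΔ e), pat_fr hp, pat_tp hp,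
      sp_tp_X a (hX i), sp_fr a (hX i), chi_fr hp, zero_add, two, e]
    refine Eq.congr_left ?_
    simp only [add_smul, sum_add_distrib, ite_smul, zero_smul, sum_ite_eq', mem_univ, if_true, h0,
      zero_add, hs]
    simp only [hk, smz, Sum.elim_inl, Sum.elim_inr, smul_add, sum_add_distrib,
      ← sum_smul]
    rw [show bs 0 = -1 from rfl]
    abel
  · rw [pat_fr_S hp, pat_tp_S hp, sp_tp, chi_fr_S hp, two']
    simp only [hk, smz, Sum.elim_inr]

theorem exists_mq (h : Uc Δ c) (hΔ : Δ ⊆ B.S) (i₀ : Fin B.r) : ∃ m w, IsMq Δ c B i₀ m w := by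
  let x : Fin B.r → ℕ := fun i => Classical.epsilon fun p => p ∈ B.X i
  have hx : ∀ i, ∀ p ∈ B.X i, x i ∈ B.X i := fun i p hp =>
    Classical.epsilon_spec (p := fun p => p ∈ B.X i) ⟨p, hp⟩
  let κ : Fin B.r → Fin 4 ⊕ B.S → F2 := fun i b => js (smz B.S b) (x i)
  have hκ : ∀ i, ∀ p ∈ B.X i, ∀ b, κ i b = js (smz B.S b) p := fun i p hp b =>
    Box.js_eq (hx i p hp) hp b
  let s : Fin B.r → F2 := fun i => c (fr (x i)) + (∑ q : B.S, js (-1) q) * κ i (.inl 0)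
  let ϑ : B.S → (Fin 4 ⊕ B.S → V1) → V1 := fun q a => sp B.S a (fr q) +
    ((c (fr q) + (chi B.S (fr q) + ∑ i, κ i (.inr q))) • a (.inr q) +
      qz (-1) (fr q) • pL (a (.inr q)))
  refine ⟨fun v => ⟨κ, fun b => if b = 0 then pL.prodMap pL else 0, fun q a =>
    if h : q.1 ∈ Δ then v ⟨q, h⟩ else (ϑ q fun b => (a b).1, ϑ q fun b => (a b).2)⟩,
    fun i j => if j = i₀ then s i else 0, fun _ => hκ, fun _ _ => rfl, fun p hp a R => ?_⟩
  have hs : ∀ i, s i = c (fr (p i)) + (∑ q : B.S, js (-1) q) * κ i (.inl 0) := fun i =>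
    congrArg (· + _) (h.fr_eq hΔ (hx i _ (Box.mem_pts.1 hp i)) (Box.mem_pts.1 hp i))
  simp only [Mod.Sol, exists_and_left]
  refine and_congr_right fun h0 => ?_
  rw [mq_one hκ hΔ hs hp _ (congrArg Prod.fst h0), mq_one hκ hΔ hs hp _ (congrArg Prod.snd h0),
    and_and_and_comm, ← forall_and, ← forall_and]
  refine and_congr (forall_congr' fun i => ?_) ⟨fun ⟨v, hv⟩ q => ?_, fun H => ?_⟩
  · rw [Prod.ext_iff, Fin.sum_univ_four]
    simp only [Fin.isValue, Fin.reduceEq, if_true, if_false, LinearMap.zero_apply, smul_zero,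
      add_zero, Prod.fst_sum, Prod.snd_sum, Prod.fst_add, Prod.snd_add,
      Prod.smul_fst, Prod.smul_snd]
    rfl
  · rw [← imp_and]
    intro hq
    have := hv q
    rw [dif_neg hq, Prod.ext_iff] at this
    simpa only [Prod.fst_sum, Prod.snd_sum, Prod.smul_fst, Prod.smul_snd] using this
  · refine ⟨fun q => ∑ i, κ i (.inr ⟨q, hΔ q.2⟩) • R i, fun q => ?_⟩
    split_ifs with hq
    · rfl
    · rw [Prod.ext_iff]
      simpa only [Prod.fst_sum, Prod.snd_sum, Prod.smul_fst, Prod.smul_snd] using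
        And.intro ((H q).1 hq) ((H q).2 hq)

end Pool.Agent.P.MP_8b7eba_nt.QT
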