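import Pool.Agent.P.MP_8b7eba_nt.QT.BasW

/-! Limits of cocycles, and exact cocycles at the odd places. -/

namespace Pool.Agent.P.MP_8b7eba_nt.QT

open Finset R2 SM Filter

variable {n p : ℕ} {ρ : GQ → O} {x y X Y : GQ → O} {S : Finset ℕ} {g t : GQ} {H : Subgroup GQ}

namespace R1

theorem kill (hρ : Cy ρ) (ht : qz (-1) t = 0) (h1 : ρ t ≠ 1) (hx : ∀ n, Zn ρ H n x) :
    ∃ (e : ℕ) (v : O), (∀ n, Zn ρ H n fun g => 2 ^ e * x g - bd ρ v g) ∧
      2 ^ e * x t - bd ρ v t = 0 := by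
  obtain ⟨e, c, hc⟩ := exists_two (sub_ne_zero.2 h1)
  refine ⟨e, c * x t, fun n => (((hx n).two e).mono le_rfl (by omega)).sub (zn_bd hρ _), ?_⟩
  rw [bd, ac, cj_of ht, ← hc]
  ring

theorem conj (hρ : Cy ρ) (ht : qz (-1) t = 0) (h1 : ρ t ≠ 1) (hx : ∀ n, Zn ρ H n x) (hg : g ∈ H)
    (htH : t ∈ H) (h0 : x t = 0) (h2 : x (g * t * g⁻¹) = 0) : x g = 0 := by
  have h3 : (1 - cj g (ρ t)) * x g = 0 := eq_zero_of_dv fun k => by
    have h8 := (hx k).conj hg htH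
    rw [h0, h2, ac_zero, ac, hρ.conj ht, cj_conj, cj_of ht] at h8
    exact of_eq h8.neg (by ring)
  refine (mul_eq_zero.1 h3).resolve_left fun e => h1 ?_
  have h4 := congrArg (cj g) (sub_eq_zero.1 e)
  rw [cj_cj, map_one] at h4
  exact h4.symm

theorem pow (hx : ∀ n, Zn ρ H n x) (hρ : Cy ρ) (h1 : ∀ g ∈ H, ∀ a, ac ρ g a = a) (hg : g ∈ H)
    (k : ℕ) : x (g ^ k) = k * x g := by
  induction k with
  | zero => simpa using eq_zero_of_dv fun n => (hx n).one hρ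
  | succ k ih =>
    rw [pow_succ, Zn.exact hx (pow_mem hg k) hg, ih, h1 _ (pow_mem hg k)]
    push_cast
    ring

theorem odd_unit {k : ℕ} (hk : Odd k) : IsUnit (k : O) := by
  rw [unit_iff]
  exact (map_natCast rdH k).trans ((ZMod.natCast_eq_one_iff_odd).2 hk)

variable [HA]

theorem cyc_mul (g h : GQ) : cyc (g * h) = cyc g * cyc h := hA.ec.2.1 g h

theorem cyc_fr (hp : p.Prime) (h2 : p ≠ 2) : (cyc (fr p) : Z2) = p := by
  have h := hA.ec.2.2.2.2.2.1 (pl p) 1 (fr p) (by rwa [pl_p hp]) (fr_frob hp h2)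
  rwa [pl_p hp, pow_one] at h

theorem tame (hρ : Cy ρ) (hp : p.Prime) (h2 : p ≠ 2) (h1 : ∀ g ∈ (pl p).I, ∀ a, ac ρ g a = a)
    (hx : ∀ n, Zn ρ (pl p).D n x) : x (tp p) = 0 := by
  have e := pl_p hp
  have ht := tp_I hp h2
  have hf := fr_frob hp h2
  have hI : ∀ n, Zn ρ (pl p).I n x := fun n => (hx n).mono (pl p).I_le_D le_rfl
  have hc := Pl.conj_mem_I hf.1 ht
  have hj : fr p * tp p * (fr p)⁻¹ * (tp p ^ p)⁻¹ ∈ (pl p).I := mul_mem hc (inv_mem (pow_mem ht _))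
  have h3 : x (fr p * tp p * (fr p)⁻¹ * (tp p ^ p)⁻¹) = 0 := eq_zero_of_dv fun n => by
    obtain ⟨N, hN, hs⟩ := (hI n).sm
    obtain ⟨r, hr, hm⟩ := (hA.tame2 (pl p) (pl p).D (pl p).p (tp p) (by rwa [e]) (pl p).loc_D
      (by rw [inf_of_le_left (pl p).I_le_D]; exact (hA.res _ _ (pl p).loc_D).2.2.2.2.1)
      ⟨ht, ht.1⟩ (by rw [e]; exact tp_mov hp h2) N hN).2 1 (fr p) hf (map_natCast _ _)
      fun g hg => mul_mem (mul_mem hf.1 hg) (inv_mem hf.1)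
    rw [e, pow_one] at hm
    have h4 := (hs 1 (one_mem _) _ (pow_mem hj r) hm).add ((hI n).one hρ)
    rw [one_mul, sub_add_cancel, pow hI hρ h1 hj] at h4
    simpa using (al_unit.2 (odd_unit hr)).dv_mul.1 (by simpa using h4)
  have h4 := Zn.exact hI hj (pow_mem ht p)
  rw [inv_mul_cancel_right, h3, zero_add, h1 _ hj, pow hI hρ h1 ht] at h4
  have h5 : ac ρ (fr p) (x (tp p)) = p * x (tp p) := by
    rw [← h4, eq_comm, ← sub_eq_zero]
    exact eq_zero_of_dv fun n => of_eq ((hx n).conj hf.1 ht.1) (by rw [h1 _ hc]; ring)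
  have h6 := congrArg nr h5
  rw [ac, nr_mul, nr_mul, cj, nr_cs] at h6
  by_contra h0
  have h7 := hρ.nm (fr p)
  rw [mul_right_cancel₀ (mt nr_eq_zero.1 h0) h6, cyc_fr hp h2] at h7
  have h8 : nr (p : O) = p ^ 2 := by simp [nr]
  have h9 : ((p ^ 4 : ℕ) : Z2) = (p ^ 2 : ℕ) := by
    have := congrArg (· ^ 2) h7
    simp only [h8, mul_pow, sg, ← pow_mul, mul_comm _ 2] at this
    rw [pow_mul (-1), neg_one_sq, one_pow, mul_one] at this
    exact_mod_cast this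
  have := Nat.pow_right_injective hp.two_le (Nat.cast_injective h9)
  omega

end R1

open R1

variable [HA]

theorem ex_odd (hρ : Cy ρ) (hp : p.Prime) (h2 : p ≠ 2) (hx : ∀ n, Zn ρ (pl p).D n x) :
    Ex false ρ (pl p).D x := by
  have ht := tp_I hp h2
  have hf := fr_D hp h2
  have et := eps_tp hp h2
  by_cases h1 : ρ (tp p) = 1
  · have h3 : ∀ g ∈ (pl p).I, ∀ a, ac ρ g a = a := fun g hg => by
      have h4 : bd ρ 1 g = 0 := eq_zero_of_dv fun n =>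
        (zn_bd hρ 1).zero_I hρ hp h2 (of_eq dv_zero (by rw [bd, ac_of h1 et, sub_self])) hg
      rw [bd, ac, map_one, mul_one, sub_eq_zero] at h4
      exact ac_of h4 (eps_I (by rwa [pl_p hp]) hg)
    have e2 : qz (-1) (fr p * fr p) = 0 := by rw [eps_mul, CharTwo.add_self_eq_zero]
    have h5 : ρ (fr p * fr p) ≠ 1 := fun e => by
      have h6 := hρ.nm (fr p * fr p)
      rw [e, e2, nr_one, cyc_mul, Units.val_mul, cyc_fr hp h2] at h6
      have h7 : ((1 : ℕ) : Z2) = (p * p : ℕ) := by simpa [sg] using h6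
      have := Nat.cast_injective h7
      nlinarith [hp.two_le]
    obtain ⟨e, v, h6, h7⟩ := kill hρ e2 h5 hx
    refine ex_of_bd hρ (e := e) (v := v) fun g hg => sub_eq_zero.1 (eq_zero_of_dv fun n => ?_)
    refine (h6 n).zero_D hρ hp h2 (of_eq dv_zero (tame hρ hp h2 h3 h6)) (of_eq dv_zero ?_) hg
    exact conj hρ e2 h5 h6 hf (mul_mem hf hf) h7 (by rwa [← mul_assoc, mul_inv_cancel_right])
  · obtain ⟨e, v, h6, h7⟩ := kill hρ et h1 hx
    refine ex_of_bd hρ (e := e) (v := v) fun g hg => sub_eq_zero.1 ?_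
    exact conj hρ et h1 h6 hg ht.1 h7 (eq_zero_of_dv fun n => ((h6 n).mono (pl p).I_le_D
      le_rfl).zero_I hρ hp h2 (of_eq dv_zero h7) (Pl.conj_mem_I hg ht))

theorem ex_tau (hρ : Cy ρ) (hx : ∀ n, Zn ρ Ht n x) : Ex false ρ Ht x := by
  have h1 : x 1 = 0 := eq_zero_of_dv fun n => (hx n).one hρ
  have ht : tau ∈ Ht := mem_Ht.2 (Or.inr rfl)
  have h2 := Zn.exact hx ht ht
  rw [hA.tau.2.1, h1] at h2
  refine ex_of_bd hρ (e := 1) (v := -x tau) fun g hg => ?_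
  rcases mem_Ht.1 hg with rfl | rfl
  · rw [h1, bd, hρ.ac_one]; ring
  · rw [bd, ac_neg]
    linear_combination -h2

theorem wn_of (hρ : Tw ρ S) {o : Bool} (hx : ∀ n, Zu ρ S n x) (h2 : Ex o ρ (pl 2).D x) (n : ℕ) :
    Wn o ρ S n x := by
  refine ⟨⟨hx n, (ex_tau hρ.toCy fun k => (hx k).zn.res _).of_false.lc n⟩, fun p hp => ?_⟩
  by_cases e : p = 2
  · exact e ▸ h2.lc n
  · exact (ex_odd hρ.toCy ((mem_union.1 hp).elim (fun a => (hρ.gp p a).1) fun a => (mem_T30.1 a).1)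
      e fun k => (hx k).zn.res _).of_false.lc n

theorem iso_two (hρ : Tw ρ S) (hx : ∀ n, Zu ρ S n x) (hy : ∀ n, Zu ρ S n y) (m : ℕ) :
    Triv (pl 2).D (wp 1 ρ m x y) := by
  have c := hρ.toCy
  have l := (zero_add (2 * m)).ge
  have k := wp_co c c (rl_one ρ) al_one l l (hx _).zn (hy _).zn
  have h := recp_wp hρ hρ (rl_one ρ) al_one l l (hx _) (hy _)
    (wp_ex c c (rl_one ρ) (ex_true fun k => (hx k).zn.res _) (ex_tau c fun k => (hy k).zn.res _) m)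
  rw [prod_eq_single_of_mem 2 (mem_union_right _ (by simp [T30])) fun p hp e =>
    (hA.inv _ _ (pl p).loc_D).triv _ (k.1.mono le_top) (wp_ex c c (rl_one ρ)
      (ex_true fun k => (hx k).zn.res _) (ex_odd c ((mem_union.1 hp).elim
        (fun a => (hρ.gp p a).1) fun a => (mem_T30.1 a).1) e fun k => (hy k).zn.res _) m)] at h
  exact (hA.inv _ _ (pl 2).loc_D).inj rfl _ (k.mono le_top) h

theorem zu_bd (hρ : Tw ρ S) (v : O) : Zu ρ S n (bd ρ v) :=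
  ⟨zn_bd hρ.toCy v, fun w a b g hg => of_eq dv_zero (by
    rw [bd, ac_of (hρ.unr w a b g hg) (bs_I a hg 0), sub_self])⟩

theorem zu_test (hρ : Tw ρ S) : ∃ s : Fin 4 ⊕ S → GQ, ∀ n x, Zu ρ S n x → (∀ i, Dv n (x (s i))) →
    ∀ g, Dv n (x g) := by
  obtain ⟨s, hs⟩ := BasH.dual
  refine ⟨Sum.elim s fun p => tp p, fun n x hx e g => hx.zn.zero_of hρ.toCy
    {g | (∃ i, g = s i) ∨ (∃ p ∈ S, g = tp p) ∨ ∃ w : Pl, ¬ w.p ∣ 30 ∧ w.p ∉ S ∧ g ∈ w.I}
    (fun φ hφ h0 => ?_) ?_ (Subgroup.mem_top g)⟩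
  · obtain ⟨c, hc⟩ := chars hρ.gp hφ fun w a b g hg => h0 g (Or.inr (Or.inr ⟨w, a, b, hg⟩))
    have k : ∀ g, φ g = ∑ i, qz (bs i) g • c i := fun g => by
      rw [hc, sum_eq_zero (s := S) fun p hp => by
        rw [h0 _ (Or.inr (Or.inl ⟨p, hp, rfl⟩)), smul_zero], add_zero]
    have k' : ∀ j, c j = 0 := fun j => by
      have := k (s j)
      rw [h0 _ (Or.inl ⟨j, rfl⟩)] at this
      simpa [hs] using this.symm
    intro g _
    simp [k, k']
  · rintro g (⟨i, rfl⟩ | ⟨p, hp, rfl⟩ | ⟨w, a, b, hg⟩)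
    · exact e (.inl i)
    · exact e (.inr ⟨p, hp⟩)
    · exact hx.unr w a b g hg

theorem zu_lim (hρ : Tw ρ S) (x : ℕ → GQ → O) (hx : ∀ k, Zu ρ S (2 * k) (x k)) :
    ∃ X : GQ → O, ∀ n, ∀ᶠ k in (hyperfilter ℕ : Filter ℕ), n ≤ k ∧ ∀ g, Dv n (X g - x k g) := by
  obtain ⟨s, hs⟩ := zu_test hρ
  choose X hX using fun g => exists_lim (hyperfilter ℕ) fun k => x k g
  refine ⟨X, fun n => ?_⟩
  have h1 := ((eventually_ge_atTop n).filter_mono Nat.hyperfilter_le_atTop).and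
    (eventually_all.2 fun i => hX (s i) n)
  filter_upwards [h1] with k hk
  refine ⟨hk.1, fun g => ?_⟩
  obtain ⟨j, hj, h2⟩ := (h1.and (hX g n)).exists
  refine h2.symm.trans (hs n (fun g => x j g - x k g) ?_ (fun i => (hj.2 i).trans (hk.2 i).symm) g)
  simpa [sub_eq_add_neg] using ((hx j).mono (by omega)).add (((hx k).mono (by omega)).smul (-1))

theorem two_lim (hρ : Tw ρ S) (ht : qz (-1) t = 0) (hu : ρ t ^ 2 = -1) (h : Two ρ S) :
    ∃ X Y : GQ → O, (∀ n, Zu ρ S n X) ∧ (∀ n, Zu ρ S n Y) ∧ X t = 0 ∧ Y t = 0 ∧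
      ∀ a b : Z2, (∀ g, a • X g + b • Y g = 0) → a = 0 ∧ b = 0 := by
  choose x y hx hy hi using h
  have k : ∀ x : ℕ → GQ → O, (∀ k, Zu ρ S (2 * k) (x k)) → ∃ X : GQ → O, (∀ n, Zu ρ S n X) ∧
      X t = 0 ∧ ∀ n, ∀ᶠ k in (hyperfilter ℕ : Filter ℕ), n ≤ k ∧
        ∀ g, Dv n (X g - ((2 : Z2) • x k g + bd ρ ((1 + ρ t) * x k t) g)) := fun x hx => by
    have h1 := fun k => ((hx k).smul 2).add (zu_bd hρ ((1 + ρ t) * x k t))
    obtain ⟨X, hX⟩ := zu_lim hρ _ h1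
    refine ⟨X, fun n => ?_, eq_zero_of_dv fun n => ?_, hX⟩
    · obtain ⟨k, h2, h3⟩ := (hX n).exists
      exact ((h1 k).mono (by omega)).congr h3
    · obtain ⟨k, -, h3⟩ := (hX n).exists
      refine of_eq (h3 t) ?_
      rw [bd, ac, cj_of ht, two_smul]
      linear_combination x k t * hu
  obtain ⟨X, x1, x2, x3⟩ := k x hx
  obtain ⟨Y, y1, y2, y3⟩ := k y hy
  refine ⟨X, Y, x1, y1, x2, y2, fun a b e => ?_⟩
  have h4 : ∀ n, 2 ^ n ∣ a ∧ 2 ^ n ∣ b := fun n => by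
    obtain ⟨k, ⟨h1, h2⟩, -, h3⟩ := ((x3 (2 * (n + 1))).and (y3 (2 * (n + 1)))).exists
    obtain ⟨d, rfl⟩ : ∃ d, k = d + (n + 1) := ⟨k - (n + 1), by omega⟩
    have h5 := hi _ (2 ^ d * (2 * a)) (2 ^ d * (2 * b))
      (-(2 ^ d * (a • ((1 + ρ t) * x _ t) + b • ((1 + ρ t) * y _ t)))) fun g => by
        rw [mul_add 2 d]
        refine of_eq ((al_two d).dv_mul.2 (((h2 g).smul a).add ((h3 g).smul b)).neg) ?_
        have := e g
        rw [bd_neg, bd_two, bd_add, bd_smul, bd_smul]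
        simp only [smul_eq, map_mul, map_pow, map_ofNat] at this ⊢
        linear_combination 2 ^ d * this
    simp only [pow_add, pow_one, mul_comm _ (2 : Z2), mul_dvd_mul_iff_left, ne_eq,
      pow_eq_zero_iff', OfNat.ofNat_ne_zero, false_and, not_false_eq_true] at h5
    exact h5
  have h6 : (⟨a, b⟩ : O) = 0 := eq_zero_of_dv fun n => (dv_two_iff.2 (h4 n)).mono (by omega)
  exact ⟨congrArg QuadraticAlgebra.re h6, congrArg QuadraticAlgebra.im h6⟩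

end Pool.Agent.P.MP_8b7eba_nt.QT
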