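import Pool.Agent.P.MP_8b7eba_nt.QT.R1

/-! Local duality and the Euler characteristic for the quotients of a lattice. -/

namespace Pool.Agent.P.MP_8b7eba_nt.QT

open Finset R2 SM SM.BasW

variable {n : ℕ} {ρ : GQ → O} {x : GQ → O} {g : GQ} {H : Subgroup GQ} {a b b' : O} {w : Pl}

namespace R2x

/-- the quotient of the lattice -/
abbrev Mn (n : ℕ) : Type := ZMod (2 ^ n) × ZMod (2 ^ n)

/-- a section of the reduction -/
noncomputable def sc (n : ℕ) (c : Mn n) : O := ⟨c.1.val, c.2.val⟩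

theorem rn_sc (c : Mn n) : rn n (sc n c) = c := Prod.ext (by simp [rn, sc]) (by simp [rn, sc])

theorem dv_sc (a : O) : Dv (2 * n) (sc n (rn n a) - a) := rn_eq.1 (rn_sc _)

theorem dv_sc_add (c c' : Mn n) : Dv (2 * n) (sc n (c + c') - (sc n c + sc n c')) :=
  rn_eq.1 (by rw [map_add, rn_sc, rn_sc, rn_sc])

theorem card_Mn (n : ℕ) : Nat.card (Mn n) = 4 ^ n := by
  rw [Nat.card_prod, Nat.card_zmod, ← mul_pow]
  rfl

/-- the action on the quotient -/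
noncomputable def rM (ρ : GQ → O) (n : ℕ) (g : GQ) : Mn n →+ Mn n :=
  AddMonoidHom.mk' (fun c => rn n (ac ρ g (sc n c))) fun c c' => by
    rw [← map_add, ← ac_add, rn_eq, ← ac_sub]
    exact (dv_sc_add c c').ac ρ g

theorem rM_rn (ρ : GQ → O) (g : GQ) (a : O) : rM ρ n g (rn n a) = rn n (ac ρ g a) :=
  rn_eq.2 (by rw [← ac_sub]; exact (dv_sc a).ac ρ g)

theorem uni (hρ : Cy ρ) (H : Subgroup GQ) (n : ℕ) : Uni H (rM ρ n) := by
  refine ⟨inferInstance, ⟨n, fun m => ?_⟩, fun m => ?_, fun g _ h _ m => ?_, ?_, fun g _ => ?_⟩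
  · obtain ⟨a, rfl⟩ := rn_surj n m
    rw [← map_nsmul, rn_eq_zero, dv_two, nsmul_eq_mul]
    exact ⟨a, by push_cast; rfl⟩
  · obtain ⟨a, rfl⟩ := rn_surj n m
    rw [rM_rn, hρ.ac_one]
  · obtain ⟨a, rfl⟩ := rn_surj n m
    rw [rM_rn, rM_rn, rM_rn, hρ.ac_mul]
  · obtain ⟨N, hN, hs⟩ := hρ.sm_ac (2 * n)
    refine ⟨N, hN, fun g _ k _ hk => AddMonoidHom.ext fun m => ?_⟩
    obtain ⟨a, rfl⟩ := rn_surj n m
    rw [rM_rn, rM_rn, hρ.ac_mul, rn_eq, ← ac_sub]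
    exact ((hs k hk).2 a).ac ρ g
  · have k : ∀ j a, Dv j (ac ρ (g ^ 2 ^ j) a - a) := fun j => by
      induction j with
      | zero => exact fun a => dv_nil _
      | succ j ih =>
        intro a
        have h1 := (al_two 1).dv_mul.2 (ih a)
        refine of_eq ((hρ.dv_bd (ih a) (g ^ 2 ^ j)).add (h1.mono (by omega))) ?_
        rw [pow_succ, pow_mul, pow_two, hρ.ac_mul, bd, ac_sub]
        ring
    refine ⟨2 * n, fun m => ?_⟩
    obtain ⟨a, rfl⟩ := rn_surj n m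
    rw [rM_rn, rn_eq]
    exact k _ a

theorem co1 (hx : Zn ρ H (2 * n) x) : Co1 H (rM ρ n) fun g => rn n (x g) := by
  obtain ⟨⟨N, hN, hs⟩, hc⟩ := hx
  refine ⟨⟨N, hN, fun g hg k hk m => rn_eq.2 (hs g hg k hk m)⟩, fun g hg h hh => ?_⟩
  rw [rM_rn, ← map_add, rn_eq, ← sub_sub]
  exact hc g hg h hh

theorem zn_sc {c : GQ → Mn n} (hc : Co1 H (rM ρ n) c) : Zn ρ H (2 * n) fun g => sc n (c g) := by
  obtain ⟨⟨N, hN, hs⟩, hc⟩ := hc
  refine ⟨⟨N, hN, fun g hg k hk m => by rw [hs g hg k hk m]; exact dv_refl _⟩,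
    fun g hg h hh => ?_⟩
  rw [sub_sub, ← rn_eq, map_add, ← rM_rn, rn_sc, rn_sc, rn_sc, hc g hg h hh]

theorem count {Z ι κ : Type} [AddCommGroup Z] [Finite Z] [Finite ι] [Finite κ]
    (χ : ι → AddChar Z Om) (hχ : Function.Injective χ) (a : κ → Z) (ha : Function.Injective a)
    (h : ∀ i k, χ i (a k) = 1) : Nat.card ι * Nat.card κ ≤ Nat.card Z := by
  let A : AddSubgroup Z :=
    { carrier := {z | ∀ i, χ i z = 1}
      zero_mem' := fun i => by simp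
      add_mem' := fun hx hy i => by rw [AddChar.map_add_eq_mul, hx i, hy i, one_mul]
      neg_mem' := fun hx i => by rw [AddChar.map_neg_eq_inv, hx i, inv_one] }
  have h1 : Nat.card κ ≤ Nat.card A := Nat.card_le_card_of_injective
    (fun k => (⟨a k, fun i => h i k⟩ : A)) fun k k' e => ha (congrArg Subtype.val e)
  let ψ : ι → Multiplicative (Z ⧸ A) →* Om := fun i => AddChar.toMonoidHom
    (AddChar.toAddMonoidHomEquiv.symm
      (QuotientAddGroup.lift A (χ i).toAddMonoidHom fun z hz => hz i))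
  have h2 : Function.Injective ψ := fun i j e => hχ (AddChar.ext _ _ fun z =>
    DFunLike.congr_fun e (Multiplicative.ofAdd (z : Z ⧸ A)))
  have := Fintype.ofFinite ι
  have := Fintype.ofFinite (Multiplicative (Z ⧸ A))
  have h3 := ((linearIndependent_monoidHom _ Om).comp ψ h2).fintype_card_le_finrank
  rw [Module.finrank_fintype_fun_eq_card, ← Nat.card_eq_fintype_card,
    ← Nat.card_eq_fintype_card] at h3
  rw [A.card_eq_card_quotient_mul_card_addSubgroup]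
  exact Nat.mul_le_mul h3 h1

variable [HA]

theorem en_dvd {c : Z2} (h : en n c = 1) : 2 ^ n ∣ c := by
  rw [en, hE.1.eq_one, norm_div, div_le_one (by simp), norm_pow] at h
  have h2 : ‖(2 : ℚ_[2])‖ = ((2 : ℕ) : ℝ)⁻¹ := Padic.norm_p (p := 2)
  rw [h2, inv_pow, ← zpow_natCast, ← zpow_neg] at h
  have h3 := (PadicInt.norm_le_pow_iff_mem_span_pow c n).1 h
  rw [Ideal.mem_span_singleton] at h3
  exact_mod_cast h3

/-- the character attached to a vector -/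
noncomputable def ch (n : ℕ) (b : O) : AddChar (Mn n) Om where
  toFun c := en n (pr 1 (sc n c) b)
  map_zero_eq_one' := en_one (pr_l' 1 (rn_eq_zero.1 (rn_sc _)) b)
  map_add_eq_mul' c c' := by
    rw [← en_add, ← pr_add_l]
    exact en_congr (by rw [← pr_sub_l]; exact pr_l' 1 (dv_sc_add c c') b)

theorem ch_rn (b a : O) : ch n b (rn n a) = en n (pr 1 a b) :=
  en_congr (by rw [← pr_sub_l]; exact pr_l' 1 (dv_sc a) b)

theorem ch_eq : ch n b = ch n b' ↔ Dv (2 * n) (b - b') := by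
  refine ⟨fun h => ?_, fun h => AddChar.ext _ _ fun c =>
    en_congr (by rw [← pr_sub_r]; exact pr_r' 1 _ h)⟩
  have k : ∀ a, 2 ^ n ∣ pr 1 a (b - b') := fun a => en_dvd (by
    have h1 := en_add n (pr 1 a (b - b')) (pr 1 a b')
    rw [← pr_add_r, sub_add_cancel, ← ch_rn, h, ch_rn] at h1
    exact (mul_eq_right₀ (en_ne _ _)).1 h1.symm)
  exact dv_two_iff.2 ⟨by simpa [pr] using k (-ii), by simpa [pr] using k 1⟩

theorem ch_surj (f : AddChar (Mn n) Om) : ∃ b, f = ch n b := by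
  have k : ∀ c, ∃ m : Z2, f c = en n m := fun c => by
    obtain ⟨m, hm⟩ := hE.1.surj n (f c) (by
      obtain ⟨a, rfl⟩ := rn_surj n c
      rw [← AddChar.map_nsmul_eq_pow, ← map_nsmul, rn_eq_zero.2, AddChar.map_zero_eq_one]
      rw [dv_two, nsmul_eq_mul]
      exact ⟨a, by push_cast; rfl⟩)
    exact ⟨m, hm⟩
  obtain ⟨m, hm⟩ := k (1, 0)
  obtain ⟨m', hm'⟩ := k (0, 1)
  refine ⟨⟨-m', m⟩, AddChar.ext _ _ fun c => ?_⟩
  have e : c = c.1.val • (1, 0) + c.2.val • (0, 1) := by ext <;> simp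
  refine (congrArg f e).trans ?_
  rw [AddChar.map_add_eq_mul, AddChar.map_nsmul_eq_pow, AddChar.map_nsmul_eq_pow, hm, hm', en_nat,
    en_nat, ← en_add]
  exact congrArg (en n) (by simp [pr, sc])

theorem gal_ch (hρ : Cy ρ) (g : GQ) (a b : O) :
    g (ch n b (rM ρ n g⁻¹ (rn n a))) = en n (pr 1 a (ac ρ g b)) := by
  rw [rM_rn, ch_rn, en_gal, ← pr_ac hρ (rl_one ρ), ← hρ.ac_mul, mul_inv_cancel, hρ.ac_one]

theorem ld_O (hρ : Cy ρ) (hx : Zn ρ w.D (2 * n) x)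
    (h : ∀ y, Zn ρ w.D (2 * n) y → Triv w.D (wp 1 ρ n x y)) :
    ∃ v, ∀ g ∈ w.D, Dv (2 * n) (x g - bd ρ v g) := by
  obtain ⟨m, hm⟩ := hA.ld w w.D _ _ w.loc_D (uni hρ _ n) _ (co1 hx) fun y hy => by
    choose b hb using fun g => ch_surj (y g)
    refine (h b ⟨?_, fun g hg k hk => ?_⟩).congr fun g _ k _ => by
      rw [prD, hb, gal_ch hρ, wp_eq]
    · obtain ⟨N, hN, hs⟩ := hy.1
      exact ⟨N, hN, fun g hg k hk m => ch_eq.1 (by rw [← hb, ← hb, hs g hg k hk m])⟩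
    · rw [sub_sub, ← ch_eq, ← hb]
      refine AddChar.ext _ _ fun c => ?_
      obtain ⟨a, rfl⟩ := rn_surj n c
      rw [hy.2 g hg k hk, hb, hb, gal_ch hρ, ch_rn, ch_rn, pr_add_r, en_add]
  obtain ⟨v, rfl⟩ := rn_surj n m
  exact ⟨v, fun g hg => rn_eq.1 (by rw [hm g hg, rM_rn, bd, map_sub])⟩

/-- the group of cocycles -/
def ZG (ρ : GQ → O) (n : ℕ) (H : Subgroup GQ) : AddSubgroup (GQ → Mn n) where
  carrier := {c | Co1 H (rM ρ n) c ∧ ∀ g, g ∉ H → c g = 0}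
  zero_mem' := ⟨⟨Sm.const 0, fun _ _ _ _ => by simp⟩, fun _ _ => rfl⟩
  add_mem' := fun {c d} hc hd => ⟨⟨hc.1.1.comp₂ hd.1.1 (· + ·), fun g hg k hk => by
    simp only [Pi.add_apply, hc.1.2 g hg k hk, hd.1.2 g hg k hk, map_add]; abel⟩,
    fun g hg => by simp [hc.2 g hg, hd.2 g hg]⟩
  neg_mem' := fun {c} hc => ⟨⟨hc.1.1.comp (-·), fun g hg k hk => by
    simp only [Pi.neg_apply, hc.1.2 g hg k hk, map_neg]; abel⟩, fun g hg => by simp [hc.2 g hg]⟩

theorem ep_O (hρ : Cy ρ) (h2 : w.p = 2) {m c : ℕ}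
    (h : ∀ b, (∀ g ∈ w.D, Dv (2 * (m + c)) (bd ρ b g)) → Dv (2 * m) b) :
    Finite (ZG ρ (m + c) w.D) ∧ Nat.card (ZG ρ (m + c) w.D) ≤ (4 ^ (m + c)) ^ 2 * 4 ^ c := by
  obtain ⟨h3, h4⟩ := hA.ep w _ _ h2 (uni hρ w.D (m + c))
  refine ⟨h3, h4.trans ?_⟩
  rw [card_Mn, ← card_Mn c]
  refine Nat.mul_le_mul_left _ (le_trans (Set.ncard_le_ncard
    (t := Set.range fun k : Mn c => ch (m + c) (2 ^ m * sc c k)) (fun f hf => ?_)
    (Set.finite_range _)) ?_)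
  · obtain ⟨b, rfl⟩ := ch_surj f
    obtain ⟨d, rfl⟩ := dv_two.1 (h b fun g hg => ch_eq.1 (AddChar.ext _ _ fun c => by
      obtain ⟨a, rfl⟩ := rn_surj _ c
      rw [ch_rn, ← gal_ch hρ, hf g hg, rM_rn, rM_rn, ← hρ.ac_mul, mul_inv_cancel, hρ.ac_one]))
    refine ⟨rn c d, ch_eq.2 ?_⟩
    rw [← mul_sub, mul_add, (al_two m).dv_mul]
    exact dv_sc d
  · exact Finite.card_range_le _

end R2x

end Pool.Agent.P.MP_8b7eba_nt.QT
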