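import Pool.Agent.P.MP_8b7eba_nt.QT.R2

/-! A combination of two global cocycles is a rational coboundary at two. -/

namespace Pool.Agent.P.MP_8b7eba_nt.QT

open Finset R2 SM SM.BasW R1 R2x Filter QuadraticAlgebra

variable {n : ℕ} {ρ X Y : GQ → O} {g : GQ} {H : Subgroup GQ} {u v : O} {S : Finset ℕ}

namespace R3x

/-- a combination of two cochains and a coboundary -/
noncomputable def cm (ρ X Y : GQ → O) (u v : O) (g : GQ) : O :=
  u.re • X g + u.im • Y g + bd ρ v g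

theorem cm_add (u v u' v' : O) (g : GQ) :
    cm ρ X Y (u + u') (v + v') g = cm ρ X Y u v g + cm ρ X Y u' v' g := by
  simp only [cm, re_add, im_add, add_smul, bd_add]
  abel

theorem cm_sub (u v u' v' : O) (g : GQ) :
    cm ρ X Y (u - u') (v - v') g = cm ρ X Y u v g - cm ρ X Y u' v' g := by
  rw [eq_sub_iff_add_eq, ← cm_add, sub_add_cancel, sub_add_cancel]

theorem cm_two (e : ℕ) (u v : O) (g : GQ) :
    cm ρ X Y (2 ^ e * u) (2 ^ e * v) g = 2 ^ e * cm ρ X Y u v g := by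
  simp only [cm, ← two_smul_eq, bd_smul, re_smul, im_smul, smul_add, smul_assoc]

theorem cm_dv (hu : Dv (2 * n) u) (hv : Dv (2 * n) v) (g : GQ) : Dv (2 * n) (cm ρ X Y u v g) := by
  obtain ⟨u, rfl⟩ := dv_two.1 hu
  obtain ⟨v, rfl⟩ := dv_two.1 hv
  exact dv_two.2 ⟨_, cm_two ..⟩

theorem unif (h0 : ∀ u v, (∀ g ∈ H, cm ρ X Y u v g = 0) → u = 0 ∧ v = 0) :
    ∃ c, ∀ n u v, (∀ g ∈ H, Dv (2 * (n + c)) (cm ρ X Y u v g)) → Dv (2 * n) u ∧ Dv (2 * n) v := by
  by_contra h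
  have k : ∀ c, ∃ u v, (∀ g ∈ H, Dv (2 * c) (cm ρ X Y u v g)) ∧
      ¬ (Dv (2 * 1) u ∧ Dv (2 * 1) v) := fun c => by
    by_contra h1
    refine h ⟨c, fun n => ?_⟩
    induction n with
    | zero => exact fun u v _ => ⟨dv_nil _, dv_nil _⟩
    | succ n ih =>
      intro u v h2
      obtain ⟨h3, h4⟩ : Dv (2 * 1) u ∧ Dv (2 * 1) v :=
        by_contra fun e => h1 ⟨u, v, fun g hg => (h2 g hg).mono (by omega), e⟩
      obtain ⟨u, rfl⟩ := dv_two.1 h3
      obtain ⟨v, rfl⟩ := dv_two.1 h4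
      rw [show 2 * (n + 1) = 2 * 1 + 2 * n by ring, (al_two 1).dv_mul, (al_two 1).dv_mul]
      exact ih u v fun g hg => (al_two 1).dv_mul.1 (cm_two 1 u v g ▸ (h2 g hg).mono (by omega))
  choose u v h1 h2 using k
  obtain ⟨a, ha⟩ := exists_lim (hyperfilter ℕ) u
  obtain ⟨b, hb⟩ := exists_lim (hyperfilter ℕ) v
  obtain ⟨rfl, rfl⟩ := h0 a b fun g hg => eq_zero_of_dv fun n => by
    obtain ⟨c, h3, h4, h5⟩ := (((eventually_ge_atTop n).filter_mono Nat.hyperfilter_le_atTop).and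
      ((ha (2 * n)).and (hb (2 * n)))).exists
    have h6 := ((h1 c g hg).mono (by omega)).sub (cm_dv (ρ := ρ) (X := X) (Y := Y) h4 h5 g)
    rw [cm_sub, sub_sub_cancel] at h6
    exact h6.mono (by omega)
  obtain ⟨c, h3, h4⟩ := ((ha (2 * 1)).and (hb (2 * 1))).exists
  exact h2 c ⟨by simpa using h3, by simpa using h4⟩

open Classical in
/-- the class of a cocycle -/
noncomputable def rs {x : GQ → O} (hx : Zn ρ H (2 * n) x) : ZG ρ n H :=
  ⟨fun g => if g ∈ H then rn n (x g) else 0, ⟨(co1 hx).1.congr fun g hg => if_pos hg,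
    fun g hg k hk => by simpa [hg, hk, mul_mem hg hk] using (co1 hx).2 g hg k hk⟩,
    fun g hg => if_neg hg⟩

theorem rs_dv {x : GQ → O} (hx : Zn ρ H (2 * n) x) (hg : g ∈ H) :
    Dv (2 * n) (sc n ((rs hx).1 g) - x g) := by
  rw [← rn_eq, rn_sc]
  exact if_pos hg

variable [HA] {w : Pl}

theorem cw (hρ : Cy ρ) {x y : GQ → O} (hx : Zn ρ H (2 * n) x) (hy : Zn ρ H (2 * n) y) :
    Co2T H (wp 1 ρ n x y) :=
  wp_co hρ hρ (rl_one ρ) al_one (zero_add _).ge (zero_add _).ge hx hy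

theorem cg {x y y' : GQ → O} {h : GQ} (e : Dv (2 * n) (y' h - y h)) :
    wp 1 ρ n x y' g h = wp 1 ρ n x y g h :=
  wp_congr al_one (zero_add _).ge (zero_add _).ge (dv_refl _) e

/-- the local pairing with a cocycle -/
noncomputable def pa (hρ : Cy ρ) {x : GQ → O} (hx : Zn ρ w.D (2 * n) x) :
    AddChar (ZG ρ n w.D) Om where
  toFun z := nv w w.D (wp 1 ρ n x fun g => sc n (z.1 g))
  map_zero_eq_one' := (hA.inv w _ w.loc_D).triv _ (cw hρ hx (zn_sc (0 : ZG ρ n w.D).2.1)).1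
    (Triv.one.congr fun g _ h _ => en_one (pr_r' 1 _ ((rn_eq_zero.1 (rn_sc _)).ac ρ g)))
  map_add_eq_mul' z z' := by
    rw [← (hA.inv w _ w.loc_D).mul _ _ (cw hρ hx (zn_sc z.2.1)) (cw hρ hx (zn_sc z'.2.1)),
      ← wp_add_r]
    exact congrArg _ (funext₂ fun g h => cg (dv_sc_add ..))

theorem pa_rs (hρ : Cy ρ) {x y : GQ → O} (hx : Zn ρ w.D (2 * n) x) (hy : Zn ρ w.D (2 * n) y) :
    pa hρ hx (rs hy) = 1 ↔ Triv w.D (wp 1 ρ n x y) := by
  have k := cw hρ hx (zn_sc (rs hy).2.1)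
  exact ⟨fun h => ((hA.inv w _ w.loc_D).inj rfl _ k h).congr
      fun g _ h hh => (cg (rs_dv hy hh)).symm,
    fun h => (hA.inv w _ w.loc_D).triv _ k.1 (h.congr fun g _ h hh => cg (rs_dv hy hh))⟩

theorem exists_ne (hρ : Cy ρ) (w : Pl) : ∃ g ∈ w.D, qz (-1) g = 0 ∧ ρ g ≠ 1 := by
  obtain ⟨g, hg, h⟩ := hA.lg.2.2.2.2 w _ w.loc_D
  have e2 : qz (-1) (g * g) = 0 := by rw [eps_mul, CharTwo.add_self_eq_zero]
  refine ⟨g * g, mul_mem hg hg, e2, fun e => h ?_⟩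
  have h1 := hρ.nm (g * g)
  rw [e, e2, nr_one, cyc_mul] at h1
  have h2 := hA.lg.1.mul (cyc g) (cyc g)
  have h3 := hA.lg.1.mul 1 1
  rw [Units.ext (show ((cyc g * cyc g : Z2ˣ) : Z2) = (1 : Z2ˣ) by simpa [sg] using h1.symm)] at h2
  rw [mul_one, left_eq_add] at h3
  rw [h3, ← two_mul] at h2
  exact (mul_eq_zero.1 h2.symm).resolve_left two_ne_zero

end R3x

open R3x

variable [HA]

theorem str_two (hρ : Tw ρ S) (hX : ∀ n, Zu ρ S n X) (hY : ∀ n, Zu ρ S n Y) :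
    ∃ a b : Z2, ¬ (a = 0 ∧ b = 0) ∧ Ex false ρ (pl 2).D fun g => a • X g + b • Y g := by
  by_contra h
  have c := hρ.toCy
  obtain ⟨e, he⟩ := unif (ρ := ρ) (X := X) (Y := Y) (H := (pl 2).D) fun u v h1 => by
    obtain rfl : u = 0 := by_contra fun h2 => h ⟨u.re, u.im, fun e => h2 (by ext <;> simp [e]),
      ex_of_bd c (e := 0) (v := -v) fun g hg => by
        rw [bd_neg, pow_zero, one_mul, eq_neg_iff_add_eq_zero]
        exact h1 g hg⟩
    obtain ⟨g, hg, h3, h4⟩ := exists_ne c (pl 2)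
    have h5 := h1 g hg
    simp only [cm, bd, ac, cj_of h3, re_zero, im_zero, zero_smul, zero_add] at h5
    exact ⟨rfl, (mul_eq_zero.1 (show (ρ g - 1) * v = 0 by linear_combination h5)).resolve_left
      (sub_ne_zero.2 h4)⟩
  obtain ⟨m, hm⟩ : ∃ m, m = 3 * e + 1 := ⟨_, rfl⟩
  have z : ∀ u v n, Zu ρ S n (cm ρ X Y u v) := fun u v n =>
    (((hX n).smul _).add ((hY n).smul _)).add (zu_bd hρ v)
  have z' : ∀ u v, Zn ρ (pl 2).D (2 * (m + e)) (cm ρ X Y u v) := fun u v => (z u v _).zn.res _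
  obtain ⟨h1, h2⟩ := ep_O c (pl_p Nat.prime_two) (m := m) (c := e)
    fun b hb => (he m 0 b fun g hg => by simpa [cm] using hb g hg).2
  have k : ∀ {i j : Mn m}, Dv (2 * m) (sc m i - sc m j) → i = j := fun {i j} e => by
    rw [← rn_sc i, rn_eq.2 e, rn_sc]
  have h3 := count (fun i : Mn m => pa c (z' (sc m i) 0)) (fun i j hij => ?_)
    (fun i : Mn m × Mn m => rs (z' (sc m i.1) (sc m i.2))) (fun i j hij => ?_)
    fun i j => (pa_rs c _ _).2 (iso_two hρ (z _ _) (z _ _) _)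
  · rw [Nat.card_prod (Mn m), card_Mn] at h3
    have h4 := h3.trans h2
    simp only [← pow_add, ← pow_mul] at h4
    have := (Nat.pow_le_pow_iff_right (by norm_num)).1 h4
    omega
  · obtain ⟨v, hv⟩ := ld_O c (z' (sc m i - sc m j) 0) fun y hy => by
      have h4 : pa c (z' (sc m i) 0) (rs hy) =
          pa c (z' (sc m i - sc m j) 0) (rs hy) * pa c (z' (sc m j) 0) (rs hy) := by
        refine Eq.trans ?_ ((hA.inv _ _ (pl 2).loc_D).mul _ _ (cw c (z' _ _) (zn_sc (rs hy).2.1))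
          (cw c (z' _ _) (zn_sc (rs hy).2.1)))
        rw [← wp_add]
        simp only [← cm_add, sub_add_cancel, add_zero]
        rfl
      rw [show pa c (z' (sc m i) 0) = _ from hij] at h4
      exact (pa_rs c _ _).1 ((mul_eq_right₀ (AddChar.val_isUnit ..).ne_zero).1 h4.symm)
    exact k (he m _ (-v) fun g hg => of_eq (hv g hg) (by simp [cm, bd_neg, bd_zero]; ring)).1
  · obtain ⟨h4, h5⟩ := he m (sc m i.1 - sc m j.1) (sc m i.2 - sc m j.2) fun g hg => by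
      rw [cm_sub]
      refine (rs_dv (z' _ _) hg).symm.trans ?_
      rw [show rs (z' (sc m i.1) (sc m i.2)) = _ from hij]
      exact rs_dv _ hg
    exact Prod.ext (k h4) (k h5)

end Pool.Agent.P.MP_8b7eba_nt.QT
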