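import Pool.Agent.P.MP_8b7eba_nt.QT.TS3
import Pool.Agent.P.MP_8b7eba_nt.SM.All

/-! The halving inequality on a grid. -/

namespace Pool.Agent.P.MP_8b7eba_nt.QT

open Finset R2 SM

variable {k M s : ℕ}

/-- the local condition at a prime -/
noncomputable def lc1 (c : GQ → F2) (S : Finset ℕ) (p : ℕ) (η : GQ → F2) : F2 :=
  η (fr p) - (c (fr p) + chi S (fr p)) * η (tp p)

theorem lc1_sub (c : GQ → F2) (S : Finset ℕ) (p : ℕ) (η η' : GQ → F2) :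
    lc1 c S p (η - η') = lc1 c S p η - lc1 c S p η' := by
  simp only [lc1, Pi.sub_apply]
  ring

variable [HA]

theorem hbx0 (𝒢 : Grid k M) (Δ : Finset ℕ) (c : GQ → F2) (y : ℕ) (C : Finset (GQ → F2))
    (hC : C.card ≤ 2 ^ s) (hS : ∀ χ, Se1 Δ c (𝒢.S y 0) χ → χ ∈ C) :
    ∃ σ : Fin (s + (k + 2)) → GQ, ∀ η, InB 𝒢 Δ c y η → (∀ j, η (σ j) = 0) →
      (∀ i j, η (tp (𝒢.q i j)) = 0) → η = 0 := by
  classical
  have hs : ∀ η η' : GQ → F2, (InB 𝒢 Δ c y η ∧ ∀ i j, η (tp (𝒢.q i j)) = 0) →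
      (InB 𝒢 Δ c y η' ∧ ∀ i j, η' (tp (𝒢.q i j)) = 0) →
      (InB 𝒢 Δ c y (η - η') ∧ ∀ i j, (η - η') (tp (𝒢.q i j)) = 0) := by
    intro η η' a b
    refine ⟨⟨?_, fun w h1 h2 h3 h4 g hg => ?_, fun p hp hΔ => ?_⟩, fun i j => ?_⟩
    · rw [show η - η' = fun g => η g + η' g from funext fun g => CharTwo.sub_eq_add _ _]
      exact a.1.ch.add b.1.ch
    · rw [Pi.sub_apply, a.1.unr w h1 h2 h3 h4 g hg, b.1.unr w h1 h2 h3 h4 g hg, sub_self]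
    · have e := lc1_sub c (𝒢.S y 0) p η η'
      have e1 : lc1 c (𝒢.S y 0) p η = 0 := sub_eq_zero.2 (a.1.loc p hp hΔ)
      have e2 : lc1 c (𝒢.S y 0) p η' = 0 := sub_eq_zero.2 (b.1.loc p hp hΔ)
      rw [e1, e2, sub_self] at e
      exact sub_eq_zero.1 e
    · rw [Pi.sub_apply, a.2, b.2, sub_self]
  let L : (GQ → F2) → Option (Option (Fin k)) → F2 := fun η o =>
    lc1 c (𝒢.S y 0) (o.elim y fun i => 𝒢.q i 0) η
  have hk : ∀ η : GQ → F2, (InB 𝒢 Δ c y η ∧ ∀ i j, η (tp (𝒢.q i j)) = 0) → L η = 0 → η ∈ C := by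
    intro η a h0
    refine hS η ⟨a.1.ch, fun w h30 hw g hg => ?_, fun p hp hΔ => ?_⟩
    · by_cases hq : ∃ i j, w.p = 𝒢.q i j
      · obtain ⟨i, j, e⟩ := hq
        refine ch_unr_top ?_ a.1.ch (by rw [e]; exact a.2 i j) hg
        rw [e]
        exact (𝒢.ar.gp i j).1.ne.1
      · push Not at hq
        exact a.1.unr w h30 (fun h => hw (Grid.mem_S.2 (Or.inr (Or.inl h))))
          (fun h => hw (Grid.mem_S.2 (Or.inl h))) hq g hg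
    · rcases Grid.mem_S.1 hp with rfl | h | ⟨i, rfl⟩
      · exact sub_eq_zero.1 (congrFun h0 none)
      · exact a.1.loc p h hΔ
      · exact sub_eq_zero.1 (congrFun h0 (some i))
  obtain ⟨σ, hσ⟩ := THBX.sep (s + (k + 2)) _ hs fun F hF => by
    have h1 : F.card ≤ 2 ^ s * (F.image L).card := by
      refine card_le_mul_card_image F _ fun v hv => le_trans ?_ hC
      obtain ⟨η₀, h₀, rfl⟩ := mem_image.1 hv
      refine card_le_card_of_injOn (fun η => η - η₀) (fun η hη => ?_)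
        (fun _ _ _ _ e => sub_left_injective e)
      obtain ⟨h2, h3⟩ := mem_filter.1 (mem_coe.1 hη)
      refine mem_coe.2 (hk _ (hs _ _ (hF _ h2) (hF _ h₀)) (funext fun o => ?_))
      have := congrFun h3 o
      simp only [L] at this ⊢
      rw [lc1_sub, this, sub_self, Pi.zero_apply]
    have h2 : (F.image L).card ≤ 2 ^ (k + 2) := by
      refine (card_le_univ _).trans (le_of_eq ?_)
      simp only [Fintype.card_fun, Fintype.card_option, Fintype.card_fin, ZMod.card]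
    rw [pow_add]
    exact h1.trans (Nat.mul_le_mul_left _ h2)
  exact ⟨σ, fun η a h0 b => hσ η ⟨a, b⟩ h0⟩

theorem hbx1 (𝒢 : Grid k M) (Δ : Finset ℕ) (r : GQ → O) (y : ℕ) (C : Finset (GQ → F2))
    (hC : C.card ≤ 2 ^ s) (hS : ∀ (e : F2) χ, Se1 Δ (cb r + e • qz (-1)) (𝒢.S y 0) χ → χ ∈ C) :
    ∃ σ : Fin (s + (k + 2) + (s + (k + 2))) → GQ, Tst 𝒢 Δ r y σ := by
  choose σ hσ using fun e : F2 => hbx0 𝒢 Δ _ y C hC (hS e)
  refine ⟨Fin.append (σ 0) (σ 1), fun e η a h => hσ e η a fun j => ?_⟩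
  rcases f2 e with rfl | rfl
  · simpa only [Fin.append_left] using h (Fin.castAdd _ j)
  · simpa only [Fin.append_right] using h (Fin.natAdd _ j)

omit [HA] in
theorem card_e4 (k M s : ℕ) :
    Fintype.card (Sl k M → Fin 4) ≤ 2 ^ ((4 * s + 8 * (k + 1)) * (M + 1)) := by
  rw [Fintype.card_fun, Fintype.card_fin, show 4 = 2 ^ 2 from rfl, ← pow_mul]
  refine Nat.pow_le_pow_right (by norm_num) ?_
  simp only [Sl, Fintype.card_prod, Fintype.card_fin, Fintype.card_option]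
  rw [← mul_assoc]
  exact Nat.mul_le_mul_right _ (by omega)

omit [HA] in
theorem Sit.lif_iff (𝒮 : Sit k M s) (n : ℕ) (z : Gz k M) : (∃ x, 𝒮.Lif n z x) ↔
    ∀ β, WK β (𝒮.rho (𝒮.rr β) z) (𝒮.S 𝒮.y z) n (ph 𝒮.toGrid (𝒮.φ β) (bt β) z) := by
  constructor
  · rintro ⟨x, hx⟩ β
    exact ⟨x β, hx β⟩
  · intro h
    choose x hx using h
    exact ⟨x, hx⟩

open Classical in
theorem grid (k s : ℕ) {ε : ℝ} (hk : 2 ≤ k) (hε : 0 < ε) : ∃ M₀ : ℕ, ∀ M, M₀ ≤ M →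
    ∀ (𝒢 : Grid k M) (r : GQ → O) (t : Bool → Bool), ∃ B : Finset (Gf k M → F2),
      (B.card : ℝ) ≤ ε * 2 ^ M ^ (k + 1) ∧ ∀ (Δ : Finset ℕ) (y : ℕ) (φ : Bool → GQ → F2)
      (C : Finset (GQ → F2)), 𝒢.Pt y → y % 4 = 3 → Q4 𝒢.q 𝒢.P → Par k (t true) (t false) →
      Bs Δ r → Δ ⊆ 𝒢.P → (∀ β z, Se1 Δ (cb (ty (t β) r)) (𝒢.S y z) (ph 𝒢 (φ β) (bt β) z)) →
      (∀ β i j, φ β (tp (𝒢.q i j)) = 0) → φ false (tp y) = 1 → C.card ≤ 2 ^ s →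
      (∀ (e : F2) χ, Se1 Δ (cb r + e • qz (-1)) (𝒢.S y 0) χ → χ ∈ C) → 𝒢.G y ∉ B →
      ((univ.filter fun z => ∀ β, WK β (tw (ty (t β) r) (𝒢.S y z)) (𝒢.S y z) (k + 1)
        (ph 𝒢 (φ β) (bt β) z)).card : ℝ) ≤
      (univ.filter fun z => ∀ β, WK β (tw (ty (t β) r) (𝒢.S y z)) (𝒢.S y z) k
        (ph 𝒢 (φ β) (bt β) z)).card / 2 + ε * (M + 1) ^ (k + 1) := by
  set s' := s + (k + 2) + (s + (k + 2)) with hs'
  obtain ⟨M₀, hM₀⟩ := a_CORE k (4 * s' + 8 * (k + 1)) ε hk hε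
  refine ⟨M₀, fun M hM 𝒢 r t => ?_⟩
  have h1 := fun e : Sl k M → Fin 4 => hM₀ M hM (TT k M s') (A1 _ _ _) (A2 _ _ _)
    (val 𝒢 (fun β => ty (t β) r) e) (TGRID.card_A1 _ _ _) (TGRID.card_TT _ _ _)
  choose B hB hB' using h1
  refine ⟨univ.biUnion B, ?_, ?_⟩
  · have hp : (0 : ℝ) < 2 ^ ((4 * s' + 8 * (k + 1)) * (M + 1)) := by positivity
    have h2 : ((univ.biUnion B).card : ℝ) ≤ ∑ e, ((B e).card : ℝ) := by
      exact_mod_cast card_biUnion_le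
    have h3 : (∑ e, ((B e).card : ℝ)) * 2 ^ ((4 * s' + 8 * (k + 1)) * (M + 1)) ≤
        Fintype.card (Sl k M → Fin 4) * (ε * 2 ^ M ^ (k + 1)) := by
      rw [sum_mul]
      refine (sum_le_sum fun e _ => hB e).trans ?_
      rw [sum_const, card_univ, nsmul_eq_mul]
    have h4 : (Fintype.card (Sl k M → Fin 4) : ℝ) ≤ 2 ^ ((4 * s' + 8 * (k + 1)) * (M + 1)) := by
      exact_mod_cast card_e4 k M s'
    have h5 : (0 : ℝ) ≤ ε * 2 ^ M ^ (k + 1) := by positivity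
    refine h2.trans (le_of_mul_le_mul_right (h3.trans ?_) hp)
    rw [mul_comm]
    exact mul_le_mul_of_nonneg_left h4 h5
  · intro Δ y φ C hy h3 q4 par bs hΔ hse hφ0 hRy hC hC' hG
    obtain ⟨σ, hσ⟩ := hbx1 𝒢 Δ r y C hC hC'
    obtain ⟨a, ha⟩ := adapt hy h3
    let 𝒮 : Sit k M s' := ⟨⟨𝒢, y, a, Δ, hΔ, hy, q4, ha⟩, r, t, φ, σ, bs, par, hse, hφ0, hRy, hσ⟩
    have hG' : 𝒢.G y ∉ B 𝒮.e := fun h => hG (mem_biUnion.2 ⟨_, mem_univ _, h⟩)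
    have h6 := hB' 𝒮.e 𝒮.Re
      (univ.filter fun z => ∀ β, WK β (tw (ty (t β) r) (𝒢.S y z)) (𝒢.S y z) (k + 1)
        (ph 𝒢 (φ β) (bt β) z)) (𝒢.G y) hG' (𝒮.clo (by omega))
      (fun z hz => (𝒮.re_iff z).2 ((𝒮.lif_iff k z).2 fun β =>
        ((mem_filter.1 hz).2 β).mono (Nat.le_succ k)))
      (fun ξ hξ => by
        obtain ⟨F, hF, hO⟩ := 𝒮.ort (by omega) hξ
        exact ⟨F, fun z hz => hF z ((𝒮.lif_iff (k + 1) z).2 (mem_filter.1 hz).2), hO⟩)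
    have h7 : (univ.filter fun z => ∃ δ, 𝒮.Re z δ) = univ.filter fun z => ∀ β,
        WK β (tw (ty (t β) r) (𝒢.S y z)) (𝒢.S y z) k (ph 𝒢 (φ β) (bt β) z) :=
      filter_congr fun z _ => (𝒮.re_iff z).trans (𝒮.lif_iff k z)
    rw [h7] at h6
    exact h6

end Pool.Agent.P.MP_8b7eba_nt.QT
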