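import Pool.Agent.P.MP_8b7eba_nt.QT.BasV

/-! Sums of cocycles over a grid, and the generation by test values. -/

namespace Pool.Agent.P.MP_8b7eba_nt.QT

open Finset R2 SM SM.BasM

variable {k M n s : ℕ} {𝒢 : Grid k M} {r : GQ → O} {y : ℕ} {c : Gz k M → Z2}
  {x : Gz k M → GQ → O} {R : F2} {o : Bool}

namespace THG

theorem key (R : F2) (hx : ∀ z, c z ≠ 0 → Zn (tw r (𝒢.S y z)) ⊤ n (x z)) (g h : GQ) :
    Dv n (∑ z, c z • xv 𝒢 R z (x z) (g * h) - ∑ z, c z • xv 𝒢 R z (x z) g -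
      ∑ z, c z • ac (tw r (𝒢.S y z)) g (xv 𝒢 R z (x z) h) - ∑ z, c z • er 𝒢 r y R g h z) := by
  rw [← sum_sub_distrib, ← sum_sub_distrib, ← sum_sub_distrib]
  refine Dv.sum fun z _ => of_eq (dv_of fun e => (hx z e).co g trivial h trivial) ?_
  rw [← smul_sub, ← smul_sub, ← smul_sub, er, xv, xv, xv, ac_sub]
  congr 1
  ring

theorem smooth (R : F2) (hx : ∀ z, c z ≠ 0 → Zn (tw r (𝒢.S y z)) ⊤ n (x z)) :
    ∃ N, ON N ∧ ∀ g, ∀ h ∈ N, mq 𝒢 (g * h) = mq 𝒢 g ∧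
      Dv n (∑ z, c z • xv 𝒢 R z (x z) (g * h) - ∑ z, c z • xv 𝒢 R z (x z) g) := by
  have h1 : ∀ z, ∃ N, ON N ∧ ∀ g, ∀ h ∈ N, c z ≠ 0 → Dv n (x z (g * h) - x z g) := fun z => by
    by_cases e : c z = 0
    · exact ⟨⊤, ON.top, fun _ _ _ e' => absurd e e'⟩
    · obtain ⟨N, a, b⟩ := (hx z e).sm
      exact ⟨N, a, fun g h m _ => b g trivial h trivial m⟩
  choose N a b using h1
  obtain ⟨N', a', b'⟩ := exists_ON_forall a
  obtain ⟨N'', a'', b''⟩ := mq_sm 𝒢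
  refine ⟨_, a'.inf a'', fun g h m => ⟨b'' g trivial h trivial m.2, ?_⟩⟩
  rw [← sum_sub_distrib]
  refine Dv.sum fun z _ => of_eq (dv_of (b z g h (b' z m.1))) ?_
  rw [← smul_sub, xv, xv, b'' g trivial h trivial m.2]
  congr 1
  ring

theorem twist (hy : 𝒢.Pt y) (r : GQ → O) (g : GQ) (a : O) (v : Gz k M → O)
    (h : PeO n c fun z => (cj g (lq 𝒢 g z) - cj g a) * v z) :
    Dv n (∑ z, c z • ac (tw r (𝒢.S y z)) g (v z) -
      a * ac (tw r (𝒢.S y 0)) g (∑ z, c z • v z)) := by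
  refine of_eq (Dv.ac h (tw r (𝒢.S y 0)) g) ?_
  rw [ac_sum, ac_sum, mul_sum, ← sum_sub_distrib]
  refine sum_congr rfl fun z _ => ?_
  rw [ac_smul, ac_smul, ac_mul, map_sub, cj_cj, cj_cj, ac, ac, tw_S hy r z, mul_smul_comm,
    ← smul_sub]
  congr 1
  ring

end THG

open THG

theorem hom (hy : 𝒢.Pt y) (hr : Cy r) (hx : ∀ z, c z ≠ 0 → Zn (tw r (𝒢.S y z)) ⊤ (n + 1) (x z))
    (h1 : ∀ l ∈ LamO k M, PeO (n + 1) c l)
    (h2 : ∀ l, MxO l → ∀ g, PeO (n + 1) c (l * fun z => xv 𝒢 R z (x z) g)) :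
    ∃ v : GQ → O, IsCh ⊤ (fun g => rd (v g)) ∧ ∀ g, ∑ z, c z • xv 𝒢 R z (x z) g = om ^ n * v g := by
  have hz : Zn (tw r (𝒢.S y 0)) ⊤ (n + 1) fun g => ∑ z, c z • xv 𝒢 R z (x z) g := by
    obtain ⟨N, a, b⟩ := smooth R hx
    refine ⟨⟨N, a, fun g _ h _ m => (b g h m).2⟩, fun g _ h _ => ?_⟩
    have e1 := twist hy r g 1 (fun z => xv 𝒢 R z (x z) h) (by
      rw [map_one]; exact h2 _ (lq_mem 𝒢 g g).2 h)
    exact of_eq (((key R hx g h).add e1).add (h1 _ (err_mem hy hr R g h))) (by ring)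
  have hd : ∀ g, ∃ v, ∑ z, c z • xv 𝒢 R z (x z) g = om ^ n * v := fun g => by
    refine dv_iff.1 ((dv_pow (j := 1)).1 (of_eq (add_comm n 1 ▸ h2 _ mx_om g) ?_))
    simp only [Pi.mul_apply, mul_sum, pow_one, mul_smul_comm]
  choose v hv using hd
  exact ⟨v, hz.isCh_pow (hr.tw (Grid.S_gp hy 0)) fun g _ => hv g, hv⟩

theorem clos1 (hy : 𝒢.Pt y) (hr : Cy r) {z₀ : Gz k M}
    (hx : ∀ z, c z ≠ 0 → Zn (tw r (𝒢.S y z)) ⊤ n (x z))
    (h1 : ∀ l ∈ LamO k M, Dv n (∑ z, c z • l z - l z₀))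
    (h2 : ∀ l ∈ LamO k M, ∀ g, PeO n c fun z => (l z - l z₀) * xv 𝒢 R z (x z) g) :
    Zn (tw r (𝒢.S y z₀)) ⊤ n fun g => ∑ z, c z • xv 𝒢 R z (x z) g + mq 𝒢 g z₀ * lf R := by
  obtain ⟨N, a, b⟩ := smooth R hx
  refine ⟨⟨N, a, fun g _ h _ m => ?_⟩, fun g _ h _ => ?_⟩
  · exact of_eq (b g h m).2 (by rw [(b g h m).1]; ring)
  · have e1 := twist hy r g (lq 𝒢 g z₀) (fun z => xv 𝒢 R z (x z) h) (h2 _ (lq_mem 𝒢 g g).1 h)
    refine of_eq (((key R hx g h).add e1).add (h1 _ (err_mem hy hr R g h))) ?_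
    rw [er, ac_add, ac, ac, ac, tw_S hy r z₀]
    ring

/-- the values of a family of cochains -/
def Xi (𝒢 : Grid k M) (R : F2) (x : Gz k M → GQ → O) : Set (Gz k M → O) :=
  Set.range fun g z => xv 𝒢 R z (x z) g

/-- the test values of a family of cochains -/
def Th (𝒢 : Grid k M) (σ : Fin s → GQ) (R : F2) (x : Gz k M → GQ → O) : Set (Gz k M → O) :=
  {f | ∃ τ, (∀ l, τ ≠ .inr (.inr l)) ∧ f = fun z => tv 𝒢 σ R z (x z) τ}

theorem Tst.ty {Δ : Finset ℕ} {σ : Fin s → GQ} (hr : Cy r) (h : Tst 𝒢 Δ r y σ) (b : Bool) :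
    Tst 𝒢 Δ (ty b r) y σ := fun e η hη => h (bt b + e) η (by
  rwa [hr.cb_ty, add_assoc, ← add_smul] at hη)

variable [HA]

theorem gen {𝒬 : QG k M} (hr : Bs 𝒬.Δ r) {σ : Fin s → GQ} (hσ : Tst 𝒬.toGrid 𝒬.Δ r 𝒬.y σ)
    {Y : Gz k M → Prop} (hW : ∀ z, Y z → Wn o (𝒬.rho r z) (𝒬.S 𝒬.y z) k (x z)) (R : F2) (n : ℕ) :
    n ≤ k → Gen n Y (Th 𝒬.toGrid σ R x) (Xi 𝒬.toGrid R x) := by
  induction n using Nat.strong_induction_on with
  | _ n ih =>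
  intro hn c hc hL hT
  rcases n with _ | n
  · exact fun _ _ => dv_nil _
  obtain ⟨v, hη, he⟩ := hom (R := R) 𝒬.pt hr.toCy
    (fun z hz => (hW z (hc z hz)).zn.mono le_rfl hn) hL fun l hl g =>
      alg1 (fun m hm => ih m hm (by omega)) hc hL (fun l hl => hT l hl.1) ⟨g, rfl⟩ hl
  have key : ∀ g, PeO (n + 1) c (fun z => xv 𝒬.toGrid R z (x z) g) ↔ rd (v g) = 0 := fun g => by
    rw [PeO, he, dv_pow, rd_eq_zero]
  have hB : InB 𝒬.toGrid 𝒬.Δ (cb r + (n : F2) • qz (-1)) 𝒬.y fun g => rd (v g) := by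
    refine ⟨hη, fun w hw hP hy hq g hg => (key g).1 (peO_of fun z hz => ?_), fun p hp hΔ => ?_⟩
    · rw [xv, mq_I (fun e => hw (by rw [e]; norm_num)) hq hg, zero_mul, sub_zero]
      exact ((hW z (hc z hz)).unr w hw (not_mem_S hP hy hq) g hg).mono hn
    · have h1 : Lc o (𝒬.rho r 0) (pl p).D k fun g => ∑ z, c z • x z g :=
        Lc.sum fun z _ hz => ((hW z (hc z hz)).loc p
          (mem_union_left _ (Grid.mem_S.2 (.inr (.inl hp))))).congr_rho fun g hg =>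
            tw_eq 𝒬.pt r (fun i j => 𝒬.q4.aP i j p (mem_union_left _ hp) g hg) 0 z
      have h2 := (lc_pow (rl_shn n _) (al_om n) (x := fun g => om ^ n * v g) fun _ _ => rfl).1
        ((h1.mono hn).congr fun g hg => of_eq dv_zero (by
          simp only [← he, xv, mq_loc (mem_union_left _ hp) hg, zero_mul, sub_zero, sub_self]))
      rw [QG.rho, ← tw_shn] at h2
      rw [← hr.toCy.cb_shn]
      exact lc_se (hr.shn n) (𝒬.gp 0) (Grid.mem_S.2 (.inr (.inl hp))) hΔ h2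
  have h0 := hσ _ _ hB (fun j => (key _).1 (by
      simpa [tv] using hT 1 (one_mem _) _ ⟨.inl j, fun _ => Sum.inl_ne_inr, rfl⟩))
    fun a j => (key _).1 (by
      have e1 := hT 1 (one_mem _) _ ⟨.inr (.inl (a, j)), fun _ => by simp, rfl⟩
      refine (e1.add (hL _ (tq_mem 𝒬.toGrid R (a, j)))).congr fun z _ => of_eq dv_zero ?_
      simp only [tv, xv, Pi.add_apply, one_mul]
      ring)
  rintro ξ ⟨g, rfl⟩
  exact (key g).2 (congrFun h0 g)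

theorem clos2 {𝒬 : QG k M} (hr : Bs 𝒬.Δ r) {z₀ : Gz k M} {X : GQ → O}
    (hW : ∀ z, c z ≠ 0 → Wn o (𝒬.rho r z) (𝒬.S 𝒬.y z) k (x z))
    (hX : ∀ g, X g = ∑ z, c z • xv 𝒬.toGrid R z (x z) g + mq 𝒬.toGrid g z₀ * lf R)
    (hZ : Zn (𝒬.rho r z₀) ⊤ k X) (ht : ∀ i j, z₀ i ≠ j → Dv k (X (tp (𝒬.q i j))))
    (hf : ∀ i q, q = 𝒬.q i (z₀ i) → Dv (k + 2)
      (fq (qz (-1) (fr q)) (𝒬.rho r z₀ (fr q)) (𝒬.rho r z₀ (tp q)) (X (fr q)) (X (tp q)))) :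
    Wn o (𝒬.rho r z₀) (𝒬.S 𝒬.y z₀) k X := by
  have key : ∀ g, (∀ z, Dv k (mq 𝒬.toGrid g z)) → Dv k (X g - ∑ z, c z • x z g) := fun g hm => by
    refine of_eq (((hm z₀).mul_right (lf R)).sub
      (Dv.sum (S := univ) fun z _ => ((hm z).mul_right (lf R)).smul (c z))) ?_
    simp only [hX, xv, smul_sub, sum_sub_distrib]
    ring
  have cy := 𝒬.cy hr.toCy
  refine ⟨⟨⟨hZ, fun w hw hS g hg => ?_⟩, ?_⟩, fun p hp => ?_⟩
  · have h2 : w.p ≠ 2 := fun e => hw (by rw [e]; norm_num)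
    by_cases hq : ∃ i j, w.p = 𝒬.q i j
    · obtain ⟨i, j, e⟩ := hq
      exact hZ.unr (cy z₀) h2 (e ▸ ht i j fun h => hS (e ▸ (Grid.q_mem 𝒬.pt i j).2 h)) hg
        ((𝒬.tw hr z₀).unr w hw hS g hg)
    · push Not at hq
      refine of_eq ((key g fun z => of_eq dv_zero (mq_I h2 hq hg z)).add
        (peO_of (c := c) fun z hz => (hW z hz).unr w hw (not_mem_S (fun h => hS (Grid.mem_S.2 (.inr (.inl h))))
          (fun h => hS (Grid.mem_S.2 (.inl h))) hq) g hg)) (sub_add_cancel _ _).symm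
  · exact (Lc.sum (s := univ) fun z _ hc => (hW z hc).inf.congr_rho fun g hg =>
      𝒬.rho_Ht r hg z₀ z).congr fun g hg => key g fun z => of_eq dv_zero (mq_Ht hg z)
  · by_cases h0 : p ∈ insert 𝒬.y 𝒬.P ∪ T30
    · obtain ⟨a, u, -, h1, h2, -⟩ := 𝒬.loc h0
      refine (lc_cn (cy z₀) hZ a).1 ((Lc.sum (s := univ) fun z _ hc =>
        (((hW z hc).loc p (𝒬.mem_loc h0 z)).cnj (cy z) (hW z hc).zn a).congr_rho
          (h1 r z₀ z)).congr fun g hg => key _ fun z => of_eq (dv_om k _) (h2 z g hg))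
    · have h1 : p ∈ 𝒬.S 𝒬.y z₀ := (mem_union.1 hp).resolve_right fun h => h0 (mem_union_right _ h)
      have hg := 𝒬.gp z₀ p h1
      obtain ⟨i, hi⟩ : ∃ i, 𝒬.q i (z₀ i) = p := by
        rcases Grid.mem_S.1 h1 with h | h | h
        · exact absurd (mem_union_left _ (mem_insert.2 (Or.inl h))) h0
        · exact absurd (mem_union_left _ (mem_insert.2 (Or.inr h))) h0
        · exact h
      exact (lc_iff (cy z₀) hg.1 hg.ne.1 (hr.ram (𝒬.gp z₀) h1 (hi ▸ 𝒬.nq _ _)) (hZ.res _)).2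
        (hf i p hi.symm)

end Pool.Agent.P.MP_8b7eba_nt.QT
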