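import Pool.Agent.P.MP_8b7eba_nt.QT.THG

/-! The system of test values is closed. -/

namespace Pool.Agent.P.MP_8b7eba_nt.QT

open Finset R2 SM SM.BasM

variable {k M s n : ℕ} {c : Gz k M → Z2} {δ δ' : TT k M s → Z2} {β : Bool}
  {τ : Fin s ⊕ Sl k M ⊕ Sl k M} {ξ : Gz k M → TT k M s → Z2}

theorem dd_eq (δ : TT k M s → Z2) (β : Bool) (τ : Fin s ⊕ Sl k M ⊕ Sl k M) :
    dd δ β τ = δ (β, 0, τ) • (1 : O) + δ (β, 1, τ) • ii := by
  ext <;> simp [dd, QuadraticAlgebra.re_one, QuadraticAlgebra.im_one]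

theorem dd_sum {a : Z2} (h : ∀ i, 2 ^ n ∣ ∑ z, c z * ξ z (β, i, τ) - a * δ (β, i, τ)) :
    Dv (2 * n) (∑ z, c z • dd (ξ z) β τ - a • dd δ β τ) := by
  refine of_eq ((dv_smul (h 0) 1).add (dv_smul (h 1) ii)) ?_
  simp only [dd_eq, smul_add, sum_add_distrib, smul_smul, sub_smul, sum_smul]
  ring

theorem dd_sub (h : ∀ t, 2 ^ n ∣ δ t - δ' t) (β : Bool) (τ : Fin s ⊕ Sl k M ⊕ Sl k M) :
    Dv (2 * n) (dd δ β τ - dd δ' β τ) := dv_two_iff.2 ⟨h _, h _⟩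

theorem exo_le (τ : Fin s ⊕ Sl k M ⊕ Sl k M) : exo τ ≤ 1 := by
  rcases τ with _ | _ | _ <;> simp [exo]

theorem mem_A (h : ∀ l, τ ≠ .inr (.inr l)) (β : Bool) (i : Fin 2) :
    (β, i, τ) ∈ A1 k M s ∨ (β, i, τ) ∈ A2 k M s := by
  rcases τ with j | l | l
  · exact .inl (mem_filter.2 ⟨mem_univ _, j, rfl⟩)
  · exact .inr (mem_filter.2 ⟨mem_univ _, l, rfl⟩)
  · exact absurd rfl (h l)

theorem exists_div {j : ℕ} {θ D : Gz k M → O} (h : ∀ z, c z ≠ 0 → Dv (n + j) (om ^ j * θ z - D z)) :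
    ∃ θ' : Gz k M → O, ∀ z, c z ≠ 0 → D z = om ^ j * θ' z ∧ Dv n (θ z - θ' z) := by
  choose! w hw using fun z hz => dv_iff.1 (h z hz)
  refine ⟨fun z => θ z - om ^ n * w z, fun z hz => ⟨?_, of_eq (dv_om n (w z)) (by ring)⟩⟩
  linear_combination -hw z hz

theorem sum_div {j : ℕ} {θ D : Gz k M → O} (h : ∀ z, c z ≠ 0 → D z = om ^ j * θ z)
    (l : Gz k M → Z2) : om ^ j * ∑ z, (c z * l z) • θ z = ∑ z, (c z * l z) • D z := by
  rw [mul_sum]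
  refine sum_congr rfl fun z _ => ?_
  by_cases e : c z = 0
  · simp [e]
  · rw [h z e, mul_smul_comm]

namespace Sit

variable (𝒮 : Sit k M s)

theorem re_iff (z : Gz k M) : (∃ δ, 𝒮.Re z δ) ↔ ∃ x, 𝒮.Lif k z x := by
  refine ⟨fun ⟨_, x, hx, _⟩ => ⟨x, hx⟩, fun ⟨x, hx⟩ => ⟨fun t =>
    let a := om ^ exo t.2.2 * tv 𝒮.toGrid 𝒮.σ (bt t.1) z (x t.1) t.2.2
    if t.2.1 = 0 then a.re else a.im, x, hx, fun β τ => of_eq dv_zero (sub_eq_zero.2 ?_)⟩⟩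
  ext <;> simp [dd]

theorem cho (hξ : Cho 𝒮.Re ξ) : ∃ x : Gz k M → Bool → GQ → O, ∀ z, (∃ δ, 𝒮.Re z δ) →
    𝒮.Lif k z (x z) ∧ ∀ β τ, Dv (k + exo τ)
      (om ^ exo τ * tv 𝒮.toGrid 𝒮.σ (bt β) z (x z β) τ - dd (ξ z) β τ) := by
  choose! x hx using hξ
  exact ⟨x, hx⟩

variable [HA]

theorem bsr (β : Bool) : Bs 𝒮.Δ (𝒮.rr β) := 𝒮.bs.ty _

omit [HA] in
theorem rho_fr (r : GQ → O) (z : Gz k M) (l : Sl k M) : 𝒮.rho r z (fr (𝒮.q l.1 l.2)) =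
    ii ^ (𝒮.e l : ℕ) * tw r (S0 𝒮.toGrid z) (fr (𝒮.q l.1 l.2)) := tw_S0 𝒮.pt r z _

theorem rho_tp (r : GQ → O) (z : Gz k M) (l : Sl k M) : 𝒮.rho r z (tp (𝒮.q l.1 l.2)) =
    tw r (S0 𝒮.toGrid z) (tp (𝒮.q l.1 l.2)) := by
  have hp := gq 𝒮.toGrid l.1 l.2
  rw [QG.rho, tw_S0 𝒮.pt, kq_ps_I (w := pl (𝒮.q l.1 l.2)) 𝒮.pt.gp.1
    (by rw [pl_p hp.1]; exact hp.ne.1) (by rw [pl_p hp.1]; exact 𝒮.pt.nq _ _) (tp_I hp.1 hp.ne.1),
    one_mul]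

theorem sub_val (hk : 1 ≤ k) {z : Gz k M} (h : 𝒮.Re z δ) :
    val 𝒮.toGrid 𝒮.rr 𝒮.e z δ ∧ ∀ t ∈ A2 k M s, 2 ∣ δ t := by
  obtain ⟨x, hx, hδ⟩ := h
  have d1 : ∀ β (l : Sl k M), ∃ b, om * b = dd δ β (.inr (.inl l)) ∧
      Dv k (x β (tp (𝒮.q l.1 l.2)) - (b + tq (bt β) z l)) := fun β l => by
    obtain ⟨w, hw⟩ := dv_iff.1 (hδ β (.inr (.inl l)))
    simp only [exo, tv] at hw
    exact ⟨x β (tp (𝒮.q l.1 l.2)) - tq (bt β) z l - om ^ k * w, by linear_combination hw,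
      of_eq (dv_om k w) (by ring)⟩
  refine ⟨fun β l => ?_, fun t ht => ?_⟩
  · obtain ⟨b, b1, b2⟩ := d1 β l
    have hp := gq 𝒮.toGrid l.1 l.2
    refine ⟨b, b1, fun h => ?_, fun h => ?_⟩
    · have e := pl_p hp.1
      have h1 := (hx β).1.unr (pl (𝒮.q l.1 l.2)) (by rw [e]; exact hp.2)
        (by rw [e]; exact fun hm => h ((Grid.q_mem 𝒮.pt _ _).1 hm)) _ (tp_I hp.1 hp.ne.1)
      exact of_eq (h1.sub b2) (by ring)
    · have h1 := (hx β).1.locp (𝒮.bsr β) (𝒮.gp z) ((Grid.q_mem 𝒮.pt _ _).2 h) (𝒮.nq _ _)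
      have h2 := hδ β (.inr (.inr l))
      simp only [exo, tv, xv, pow_zero, one_mul, add_zero, sub_sub, add_comm (_ * lf _)] at h2
      have cy := 𝒮.cy (𝒮.bsr β).toCy z
      rw [← 𝒮.rho_fr, ← 𝒮.rho_tp]
      exact of_eq (h1.sub (fq_congr (cy.rd _) (cy.rd _) h2 b2 _)) (sub_sub_cancel _ _).symm
  · obtain ⟨β, i, t⟩ := t
    obtain ⟨l, rfl⟩ : ∃ l, t = .inr (.inl l) := (mem_filter.1 ht).2
    obtain ⟨b, b1, b2⟩ := d1 β l
    have h1 : Dv 1 (x β (tp (𝒮.q l.1 l.2)) - tq (bt β) z l) :=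
      rd_eq.1 (((hx β).2 _).trans (𝒮.ph_tp β z l))
    have h2 : Dv (2 * 1) (dd δ β (.inr (.inl l))) :=
      of_eq ((dv_pow (j := 1)).2 (h1.sub (b2.mono hk))) (by rw [← b1]; ring)
    have h3 := dv_two_iff.1 h2
    rw [pow_one] at h3
    fin_cases i
    exacts [h3.1, h3.2]

theorem clo (hk : 1 ≤ k) : Clo (A1 k M s) (A2 k M s) (val 𝒮.toGrid 𝒮.rr 𝒮.e) 𝒮.Re := by
  have cy := fun β => 𝒮.cy (𝒮.bsr β).toCy
  refine ⟨fun z δ δ' e h β l => ?_, fun z δ δ' e ⟨x, hx, h⟩ => ⟨x, hx, fun β τ => ?_⟩,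
    fun z δ => 𝒮.sub_val hk, fun ξ hξ c z₀ δ hc hv h1 h2 h3 => ?_⟩
  · obtain ⟨b, b1, b2, b3⟩ := h β l
    obtain ⟨w, hw⟩ := dv_iff.1 ((dd_sub e β (.inr (.inl l))).mono (show k + 1 ≤ _ by omega))
    refine ⟨b - om ^ k * w, by linear_combination b1 + hw, fun hz =>
      of_eq ((b2 hz).sub (dv_om k w)) (by ring), fun hz => ?_⟩
    have h4 := b3 hz
    rw [← 𝒮.rho_fr, ← 𝒮.rho_tp] at h4 ⊢
    exact of_eq (h4.sub (fq_congr ((cy β z).rd _) ((cy β z).rd _)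
      (of_eq ((dd_sub e β (.inr (.inr l))).mono (by omega)) (add_sub_add_right_eq_sub ..))
      (of_eq (dv_om k w) (by ring)) _)) (sub_sub_cancel _ _).symm
  · exact (h β τ).trans ((dd_sub e β τ).mono (by have := exo_le τ; omega))
  obtain ⟨x, hx⟩ := 𝒮.cho hξ
  have hW : ∀ β z, c z ≠ 0 → Wn β (𝒮.rho (𝒮.rr β) z) (𝒮.S 𝒮.y z) k (x z β) :=
    fun β z h => ((hx z (hc z h)).1 β).1
  have g1 : ∀ l ∈ LamO k M, Dv k (∑ z, c z • l z - l z₀) := fun l hl => by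
    simpa using conv_lam (c := c) (F := 1) (F₀ := 1) (z₀ := z₀) zero_le_one (fun l hl => by
      refine dv_two.1 (of_eq (dv_smul (h1 l hl) 1) ?_)
      simp only [pow_zero, one_mul, Pi.one_apply, sub_smul, sum_smul]) hl
  obtain ⟨X, hX⟩ : ∃ X : Bool → GQ → O, ∀ β g, X β g =
    ∑ z, c z • xv 𝒮.toGrid (bt β) z (x z β) g + mq 𝒮.toGrid g z₀ * lf (bt β) := ⟨_, fun _ _ => rfl⟩
  have hZ : ∀ β, Zn (𝒮.rho (𝒮.rr β) z₀) ⊤ k (X β) := fun β => by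
    rw [funext (hX β)]
    refine clos1 𝒮.pt (𝒮.bsr β).toCy (fun z h => (hW β z h).zn) g1 fun l hl g => ?_
    refine alg2 (gen (x := fun z => x z β) (𝒮.bsr β) (𝒮.hσ.ty 𝒮.bs.toCy _) (hW β) (bt β))
      (fun _ h => h) g1 ?_ ⟨g, rfl⟩ hl
    rintro _ ⟨τ, hτ, rfl⟩
    obtain ⟨θ, hθ⟩ := exists_div fun z hz => (hx z (hc z hz)).2 β τ
    obtain ⟨a, ha⟩ : ∃ a, dd δ β τ = om ^ exo τ * a := by
      rcases τ with j | l | l
      · exact ⟨_, (one_mul _).symm.trans (by rw [exo, pow_zero]; exact fun _ => Sum.inl_ne_inr)⟩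
      · exact let ⟨b, b1, _⟩ := hv β l; ⟨b, by rw [← b1, exo, pow_one]⟩
      · exact absurd rfl (hτ l)
    refine ⟨a, fun l hl => of_eq ((conv_lam (c := c) (F := θ) (F₀ := a) (z₀ := z₀)
      (exo_le τ) (fun l hl => ?_) hl).add (peO_of (c := c) fun z hz => (hθ z hz).2.mul_left (l z))) ?_⟩
    · rw [mul_sub, sum_div fun z hz => (hθ z hz).1, mul_smul_comm, ← ha]
      exact dv_two.1 (dd_sum fun i => by
        simpa only [mul_assoc] using h2 l hl _ (mem_A hτ β i))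
    · simp only [mul_sub, smul_sub, sum_sub_distrib]
      ring
  have hs : ∀ β τ, Dv (k + exo τ)
      (om ^ exo τ * ∑ z, c z • tv 𝒮.toGrid 𝒮.σ (bt β) z (x z β) τ - dd δ β τ) := fun β τ => by
    refine of_eq (Dv.add (peO_of (c := c) fun z hz => (hx z (hc z hz)).2 β τ)
      ((dd_sum (a := 1) (δ := δ) fun i => by simpa using h3 (β, i, τ)).mono
        (by have := exo_le τ; omega))) ?_
    simp only [smul_sub, sum_sub_distrib, one_smul, mul_sum, mul_smul_comm]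
    ring
  have hT : ∀ β τ, Dv (k + exo τ)
      (om ^ exo τ * tv 𝒮.toGrid 𝒮.σ (bt β) z₀ (X β) τ - dd δ β τ) := by
    have a : ∀ β g, xv 𝒮.toGrid (bt β) z₀ (X β) g = ∑ z, c z • xv 𝒮.toGrid (bt β) z (x z β) g :=
      fun β g => by rw [xv, hX, add_sub_cancel_right]
    rintro β (j | l | l)
    · simpa only [tv, a] using hs β (.inl j)
    · refine of_eq ((hs β (.inr (.inl l))).add
        (add_comm 1 k ▸ (dv_pow (j := 1)).2 (g1 _ (tq_mem 𝒮.toGrid (bt β) l)))) ?_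
      simp only [tv, hX, xv, exo, smul_sub, sum_sub_distrib]
      ring
    · simpa only [tv, a] using hs β (.inr (.inr l))
  have d1 : ∀ β (l : Sl k M) b, om * b = dd δ β (.inr (.inl l)) →
      Dv k (X β (tp (𝒮.q l.1 l.2)) - (b + tq (bt β) z₀ l)) := fun β l b b1 => by
    refine (dv_pow (j := 1)).1 (of_eq (add_comm k 1 ▸ hT β (.inr (.inl l))) ?_)
    simp only [exo, tv, ← b1]
    ring
  refine ⟨X, fun β => ⟨clos2 (x := fun z => x z β) (𝒮.bsr β) (hW β) (hX β) (hZ β)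
    (fun i j hz => ?_) ?_, fun g => ?_⟩, hT⟩
  · obtain ⟨b, b1, b2, -⟩ := hv β (i, j)
    exact of_eq ((d1 β _ b b1).add (b2 hz)) (sub_add_cancel _ _).symm
  · rintro i _ rfl
    obtain ⟨b, b1, -, b3⟩ := hv β (i, z₀ i)
    have h4 := b3 rfl
    have h5 := hT β (.inr (.inr (i, z₀ i)))
    simp only [exo, tv, xv, pow_zero, one_mul, add_zero, sub_sub, add_comm (_ * lf _)] at h5
    rw [← 𝒮.rho_fr, ← 𝒮.rho_tp] at h4
    exact of_eq ((fq_congr ((cy β z₀).rd _) ((cy β z₀).rd _) h5 (d1 β _ b b1) _).add h4)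
      (sub_add_cancel _ _).symm
  · have e1 : ∑ z, PadicInt.toZMod (c z) = (1 : F2) := by
      have := rd_eq.2 ((g1 1 (one_mem _)).mono hk)
      simpa only [rd_sum, rd_smul, Pi.one_apply, rd_one, mul_one] using this
    have e2 : ∀ z ∈ univ, rd (c z • xv 𝒮.toGrid (bt β) z (x z β) g) =
        PadicInt.toZMod (c z) * (𝒮.φ β g + qs (𝒮.q none 0) g * bt β) := fun z _ => by
      rw [rd_smul]
      by_cases h0 : c z = 0
      · rw [h0, map_zero, zero_mul, zero_mul]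
      · rw [rd_xv (((hx z (hc z h0)).1 β).2 g)]
    rw [hX, rd_add, rd_sum, sum_congr rfl e2, ← sum_mul, e1, one_mul, rd_mul, rd_lf, mq_red,
      ph, add_assoc, ← add_mul, add_left_comm, CharTwo.add_self_eq_zero, add_zero]

end Sit

end Pool.Agent.P.MP_8b7eba_nt.QT
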