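import Pool.Agent.P.MP_8b7eba_nt.QT.TS2
import Pool.Agent.P.MP_8b7eba_nt.QT.TGL

/-! The pairing is orthogonal to the admissible vectors. -/

namespace Pool.Agent.P.MP_8b7eba_nt.QT

open Finset R2 SM SM.BasM

variable {k M s : ℕ} {𝒬 : QG k M} {r r' : GQ → O} {R : F2} {ψ η : GQ → F2} {c : Gz k M → Z2}
  {x : Gz k M → GQ → O} {l : Gz k M → ℕ → GQ → F2} {H : Subgroup GQ}

namespace TS3

theorem ch_mul {a : F2} {f : GQ → F2} (h : a ≠ 0 → IsCh H f) : IsCh H fun g => a * f g := by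
  rcases f2 a with rfl | rfl
  · exact ⟨by simpa using Sm.const (0 : F2), fun g _ k _ => by simp⟩
  · simpa using h one_ne_zero

theorem eta_zero (h : 𝒬.Sum r r' R ψ η c x l) {g : GQ}
    (e : Dv (k + 1) (∑ z, c z • xv 𝒬.toGrid R z (x z) g)) : η g = 0 := by
  have a := e.sub (h.sum g)
  rwa [sub_sub_cancel, dv_pow, ← rd_eq_zero, rd_lf] at a

theorem alg (h : 𝒬.Sum r r' R ψ η c x l) {g : GQ} (f a : Gz k M → F2)
    (hm : ∀ z, mq 𝒬.toGrid g z = om ^ k * lf (a z)) {L : F2}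
    (hL : L = η g + ∑ z, PadicInt.toZMod (c z) * f z + (∑ z, PadicInt.toZMod (c z) * a z) * R) :
    Dv (k + 1) (om ^ k * lf L - ∑ z, c z • (x z g - om ^ k * lf (f z))) := by
  have e : om ^ k * lf L - ∑ z, c z • (x z g - om ^ k * lf (f z)) =
      om ^ k * (lf L + ∑ z, c z • lf (f z) - ∑ z, c z • (lf (a z) * lf R) - lf (η g)) -
        (∑ z, c z • xv 𝒬.toGrid R z (x z) g - om ^ k * lf (η g)) := by
    simp only [xv, hm, smul_sub, sum_sub_distrib, mul_sub, mul_add, mul_sum, mul_smul_comm,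
      mul_assoc]
    ring
  rw [e]
  refine Dv.sub ?_ (h.sum g)
  rw [dv_pow, ← rd_eq_zero, rd_sub, rd_sub, rd_add, rd_sum, rd_sum, rd_lf, rd_lf]
  simp only [rd_smul, rd_lf, rd_mul, ← mul_assoc]
  rw [← sum_mul, hL]
  generalize ∑ z, PadicInt.toZMod (c z) * f z = A
  generalize (∑ z, PadicInt.toZMod (c z) * a z) * R = B
  generalize η g = C
  revert A B C
  decide

variable [HA]

theorem core (h : 𝒬.Sum r r' R ψ η c x l) (b : GQ) {z0 : Gz k M} (hz : c z0 ≠ 0)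
    (f a : Gz k M → GQ → F2) (hχ : ∀ z, ∀ g ∈ H, cn b (𝒬.rho r z0) g = cn b (𝒬.rho r z) g)
    (hx : ∀ z, c z ≠ 0 → Lc true (cn b (𝒬.rho r z)) H (k + 1)
      fun g => cn b (x z) g - om ^ k * lf (f z g))
    (hu : ∀ u, Wn false (𝒬.rho r' z0) (𝒬.S 𝒬.y z0) k u → Lc false (𝒬.rho r' z0) H k u)
    (hm : ∀ z, ∀ g ∈ H, mq 𝒬.toGrid (b * g * b⁻¹) z = om ^ k * lf (a z g)) {L : GQ → F2}
    (hL : ∀ g ∈ H, L g = η g + ∑ z, PadicInt.toZMod (c z) * f z g +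
      (∑ z, PadicInt.toZMod (c z) * a z g) * R) : Triv H (sgn (cu L ψ)) := by
  obtain ⟨u, u1, u2⟩ := (h.gy z0 hz).2.1
  obtain ⟨α, hα, hr⟩ := h.rl
  obtain ⟨m, rfl⟩ : ∃ m, k = m + 1 := ⟨k - 1, by have := h.k1; omega⟩
  have s := Lc.sum (s := univ) (c := c) fun z _ hc => (hx z hc).congr_rho (hχ z)
  have t := s.congr (x' := fun g => om ^ (m + 1) * lf (L g)) fun g hg =>
    alg h (fun z => f z g) (fun z => a z g) (fun z => hm z g hg) (by rw [h.ch.1.conj, hL g hg])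
  have c1 := 𝒬.cy h.bs.1.toCy z0
  have c2 := 𝒬.cy h.bs.2.toCy z0
  have e := triv_cu (c1.cn b) (c2.cn b) ((hr.tw _).cn b) hα t ((hu u u1).cnj c2 u1.zn b)
  rwa [show (fun g => rd (cn b u g)) = ψ from funext fun g => by rw [cn, u2, h.ch.2.conj]] at e

theorem loc (h : 𝒬.Sum r r' R ψ η c x l) {z0 : Gz k M} (hz : c z0 ≠ 0) {p : ℕ}
    (hp : p ∈ insert 𝒬.y 𝒬.P ∪ T30) : iv p (cu η ψ) = ∑ z, PadicInt.toZMod (c z) *
      (iv p (cu (l z p) ψ) + if p = 𝒬.y then ex (𝒬.G 𝒬.y) z * (R * ψ (tp 𝒬.y)) else 0) := by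
  obtain ⟨b, u, u1, u2, u3, u4⟩ := 𝒬.loc hp
  have t := core h (H := (pl p).D) b hz (fun z => l z p) (fun z g => u g * ex (𝒬.G 𝒬.y) z)
    (u2 r z0) (fun z hc => (((h.gy z hc).2.2 p hp).cnj (𝒬.cy h.bs.1.toCy z) (h.gy z hc).1.zn b).2)
    (fun u hu => hu.loc p (𝒬.mem_loc hp z0)) u3
    (L := fun g => (η g + ∑ z, PadicInt.toZMod (c z) * l z p g) +
      u g * ((∑ z, PadicInt.toZMod (c z) * ex (𝒬.G 𝒬.y) z) * R)) fun g _ => by
      simp only [mul_left_comm _ (u g), ← mul_sum, mul_assoc]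
  have t0 : iv p (cu (fun g => (η g + ∑ z, PadicInt.toZMod (c z) * l z p g) +
      u g * ((∑ z, PadicInt.toZMod (c z) * ex (𝒬.G 𝒬.y) z) * R)) ψ) = 0 := if_pos t
  have hl : ∀ z ∈ (univ : Finset (Gz k M)), PadicInt.toZMod (c z) ≠ 0 → IsCh (pl p).D (l z p) :=
    fun z _ hc => ((h.gy z fun e => hc (by rw [e, map_zero])).2.2 p hp).1
  have hη : IsCh (pl p).D η := h.ch.1.mono le_top
  have hψ : IsCh (pl p).D ψ := h.ch.2.mono le_top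
  have hs : IsCh (pl p).D fun g => ∑ z, PadicInt.toZMod (c z) * l z p g :=
    IsCh.sum fun z hz => ch_mul (hl z hz)
  rw [iv_cu_add (l' := fun g => u g * _) (hη.add hs) (u1.smul _) hψ, iv_cu_add hη hs hψ,
    iv_cu_sum hl hψ, add_assoc, u4 _ ψ hψ] at t0
  rw [CharTwo.add_eq_zero.1 t0]
  simp only [mul_add, sum_add_distrib]
  congr 1
  split_ifs
  · simp only [sum_mul, mul_assoc]
  · simp

end TS3

open TS3

variable [HA]

theorem suml (h : 𝒬.Sum r r' R ψ η c x l) :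
    (∀ p ∈ insert 𝒬.y 𝒬.P ∪ T30, iv p (cu η ψ) = ∑ z, PadicInt.toZMod (c z) *
      (iv p (cu (l z p) ψ) + if p = 𝒬.y then ex (𝒬.G 𝒬.y) z * (R * ψ (tp 𝒬.y)) else 0)) ∧
    Triv Ht (sgn (cu η ψ)) ∧ ∀ w : Pl, ¬ w.p ∣ 30 → w.p ∉ 𝒬.P → w.p ≠ 𝒬.y →
      (∀ i j, w.p ≠ 𝒬.q i j) → ∀ g ∈ w.I, η g = 0 := by
  have U : ∀ w : Pl, ¬ w.p ∣ 30 → w.p ∉ 𝒬.P → w.p ≠ 𝒬.y →
      (∀ i j, w.p ≠ 𝒬.q i j) → ∀ g ∈ w.I, η g = 0 := fun w h1 h2 h3 h4 g hg => by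
    refine eta_zero h (peO_of (c := c) fun z hc => ?_)
    rw [xv, mq_I (fun e => h1 (by rw [e]; norm_num)) h4 hg, zero_mul, sub_zero]
    exact (h.gy z hc).1.unr w h1 (not_mem_S h2 h3 h4) g hg
  by_cases hc : ∀ z, c z = 0
  · have e : ∀ g, η g = 0 := fun g => eta_zero h (peO_of (c := c) fun z a => absurd (hc z) a)
    have e' : ∀ g g', cu η ψ g g' = 0 := fun g g' => by simp [cu, e]
    refine ⟨fun p _ => ?_, Triv.one.congr fun g _ g' _ => by simp [sgn, e'], U⟩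
    rw [BasN.zero fun g _ g' _ => e' g g']
    simp [hc]
  obtain ⟨z0, hz⟩ := not_forall.1 hc
  refine ⟨fun p hp => loc h hz hp, ?_, U⟩
  exact core h 1 hz (fun _ _ => 0) (fun _ _ => 0)
    (fun z g hg => by rw [cn_one, cn_one, 𝒬.rho_Ht r hg z0 z])
    (fun z hc => by
      rw [cn_one, cn_one]
      exact (h.gy z hc).1.inf.congr fun g _ => of_eq dv_zero (by simp [lf_zero]))
    (fun u hu => hu.inf) (fun z g hg => by simp [mq_Ht hg, lf_zero]) fun g _ => by simp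

theorem sumf (𝒮 : Sit k M s) (h : 𝒮.Sum r r' (bt true) (𝒮.φ false) η c x l) :
    ∑ z, PadicInt.toZMod (c z) *
      (∑ p ∈ insert 𝒮.y 𝒮.P ∪ T30, iv p (cu (l z p) (𝒮.φ false)) + ex (𝒮.G 𝒮.y) z) = 0 := by
  obtain ⟨h1, h2, h3⟩ := suml h
  obtain ⟨-, p2, p3, p4⟩ := 𝒮.psi
  have hS : ∀ p ∈ insert 𝒮.y 𝒮.P ∪ T30, p.Prime := fun p hp =>
    (mem_union.1 (𝒮.mem_loc hp 0)).elim (fun a => (𝒮.gp 0 p a).1) fun a => (mem_T30.1 a).1
  have h4 := recp_iv hS (co2_cu h.ch.1 p2) h2 fun w hw => by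
    have a1 : ¬ w.p ∣ 30 := fun e => hw (mem_union_right _ (mem_T30.2 ⟨w.prime, e⟩))
    have a2 : w.p ∉ 𝒮.P := fun e => hw (mem_union_left _ (mem_insert_of_mem e))
    have a3 : w.p ≠ 𝒮.y := fun e => hw (mem_union_left _ (mem_insert.2 (Or.inl e)))
    by_cases a4 : ∀ i j, w.p ≠ 𝒮.q i j
    · exact triv_cu_unr (h.ch.1.mono le_top) (p2.mono le_top) fun g hg =>
        ⟨h3 w a1 a2 a3 a4 g hg, p4 w a1 a2 a3 g hg⟩
    · push Not at a4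
      obtain ⟨i, j, e⟩ := a4
      refine Triv.one.congr fun g _ g' hg' => ?_
      have a5 := ch_D_top p2 (fun g hg => p3 i j g (e ▸ hg)) hg'
      simp [sgn, cu, a5]
  rw [sum_congr rfl h1, sum_comm] at h4
  rw [← h4]
  refine sum_congr rfl fun z _ => ?_
  rw [← mul_sum, sum_add_distrib, sum_ite_eq', if_pos (mem_union_left _ (mem_insert_self _ _)),
    𝒮.Ry, bt_true, mul_one, mul_one]

theorem Sit.ort (𝒮 : Sit k M s) (hk : 1 ≤ k) {ξ : Gz k M → TT k M s → Z2} (hξ : Cho 𝒮.Re ξ) :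
    ∃ F : Gz k M → F2, (∀ z, (∃ x, 𝒮.Lif (k + 1) z x) → F z = 0) ∧
      Ort (A1 k M s) (A2 k M s) (fun z => ∃ δ, 𝒮.Re z δ) ξ (F + ex (𝒮.G 𝒮.y)) := by
  obtain ⟨n, rfl⟩ : ∃ n, k = n + 1 := ⟨k - 1, by omega⟩
  obtain ⟨x, hx⟩ := 𝒮.cho hξ
  have tw := fun β => 𝒮.tw (𝒮.bsr β)
  have hy : ∀ z, (∃ δ, 𝒮.Re z δ) → ∃ (y : GQ → O) (l : ℕ → GQ → F2),
      Gy true (𝒮.rho (𝒮.rr true) z) (𝒮.S 𝒮.y z) (n + 2) y ∧ (∀ g, Dv (n + 1) (y g - x z true g)) ∧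
        ∀ p ∈ 𝒮.S 𝒮.y z ∪ T30, Ld true (𝒮.rho (𝒮.rr true) z) (n + 1) y p (l p) := fun z h => by
    obtain ⟨y, h1, h2, h3⟩ := glift (tw true z) ((hx z h).1 true).1
    choose! l hl using h3
    exact ⟨y, l, h1, h2, hl⟩
  choose! y l hy using hy
  obtain ⟨p1, p2, p3, -⟩ := 𝒮.psi
  obtain ⟨α, hα, hr⟩ := par_rl 𝒮.par 𝒮.r
  have hψ : ∀ z, (∃ δ, 𝒮.Re z δ) → ∀ g, rd (x z false g) = 𝒮.φ false g := fun z h g => by
    rw [((hx z h).1 false).2, p1]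
  refine ⟨fun z => ∑ p ∈ insert 𝒮.y 𝒮.P ∪ T30, iv p (cu (l z p) (𝒮.φ false)), ?_, ?_⟩
  · rintro z ⟨x', hx'⟩
    have h : ∃ δ, 𝒮.Re z δ :=
      (𝒮.re_iff z).2 ⟨x', fun β => ⟨(hx' β).1.mono (Nat.le_succ _), (hx' β).2⟩⟩
    have h0 := zero_pair (tw true z) (tw false z) (hr.tw _) hα (hx' true).1 (hy z h).1
      (fun g => by
        rw [rd_eq.2 (((hy z h).2.1 g).mono (by omega)), ((hx z h).1 true).2, (hx' true).2])
      (hy z h).2.2 ((hx z h).1 false).1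
    rw [funext (hψ z h), Grid.sum_S 𝒮.pt,
      sum_eq_zero fun i _ => iv_cu_zero (p3 i (z i)), add_zero] at h0
    exact h0
  · intro c hc hL hT
    have g1 : ∀ l ∈ LamO (n + 1) M, PeO (n + 2) c l := fun l hl => by
      simpa [PeO] using conv_lam (c := c) (F := 1) (F₀ := 0) (z₀ := 0) zero_le_one (fun l hl => by
        refine dv_two.1 (of_eq (dv_smul (hL l hl) 1) ?_)
        simp only [pow_zero, one_mul, Pi.one_apply, smul_zero, sub_zero, sum_smul]) hl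
    have hN : ∀ g, ∀ l, MxO l → PeO (n + 2) c (l * fun z =>
        xv 𝒮.toGrid (bt true) z (x z true) g) := fun g l hl => by
      refine alg1 (fun m hm => gen (x := fun z => x z true) (𝒮.bsr true)
        (𝒮.hσ.ty 𝒮.bs.toCy _) (fun z h => ((hx z h).1 true).1) (bt true) m (by omega)) hc g1
        ?_ ⟨g, rfl⟩ hl
      rintro l hl _ ⟨τ, hτ, rfl⟩
      obtain ⟨θ, hθ⟩ := exists_div fun z hz => (hx z (hc z hz)).2 true τ
      refine (conv_mx (F := θ) (exo_le τ) (fun l hl => ?_) hl).congr fun z hz =>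
        of_eq (add_comm 1 (n + 1) ▸ (hl.2 z).mul (hθ z hz).2) (mul_sub ..).symm
      rw [sum_div fun z hz => (hθ z hz).1]
      simpa using dv_two.1 (dd_sum (a := 0) (δ := 0) fun i => by
        simpa only [Pe, mul_assoc, zero_mul, sub_zero] using hT l hl _ (mem_A hτ true i))
    obtain ⟨v, hη, hs⟩ := hom (R := bt true) (x := y) 𝒮.pt (𝒮.bsr true).toCy
      (fun z hz => (hy z (hc z hz)).1.zn) g1 fun l hl g => (hN g l hl).congr fun z hz =>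
        of_eq (add_comm 1 (n + 1) ▸ (hl.2 z).mul ((hy z (hc z hz)).2.1 g)) (by
          simp only [Pi.mul_apply, xv]; ring)
    exact sumf 𝒮 ⟨hk, ⟨𝒮.bsr true, 𝒮.bsr false⟩, ⟨α, hα, hr⟩, fun z hz => ⟨(hy z (hc z hz)).1,
      ⟨x z false, ((hx z (hc z hz)).1 false).1, hψ z (hc z hz)⟩, fun p hp =>
        (hy z (hc z hz)).2.2 p (𝒮.mem_loc hp z)⟩, ⟨hη, p2⟩, fun g => dv_lf.2 ⟨v g, hs g, rfl⟩⟩

end Pool.Agent.P.MP_8b7eba_nt.QT
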