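import Pool.Agent.P.MP_8b7eba_nt.QT.BasT
import Pool.Agent.P.MP_8b7eba_nt.SM.All

/-! The arithmetic of grids in boxes. -/

namespace Pool.Agent.P.MP_8b7eba_nt.QT

open Finset R2 SM

variable [HA]

theorem stp0 {k M : ℕ} (𝒯 : Geo k) {p : Fin 𝒯.B.r → ℕ} (hp : p ∈ 𝒯.B.pts)
    {q : Option (Fin k) → Fin (M + 1) → ℕ} (hq : q ∈ grids M 𝒯.X)
    (hi : ∀ i, Function.Injective (q i)) (hV : ∀ π, 𝒯.V p (gp q π)) :
    GrA q (𝒯.P p) ∧ Uok (low q) (Qs (𝒯.P p) (low q)) ∧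
      ∀ j, Wok (low q) (Qs (𝒯.P p) (low q)) (q none j) := by
  have hX : ∀ o j, q o j ∈ 𝒯.B.X (𝒯.e (some o)) := fun o j =>
    Fintype.mem_piFinset.1 (Fintype.mem_piFinset.1 hq o) j
  have hg : ∀ o j, Gp (q o j) := fun o j => ((𝒯.B.rich _).gp _ (hX o j)).1
  have hP : ∀ o j, q o j ∉ 𝒯.P p := fun o j h => (Geo.mem_P hp h).2 _ (hX o j)
  have hne : ∀ {o o'}, o ≠ o' → 𝒯.e (some o) ≠ 𝒯.e (some o') := fun h e =>
    h (Option.some_injective _ (𝒯.e.injective e))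
  have hn : ∀ o, 𝒯.e (some o) ≠ 𝒯.e none := fun o => 𝒯.e.injective.ne (Option.some_ne_none o)
  have hd : ∀ o j o' j', o ≠ o' → q o j ≠ q o' j' := fun o j o' j' h e =>
    disjoint_left.1 (𝒯.B.dj _ _ (hne h)) (hX o j) (e ▸ hX o' j')
  have h30 := fun o j => key30 (hg o j) (hg o 0) fun a ha =>
    𝒯.B.key _ _ (hX o j) _ (hX o 0) a (ha.mul_right _)
  have v1 : ∀ o j i, i ∉ Set.range 𝒯.e → js (ps (q o j)) (p i) = 𝒯.a i (𝒯.e (some o)) := by
    intro o j i h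
    have := hV (fun _ => j) i _ (fun e => h ⟨_, e.symm⟩) (hn o)
    rwa [Leg, if_neg fun e => h ⟨_, e.symm⟩, (asm_e _ _ _ _).2.1, (asm_e _ _ _ _).2.2 i h] at this
  have v2 : ∀ o j o' j', o ≠ o' →
      js (ps (q o j)) (q o' j') = 𝒯.a (𝒯.e (some o')) (𝒯.e (some o)) := by
    intro o j o' j' h
    have := hV (Function.update (fun _ => j) o' j') _ _ (hn o') (hn o)
    rwa [Leg, if_neg (hne h.symm), (asm_e _ _ _ _).2.1, (asm_e _ _ _ _).2.1, gp, gp,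
      Function.update_self, Function.update_of_ne h] at this
  have ar : GrA q (𝒯.P p) := by
    refine ⟨fun o j => ⟨hg o j, hP o j⟩, fun x hx => (Geo.mem_P hp hx).1, fun o j o' j' e => ?_,
      fun o j x hx g hgx => ?_, fun o j o' j' h g hgx => ?_, fun o j => (h30 o j).2⟩
    · obtain rfl : o = o' := by_contra fun h => hd o j o' j' h e
      exact ⟨rfl, hi o e⟩
    · rcases mem_union.1 hx with hx | hx
      · have hx' := (Geo.mem_P hp hx).1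
        refine keyp hx' (hg o j) (hg o 0) (fun e => hP o j (e ▸ hx)) (fun e => hP o 0 (e ▸ hx)) ?_
          hgx
        rcases mem_union.1 hx with h | h
        · rw [js_rec hx'.ne.2.2.2.2.1 (hg o j).ne.2.2.2.2.1,
            js_rec hx'.ne.2.2.2.2.1 (hg o 0).ne.2.2.2.2.1]
          exact Box.js_eq (hX o j) (hX o 0) (.inr ⟨x, h⟩)
        · obtain ⟨i, h', rfl⟩ := mem_image.1 h
          rw [v1 o j i (mem_filter.1 h').2, v1 o 0 i (mem_filter.1 h').2]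
      · exact (h30 o j).1 x hx g hgx
    · exact keyp (hg o' j') (hg o j) (hg o 0) (hd _ _ _ _ h.symm) (hd _ _ _ _ h.symm)
        (by rw [v2 o j o' j' h, v2 o 0 o' j' h]) hgx
  refine ⟨ar, ⟨fun i j => ⟨hg _ j, mem_union_right _ (mem_image.2 ⟨(i, j), mem_univ _, rfl⟩)⟩,
    mem_union_left _ (mem_union_right _ (by decide)), fun x hx => ?_⟩,
    fun j => ⟨hg _ j, fun hx => ?_, fun i j' => ar.aq (some i) j' none j (Option.some_ne_none i)⟩⟩
  · rcases mem_union.1 hx with hx | hx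
    · rcases mem_union.1 hx with hx | hx
      · exact (ar.gP x hx).1
      · exact (mem_T30.1 hx).1
    · obtain ⟨a, -, rfl⟩ := mem_image.1 hx
      exact (hg _ _).1
  · rcases mem_union.1 hx with hx | hx
    · rcases mem_union.1 hx with hx | hx
      · exact hP _ _ hx
      · exact (hg _ _).ne.2.2.2.1 hx
    · obtain ⟨a, -, e⟩ := mem_image.1 hx
      exact hd _ _ _ _ (Option.some_ne_none a.1) e

theorem stp2 (k M : ℕ) : ∃ c : ℕ, ∀ (𝒯 : Geo k) (T y₁ : ℕ), ∀ p ∈ 𝒯.B.pts,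
    ∀ θ : (Fin k → Fin (M + 1) → ℕ) → ℕ → Mu k M → GQ → F2, 2 ≤ T → 1 ≤ y₁ →
    (∀ i, 𝒯.B.t (𝒯.e (some (some i))) ≤ y₁) →
    (T * (𝒯.B.E + 2) * y₁) ^ c ≤ 𝒯.B.t (𝒯.e (some none)) →
    (T * (𝒯.B.E + 2) * y₁) ^ c ≤ 𝒯.B.t (𝒯.e none) →
    OscG 𝒯.X 𝒯.Y (fun u y => js (ps u) y) (fun u w μ y => θ u w μ (fr y))
      (fun o => 𝒯.a (𝒯.e none) (𝒯.e (some o))) (𝒯.Ok p θ) (T : ℝ)⁻¹ := by
  classical
  obtain ⟨c, hc⟩ := a_OG k M
  refine ⟨c, fun 𝒯 T y₁ p hp θ hT hy hl ha hb q hq ok j j₀ hj e he b hb1 hb2 => ?_⟩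
  have hq' : ∀ o i, q o i ∈ 𝒯.X o := fun o i =>
    Fintype.mem_piFinset.1 (Fintype.mem_piFinset.1 hq o) i
  obtain ⟨g1, -, g3⟩ := stp0 𝒯 hp hq ok.inj ok.v
  refine hc (low q) (Qs (𝒯.P p) (low q)) (𝒯.X none) _ 𝒯.Y _ _ (𝒯.B.E + 2) T y₁ (q none j₀)
    (fun w => θ (low q) w + θ (low q) (q none j₀)) e b (fun i j' => ⟨(g1.gp _ _).1, ?_⟩)
    (fun i a i' a' h => ?_) ((𝒯.B.rich _).mono (Nat.le_add_right _ _))
    ((𝒯.B.rich _).mono (Nat.le_add_right _ _))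
    (𝒯.B.dj _ _ (𝒯.e.injective.ne (Option.some_ne_none _))) (filter_subset _ _) hT
    (Nat.le_add_left _ _) hy ha hb (g1.gp _ _).1 (fun w hw => ?_) he hb1
    fun y _ h i j' => (hb2 y h i j').trans (hb2 y h i 0).symm
  · exact ((𝒯.B.rich _).gp _ (hq' (some i) j')).2.2.trans (Nat.mul_le_mul_left _ (hl i))
  · exact ⟨Option.some_injective _ (g1.inj _ _ _ _ h).1, (g1.inj _ _ _ _ h).2⟩
  · obtain ⟨hw, ok'⟩ := mem_filter.1 hw
    have e1 : low (Function.update q none (Function.update (q none) j w)) = low q := by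
      funext i
      exact Function.update_of_ne (Option.some_ne_none i) _ _
    have e2 : Function.update q none (Function.update (q none) j w) none j = w := by simp
    have e3 : Function.update q none (Function.update (q none) j w) none j₀ = q none j₀ := by
      simp [hj.symm]
    have m : Function.update q none (Function.update (q none) j w) ∈ grids M 𝒯.X := by
      refine Fintype.mem_piFinset.2 fun o => Fintype.mem_piFinset.2 fun i => ?_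
      rcases o with _ | o
      · rw [Function.update_self]
        by_cases h : i = j
        · rw [h, Function.update_self]; exact hw
        · rw [Function.update_of_ne h]; exact hq' _ _
      · rw [Function.update_of_ne (Option.some_ne_none o)]; exact hq' _ _
    have h1 := (stp0 𝒯 hp m ok'.inj ok'.v).2.2 j
    have h2 := ok'.gov j j₀
    rw [e1, e2] at h1
    rw [e1, e2, e3] at h2
    exact ⟨fun h => hj (ok'.inj none (e2.trans (h.trans e3.symm))), h1, h2⟩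

open Classical in
theorem stp4 {k : ℕ} (M : ℕ) (𝒯 : Geo k) {p : Fin 𝒯.B.r → ℕ} (hp : p ∈ 𝒯.B.pts) :
    ∃ θ : (Fin k → Fin (M + 1) → ℕ) → ℕ → Mu k M → GQ → F2, (∀ u w, θ u w 0 = qs w) ∧
      ∀ U ⊆ Fintype.piFinset 𝒯.X, (∀ z ∈ U, 𝒯.V p z) → ∀ δ x : ℝ, 0 ≤ δ →
        δ * ∏ i, ((𝒯.X i).card : ℝ) ≤ U.card → 0 < x → (∀ i, x ≤ (𝒯.X i).card) →
        (δ ^ (M + 1) ^ (k + 1) /
          (2 ^ ((M + 1) ^ k * (3 * (𝒯.B.r + 𝒯.B.S.card + 3 + k * (M + 1)) + 1))) ^ M -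
          (k + 1) * (M + 1) ^ 2 / x) * (∏ i, ((𝒯.X i).card : ℝ)) ^ (M + 1) ≤
          ((grids M 𝒯.X).filter fun q => 𝒯.Ok p θ q ∧ ∀ π, gp q π ∈ U).card := by
  have hc : ∀ u : Fin k → Fin (M + 1) → ℕ,
      (Qs (𝒯.P p) u).card ≤ 𝒯.B.r + 𝒯.B.S.card + 3 + k * (M + 1) := fun u =>
    (TSTP4.card_Qs _ u).trans
      (Nat.add_le_add_right (Nat.add_le_add_right (𝒯.card_P p) _) _)
  choose cls θ h0 hg using fun u => a_GOVX k M _ u _ (hc u)
  refine ⟨θ, h0, fun U hU hV δ x hδ hd hx hX => ?_⟩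
  have h := a_SUP k M _ 𝒯.X U cls δ x hδ hU hd hx hX
  rw [Nat.cast_pow, Nat.cast_ofNat] at h
  refine h.trans ?_
  refine Nat.cast_le.2 (card_le_card fun q hq => ?_)
  rw [mem_filter] at hq ⊢
  obtain ⟨hq, h1, h2, h3⟩ := hq
  obtain ⟨-, a2, a3⟩ := stp0 𝒯 hp hq h1 fun π => hV _ (h2 π)
  exact ⟨hq, ⟨h1, fun π => hV _ (h2 π), fun j j' =>
    hg (low q) a2 _ _ (a3 j) (a3 j') ((h3 j).trans (h3 j').symm)⟩, h2⟩

end Pool.Agent.P.MP_8b7eba_nt.QT
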