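import Pool.Agent.P.MP_8b7eba_nt.QT.TGRD
import Pool.Agent.P.MP_8b7eba_nt.QT.TSTP0

/-! The local inequality and the quartic classes. -/

namespace Pool.Agent.P.MP_8b7eba_nt.QT

open Finset R2 SM

variable [HA]

theorem Stq.phi {k s : ℕ} {𝒯 : Stq k s} {p : Fin 𝒯.B.r → ℕ} (hp : p ∈ 𝒯.B.pts) (y : ℕ)
    (β : Bool) {o : Option (Option (Fin k))} {u : ℕ} (hu : u ∈ 𝒯.B.X (𝒯.e o)) :
    𝒯.Φ p y β (tp u) = qs y (tp u) * 𝒯.R β (𝒯.e none) := by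
  rw [Stq.Φ, 𝒯.φ0 β _ u hu, zero_add, sum_eq_zero, zero_add]
  intro i hi
  have h := Geo.mem_P (𝒯 := 𝒯.toGeo) hp (q := p i) (mem_union_right _ (mem_image_of_mem p hi))
  rw [qs_tp ((𝒯.B.rich _).gp u hu).1 h.1, if_neg fun e : u = p i => h.2 o (e ▸ hu), zero_mul]

theorem t_STP1Q : STP1Q := by
  intro k s ε hk hε
  obtain ⟨M₀, hM⟩ := grid k s hk hε
  refine ⟨M₀, fun M hMM 𝒯 par p hp θ q hq ok q4 => ?_⟩
  have hX : ∀ i j, q i j ∈ 𝒯.X i := fun i j =>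
    Fintype.mem_piFinset.1 (Fintype.mem_piFinset.1 hq i) j
  let 𝒢 : Grid k M := ⟨q, 𝒯.P p, fun j => θ (low q) (q none j) + θ (low q) (q none 0),
    (stp0 𝒯.toGeo hp hq ok.inj ok.v).1, fun j => ok.gov j 0,
    funext fun μ => funext fun g => CharTwo.add_self_eq_zero _⟩
  obtain ⟨B, hB, hG⟩ := hM M hMM 𝒢 𝒯.r 𝒯.t
  refine ⟨B, by simpa using hB, fun y hy G hGB ht => ?_⟩
  unfold tyf at ht
  split_ifs at ht with h
  obtain ⟨cp, hv⟩ := h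
  have hGy : 𝒢.G y = G := Option.some.inj ht
  have leg : ∀ π, Leg (asm 𝒯.e p (gp q π) y) = 𝒯.a := fun π =>
    Geo.leg_of hp (fun o => hX o _) hy (cp π)
  have mem : ∀ π, asm 𝒯.e p (gp q π) y ∈ 𝒯.B.pts := fun π => Geo.asm_mem hp (fun o => hX o _) hy
  have eS : ∀ π, 𝒯.B.set (asm 𝒯.e p (gp q π) y) = 𝒢.S y π := fun π => Geo.set_asm
  have eP : ∀ β π, pat1 (𝒯.φ β) (𝒯.R β) (asm 𝒯.e p (gp q π) y) =
      ph 𝒢 (𝒯.Φ p y β) (bt β) π := fun β π => funext fun g => Stq.pat_asm β g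
  have gy : Gp y := ((𝒯.B.rich _).gp y hy).1
  have gq : ∀ i j, Gp (q i j) := fun i j => ((𝒯.B.rich _).gp _ (hX i j)).1
  have nq : ∀ i j, q i j ≠ y := fun i j e => disjoint_left.1
    (𝒯.B.dj _ _ (𝒯.e.injective.ne (Option.some_ne_none i))) (hX i j) (e ▸ hy)
  have sy : ∀ i j, js (ps (q i j)) y = 𝒯.a (𝒯.e none) (𝒯.e (some i)) := fun i j =>
    (cp fun _ => j).2.2 i
  have pt : 𝒢.Pt y := ⟨gy, fun h => (Geo.mem_P hp h).2 none hy, nq, fun i j g hg =>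
    keyp gy (gq i j) (gq i 0) (nq i j).symm (nq i 0).symm ((sy i j).trans (sy i 0).symm) hg, hv⟩
  obtain ⟨-, C, hC, hC'⟩ := 𝒯.sel _ (mem 0) (leg 0)
  have key := hG 𝒯.Δ y (𝒯.Φ p y) C pt (𝒯.y3 y hy) q4 par 𝒯.bs
    (𝒯.hΔ.trans subset_union_left)
    (fun β z => by rw [← eS, ← eP]; exact (𝒯.sel _ (mem z) (leg z)).1 β)
    (fun β i j => by
      rw [Stq.phi hp y β (hX i j), qs_tp (gq i j) gy, if_neg (nq i j), zero_mul])
    (by rw [Stq.phi hp y false hy, qs_tp gy gy, if_pos rfl, one_mul]; exact 𝒯.rb)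
    hC (fun e χ h => hC' e χ (eS 0 ▸ h)) (hGy ▸ hGB)
  have eW : ∀ n π, 𝒯.W n (asm 𝒯.e p (gp q π) y) ↔ ∀ β, WK β (tw (ty (𝒯.t β) 𝒯.r) (𝒢.S y π))
      (𝒢.S y π) n (ph 𝒢 (𝒯.Φ p y β) (bt β) π) := fun n π => by
    rw [Stq.W, eS, and_iff_right (leg π)]
    exact forall_congr' fun β => by rw [eP]
  rw [Fintype.card_option, Fintype.card_fin]
  refine le_of_eq_of_le (congrArg _ (congrArg _ (ext fun π => ?_))) (key.trans_eq
    (congrArg (fun t : Finset (Gz k M) => (t.card : ℝ) / 2 + ε * (M + 1) ^ (k + 1))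
      (ext fun π => ?_))) <;>
    simp only [mem_filter, eW]

theorem cls (P : Finset ℕ) (hP : ∀ p ∈ P, Gp p) :
    ∃ cl : ℕ → Option (↥(P ∪ T30) × Fin 3) → Fin 4, ∀ {k M : ℕ}
      (q : Option (Fin k) → Fin (M + 1) → ℕ), GrA q P → (∀ i j, cl (q i j) = cl (q i 0)) →
      Q4 q P := by
  classical
  choose s h1 hs using fun p : ↥(P ∪ T30) => exists_test (p := p.1)
    ((mem_union.1 p.2).elim (fun h => (hP _ h).1) fun h => (mem_T30.1 h).1)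
  refine ⟨fun u o => ke (r4 (ps u)) (o.elim tau fun x => s x.1 x.2), fun q ar h => ?_⟩
  have gq := fun i j => (ar.gp i j).1
  have e : ∀ i j (o : Option (↥(P ∪ T30) × Fin 3)),
      kr q i j (o.elim tau fun x => s x.1 x.2) = 1 := fun i j o =>
    kr_of (gq i 0) (congrArg (fun a : Fin 4 => ii ^ (a : ℕ)) (congrFun (h i j) o))
  refine ⟨fun i j p hp g hg => ?_, fun i j => e i j none⟩
  have c := (cr_kr (gq i) j).ch (H := (pl p).D) fun g hg => by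
    rw [kr_sq (gq i), ar.aP i j p hp g hg]
    simp [sg]
  have := hs ⟨p, hp⟩ _ c (fun l => if_pos (e i j (some (⟨p, hp⟩, l)))) g hg
  by_contra n
  rw [if_neg n] at this
  exact one_ne_zero this

end Pool.Agent.P.MP_8b7eba_nt.QT
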