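import Pool.Agent.P.MP_8b7eba_nt.QT.TSTP1

/-! The halving inequality in a box. -/

namespace Pool.Agent.P.MP_8b7eba_nt.QT

open Finset R2 SM

variable [HA]

open Classical in
theorem stp3c (k s : ℕ) {ε : ℝ} (hk : 2 ≤ k) (hε : 0 < ε) : ∃ A : ℕ, ∀ (𝒯 : Stq k s)
    (T y₀ y₁ : ℕ), Par k (𝒯.t true) (𝒯.t false) → 𝒯.Num A T y₀ y₁ → ∀ p ∈ 𝒯.B.pts,
    ∀ C : (Option (Fin k) → ℕ) → Prop, (∀ {M : ℕ} (q : Option (Fin k) → Fin (M + 1) → ℕ),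
      GrA q (𝒯.P p) → (∀ π, C (gp q π)) → Q4 q (𝒯.P p)) →
      (((Fintype.piFinset 𝒯.X ×ˢ 𝒯.Y).filter fun z =>
        𝒯.W (k + 1) (asm 𝒯.e p z.1 z.2) ∧ C z.1).card : ℝ) ≤
        ((Fintype.piFinset 𝒯.X ×ˢ 𝒯.Y).filter fun z =>
          𝒯.W k (asm 𝒯.e p z.1 z.2) ∧ C z.1).card / 2 +
        ε * ((Fintype.piFinset 𝒯.X ×ˢ 𝒯.Y).filter fun z =>
          Leg (asm 𝒯.e p z.1 z.2) = 𝒯.a ∧ C z.1).card +
        (T : ℝ)⁻¹ * (∏ i, ((𝒯.X i).card : ℝ)) * 𝒯.Y.card := by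
  have hε' : 0 < min (ε / 2) 1 := lt_min (half_pos hε) one_pos
  obtain ⟨M₀, h1⟩ := t_STP1Q k s _ hk hε'
  obtain ⟨M, hM0, hM1⟩ : ∃ M, M₀ ≤ M ∧ 1 ≤ M := ⟨max M₀ 1, le_max_left _ _, le_max_right _ _⟩
  obtain ⟨c1, hc1⟩ := a_OZ
  obtain ⟨c2, hc2⟩ := stp2 k M
  obtain ⟨c, h1c, h2c⟩ : ∃ c, c1 ≤ c ∧ c2 ≤ c := ⟨max c1 c2, le_max_left _ _, le_max_right _ _⟩
  obtain ⟨A, hA⟩ := a_NUM k M c hM1
  refine ⟨A, fun 𝒯 T y₀ y₁ par hN p hp C hC => ?_⟩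
  obtain ⟨hcA, T', hT', hTc, hx1, hx2, hfin⟩ :=
    hA T 𝒯.B.E (𝒯.B.r + 𝒯.B.S.card) y₀ _ _ _ hN.two hN.big rfl rfl rfl
  obtain ⟨θ, hθ0, h4⟩ := stp4 M 𝒯.toGeo hp
  set δ : ℝ := (2 * T : ℝ)⁻¹ with hδ
  set η : ℝ := δ ^ (M + 1) ^ (k + 1) /
    (2 ^ ((M + 1) ^ k * (3 * (𝒯.B.r + 𝒯.B.S.card + 3 + k * (M + 1)) + 1))) ^ M / 2 with hη
  set κ : ℝ := (2 ^ (k * M + M * (M + 1) ^ k))⁻¹ with hκ
  set x : ℝ := (y₀ : ℝ) / (𝒯.B.E + 2) with hx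
  set n : ℝ := ∏ i, ((𝒯.X i).card : ℝ) with hn
  have hT0 : (0 : ℝ) < T := by exact_mod_cast lt_of_lt_of_le two_pos hN.two
  have hδ0 : 0 < δ := by positivity
  have hη0 : 0 < η := by positivity
  have hκ0 : 0 < κ := by positivity
  have hE0 : (0 : ℝ) < 𝒯.B.E + 2 := by positivity
  have hy0 : 𝒯.B.E + 2 ≤ y₀ := by
    refine le_trans ?_ hN.big
    refine le_trans ?_ (Nat.le_self_pow (by omega) _)
    calc 𝒯.B.E + 2 = 1 * (𝒯.B.E + 2) * 1 := by ring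
      _ ≤ _ := Nat.mul_le_mul (Nat.mul_le_mul (one_le_two.trans hN.two) le_rfl) Nat.one_le_two_pow
  have hy1 : 1 ≤ y₁ := le_trans (by omega) (hy0.trans hN.le)
  have hx1' : 1 ≤ x := by
    rw [hx, one_le_div hE0]
    exact_mod_cast hy0
  have hxc : ∀ i, x ≤ (𝒯.X i).card := by
    intro i
    rw [hx, div_le_iff₀ hE0]
    have h := (hN.t0 (𝒯.e (some i))).trans
      ((𝒯.B.rich (𝒯.e (some i))).mono (Nat.le_add_right _ 2)).card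
    rw [mul_comm] at h
    exact_mod_cast h
  have hxn : x ≤ n := by
    rw [hn, ← mul_prod_erase univ _ (mem_univ none)]
    refine (hxc none).trans (le_mul_of_one_le_right (Nat.cast_nonneg _) ?_)
    exact prod_induction _ (1 ≤ ·) (fun a b ha hb => one_le_mul_of_one_le_of_one_le ha hb) le_rfl
      fun i _ => hx1'.trans (hxc i)
  have hn1 : 1 ≤ n := hx1'.trans hxn
  have hTE : 1 ≤ T' * (𝒯.B.E + 2) := Nat.mul_pos (by omega) (by omega)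
  have hbig : ∀ i, (T' * (𝒯.B.E + 2)) ^ c1 ≤ 𝒯.B.t i := fun i =>
    (Nat.pow_le_pow_right hTE h1c).trans (hTc.trans (hN.t0 i))
  have hbig2 : (T' * (𝒯.B.E + 2) * y₁) ^ c2 ≤ y₁ ^ A := by
    calc (T' * (𝒯.B.E + 2) * y₁) ^ c2 ≤ (T' * (𝒯.B.E + 2) * y₁) ^ c :=
          Nat.pow_le_pow_right (Nat.mul_pos hTE hy1) h2c
      _ = (T' * (𝒯.B.E + 2)) ^ c * y₁ ^ c := mul_pow _ _ _
      _ ≤ y₁ * y₁ ^ c := Nat.mul_le_mul_right _ (hTc.trans hN.le)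
      _ = y₁ ^ (c + 1) := by ring
      _ ≤ y₁ ^ A := Nat.pow_le_pow_right hy1 hcA
  have hdj : ∀ o, Disjoint (𝒯.X o) 𝒯.Y := fun o =>
    𝒯.B.dj _ _ (𝒯.e.injective.ne (Option.some_ne_none o))
  let cp : (Option (Fin k) → ℕ) → ℕ → Prop := cpf (fun z => 𝒯.V p z ∧ C z)
    (fun y => ∀ j, j ∉ Set.range 𝒯.e → js (ps (p j)) y = 𝒯.a (𝒯.e none) j)
    (fun u y => js (ps u) y) fun o => 𝒯.a (𝒯.e none) (𝒯.e (some o))
  have cpi : ∀ z y, cp z y ↔ 𝒯.cp p z y ∧ C z := fun z y =>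
    ⟨fun h => ⟨⟨h.1.1, h.2⟩, h.1.2⟩, fun h => ⟨⟨h.1.1, h.2⟩, h.1.2⟩⟩
  have og := hc2 𝒯.toGeo T' y₁ p hp θ hT' hy1 hN.low (hbig2.trans hN.ha) (hbig2.trans hN.hb)
  have hosc := a_OSCA k M 𝒯.X 𝒯.Y (fun u y => js (ps u) y) (fun u w μ y => θ u w μ (fr y))
    (fun o => 𝒯.a (𝒯.e none) (𝒯.e (some o))) (fun z => 𝒯.V p z ∧ C z)
    (fun y => ∀ j, j ∉ Set.range 𝒯.e → js (ps (p j)) y = 𝒯.a (𝒯.e none) j)
    (fun q => 𝒯.Ok p θ q ∧ ∀ π, C (gp q π)) (T' : ℝ)⁻¹ (by omega) (by positivity)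
    (fun u w hw y hy => by
      rw [hθ0]
      exact qs_fr ((𝒯.B.rich _).gp y hy).1 ((𝒯.B.rich _).gp w hw).1
        fun h => disjoint_left.1 (hdj none) hw (h ▸ hy))
    (fun q hq π => ⟨hq.1.v π, hq.2 π⟩)
    (fun i => hc1 _ _ _ _ (𝒯.B.E + 2) T' ((𝒯.B.rich _).mono (Nat.le_add_right _ 2))
      ((𝒯.B.rich _).mono (Nat.le_add_right _ 2)) (hdj (some i)) hT' (by omega) (hbig _) (hbig _))
    (fun q hq ok j j₀ hj e he b hb hb' => le_trans (sum_le_sum_of_subset_of_nonneg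
      (fun w hw => by
        simp only [mem_filter] at hw ⊢
        exact ⟨hw.1, hw.2.1⟩)
      fun _ _ _ => abs_nonneg _) (og q hq ok.1 j j₀ hj e he b hb hb'))
  have key := a_AVG (Option (Fin k)) (Gf k M → F2) M 𝒯.X 𝒯.Y (fun z => 𝒯.V p z ∧ C z) cp
    (fun z y => 𝒯.W k (asm 𝒯.e p z y) ∧ C z) (fun z y => 𝒯.W (k + 1) (asm 𝒯.e p z y) ∧ C z)
    (fun q => 𝒯.Ok p θ q ∧ ∀ π, C (gp q π))
    (tyf cp fun u w μ y => θ u w μ (fr y)) n κ (2 * (T' : ℝ)⁻¹) (min (ε / 2) 1) δ η hn hκ0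
    (by positivity) hε'.le (min_le_right _ _) hδ0.le hη0
    (hx2.trans (mul_le_mul_of_nonneg_left (hxn.trans (le_self_pow₀ hn1 (by omega))) hη0.le))
    (fun z y h => h.1) (fun z y h => (cpi z y).2 ⟨Geo.cp_of h.1.1, h.2⟩)
    (fun z y h => (cpi z y).2 ⟨Geo.cp_of h.1.1, h.2⟩)
    (fun q hq => ⟨hq.1.inj, fun y _ h => by
      unfold tyf at h
      split_ifs at h with h'
      · exact h'.1
      · exact absurd rfl h⟩)
    (fun U hU hV hc => by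
      have h := h4 U hU (fun z hz => (hV z hz).1) δ x hδ0.le hc (one_pos.trans_le hx1') hxc
      have h2 : η * n ^ (M + 1) < (η * 2 - (k + 1) * (M + 1) ^ 2 / x) * n ^ (M + 1) :=
        mul_lt_mul_of_pos_right (by linarith only [hx1]) (pow_pos (one_pos.trans_le hn1) _)
      rw [hη, div_mul_cancel₀ _ (two_ne_zero)] at h2
      refine (h2.trans_le h).trans_le (Nat.cast_le.2 (card_le_card fun q hq => ?_))
      simp only [mem_filter] at hq ⊢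
      exact ⟨hq.1, ⟨hq.2.1, fun π => (hV _ (hq.2.2 π)).2⟩, hq.2.2⟩)
    (fun z π G b hb => by
      convert hosc z π G b hb using 1
      refine sum_congr (by congr) fun q _ => ?_
      congr 1
      refine sum_congr rfl fun y _ => ?_
      congr)
    (fun q hq hok => by
      obtain ⟨B, hB, hB'⟩ := h1 M hM0 𝒯 par p hp θ q hq hok.1
        (hC q (stp0 𝒯.toGeo hp hq hok.1.inj hok.1.v).1 hok.2)
      refine ⟨B, by convert hB, fun y hy G hG ht => ?_⟩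
      have e : tyf (𝒯.cp p) (fun u w μ y => θ u w μ (fr y)) q y = some G := by
        rw [← ht]
        unfold tyf
        simp only [cpi, hok.2, and_true]
      simpa only [hok.2, and_true] using hB' y hy G hG e)
  have hcp : ((Fintype.piFinset 𝒯.X ×ˢ 𝒯.Y).filter fun z => cp z.1 z.2).card ≤
      ((Fintype.piFinset 𝒯.X ×ˢ 𝒯.Y).filter fun z =>
        Leg (asm 𝒯.e p z.1 z.2) = 𝒯.a ∧ C z.1).card := by
    refine card_le_card fun z hz => ?_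
    obtain ⟨hz1, hz2⟩ := mem_filter.1 hz
    obtain ⟨hz3, hz4⟩ := mem_product.1 hz1
    exact mem_filter.2 ⟨hz1, Geo.leg_of hp (Fintype.mem_piFinset.1 hz3) hz4 ((cpi _ _).1 hz2).1,
      ((cpi _ _).1 hz2).2⟩
  have hcp' : 2 * min (ε / 2) 1 *
      (((Fintype.piFinset 𝒯.X ×ˢ 𝒯.Y).filter fun z => cp z.1 z.2).card : ℝ) ≤
      ε * ((Fintype.piFinset 𝒯.X ×ˢ 𝒯.Y).filter fun z =>
        Leg (asm 𝒯.e p z.1 z.2) = 𝒯.a ∧ C z.1).card :=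
    mul_le_mul (by linarith only [min_le_left (ε / 2) 1]) (by exact_mod_cast hcp) (Nat.cast_nonneg _)
      hε.le
  have hl : (δ + 8 * (M + 1) ^ Fintype.card (Option (Fin k)) * (2 * (T' : ℝ)⁻¹) / (κ * η)) * n *
      𝒯.Y.card ≤ (T : ℝ)⁻¹ * n * 𝒯.Y.card := by
    rw [Fintype.card_option, Fintype.card_fin]
    exact mul_le_mul_of_nonneg_right (mul_le_mul_of_nonneg_right hfin (zero_le_one.trans hn1))
      (Nat.cast_nonneg _)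
  refine le_trans ?_ (add_le_add (add_le_add le_rfl hcp') hl)
  convert key using 3 <;> congr

end Pool.Agent.P.MP_8b7eba_nt.QT
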